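import Pool.Agent.BB.P.SPA

open Set Metric Filter Topology MeasureTheory

namespace Pool.Agent.BB.P

variable {b : Base} {s : ℝ} {q : ℕ} {ℓ : ℂ → ℂ} {l₀ : ℂ}

private lemma HPOLY_mem {R d T : ℝ} (hs : s = 1 ∨ s = -1) {w₀ v : ℂ}
    (hd : R + |w₀.re| + d ≤ s * w₀.im)
    (hv : |v.re - w₀.re| + |v.im - w₀.im - s * T| < d + T) : v ∈ Qs s R := by
  show R + |v.re| < s * v.im
  have h1 : |v.re| ≤ |w₀.re| + |v.re - w₀.re| := by
    have := abs_add_le w₀.re (v.re - w₀.re)
    simpa using this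
  have h2 : s * w₀.im + T - |v.im - w₀.im - s * T| ≤ s * v.im := by
    rcases hs with rfl | rfl
    · have := neg_abs_le (v.im - w₀.im - 1 * T)
      linarith
    · have := le_abs_self (v.im - w₀.im - -1 * T)
      linarith
  linarith

private lemma HPOLY_ball {R d T : ℝ} (hs : s = 1 ∨ s = -1) {w₀ : ℂ}
    (hd : R + |w₀.re| + d ≤ s * w₀.im) :
    ball (w₀ + s * T * Complex.I) ((d + T) / 2) ⊆ Qs s R := by
  intro v hv
  rw [mem_ball, dist_eq_norm] at hv
  refine HPOLY_mem (T := T) hs hd ?_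
  have h1 := Complex.abs_re_le_norm (v - (w₀ + s * T * Complex.I))
  have h2 := Complex.abs_im_le_norm (v - (w₀ + s * T * Complex.I))
  simp only [Complex.sub_re, Complex.add_re, Complex.mul_re, Complex.ofReal_re, Complex.ofReal_im,
    Complex.I_re, Complex.I_im, Complex.mul_im, Complex.sub_im, Complex.add_im, mul_zero,
    zero_mul, sub_zero, add_zero, mul_one] at h1 h2
  have h3 : v.im - w₀.im - s * T = v.im - (w₀.im + s * T) := by ring
  rw [h3]
  linarith

private lemma HPOLY_mono {R d T : ℝ} (hs : s = 1 ∨ s = -1) {w₀ : ℂ} (hd0 : 0 < d)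
    (hd : R + |w₀.re| + d ≤ s * w₀.im) (hT : 0 ≤ T) {f : ℂ → ℂ}
    (hf : DifferentiableOn ℂ f (Qs s R)) (hm : MapsTo f (Qs s R) Hp) :
    (d / (d + T)) ^ 4 * (f (w₀ + s * T * Complex.I)).im ≤ (f w₀).im ∧
      (d / (d + T)) ^ 4 * (f w₀).im ≤ (f (w₀ + s * T * Complex.I)).im := by
  have hmem : ∀ t : ℝ, 0 ≤ t → w₀ + s * t * Complex.I ∈ Qs s R := fun t ht =>
    HPOLY_ball hs hd (mem_ball_self (by linarith))
  set h : ℝ → ℝ := fun t => (f (w₀ + s * t * Complex.I)).im with hh
  have hder : ∀ t : ℝ, 0 ≤ t → HasDerivAt h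
      ((deriv f (w₀ + s * t * Complex.I) * (s * Complex.I)).im) t := by
    intro t ht
    have h1 : HasDerivAt f (deriv f (w₀ + s * t * Complex.I)) (w₀ + s * t * Complex.I) :=
      (hf.differentiableAt ((isOpen_Qs s R).mem_nhds (hmem t ht))).hasDerivAt
    have h2 : HasDerivAt (fun t : ℝ => w₀ + s * (t : ℂ) * Complex.I) (s * Complex.I) t := by
      have h3 : HasDerivAt (fun t : ℝ => (t : ℂ)) 1 t := Complex.ofRealCLM.hasDerivAt
      have h4 := ((h3.const_mul (s : ℂ)).mul_const Complex.I).const_add w₀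
      rw [mul_one] at h4
      exact h4
    have h5 := HasDerivAt.comp t h1 h2
    exact (Complex.imCLM.hasFDerivAt.comp_hasDerivAt t h5)
  have hb : ∀ t : ℝ, 0 ≤ t → |(deriv f (w₀ + s * t * Complex.I) * (s * Complex.I)).im| ≤
      4 * h t / (d + t) := by
    intro t ht
    have h1 := hp_deriv (f := f) (a := w₀ + s * t * Complex.I) (r := (d + t) / 2) (by linarith)
      (hf.mono (HPOLY_ball hs hd)) (fun z hz => le_of_lt (hm (HPOLY_ball hs hd hz)))
    have h2 := Complex.abs_im_le_norm (deriv f (w₀ + s * t * Complex.I) * (s * Complex.I))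
    have h3 : ‖(s : ℂ) * Complex.I‖ = 1 := by
      rw [norm_mul, Complex.norm_I, mul_one, Complex.norm_real, Real.norm_eq_abs]
      rcases hs with rfl | rfl <;> simp
    rw [norm_mul, h3, mul_one] at h2
    refine h2.trans (h1.trans (le_of_eq ?_))
    simp only [hh]
    have : d + t ≠ 0 := by linarith
    field_simp
    ring
  have hpos : ∀ t : ℝ, 0 ≤ t → 0 < h t := fun t ht => hm (hmem t ht)
  have h0 : h 0 = (f w₀).im := by simp [hh]
  have hcont : ContinuousOn h (Ici 0) := fun t ht => (hder t ht).continuousAt.continuousWithinAt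
  have hg1 : MonotoneOn (fun t => h t * (d + t) ^ 4) (Ici 0) := by
    refine monotoneOn_of_deriv_nonneg (convex_Ici 0) (hcont.mul (by fun_prop)) ?_ ?_
    · intro t ht
      rw [interior_Ici] at ht
      exact ((hder t (le_of_lt ht)).differentiableAt.mul (by fun_prop)).differentiableWithinAt
    · intro t ht
      rw [interior_Ici] at ht
      have ht' : 0 < t := ht
      have h1 := hder t ht'.le
      have h2 : HasDerivAt (fun t : ℝ => (d + t) ^ 4) (4 * (d + t) ^ 3) t := by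
        have h3 : HasDerivAt (fun t : ℝ => d + t) 1 t := (hasDerivAt_id t).const_add d
        exact (h3.fun_pow 4).congr_deriv (by norm_num)
      rw [(h1.fun_mul h2).deriv]
      have h3 := abs_le.1 (hb t ht'.le)
      have h4 : 0 < d + t := by linarith
      have h5 : 4 * h t / (d + t) * (d + t) = 4 * h t := by field_simp
      have h6 : -(4 * h t) ≤ (deriv f (w₀ + s * t * Complex.I) * (s * Complex.I)).im * (d + t) := by
        nlinarith [h3.1]
      have h7 : 0 < (d + t) ^ 3 := by positivity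
      nlinarith
  have hg2 : AntitoneOn (fun t => h t * ((d + t) ^ 4)⁻¹) (Ici 0) := by
    refine antitoneOn_of_deriv_nonpos (convex_Ici 0) (hcont.mul ?_) ?_ ?_
    · refine ContinuousOn.inv₀ (by fun_prop) ?_
      intro t ht
      have ht' : 0 ≤ t := ht
      positivity
    · intro t ht
      rw [interior_Ici] at ht
      have ht' : 0 < t := ht
      have h4 : 0 < d + t := by linarith
      exact ((hder t (le_of_lt ht)).differentiableAt.mul
        (DifferentiableAt.inv (by fun_prop) (by positivity))).differentiableWithinAt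
    · intro t ht
      rw [interior_Ici] at ht
      have ht' : 0 < t := ht
      have h4 : 0 < d + t := by linarith
      have h1 := hder t ht'.le
      have h2 : HasDerivAt (fun t : ℝ => ((d + t) ^ 4)⁻¹) (-(4 * (d + t) ^ 3) / ((d + t) ^ 4) ^ 2)
          t := by
        have h3 : HasDerivAt (fun t : ℝ => d + t) 1 t := (hasDerivAt_id t).const_add d
        have h5 : HasDerivAt (fun t : ℝ => (d + t) ^ 4) (4 * (d + t) ^ 3) t :=
          (h3.fun_pow 4).congr_deriv (by norm_num)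
        exact h5.fun_inv (by positivity)
      rw [(h1.fun_mul h2).deriv]
      have h3 := abs_le.1 (hb t ht'.le)
      have h5 : 4 * h t / (d + t) * (d + t) = 4 * h t := by field_simp
      have h6 : (deriv f (w₀ + s * t * Complex.I) * (s * Complex.I)).im * (d + t) ≤ 4 * h t := by
        nlinarith [h3.2]
      have h7 : (deriv f (w₀ + s * t * Complex.I) * (s * Complex.I)).im * ((d + t) ^ 4)⁻¹ +
          h t * (-(4 * (d + t) ^ 3) / ((d + t) ^ 4) ^ 2) =
          ((deriv f (w₀ + s * t * Complex.I) * (s * Complex.I)).im * (d + t) - 4 * h t) *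
            ((d + t) ^ 5)⁻¹ := by
        field_simp
        ring
      rw [h7]
      exact mul_nonpos_of_nonpos_of_nonneg (by linarith) (by positivity)
  have hT' : (0:ℝ) ∈ Ici (0:ℝ) := self_mem_Ici
  have h1 := hg1 hT' (show T ∈ Ici (0:ℝ) from hT) hT
  have h2 := hg2 hT' (show T ∈ Ici (0:ℝ) from hT) hT
  simp only [add_zero] at h1 h2
  rw [h0] at h1 h2
  have h4 : 0 < d + T := by linarith
  have h5 : (f (w₀ + s * T * Complex.I)).im = h T := rfl
  rw [h5]
  constructor
  · rw [div_pow, div_mul_eq_mul_div, div_le_iff₀ (by positivity)]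
    have h6 : 0 < d ^ 4 := by positivity
    have h7 : 0 < (d + T) ^ 4 := by positivity
    rw [← div_eq_mul_inv, ← div_eq_mul_inv, div_le_div_iff₀ h7 h6] at h2
    linarith
  · rw [div_pow, div_mul_eq_mul_div, div_le_iff₀ (by positivity)]
    linarith

theorem Side.poly (S : Side b s q ℓ l₀) {w₀ : ℂ} (hw₀ : w₀ ∈ Qs s S.R) : ∃ c > 0, ∃ m : ℕ,
    ∀ j : ℕ, c / ((j : ℝ) + 1) ^ m ≤ (S.Ψ j w₀).im := by
  obtain ⟨d, hd0, hd⟩ : ∃ d > 0, S.R + |w₀.re| + d ≤ s * w₀.im := by
    have h1 : S.R + |w₀.re| < s * w₀.im := hw₀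
    exact ⟨s * w₀.im - (S.R + |w₀.re|), by linarith, by linarith⟩
  have hu : 0 < (S.Ψ 0 w₀).im := S.hm 0 hw₀
  refine ⟨3 / 13 * (d / (d + 4)) ^ 8 * (S.Ψ 0 w₀).im, by positivity, 8, fun j => ?_⟩
  set T : ℝ := 4 * ((j : ℝ) + 1) with hT
  have hj0 : (0:ℝ) ≤ j := Nat.cast_nonneg j
  have hT0 : 0 < T := by positivity
  set w : ℂ := w₀ + s * T * Complex.I with hw
  have hwre : w.re = w₀.re := by simp [hw]
  have hwim : w.im = w₀.im + s * T := by simp [hw]
  have hmemG : ∀ i : ℕ, i ≤ j → ∀ v : ℂ, ‖v - (w - i)‖ ≤ (i : ℝ) / 4 → v ∈ Qs s S.R := by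
    intro i hi v hv
    have hi' : (i : ℝ) ≤ j := by exact_mod_cast hi
    have hi0 : (0:ℝ) ≤ i := Nat.cast_nonneg i
    refine HPOLY_mem (T := T) S.hs hd ?_
    have h1 := (Complex.abs_re_le_norm (v - (w - i))).trans hv
    have h2 := (Complex.abs_im_le_norm (v - (w - i))).trans hv
    simp only [Complex.sub_re, Complex.sub_im, Complex.natCast_re, Complex.natCast_im, hwre, hwim,
      sub_zero] at h1 h2
    have h3 : |v.re - w₀.re| ≤ |v.re - (w₀.re - i)| + i := by
      have h4 : v.re - w₀.re = (v.re - (w₀.re - i)) + (-i) := by ring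
      rw [h4]
      refine (abs_add_le _ _).trans ?_
      rw [abs_neg, Nat.abs_cast]
    have h4 : v.im - w₀.im - s * T = v.im - (w₀.im + s * T) := by ring
    rw [h4, hT]
    rw [hT] at h2
    nlinarith
  have hiter : ∀ i : ℕ, i ≤ j → ‖S.G^[i] w - (w - i)‖ ≤ (i : ℝ) / 4 ∧
      S.Ψ j w = S.Ψ (j - i) (S.G^[i] w) := by
    intro i
    induction i with
    | zero => intro _; simp
    | succ i ih =>
      intro hi
      obtain ⟨h1, h2⟩ := ih (Nat.le_of_succ_le hi)
      have h3 := hmemG i (Nat.le_of_succ_le hi) _ h1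
      have h4 := S.hG1 _ h3
      rw [Function.iterate_succ_apply']
      have h5 : ‖S.G (S.G^[i] w) - (w - ((i + 1 : ℕ) : ℂ))‖ ≤ ((i + 1 : ℕ) : ℝ) / 4 := by
        have h6 : S.G (S.G^[i] w) - (w - ((i + 1 : ℕ) : ℂ)) =
            (S.G (S.G^[i] w) - (S.G^[i] w - 1)) + (S.G^[i] w - (w - i)) := by
          push_cast
          ring
        rw [h6]
        refine (norm_add_le _ _).trans ?_
        push_cast
        linarith
      refine ⟨h5, ?_⟩
      have h7 := hmemG (i + 1) hi _ h5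
      obtain ⟨k, hk⟩ := Nat.exists_eq_add_of_le hi
      have h8 : j - i = (j - (i + 1)) + 1 := by omega
      rw [h2, h8]
      exact S.hG2 _ _ h3 h7
  obtain ⟨h1, h2⟩ := hiter j le_rfl
  rw [Nat.sub_self] at h2
  have h3 := (HPOLY_mono S.hs hd0 hd hT0.le (S.hd j) (S.hm j)).1
  have h4 := (HPOLY_mono S.hs hd0 hd hT0.le (S.hd 0) (S.hm 0)).2
  rw [← hw] at h3 h4
  -- Harnack in the ball around w
  have hbs : ball w (T / 2) ⊆ Qs s S.R := by
    refine Subset.trans (ball_subset_ball ?_) (HPOLY_ball (T := T) S.hs hd)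
    linarith
  have hdist : ‖S.G^[j] w - w‖ ≤ 5 / 16 * T := by
    have h5 : S.G^[j] w - w = (S.G^[j] w - (w - j)) + (-(j : ℂ)) := by ring
    rw [h5]
    refine (norm_add_le _ _).trans ?_
    rw [norm_neg, Complex.norm_natCast, hT]
    linarith
  have h5 := (hp_harnack (f := S.Ψ 0) (a := w) (r := T / 2) (by positivity)
    ((S.hd 0).mono hbs) (fun z hz => le_of_lt (S.hm 0 (hbs hz))) (z := S.G^[j] w)
    (by rw [mem_ball, dist_eq_norm]; linarith)).1
  have hw0 : 0 < (S.Ψ 0 w).im := S.hm 0 (hbs (mem_ball_self (by positivity)))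
  have h6 : 3 / 13 * (S.Ψ 0 w).im ≤ (S.Ψ j w).im := by
    rw [h2]
    refine le_trans ?_ h5
    refine mul_le_mul_of_nonneg_right ?_ hw0.le
    have h7 : 0 ≤ ‖S.G^[j] w - w‖ := norm_nonneg _
    rw [div_le_div_iff₀ (by norm_num) (by linarith)]
    nlinarith
  set ρ : ℝ := d / (d + T) with hρ
  have hρ0 : 0 < ρ := by positivity
  have hρ1 : d / (d + 4) / ((j : ℝ) + 1) ≤ ρ := by
    rw [hρ, div_div, hT]
    refine div_le_div_of_nonneg_left hd0.le (by positivity) ?_
    nlinarith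
  have h7 : (d / (d + 4) / ((j : ℝ) + 1)) ^ 8 ≤ ρ ^ 8 := pow_le_pow_left₀ (by positivity) hρ1 8
  calc 3 / 13 * (d / (d + 4)) ^ 8 * (S.Ψ 0 w₀).im / ((j : ℝ) + 1) ^ 8
      = (d / (d + 4) / ((j : ℝ) + 1)) ^ 8 * (3 / 13 * (S.Ψ 0 w₀).im) := by
        rw [div_pow (d / (d + 4)) ((j : ℝ) + 1)]
        ring
    _ ≤ ρ ^ 8 * (3 / 13 * (S.Ψ 0 w₀).im) := mul_le_mul_of_nonneg_right h7 (by positivity)
    _ = ρ ^ 4 * (3 / 13 * (ρ ^ 4 * (S.Ψ 0 w₀).im)) := by ring
    _ ≤ ρ ^ 4 * (3 / 13 * (S.Ψ 0 w).im) := by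
        refine mul_le_mul_of_nonneg_left ?_ (by positivity)
        exact mul_le_mul_of_nonneg_left h4 (by norm_num)
    _ ≤ ρ ^ 4 * (S.Ψ j w).im := mul_le_mul_of_nonneg_left h6 (by positivity)
    _ ≤ (S.Ψ j w₀).im := h3

end Pool.Agent.BB.P
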