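import Pool.Agent.BB.P.LOGL
import Pool.Agent.BB.P.HPOLY

open Set Metric Filter Topology MeasureTheory

namespace Pool.Agent.BB.P

variable {b : Base} {s : ℝ} {q : ℕ} {ℓ : ℂ → ℂ} {l₀ : ℂ}

/-- each side gives an arm -/
theorem Side.arm (S : Side b s q ℓ l₀) (hℓ : DifferentiableOn ℂ ℓ Hp)
    (hℓe : ∀ z ∈ Hp, Complex.exp (ℓ z) = b.φ z - b.ζ) :
    ∃ K : ℂ → ℂ, Arm b q ℓ (l₀ - s * Real.pi * Complex.I / q) K := by
  obtain ⟨K, hK, W, hWo, hWne, hWQ, j₀, hW⟩ := S.exists_inv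
  obtain ⟨w₁, hw₁⟩ := hWne
  have hiter : ∀ n : ℕ, K^[n] (S.Ψ j₀ w₁) = S.Ψ (j₀ + n) w₁ := by
    intro n
    induction n with
    | zero => rfl
    | succ n ih =>
      rw [Function.iterate_succ_apply', ih]
      exact (hW w₁ hw₁ (j₀ + n) (by omega)).2
  have hS := (hW w₁ hw₁ j₀ le_rfl).1
  refine ⟨K, hK, ?_, ?_, S.log_lim hK hℓ hℓe hWo ⟨w₁, hw₁⟩ hWQ hW⟩
  · intro ξ hξ
    obtain ⟨C, hC1, hC⟩ := harnack_compact (isOpen_St b.t₀) (convex_St _).isPreconnected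
      (A := {ξ, S.Ψ j₀ w₁}) (Set.Finite.isCompact (by simp)) (by
        intro z hz
        rcases hz with rfl | hz
        · exact hξ
        · rw [mem_singleton_iff.mp hz]; exact hS)
    have h1 : ∀ n : ℕ, (K^[n] ξ).im ≤ C * (S.Ψ (j₀ + n) w₁).im := by
      intro n
      have h2 := (hC K^[n] (hK.iter_diff n) (fun z hz => (hK.iter_mem n hz).1.le) ξ (by simp)
        (S.Ψ j₀ w₁) (by simp)).1
      rwa [hiter n] at h2
    have h2 : Tendsto (fun n : ℕ => C * (S.Ψ (j₀ + n) w₁).im) atTop (𝓝 0) := by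
      have h3 := ((S.hm0 (hWQ hw₁)).comp (tendsto_add_atTop_nat j₀)).const_mul C
      rw [mul_zero] at h3
      refine h3.congr fun n => ?_
      simp only [Function.comp_apply, add_comm n j₀]
    exact squeeze_zero (fun n => (hK.iter_mem n hξ).1.le) h1 h2
  · obtain ⟨c, hc, m, hm⟩ := S.poly (hWQ hw₁)
    refine ⟨S.Ψ j₀ w₁, hS, c / ((j₀ : ℝ) + 1) ^ m, by positivity, m, fun n => ?_⟩
    rw [hiter n]
    refine le_trans ?_ (hm (j₀ + n))
    rw [div_div, ← mul_pow]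
    apply div_le_div_of_nonneg_left hc.le (by positivity)
    apply pow_le_pow_left₀ (by positivity)
    push_cast
    nlinarith [(Nat.cast_nonneg j₀ : (0 : ℝ) ≤ j₀), (Nat.cast_nonneg n : (0 : ℝ) ≤ n),
      mul_nonneg (Nat.cast_nonneg j₀ : (0 : ℝ) ≤ j₀) (Nat.cast_nonneg n : (0 : ℝ) ≤ n)]

end Pool.Agent.BB.P
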