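import Pool.Agent.BB.P.SPA

open Set Metric Filter Topology MeasureTheory

namespace Pool.Agent.BB.P

private noncomputable def WOL_C (ω z : ℂ) : ℂ := Complex.I * (ω + z) / (ω - z)

private noncomputable def WOL_D (ω ξ : ℂ) : ℂ := ω * (ξ - Complex.I) / (ξ + Complex.I)

private lemma WOL_ne {ω z : ℂ} (hω : ‖ω‖ = 1) (hz : ‖z‖ < 1) : ω - z ≠ 0 := by
  intro h
  rw [sub_eq_zero] at h
  rw [← h, hω] at hz
  exact lt_irrefl _ hz

private lemma WOL_ne' {ξ : ℂ} (hξ : ξ ∈ Hp) : ξ + Complex.I ≠ 0 := by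
  intro h
  have := congrArg Complex.im h
  simp only [Complex.add_im, Complex.I_im, Complex.zero_im] at this
  have h2 : 0 < ξ.im := hξ
  linarith

private lemma WOL_im {ω z : ℂ} (hω : ‖ω‖ = 1) (hz : ‖z‖ < 1) :
    (WOL_C ω z).im = (1 - ‖z‖ ^ 2) / ‖ω - z‖ ^ 2 := by
  have hne := WOL_ne hω hz
  have h1 : 0 < ‖ω - z‖ ^ 2 := by positivity
  rw [WOL_C, Complex.div_im, Complex.sq_norm, Complex.sq_norm]
  rw [Complex.sq_norm] at h1
  have hω2 : ω.re * ω.re + ω.im * ω.im = 1 := by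
    rw [← Complex.normSq_apply, ← Complex.sq_norm, hω, one_pow]
  simp only [Complex.normSq_apply, Complex.mul_re, Complex.mul_im, Complex.I_re, Complex.I_im,
    Complex.add_re, Complex.add_im, Complex.sub_re, Complex.sub_im] at h1 ⊢
  rw [← sub_div]
  congr 1
  nlinarith

private lemma WOL_mem {ω z : ℂ} (hω : ‖ω‖ = 1) (hz : ‖z‖ < 1) : WOL_C ω z ∈ Hp := by
  show 0 < (WOL_C ω z).im
  rw [WOL_im hω hz]
  have hne := WOL_ne hω hz
  have h1 : 0 < ‖ω - z‖ ^ 2 := by positivity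
  have h2 : 0 < 1 - ‖z‖ ^ 2 := by nlinarith [norm_nonneg z]
  positivity

private lemma WOL_DC {ω z : ℂ} (hω : ‖ω‖ = 1) (hz : ‖z‖ < 1) : WOL_D ω (WOL_C ω z) = z := by
  have hne := WOL_ne hω hz
  have hω0 : ω ≠ 0 := by
    intro h
    rw [h, norm_zero] at hω
    exact zero_ne_one hω
  have h3 := WOL_ne' (WOL_mem hω hz)
  rw [WOL_D, div_eq_iff h3, WOL_C]
  field_simp
  ring

private lemma WOL_Dm {ω ξ : ℂ} (hω : ‖ω‖ = 1) (hξ : ξ ∈ Hp) : ‖WOL_D ω ξ‖ < 1 := by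
  have h3 := WOL_ne' hξ
  have h4 : 0 < ‖ξ + Complex.I‖ := norm_pos_iff.2 h3
  rw [WOL_D, norm_div, norm_mul, hω, one_mul, div_lt_one h4]
  rw [← Real.sqrt_sq (norm_nonneg (ξ - Complex.I)), ← Real.sqrt_sq (norm_nonneg (ξ + Complex.I)),
    Complex.sq_norm, Complex.sq_norm, Complex.normSq_apply, Complex.normSq_apply]
  apply Real.sqrt_lt_sqrt (add_nonneg (mul_self_nonneg _) (mul_self_nonneg _))
  simp only [Complex.sub_re, Complex.sub_im, Complex.add_re, Complex.add_im, Complex.I_re,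
    Complex.I_im]
  have h5 : 0 < ξ.im := hξ
  nlinarith

private lemma WOL_CD {ω ξ : ℂ} (hω : ‖ω‖ = 1) (hξ : ξ ∈ Hp) : WOL_C ω (WOL_D ω ξ) = ξ := by
  have h3 := WOL_ne' hξ
  have h4 := WOL_ne hω (WOL_Dm hω hξ)
  have hω0 : ω ≠ 0 := by
    intro h
    rw [h, norm_zero] at hω
    exact zero_ne_one hω
  rw [WOL_C, div_eq_iff h4, WOL_D]
  field_simp
  ring_nf

private lemma WOL_norm {a b : ℂ} : ‖a - (starRingEnd ℂ) b‖ ^ 2 - ‖a - b‖ ^ 2 = 4 * a.im * b.im := by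
  rw [Complex.sq_norm, Complex.sq_norm, Complex.normSq_apply, Complex.normSq_apply]
  simp only [Complex.sub_re, Complex.sub_im, Complex.conj_re, Complex.conj_im]
  ring

/-- the other form of Schwarz-Pick -/
private lemma WOL_sp {f : ℂ → ℂ} (hd : DifferentiableOn ℂ f Hp) (hm : MapsTo f Hp Hp) {z w : ℂ}
    (hz : z ∈ Hp) (hw : w ∈ Hp) :
    z.im * w.im / ‖z - (starRingEnd ℂ) w‖ ^ 2 ≤
      (f z).im * (f w).im / ‖f z - (starRingEnd ℂ) (f w)‖ ^ 2 := by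
  have h1 := schwarz_pick hd hm hz hw
  have hne : ∀ a ∈ Hp, ∀ b ∈ Hp, 0 < ‖a - (starRingEnd ℂ) b‖ := by
    intro a ha b hb
    rw [norm_pos_iff]
    intro h
    have := congrArg Complex.im h
    simp only [Complex.sub_im, Complex.conj_im, Complex.zero_im] at this
    have h2 : 0 < a.im := ha
    have h3 : 0 < b.im := hb
    linarith
  have h2 := hne z hz w hw
  have h3 := hne _ (hm hz) _ (hm hw)
  have h4 := pow_le_pow_left₀ (norm_nonneg _) h1 2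
  rw [norm_div, norm_div, div_pow, div_pow] at h4
  have h5 := WOL_norm (a := z) (b := w)
  have h6 := WOL_norm (a := f z) (b := f w)
  have h7 : ‖z - w‖ ^ 2 / ‖z - (starRingEnd ℂ) w‖ ^ 2 =
      1 - 4 * (z.im * w.im / ‖z - (starRingEnd ℂ) w‖ ^ 2) := by
    field_simp
    linarith
  have h8 : ‖f z - f w‖ ^ 2 / ‖f z - (starRingEnd ℂ) (f w)‖ ^ 2 =
      1 - 4 * ((f z).im * (f w).im / ‖f z - (starRingEnd ℂ) (f w)‖ ^ 2) := by
    field_simp
    linarith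
  rw [h7, h8] at h4
  linarith

private lemma WOL_cc {z w : ℂ} (hz : ‖z‖ < 1) (hw : ‖w‖ < 1) :
    (WOL_C 1 z).im * (WOL_C 1 w).im / ‖WOL_C 1 z - (starRingEnd ℂ) (WOL_C 1 w)‖ ^ 2 =
      (1 - ‖z‖ ^ 2) * (1 - ‖w‖ ^ 2) / (4 * ‖1 - (starRingEnd ℂ) w * z‖ ^ 2) := by
  have h1 : ‖(1:ℂ)‖ = 1 := norm_one
  rw [WOL_im h1 hz, WOL_im h1 hw]
  have hz1 := WOL_ne h1 hz
  have hw1 := WOL_ne h1 hw
  have hw2 : 1 - (starRingEnd ℂ) w ≠ 0 := by
    intro h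
    apply hw1
    have := congrArg (starRingEnd ℂ) h
    simpa using this
  have h2 : WOL_C 1 z - (starRingEnd ℂ) (WOL_C 1 w) =
      2 * Complex.I * (1 - (starRingEnd ℂ) w * z) / ((1 - z) * (1 - (starRingEnd ℂ) w)) := by
    rw [WOL_C, WOL_C, map_div₀, map_mul, map_add, map_sub, map_one, Complex.conj_I]
    field_simp
    ring
  have h3 : ‖1 - (starRingEnd ℂ) w‖ = ‖1 - w‖ := by
    rw [← Complex.norm_conj (1 - w), map_sub, map_one]
  rw [h2, norm_div, norm_mul, norm_mul, norm_mul, Complex.norm_I, Complex.norm_ofNat, h3]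
  have hz2 : 0 < ‖1 - z‖ := norm_pos_iff.2 hz1
  have hw3 : 0 < ‖1 - w‖ := norm_pos_iff.2 hw1
  by_cases h5 : ‖1 - (starRingEnd ℂ) w * z‖ = 0
  · rw [h5]
    simp
  · field_simp
    ring

/-- Schwarz-Pick in the disc -/
private lemma WOL_disc {g : ℂ → ℂ} (hd : DifferentiableOn ℂ g (ball 0 1))
    (hm : MapsTo g (ball 0 1) (ball 0 1)) {z w : ℂ} (hz : ‖z‖ < 1) (hw : ‖w‖ < 1) :
    (1 - ‖z‖ ^ 2) * (1 - ‖w‖ ^ 2) * ‖1 - (starRingEnd ℂ) (g w) * g z‖ ^ 2 ≤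
      (1 - ‖g z‖ ^ 2) * (1 - ‖g w‖ ^ 2) * ‖1 - (starRingEnd ℂ) w * z‖ ^ 2 := by
  have h1 : ‖(1:ℂ)‖ = 1 := norm_one
  have hgm : ∀ z : ℂ, ‖z‖ < 1 → ‖g z‖ < 1 := by
    intro z hz
    have := hm (show z ∈ ball (0:ℂ) 1 by simpa using hz)
    simpa using this
  have hC : DifferentiableOn ℂ (fun z => WOL_C 1 z) (ball 0 1) := by
    unfold WOL_C
    refine DifferentiableOn.div (by fun_prop) (by fun_prop) ?_
    intro z hz
    exact WOL_ne h1 (by simpa using hz)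
  have hD : DifferentiableOn ℂ (fun z => WOL_D 1 z) Hp := by
    unfold WOL_D
    refine DifferentiableOn.div (by fun_prop) (by fun_prop) ?_
    intro z hz
    exact WOL_ne' hz
  have hDm : MapsTo (fun z => WOL_D 1 z) Hp (ball 0 1) := by
    intro ξ hξ
    simpa using WOL_Dm h1 hξ
  have hfd : DifferentiableOn ℂ (fun ξ => WOL_C 1 (g (WOL_D 1 ξ))) Hp :=
    hC.comp (hd.comp hD hDm) (fun ξ hξ => hm (hDm hξ))
  have hfm : MapsTo (fun ξ => WOL_C 1 (g (WOL_D 1 ξ))) Hp Hp := by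
    intro ξ hξ
    exact WOL_mem h1 (hgm _ (WOL_Dm h1 hξ))
  have h2 := WOL_sp hfd hfm (WOL_mem h1 hz) (WOL_mem h1 hw)
  simp only [WOL_DC h1 hz, WOL_DC h1 hw] at h2
  rw [WOL_cc hz hw, WOL_cc (hgm z hz) (hgm w hw)] at h2
  have hpos : ∀ z w : ℂ, ‖z‖ < 1 → ‖w‖ < 1 → 0 < ‖1 - (starRingEnd ℂ) w * z‖ := by
    intro z w hz hw
    rw [norm_pos_iff]
    intro h
    rw [sub_eq_zero] at h
    have h3 := congrArg norm h
    rw [norm_one, norm_mul, Complex.norm_conj] at h3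
    nlinarith [norm_nonneg z, norm_nonneg w]
  have h3 := hpos z w hz hw
  have h4 := hpos _ _ (hgm z hz) (hgm w hw)
  rw [div_le_div_iff₀ (by positivity) (by positivity)] at h2
  nlinarith

/-- Wolff's lemma: the Riemann map can be normalised so that the imaginary part does not
decrease along orbits. -/
theorem wolff {F : ℂ → ℂ} (hF : Differentiable ℂ F) {U : Set ℂ} (hUo : IsOpen U)
    (hFU : MapsTo F U U) {φ₀ ψ₀ : ℂ → ℂ} (hφ : DifferentiableOn ℂ φ₀ (ball 0 1))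
    (hψ : DifferentiableOn ℂ ψ₀ U) (hφψ : ∀ z ∈ ball (0:ℂ) 1, φ₀ z ∈ U ∧ ψ₀ (φ₀ z) = z)
    (hψφ : ∀ z ∈ U, ψ₀ z ∈ ball (0:ℂ) 1 ∧ φ₀ (ψ₀ z) = z)
    (hleave : ∀ K ⊆ U, IsCompact K → ∀ z ∈ U, ∀ᶠ n : ℕ in atTop, F^[n] z ∉ K) :
    ∃ φ ψ : ℂ → ℂ, DifferentiableOn ℂ φ Hp ∧ DifferentiableOn ℂ ψ U ∧
      (∀ z ∈ Hp, φ z ∈ U ∧ ψ (φ z) = z) ∧ (∀ z ∈ U, ψ z ∈ Hp ∧ φ (ψ z) = z) ∧
        ∀ z ∈ U, (ψ z).im ≤ (ψ (F z)).im := by
  have hUo' := hUo
  set g : ℂ → ℂ := fun z => ψ₀ (F (φ₀ z)) with hg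
  have hgd : DifferentiableOn ℂ g (ball 0 1) := by
    refine hψ.comp (hF.comp_differentiableOn hφ) ?_
    intro z hz
    exact hFU (hφψ z hz).1
  have hgm : MapsTo g (ball 0 1) (ball 0 1) := fun z hz => (hψφ _ (hFU (hφψ z hz).1)).1
  have hn1 : ∀ {z : ℂ}, z ∈ ball (0:ℂ) 1 → ‖z‖ < 1 := fun hz => by simpa using hz
  have hn2 : ∀ {z : ℂ}, ‖z‖ < 1 → z ∈ ball (0:ℂ) 1 := fun hz => by simpa using hz
  -- the orbit
  set u : ℂ := φ₀ 0 with hu
  have huU : u ∈ U := (hφψ 0 (by simp)).1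
  set x : ℕ → ℂ := fun n => ψ₀ (F^[n] u) with hx
  have hxU : ∀ n, F^[n] u ∈ U := fun n => hFU.iterate n huU
  have hx1 : ∀ n, ‖x n‖ < 1 := fun n => hn1 (hψφ _ (hxU n)).1
  have hxs : ∀ n, x (n + 1) = g (x n) := by
    intro n
    simp only [hx, hg]
    rw [(hψφ _ (hxU n)).2, Function.iterate_succ_apply']
  have hxt : Tendsto (fun n => ‖x n‖) atTop (𝓝 1) := by
    rw [Metric.tendsto_atTop]
    intro ε hε
    set r : ℝ := max 0 (1 - ε / 2) with hr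
    have hr1 : r < 1 := max_lt one_pos (by linarith)
    have hK : IsCompact (φ₀ '' closedBall 0 r) := by
      refine (isCompact_closedBall 0 r).image_of_continuousOn (hφ.continuousOn.mono ?_)
      exact closedBall_subset_ball hr1
    have hKU : φ₀ '' closedBall 0 r ⊆ U := by
      rintro _ ⟨z, hz, rfl⟩
      exact (hφψ z (closedBall_subset_ball hr1 hz)).1
    obtain ⟨N, hN⟩ := eventually_atTop.1 (hleave _ hKU hK u huU)
    refine ⟨N, fun n hn => ?_⟩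
    have h1 := hN n hn
    have h2 : r < ‖x n‖ := by
      by_contra hcon
      apply h1
      refine ⟨x n, ?_, (hψφ _ (hxU n)).2⟩
      rw [mem_closedBall, dist_zero_right]
      exact not_lt.1 hcon
    have h3 : 1 - ε / 2 ≤ r := le_max_right _ _
    rw [Real.dist_eq, abs_lt]
    constructor
    · linarith
    · linarith [hx1 n]
  -- infinitely often the norm does not decrease
  have hfreq : ∃ᶠ n in atTop, ‖x n‖ ≤ ‖x (n + 1)‖ := by
    intro hcon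
    obtain ⟨N, hN⟩ := eventually_atTop.1 hcon
    have h1 : ∀ k, ‖x (N + k)‖ ≤ ‖x N‖ := by
      intro k
      induction k with
      | zero => simp
      | succ k ih =>
        have := hN (N + k) (Nat.le_add_right _ _)
        push Not at this
        exact (le_of_lt (by simpa [add_assoc] using this)).trans ih
    have h2 : (1:ℝ) ≤ ‖x N‖ := by
      refine le_of_tendsto hxt ?_
      filter_upwards [eventually_ge_atTop N] with n hn
      obtain ⟨k, rfl⟩ := Nat.exists_eq_add_of_le hn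
      exact h1 k
    exact absurd (hx1 N) (not_lt.2 h2)
  obtain ⟨σ, hσ, hσ2⟩ := extraction_of_frequently_atTop hfreq
  obtain ⟨ω, -, τ, hτ, hlim⟩ := (isCompact_closedBall (0:ℂ) 1).tendsto_subseq
    (x := fun k => x (σ k)) (fun k => by simpa using (hx1 (σ k)).le)
  have hω : ‖ω‖ = 1 := by
    have h1 : Tendsto (fun k => ‖x (σ (τ k))‖) atTop (𝓝 ‖ω‖) := hlim.norm
    have h2 : Tendsto (fun k => ‖x (σ (τ k))‖) atTop (𝓝 1) :=
      hxt.comp ((hσ.comp hτ).tendsto_atTop)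
    exact tendsto_nhds_unique h1 h2
  set ν : ℕ → ℕ := fun k => σ (τ k) with hν
  have hνt : Tendsto ν atTop atTop := (hσ.comp hτ).tendsto_atTop
  have hlim0 : Tendsto (fun k => x (ν k)) atTop (𝓝 ω) := hlim
  -- the next points have the same limit
  have hconj : Tendsto (fun n => ‖1 - (starRingEnd ℂ) (x (n + 1)) * x n‖ ^ 2) atTop (𝓝 0) := by
    set κ : ℝ := (1 - ‖x 0‖ ^ 2) * (1 - ‖x 1‖ ^ 2) with hκ
    set M : ℝ := ‖1 - (starRingEnd ℂ) (x 1) * x 0‖ ^ 2 with hM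
    have hpos1 : ∀ n, 0 < 1 - ‖x n‖ ^ 2 := fun n => by nlinarith [hx1 n, norm_nonneg (x n)]
    have hκ0 : 0 < κ := mul_pos (hpos1 0) (hpos1 1)
    have hinv : ∀ n, κ * ‖1 - (starRingEnd ℂ) (x (n + 1)) * x n‖ ^ 2 ≤
        (1 - ‖x n‖ ^ 2) * (1 - ‖x (n + 1)‖ ^ 2) * M := by
      intro n
      induction n with
      | zero => rw [hκ, hM]
      | succ n ih =>
        have h1 := WOL_disc hgd hgm (hx1 n) (hx1 (n + 1))
        rw [← hxs, ← hxs] at h1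
        have hp : 0 < (1 - ‖x n‖ ^ 2) * (1 - ‖x (n + 1)‖ ^ 2) := mul_pos (hpos1 _) (hpos1 _)
        have hq : 0 ≤ (1 - ‖x (n + 1)‖ ^ 2) * (1 - ‖x (n + 1 + 1)‖ ^ 2) :=
          (mul_pos (hpos1 _) (hpos1 _)).le
        have h2 := mul_le_mul_of_nonneg_left h1 hκ0.le
        have h3 := mul_le_mul_of_nonneg_left ih hq
        have h4 : (1 - ‖x n‖ ^ 2) * (1 - ‖x (n + 1)‖ ^ 2) *
            (κ * ‖1 - (starRingEnd ℂ) (x (n + 1 + 1)) * x (n + 1)‖ ^ 2) ≤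
            (1 - ‖x n‖ ^ 2) * (1 - ‖x (n + 1)‖ ^ 2) *
            ((1 - ‖x (n + 1)‖ ^ 2) * (1 - ‖x (n + 1 + 1)‖ ^ 2) * M) := by
          calc _ = κ * ((1 - ‖x n‖ ^ 2) * (1 - ‖x (n + 1)‖ ^ 2) *
              ‖1 - (starRingEnd ℂ) (x (n + 1 + 1)) * x (n + 1)‖ ^ 2) := by ring
            _ ≤ κ * ((1 - ‖x (n + 1)‖ ^ 2) * (1 - ‖x (n + 1 + 1)‖ ^ 2) *
              ‖1 - (starRingEnd ℂ) (x (n + 1)) * x n‖ ^ 2) := h2
            _ = (1 - ‖x (n + 1)‖ ^ 2) * (1 - ‖x (n + 1 + 1)‖ ^ 2) *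
              (κ * ‖1 - (starRingEnd ℂ) (x (n + 1)) * x n‖ ^ 2) := by ring
            _ ≤ _ := h3
            _ = _ := by ring
        exact le_of_mul_le_mul_left h4 hp
    have hb : Tendsto (fun n => (1 - ‖x n‖ ^ 2) * (1 - ‖x (n + 1)‖ ^ 2) * M / κ) atTop
        (𝓝 ((1 - 1 ^ 2) * (1 - 1 ^ 2) * M / κ)) := by
      have h2 := hxt.comp (tendsto_add_atTop_nat 1)
      exact ((((tendsto_const_nhds.sub (hxt.pow 2)).mul
        (tendsto_const_nhds.sub (h2.pow 2))).mul_const M).div_const κ)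
    have h0 : (1 - 1 ^ 2 : ℝ) * (1 - 1 ^ 2) * M / κ = 0 := by norm_num
    rw [h0] at hb
    refine squeeze_zero (fun n => by positivity) (fun n => ?_) hb
    rw [le_div_iff₀ hκ0, mul_comm]
    exact hinv n
  have hconj2 : Tendsto (fun n => (starRingEnd ℂ) (x (n + 1)) * x n) atTop (𝓝 1) := by
    rw [tendsto_iff_norm_sub_tendsto_zero]
    have h1 := hconj.sqrt
    rw [Real.sqrt_zero] at h1
    refine h1.congr fun n => ?_
    rw [Real.sqrt_sq (norm_nonneg _), norm_sub_rev]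
  have hω0 : ω ≠ 0 := by
    intro h
    rw [h, norm_zero] at hω
    exact zero_ne_one hω
  have hlim1 : Tendsto (fun k => x (ν k + 1)) atTop (𝓝 ω) := by
    have h1 : Tendsto (fun k => (starRingEnd ℂ) (x (ν k + 1)) * x (ν k) / x (ν k)) atTop
        (𝓝 (1 / ω)) := (hconj2.comp hνt).div hlim0 hω0
    have h2 : Tendsto (fun k => (starRingEnd ℂ) (x (ν k + 1))) atTop (𝓝 (1 / ω)) := by
      refine h1.congr' ?_
      have h3 : ∀ᶠ k in atTop, x (ν k) ≠ 0 := hlim0.eventually_ne hω0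
      filter_upwards [h3] with k hk
      rw [mul_div_assoc, div_self hk, mul_one]
    have h3 : Tendsto (fun k => (starRingEnd ℂ) ((starRingEnd ℂ) (x (ν k + 1)))) atTop
        (𝓝 ((starRingEnd ℂ) (1 / ω))) := (Complex.continuous_conj.tendsto _).comp h2
    have h4 : (starRingEnd ℂ) (1 / ω) = ω := by
      have h5 : ω * (starRingEnd ℂ) ω = 1 := by
        rw [Complex.mul_conj, Complex.normSq_eq_norm_sq, hω]
        simp
      rw [map_div₀, map_one]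
      have h6 : (starRingEnd ℂ) ω ≠ 0 := by
        intro h
        rw [h, mul_zero] at h5
        exact zero_ne_one h5
      rw [div_eq_iff h6, h5]
    rw [h4] at h3
    simpa using h3
  -- Wolff's inequality
  have hW : ∀ z : ℂ, ‖z‖ < 1 → (1 - ‖z‖ ^ 2) / ‖ω - z‖ ^ 2 ≤ (1 - ‖g z‖ ^ 2) / ‖ω - g z‖ ^ 2 := by
    intro z hz
    have hgz : ‖g z‖ < 1 := hn1 (hgm (hn2 hz))
    have h1 : ∀ k, (1 - ‖z‖ ^ 2) * ‖1 - (starRingEnd ℂ) (x (ν k + 1)) * g z‖ ^ 2 ≤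
        (1 - ‖g z‖ ^ 2) * ‖1 - (starRingEnd ℂ) (x (ν k)) * z‖ ^ 2 := by
      intro k
      have h2 := WOL_disc hgd hgm hz (hx1 (ν k))
      rw [← hxs] at h2
      have h3 : ‖x (ν k)‖ ≤ ‖x (ν k + 1)‖ := hσ2 (τ k)
      have h4 : 0 < 1 - ‖x (ν k)‖ ^ 2 := by nlinarith [hx1 (ν k), norm_nonneg (x (ν k))]
      have h5 : 1 - ‖x (ν k + 1)‖ ^ 2 ≤ 1 - ‖x (ν k)‖ ^ 2 := by
        nlinarith [norm_nonneg (x (ν k)), norm_nonneg (x (ν k + 1))]
      have h6 : 0 ≤ 1 - ‖g z‖ ^ 2 := by nlinarith [norm_nonneg (g z)]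
      have h7 : 0 ≤ ‖1 - (starRingEnd ℂ) (x (ν k)) * z‖ ^ 2 := by positivity
      have h8 : (1 - ‖x (ν k)‖ ^ 2) * ((1 - ‖z‖ ^ 2) *
          ‖1 - (starRingEnd ℂ) (x (ν k + 1)) * g z‖ ^ 2) ≤
          (1 - ‖x (ν k)‖ ^ 2) * ((1 - ‖g z‖ ^ 2) * ‖1 - (starRingEnd ℂ) (x (ν k)) * z‖ ^ 2) := by
        calc _ = (1 - ‖z‖ ^ 2) * (1 - ‖x (ν k)‖ ^ 2) *
              ‖1 - (starRingEnd ℂ) (x (ν k + 1)) * g z‖ ^ 2 := by ring
          _ ≤ (1 - ‖g z‖ ^ 2) * (1 - ‖x (ν k + 1)‖ ^ 2) *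
              ‖1 - (starRingEnd ℂ) (x (ν k)) * z‖ ^ 2 := h2
          _ = (1 - ‖x (ν k + 1)‖ ^ 2) * ((1 - ‖g z‖ ^ 2) *
              ‖1 - (starRingEnd ℂ) (x (ν k)) * z‖ ^ 2) := by ring
          _ ≤ _ := mul_le_mul_of_nonneg_right h5 (mul_nonneg h6 h7)
      exact le_of_mul_le_mul_left h8 h4
    have h2 : Tendsto (fun k => (1 - ‖z‖ ^ 2) * ‖1 - (starRingEnd ℂ) (x (ν k + 1)) * g z‖ ^ 2) atTop
        (𝓝 ((1 - ‖z‖ ^ 2) * ‖1 - (starRingEnd ℂ) ω * g z‖ ^ 2)) :=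
      ((tendsto_const_nhds.sub (((Complex.continuous_conj.tendsto _).comp
        hlim1).mul_const _)).norm.pow 2).const_mul _
    have h3 : Tendsto (fun k => (1 - ‖g z‖ ^ 2) * ‖1 - (starRingEnd ℂ) (x (ν k)) * z‖ ^ 2) atTop
        (𝓝 ((1 - ‖g z‖ ^ 2) * ‖1 - (starRingEnd ℂ) ω * z‖ ^ 2)) :=
      ((tendsto_const_nhds.sub (((Complex.continuous_conj.tendsto _).comp
        hlim0).mul_const _)).norm.pow 2).const_mul _
    have h4 := le_of_tendsto_of_tendsto' h2 h3 h1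
    have h5 : ∀ y : ℂ, ‖1 - (starRingEnd ℂ) ω * y‖ = ‖ω - y‖ := by
      intro y
      have h6 : ω * (starRingEnd ℂ) ω = 1 := by
        rw [Complex.mul_conj, Complex.normSq_eq_norm_sq, hω]
        simp
      have h7 : ω - y = ω * (1 - (starRingEnd ℂ) ω * y) := by
        rw [mul_sub, ← mul_assoc, h6, mul_one, one_mul]
      rw [h7, norm_mul, hω, one_mul]
    rw [h5, h5] at h4
    have h6 : 0 < ‖ω - z‖ := norm_pos_iff.2 (WOL_ne hω hz)
    have h7 : 0 < ‖ω - g z‖ := norm_pos_iff.2 (WOL_ne hω hgz)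
    rw [div_le_div_iff₀ (by positivity) (by positivity)]
    exact h4
  refine ⟨fun ξ => φ₀ (WOL_D ω ξ), fun z => WOL_C ω (ψ₀ z), ?_, ?_, ?_, ?_, ?_⟩
  · have hD : DifferentiableOn ℂ (fun z => WOL_D ω z) Hp := by
      unfold WOL_D
      refine DifferentiableOn.div (by fun_prop) (by fun_prop) ?_
      intro z hz
      exact WOL_ne' hz
    exact hφ.comp hD fun ξ hξ => hn2 (WOL_Dm hω hξ)
  · have hC : DifferentiableOn ℂ (fun z => WOL_C ω z) (ball 0 1) := by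
      unfold WOL_C
      refine DifferentiableOn.div (by fun_prop) (by fun_prop) ?_
      intro z hz
      exact WOL_ne hω (hn1 hz)
    exact hC.comp hψ fun z hz => (hψφ z hz).1
  · intro ξ hξ
    have h1 := hn2 (WOL_Dm hω hξ)
    refine ⟨(hφψ _ h1).1, ?_⟩
    show WOL_C ω (ψ₀ (φ₀ (WOL_D ω ξ))) = ξ
    rw [(hφψ _ h1).2, WOL_CD hω hξ]
  · intro z hz
    have h1 := hn1 (hψφ z hz).1
    refine ⟨WOL_mem hω h1, ?_⟩
    show φ₀ (WOL_D ω (WOL_C ω (ψ₀ z))) = z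
    rw [WOL_DC hω h1, (hψφ z hz).2]
  · intro z hz
    have h1 := hn1 (hψφ z hz).1
    have h2 := hn1 (hψφ _ (hFU hz)).1
    show (WOL_C ω (ψ₀ z)).im ≤ (WOL_C ω (ψ₀ (F z))).im
    rw [WOL_im hω h1, WOL_im hω h2]
    have h3 := hW _ h1
    have h4 : g (ψ₀ z) = ψ₀ (F z) := by
      simp only [hg]
      rw [(hψφ z hz).2]
    rw [h4] at h3
    exact h3

end Pool.Agent.BB.P
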