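import Pool.Agent.BB.P.PBAS
import Pool.Agent.BB.P.WOL

open Set Metric Filter Topology MeasureTheory

namespace Pool.Agent.BB.P

/-- construction of the base data from an unbounded or bounded invariant component -/
theorem base_exists {F : ℂ → ℂ} (hF : Differentiable ℂ F) {ζ a : ℂ} {q : ℕ} (h : Par F ζ a q)
    (h0 : F ζ = ζ) {A U : Set ℂ} (hAdef : A = Att0 F ζ) {u : ℂ} (hu : u ∈ A)
    (hUdef : U = connectedComponentIn A u) (hFu : F u ∈ U)
    (hsing : ∃ K ⊆ U, IsCompact K ∧ SingVals F U ∩ U ⊆ K) :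
    ∃ b : Base, b.F = F ∧ b.U = U ∧ b.ζ = ζ ∧
      ∃ (c : ℂ) (R₀ : ℝ), c ^ q * (q * a) = -1 ∧ Xc ζ c q '' Vs R₀ ⊆ U := by
  have hAo : IsOpen A := by rw [hAdef]; exact att0_open hF h
  have hUo : IsOpen U := by rw [hUdef]; exact hAo.connectedComponentIn
  have hUc : IsPreconnected U := by rw [hUdef]; exact isPreconnected_connectedComponentIn
  have hUA : U ⊆ A := by rw [hUdef]; exact connectedComponentIn_subset _ _
  have huU : u ∈ U := by rw [hUdef]; exact mem_connectedComponentIn hu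
  have hFA : ∀ z, F z ∈ A ↔ z ∈ A := by
    intro z
    rw [hAdef]
    exact att0_iter h0 1
  have hclU : ∀ z ∈ closure U, z ∈ A → z ∈ U := by
    intro z hz hzA
    rw [hUdef] at hz ⊢
    exact closure_comp hAo hz hzA
  have hFU : MapsTo F U U := by
    have h1 : IsPreconnected (F '' U) := hUc.image F hF.continuous.continuousOn
    have h2 : F '' U ⊆ A := by
      rintro _ ⟨z, hz, rfl⟩
      exact (hFA z).mpr (hUA hz)
    have h3 := h1.subset_connectedComponentIn (x := F u) ⟨u, huU, rfl⟩ h2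
    have h4 : connectedComponentIn A u = connectedComponentIn A (F u) :=
      connectedComponentIn_eq (by rw [← hUdef]; exact hFu)
    intro z hz
    rw [hUdef, h4]
    exact h3 ⟨z, hz, rfl⟩
  have hcl : ∀ z ∈ closure U, F z ∈ U → z ∈ U := fun z hz hFz =>
    hclU z hz ((hFA z).mp (hUA hFz))
  have hζA : ζ ∉ A := by
    rw [hAdef]
    intro hcon
    exact hcon.2 0 rfl
  have hζU : ζ ∉ U := fun hcon => hζA (hUA hcon)
  have hUne : U ≠ univ := fun hcon => hζU (hcon ▸ mem_univ _)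
  -- Riemann map
  have hopen : IsOpen (A \ U) := by
    have h1 : A \ U = A ∩ (closure U)ᶜ := by
      ext z
      constructor
      · rintro ⟨h1, h2⟩
        exact ⟨h1, fun h3 => h2 (hclU z h3 h1)⟩
      · rintro ⟨h1, h2⟩
        exact ⟨h1, fun h3 => h2 (subset_closure h3)⟩
    rw [h1]
    exact hAo.inter isClosed_closure.isOpen_compl
  have hsq := sqrt_of_hull hAo hUo hUc hUA hopen
    (fun K hKA hK z hz => att0_hull hF h h0 (hAdef ▸ hKA) hK (hAdef ▸ hz))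
  obtain ⟨φ₀, ψ₀, hφ₀, hψ₀, hφψ₀, hψφ₀, -⟩ := riemann_map hUo hUc hUne hsq huU
  have hlimU : ∀ z ∈ U, Tendsto (fun n : ℕ => F^[n] z) atTop (𝓝 ζ) := by
    intro z hz
    have hzA := hUA hz
    rw [hAdef] at hzA
    exact hzA.1
  have hleave : ∀ K ⊆ U, IsCompact K → ∀ z ∈ U, ∀ᶠ n : ℕ in atTop, F^[n] z ∉ K := by
    intro K hKU hK z hz
    have h1 : Kᶜ ∈ 𝓝 ζ := hK.isClosed.isOpen_compl.mem_nhds fun hcon => hζU (hKU hcon)
    exact (hlimU z hz).eventually h1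
  obtain ⟨φ, ψ, hφ, hψ, hφψ, hψφ, him⟩ := wolff hF hUo hFU hφ₀ hψ₀ hφψ₀ hψφ₀ hleave
  -- singular values
  obtain ⟨K, hKU, hKc, hKs⟩ := hsing
  obtain ⟨t₀, ht₀, ht₀K⟩ : ∃ t₀ : ℝ, 0 < t₀ ∧ ∀ z ∈ K, t₀ ≤ (ψ z).im := by
    rcases K.eq_empty_or_nonempty with hK0 | hKne
    · refine ⟨1, one_pos, fun z hz => ?_⟩
      rw [hK0] at hz
      exact hz.elim
    · have hc : ContinuousOn (fun z => (ψ z).im) K :=
        Complex.continuous_im.comp_continuousOn (hψ.continuousOn.mono hKU)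
      obtain ⟨z₁, hz₁, hmin⟩ := hKc.exists_isMinOn hKne hc
      exact ⟨(ψ z₁).im, (hψφ z₁ (hKU hz₁)).1, fun z hz => hmin hz⟩
  have hsv : ∀ w ∈ U, (ψ w).im < t₀ → w ∉ SingVals F U := by
    intro w hw hlt hs
    exact absurd hlt (not_lt.mpr (ht₀K w (hKs ⟨hs, hw⟩)))
  have hunif : ∀ K ⊆ U, IsCompact K → ∀ ε > 0, ∃ n₀ : ℕ, ∀ n ≥ n₀, ∀ z ∈ K,
      ‖F^[n] z - ζ‖ < ε := by
    intro K hKU hK ε hε
    exact att0_unif hF h hK (fun z hz => by rw [← hAdef]; exact hUA (hKU hz)) hε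
  refine ⟨{ F := F, hF := hF, U := U, hUo := hUo, hUc := hUc, φ := φ, ψ := ψ, hφ := hφ, hψ := hψ,
            hφψ := hφψ, hψφ := hψφ, hFU := hFU, hcl := hcl, him := him, ζ := ζ, hζU := hζU,
            hFζ := h0, hunif := hunif, t₀ := t₀, ht₀ := ht₀, hsing := hsv }, rfl, rfl, rfl, ?_⟩
  -- the petal
  obtain ⟨R₀, hR₀, hpet⟩ := att0_petal hF h
  have huA := hu
  rw [hAdef] at huA
  obtain ⟨c, hc, N, hN⟩ := pw_enter h (x := fun n => F^[n] u) huA.1 huA.2
    (fun n => Function.iterate_succ_apply' F n u) R₀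
  refine ⟨c, R₀, hc, ?_⟩
  have hc0 : c ≠ 0 := by
    rintro rfl
    rw [zero_pow (by have := h.hq; omega), zero_mul] at hc
    exact absurd hc (by norm_num)
  obtain ⟨hsub, -⟩ := hpet R₀ le_rfl c hc
  have hpc : IsPreconnected (Xc ζ c q '' Vs R₀) := by
    refine (Vs_preconn (by linarith)).image _ ?_
    exact (xc_facts h.hq hc0).1.continuousOn.mono (Vs_slit (by linarith))
  obtain ⟨w, hw, hxw⟩ := hN N le_rfl
  have hxU : ∀ n : ℕ, F^[n] u ∈ U := fun n => hFU.iterate n huU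
  have hmem : Xc ζ c q w ∈ U := by
    rw [← hxw]
    exact hxU N
  have hsubA : Xc ζ c q '' Vs R₀ ⊆ A := by
    rw [hAdef]
    exact hsub
  have h3 := hpc.subset_connectedComponentIn (x := Xc ζ c q w) ⟨w, hw, rfl⟩ hsubA
  have h4 : connectedComponentIn A u = connectedComponentIn A (Xc ζ c q w) :=
    connectedComponentIn_eq (by rw [← hUdef]; exact hmem)
  rw [hUdef, h4]
  exact h3

end Pool.Agent.BB.P
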