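import Pool.Agent.BB.P.Basic

/-!
# Parabolic basins: inverse branches
-/

open Set Metric Filter Topology MeasureTheory

namespace Pool.Agent.BB.P

namespace PS

variable (s : PS)

theorem branch : ∃ C : ℝ, 1 ≤ C ∧ ∀ (n : ℕ) (v : ℂ), s.b.F^[n] v = s.u₀ →
    ∃ h : ℂ → ℂ, DifferentiableOn ℂ h (ball s.p (2 * s.R)) ∧
      (∀ x ∈ ball s.p (2 * s.R), s.b.F^[n] (h x) = x) ∧ h s.u₀ = v ∧
      InjOn h (ball s.p (2 * s.R)) ∧
      (∀ x ∈ closedBall s.p s.R, ∀ y ∈ closedBall s.p s.R,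
        ‖h x - h y‖ ≤ C * s.sz n v * ‖x - y‖ ∧ s.sz n v * ‖x - y‖ ≤ C * ‖h x - h y‖) ∧
      (∀ x ∈ closedBall s.p s.R, ‖deriv h x‖ ≤ C * s.sz n v) := by
  obtain ⟨C, hC1, hC⟩ := koebe_dist (θ := 1 / 2) (by norm_num) (by norm_num)
  have hC0 : 0 < C := by linarith
  refine ⟨C * C, by nlinarith, fun n v hv => ?_⟩
  obtain ⟨h, hd, he, h0⟩ := s.hbr n v (by rw [hv]; exact s.u₀_ball2)
  rw [hv] at h0
  have hinj : InjOn h (ball s.p (2 * s.R)) := by
    intro x hx y hy hxy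
    rw [← he x hx, ← he y hy, hxy]
  have hderiv : deriv s.b.F^[n] (h s.u₀) * deriv h s.u₀ = 1 := by
    have h1 := s.b.deriv_mul isOpen_ball hd (E' := id) (fun x hx => he x hx) s.u₀_ball2
    rw [h1, deriv_id]
  have hsz : ‖deriv h s.u₀‖ = s.sz n v := by
    rw [sz, ← h0]
    have h2 : ‖deriv s.b.F^[n] (h s.u₀)‖ * ‖deriv h s.u₀‖ = 1 := by
      rw [← norm_mul, hderiv, norm_one]
    exact eq_inv_of_mul_eq_one_right h2
  have hR := s.hR
  obtain ⟨hC2, hC3⟩ := hC h s.p (2 * s.R) (by linarith) hd hinj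
  have hrr : 1 / 2 * (2 * s.R) = s.R := by ring
  rw [hrr] at hC2 hC3
  have hu : s.u₀ ∈ closedBall s.p s.R := ball_subset_closedBall s.u₀_ball
  have ha := hC2 s.u₀ hu
  rw [hsz] at ha
  refine ⟨h, hd, he, h0, hinj, fun x hx y hy => ?_, fun x hx => ?_⟩
  · obtain ⟨h4, h5⟩ := hC3 x hx y hy
    constructor
    · refine h4.trans ?_
      have : C * ‖deriv h s.p‖ ≤ C * C * s.sz n v := by
        rw [mul_assoc]; gcongr; exact ha.2
      gcongr
    · calc s.sz n v * ‖x - y‖ ≤ C * ‖deriv h s.p‖ * ‖x - y‖ := by gcongr; exact ha.1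
        _ = C * (‖deriv h s.p‖ * ‖x - y‖) := by ring
        _ ≤ C * (C * ‖h x - h y‖) := by gcongr
        _ = C * C * ‖h x - h y‖ := by ring
  · calc ‖deriv h x‖ ≤ C * ‖deriv h s.p‖ := (hC2 x hx).1
      _ ≤ C * (C * s.sz n v) := by gcongr; exact ha.2
      _ = C * C * s.sz n v := by ring

/-- branches map `O` into `O` -/
theorem branch_O {n : ℕ} {v : ℂ} {h : ℂ → ℂ} (hd : DifferentiableOn ℂ h (ball s.p (2 * s.R)))
    (he : ∀ x ∈ ball s.p (2 * s.R), s.b.F^[n] (h x) = x) (h0 : h s.u₀ = v) (hv : v ∈ s.O)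
    (hmaps : ∀ x ∈ ball s.p s.R, h x ∈ ball s.p s.R) : MapsTo h s.O s.O := by
  have hsub : s.O ⊆ ball s.p (2 * s.R) := fun x hx =>
    ball_subset_ball (by linarith [s.hR]) (s.O_sub hx).2
  have hc : IsPreconnected (h '' s.O) :=
    s.O_preconn.image h (hd.continuousOn.mono hsub)
  have hvm : v ∈ h '' s.O := ⟨s.u₀, s.u₀_O, h0⟩
  have h1 : h '' s.O ⊆ s.b.U := by
    refine s.b.sub_U hc n ?_ ⟨v, hvm, (s.O_sub hv).1⟩
    rintro _ ⟨x, hx, rfl⟩
    rw [he x (hsub hx)]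
    exact (s.O_sub hx).1
  have h2 : h '' s.O ⊆ s.O := by
    refine s.sub_O hc (fun z hz => ⟨h1 hz, ?_⟩) hvm hv
    obtain ⟨x, hx, rfl⟩ := hz
    exact hmaps x (s.O_sub hx).2
  exact fun x hx => h2 ⟨x, hx, rfl⟩

/-- two branches of the same generation which meet are equal -/
theorem branch_unique {n : ℕ} {h h' : ℂ → ℂ} (hd : DifferentiableOn ℂ h (ball s.p (2 * s.R)))
    (he : ∀ x ∈ ball s.p (2 * s.R), s.b.F^[n] (h x) = x)
    (hd' : DifferentiableOn ℂ h' (ball s.p (2 * s.R)))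
    (he' : ∀ x ∈ ball s.p (2 * s.R), s.b.F^[n] (h' x) = x) {x y : ℂ}
    (hx : x ∈ ball s.p (2 * s.R)) (hy : y ∈ ball s.p (2 * s.R)) (hxy : h x = h' y) :
    x = y ∧ EqOn h h' (ball s.p (2 * s.R)) := by
  have h1 : x = y := by rw [← he x hx, ← he' y hy, hxy]
  subst h1
  refine ⟨rfl, ?_⟩
  exact lift_unique (s.b.iter_diff n) isOpen_ball (convex_ball _ _).isPreconnected hd hd'
    (fun z hz => by rw [he z hz, he' z hz]) hx hxy (by
      have h3 := s.b.deriv_mul isOpen_ball hd (E' := id) (fun z hz => he z hz) hx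
      intro h0
      rw [h0, zero_mul, deriv_id] at h3
      exact zero_ne_one h3)

end PS

end Pool.Agent.BB.P
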