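import Pool.Agent.BB.P.Defs

/-!
# Parabolic basins: elementary facts
-/

open Set Metric Filter Topology

namespace Pool.Agent.BB.P

lemma isOpen_Hp : IsOpen Hp := isOpen_lt continuous_const Complex.continuous_im

lemma isOpen_St (t : ℝ) : IsOpen (St t) :=
  (isOpen_lt continuous_const Complex.continuous_im).inter
    (isOpen_lt Complex.continuous_im continuous_const)

lemma isOpen_Sh (t : ℝ) : IsOpen (Sh t) :=
  isOpen_lt (continuous_abs.comp Complex.continuous_im) continuous_const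

lemma isOpen_Vs (R : ℝ) : IsOpen (Vs R) :=
  isOpen_lt continuous_const (Complex.continuous_re.add
    (continuous_abs.comp Complex.continuous_im))

lemma isOpen_Qs (s R : ℝ) : IsOpen (Qs s R) :=
  isOpen_lt (continuous_const.add (continuous_abs.comp Complex.continuous_re))
    (continuous_const.mul Complex.continuous_im)

lemma convex_Hp : Convex ℝ Hp := convex_halfSpace_im_gt 0

lemma convex_St (t : ℝ) : Convex ℝ (St t) :=
  (convex_halfSpace_im_gt 0).inter (convex_halfSpace_im_lt t)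

lemma convex_Sh (t : ℝ) : Convex ℝ (Sh t) := by
  have : Sh t = {z : ℂ | -t < z.im} ∩ {z : ℂ | z.im < t} := by
    ext z; simp [Sh, abs_lt]
  rw [this]
  exact (convex_halfSpace_im_gt (-t)).inter (convex_halfSpace_im_lt t)

lemma convex_Qs (s R : ℝ) : Convex ℝ (Qs s R) := by
  intro x hx y hy a b ha hb hab
  simp only [Qs, mem_setOf_eq, Complex.add_re, Complex.add_im, Complex.real_smul, Complex.mul_re,
    Complex.mul_im, Complex.ofReal_re, Complex.ofReal_im, zero_mul, sub_zero, add_zero] at hx hy ⊢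
  have h1 : |a * x.re + b * y.re| ≤ a * |x.re| + b * |y.re| := by
    refine (abs_add_le _ _).trans ?_
    rw [abs_mul, abs_mul, abs_of_nonneg ha, abs_of_nonneg hb]
  have h2 : a * (R + |x.re|) + b * (R + |y.re|) < a * (s * x.im) + b * (s * y.im) := by
    rcases eq_or_lt_of_le ha with h | h
    · subst h
      have : b = 1 := by linarith
      subst this
      simpa using hy
    · have h3 : a * (R + |x.re|) < a * (s * x.im) := mul_lt_mul_of_pos_left hx h
      have h4 : b * (R + |y.re|) ≤ b * (s * y.im) := mul_le_mul_of_nonneg_left hy.le hb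
      linarith
  have h5 : a * R + b * R = R := by rw [← add_mul, hab, one_mul]
  nlinarith

lemma St_sub_Hp (t : ℝ) : St t ⊆ Hp := fun _ hz => hz.1

lemma St_sub_Sh (t : ℝ) : St t ⊆ Sh t := fun z hz => by
  simp only [Sh, mem_setOf_eq, abs_of_pos hz.1]; exact hz.2

lemma Vs_slit {R : ℝ} (hR : 0 ≤ R) : Vs R ⊆ Complex.slitPlane := by
  intro w hw
  rw [Complex.mem_slitPlane_iff]
  by_cases h : w.im = 0
  · left
    simp only [Vs, mem_setOf_eq, h, abs_zero, add_zero] at hw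
    linarith
  · exact Or.inr h

namespace Base

variable (b : Base)

lemma iter_mem {z : ℂ} (hz : z ∈ b.U) (n : ℕ) : b.F^[n] z ∈ b.U := b.hFU.iterate n hz

lemma iter_diff (n : ℕ) : Differentiable ℂ b.F^[n] := b.hF.iterate n

lemma im_iter {z : ℂ} (hz : z ∈ b.U) (n : ℕ) : (b.ψ z).im ≤ (b.ψ (b.F^[n] z)).im := by
  induction n with
  | zero => simp
  | succ n ih =>
    rw [Function.iterate_succ_apply']
    exact ih.trans (b.him _ (b.iter_mem hz n))

lemma cl_maps {z : ℂ} (hz : z ∈ closure b.U) : b.F z ∈ closure b.U :=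
  map_mem_closure b.hF.continuous hz b.hFU

lemma cl_iter : ∀ (n : ℕ) {z : ℂ}, z ∈ closure b.U → b.F^[n] z ∈ b.U → z ∈ b.U := by
  intro n
  induction n with
  | zero => intro z _ h; simpa using h
  | succ n ih =>
    intro z hz h
    rw [Function.iterate_succ_apply] at h
    exact b.hcl z hz (ih (b.cl_maps hz) h)

/-- connected sets which meet `U` and are mapped into `U` are contained in `U` -/
lemma sub_U {Z : Set ℂ} (hZ : IsPreconnected Z) (n : ℕ) (hF : ∀ z ∈ Z, b.F^[n] z ∈ b.U)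
    (hne : (Z ∩ b.U).Nonempty) : Z ⊆ b.U :=
  hZ.subset_of_closure_inter_subset b.hUo hne fun z hz => b.cl_iter n hz.1 (hF z hz.2)

lemma φ_mem {z : ℂ} (hz : z ∈ Hp) : b.φ z ∈ b.U := (b.hφψ z hz).1
lemma ψ_mem {z : ℂ} (hz : z ∈ b.U) : b.ψ z ∈ Hp := (b.hψφ z hz).1
lemma ψφ {z : ℂ} (hz : z ∈ Hp) : b.ψ (b.φ z) = z := (b.hφψ z hz).2
lemma φψ {z : ℂ} (hz : z ∈ b.U) : b.φ (b.ψ z) = z := (b.hψφ z hz).2

lemma φ_inj : InjOn b.φ Hp := fun x hx y hy h => by rw [← b.ψφ hx, ← b.ψφ hy, h]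

lemma deriv_φ_ne {z : ℂ} (hz : z ∈ Hp) : deriv b.φ z ≠ 0 := by
  have h1 : HasDerivAt b.φ (deriv b.φ z) z :=
    (b.hφ.differentiableAt (isOpen_Hp.mem_nhds hz)).hasDerivAt
  have h2 : HasDerivAt b.ψ (deriv b.ψ (b.φ z)) (b.φ z) :=
    (b.hψ.differentiableAt (b.hUo.mem_nhds (b.φ_mem hz))).hasDerivAt
  have h3 := h2.comp z h1
  have h4 : HasDerivAt (b.ψ ∘ b.φ) 1 z := by
    refine (hasDerivAt_id z).congr_of_eventuallyEq ?_
    filter_upwards [isOpen_Hp.mem_nhds hz] with w hw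
    exact b.ψφ hw
  intro h
  have := h3.unique h4
  rw [h, mul_zero] at this
  exact zero_ne_one this

lemma U_nonempty : b.U.Nonempty := ⟨b.φ Complex.I, b.φ_mem (by simp [Hp])⟩

lemma compl_nonempty : (b.Uᶜ).Nonempty := ⟨b.ζ, b.hζU⟩

/-- compact subsets of `U` go to compact subsets of the half plane -/
lemma ψ_compact {K : Set ℂ} (hK : IsCompact K) (hKU : K ⊆ b.U) : IsCompact (b.ψ '' K) :=
  hK.image_of_continuousOn (b.hψ.continuousOn.mono hKU)

lemma φ_compact {K : Set ℂ} (hK : IsCompact K) (hKH : K ⊆ Hp) : IsCompact (b.φ '' K) :=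
  hK.image_of_continuousOn (b.hφ.continuousOn.mono hKH)

/-- preimages of a point under iterates are countable -/
lemma preim_countable (m : ℕ) (w : ℂ) : {y | b.F^[m] y = w}.Countable := by
  rcases Nat.eq_zero_or_pos m with h0 | hm
  · subst h0
    simp
  · have hne : ∃ x, b.F^[m] x - w ≠ 0 := by
      by_contra hcon
      push Not at hcon
      have hc : ∀ x, b.F^[m] x = w := fun x => sub_eq_zero.mp (hcon x)
      obtain ⟨z, hz⟩ := b.U_nonempty
      have hwU : w ∈ b.U := by rw [← hc z]; exact b.iter_mem hz m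
      have hfix : ∀ n : ℕ, b.F^[m * n] w = w := by
        intro n
        induction n with
        | zero => simp
        | succ n ih => rw [Nat.mul_succ, Function.iterate_add_apply, hc w, ih]
      have hdist : 0 < ‖w - b.ζ‖ := norm_pos_iff.mpr (sub_ne_zero.mpr fun h => b.hζU (h ▸ hwU))
      obtain ⟨n₀, hn₀⟩ := b.hunif {w} (by simpa using hwU) isCompact_singleton _ hdist
      have h1 := hn₀ (m * n₀) (Nat.le_mul_of_pos_left n₀ hm) w rfl
      rw [hfix] at h1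
      exact lt_irrefl _ h1
    obtain ⟨x, hx⟩ := hne
    have h2 := countable_zeros (g := fun y => b.F^[m] y - w) ((b.iter_diff m).sub_const w) hx
    refine h2.mono ?_
    intro y hy
    simp only [mem_setOf_eq] at hy ⊢
    rw [hy, sub_self]

/-- derivative relation for lifts -/
lemma deriv_mul {n : ℕ} {S' : Set ℂ} (hS' : IsOpen S') {H E' : ℂ → ℂ} (hH : DifferentiableOn ℂ H S')
    (he : ∀ x ∈ S', b.F^[n] (H x) = E' x) {x : ℂ} (hx : x ∈ S') :
    deriv b.F^[n] (H x) * deriv H x = deriv E' x := by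
  have h1 : HasDerivAt H (deriv H x) x :=
    (hH.differentiableAt (hS'.mem_nhds hx)).hasDerivAt
  have h2 : HasDerivAt b.F^[n] (deriv b.F^[n] (H x)) (H x) := (b.iter_diff n (H x)).hasDerivAt
  have h3 := h2.comp x h1
  have h4 : (b.F^[n] ∘ H) =ᶠ[𝓝 x] E' := by
    filter_upwards [hS'.mem_nhds hx] with y hy
    exact he y hy
  exact (h3.congr_of_eventuallyEq h4.symm).deriv.symm

end Base

namespace Inv

variable {b : Base} {K : ℂ → ℂ}

lemma him (h : Inv b K) {ξ : ℂ} (hξ : ξ ∈ St b.t₀) : (K ξ).im ≤ ξ.im := by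
  have h1 := b.him _ (b.φ_mem (St_sub_Hp _ (h.hm hξ)))
  rw [h.hF ξ hξ, b.ψφ (St_sub_Hp _ (h.hm hξ)), b.ψφ (St_sub_Hp _ hξ)] at h1
  exact h1

lemma iter_mem (h : Inv b K) (n : ℕ) {ξ : ℂ} (hξ : ξ ∈ St b.t₀) : K^[n] ξ ∈ St b.t₀ :=
  h.hm.iterate n hξ

lemma iter_diff (h : Inv b K) (n : ℕ) : DifferentiableOn ℂ K^[n] (St b.t₀) := by
  induction n with
  | zero => exact differentiableOn_id
  | succ n ih =>
    rw [Function.iterate_succ]
    exact ih.comp h.hd h.hm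

lemma iter_im (h : Inv b K) (n : ℕ) {ξ : ℂ} (hξ : ξ ∈ St b.t₀) : (K^[n] ξ).im ≤ ξ.im := by
  induction n with
  | zero => simp
  | succ n ih =>
    rw [Function.iterate_succ_apply']
    exact (h.him (h.iter_mem n hξ)).trans ih

lemma iter_F (h : Inv b K) (n : ℕ) : ∀ {ξ : ℂ}, ξ ∈ St b.t₀ → b.F^[n] (b.φ (K^[n] ξ)) = b.φ ξ := by
  induction n with
  | zero => intro ξ _; rfl
  | succ n ih =>
    intro ξ hξ
    rw [Function.iterate_succ_apply' K, Function.iterate_succ_apply, h.hF _ (h.iter_mem n hξ), ih hξ]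

/-- `F^[i]` moves `K^[j] ξ` to `K^[j - i] ξ` -/
lemma iter_F_sub (h : Inv b K) {i j : ℕ} (hij : i ≤ j) {ξ : ℂ} (hξ : ξ ∈ St b.t₀) :
    b.F^[i] (b.φ (K^[j] ξ)) = b.φ (K^[j - i] ξ) := by
  obtain ⟨m, rfl⟩ := Nat.exists_eq_add_of_le hij
  rw [Function.iterate_add_apply, h.iter_F i (h.iter_mem m hξ), Nat.add_sub_cancel_left]

lemma injOn (h : Inv b K) : InjOn K (St b.t₀) := by
  intro x hx y hy hxy
  apply b.φ_inj (St_sub_Hp _ hx) (St_sub_Hp _ hy)
  rw [← h.hF x hx, ← h.hF y hy, hxy]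

end Inv

namespace PS

variable (s : PS)

/-- the base point -/
noncomputable def u₀ : ℂ := s.b.φ s.ξ₀

/-- the labels: backward orbits of the base point along the two ends -/
noncomputable def lab (σ : Bool) (j : ℕ) : ℂ := s.b.φ ((s.e.E σ)^[j] s.ξ₀)

/-- the size of the branch of `F^[-n]` at `v` -/
noncomputable def sz (n : ℕ) (v : ℂ) : ℝ := ‖deriv s.b.F^[n] v‖⁻¹

/-- the component of `U ∩ ball p R` containing the base point -/
def O : Set ℂ := connectedComponentIn (s.b.U ∩ ball s.p s.R) s.u₀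

/-- the exhaustion -/
def V (n : ℕ) : Set ℂ := {z | z ∈ s.b.U ∧ ∀ m ≥ n, s.b.ψ (s.b.F^[m] z) ∉ s.k.C}

/-- bad radii -/
def bad : Set ℝ := {t | ∃ (m : ℕ) (y : ℂ), s.b.F^[m] y = s.b.ζ ∧ ‖y - s.p‖ = t}

/-- absorbing channel sets -/
def Channel (Q : Set ℂ) : Prop :=
  Q ⊆ s.O ∧ (∀ t ∈ Ioo (s.R / 4) (s.R / 2), ∃ z ∈ Q, ‖z - s.p‖ = t) ∧
    ∀ Z : Set ℂ, IsPreconnected Z → (∀ z ∈ Z, z ∈ s.b.U ∧ s.R / 4 ≤ ‖z - s.p‖ ∧ ‖z - s.p‖ < s.R) →
      (Z ∩ Q).Nonempty → Z ⊆ Q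

lemma u₀_mem : s.u₀ ∈ s.b.U := s.b.φ_mem (St_sub_Hp _ s.hξ₀)

lemma u₀_ball : s.u₀ ∈ ball s.p s.R := s.hξR

lemma u₀_O : s.u₀ ∈ s.O := mem_connectedComponentIn ⟨s.u₀_mem, s.u₀_ball⟩

lemma u₀_ball2 : s.u₀ ∈ ball s.p (2 * s.R) := ball_subset_ball (by linarith [s.hR]) s.u₀_ball

lemma closedBall_sub : closedBall s.p s.R ⊆ ball s.p (2 * s.R) :=
  closedBall_subset_ball (by linarith [s.hR])

lemma O_sub : s.O ⊆ s.b.U ∩ ball s.p s.R := connectedComponentIn_subset _ _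

lemma O_open : IsOpen s.O := (s.b.hUo.inter isOpen_ball).connectedComponentIn

lemma O_preconn : IsPreconnected s.O := isPreconnected_connectedComponentIn

/-- connected sets meeting `O` are contained in `O` -/
lemma sub_O {Z : Set ℂ} (hZ : IsPreconnected Z) (hZs : Z ⊆ s.b.U ∩ ball s.p s.R) {z : ℂ}
    (hz : z ∈ Z) (hzO : z ∈ s.O) : Z ⊆ s.O := by
  have h1 := hZ.subset_connectedComponentIn hz hZs
  have h2 : connectedComponentIn (s.b.U ∩ ball s.p s.R) s.u₀ =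
      connectedComponentIn (s.b.U ∩ ball s.p s.R) z := connectedComponentIn_eq hzO
  rw [O, h2]
  exact h1

lemma lab_zero (σ : Bool) : s.lab σ 0 = s.u₀ := rfl

lemma lab_mem (σ : Bool) (j : ℕ) : s.lab σ j ∈ s.b.U :=
  s.b.φ_mem (St_sub_Hp _ ((s.e.hinv σ).iter_mem j s.hξ₀))

lemma F_lab (σ : Bool) (j : ℕ) : s.b.F^[j] (s.lab σ j) = s.u₀ := (s.e.hinv σ).iter_F j s.hξ₀

lemma F_lab_sub (σ : Bool) {i j : ℕ} (hij : i ≤ j) : s.b.F^[i] (s.lab σ j) = s.lab σ (j - i) :=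
  (s.e.hinv σ).iter_F_sub hij s.hξ₀

lemma F_add {n j : ℕ} {σ : Bool} {w : ℂ} (h : s.b.F^[n] w = s.lab σ j) :
    s.b.F^[n + j] w = s.u₀ := by
  rw [add_comm, Function.iterate_add_apply, h, s.F_lab]

lemma V_mono : Monotone s.V := fun _ _ hmn _ hz => ⟨hz.1, fun k hk => hz.2 k (hmn.trans hk)⟩

lemma V_union {z : ℂ} (hz : z ∈ s.b.U) : ∃ n, z ∈ s.V n := by
  obtain ⟨n₀, hn₀⟩ := s.k.hleave {z} (by simpa using hz) isCompact_singleton
  exact ⟨n₀, hz, fun m hm => hn₀ m hm z rfl⟩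

end PS

end Pool.Agent.BB.P
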