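import Pool.Agent.BB.P.LIFT

open Set Metric Filter Topology MeasureTheory

namespace Pool.Agent.BB.P

namespace PS

variable (s : PS)

private lemma CELL_hull {t : ℝ} {K : Set ℂ} (hK : IsCompact K) (hne : K.Nonempty) (hKS : K ⊆ St t) :
    ∃ A : Set ℂ, IsCompact A ∧ Convex ℝ A ∧ K ⊆ A ∧ A ⊆ St t := by
  obtain ⟨x1, hx1, h1⟩ := hK.exists_isMinOn hne Complex.continuous_im.continuousOn
  obtain ⟨x2, hx2, h2⟩ := hK.exists_isMaxOn hne Complex.continuous_im.continuousOn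
  obtain ⟨x3, hx3, h3⟩ := hK.exists_isMinOn hne Complex.continuous_re.continuousOn
  obtain ⟨x4, hx4, h4⟩ := hK.exists_isMaxOn hne Complex.continuous_re.continuousOn
  refine ⟨Icc x3.re x4.re ×ℂ Icc x1.im x2.im, isCompact_Icc.reProdIm isCompact_Icc,
    ?_, ?_, ?_⟩
  · have : Icc x3.re x4.re ×ℂ Icc x1.im x2.im = {x : ℂ | x3.re ≤ x.re} ∩ ({x : ℂ | x.re ≤ x4.re} ∩
        ({x : ℂ | x1.im ≤ x.im} ∩ {x : ℂ | x.im ≤ x2.im})) := by
      ext x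
      simp only [Complex.mem_reProdIm, mem_Icc, mem_inter_iff, mem_ofPred_eq]
      tauto
    rw [this]
    exact (convex_halfSpace_re_ge _).inter ((convex_halfSpace_re_le _).inter
      ((convex_halfSpace_im_ge _).inter (convex_halfSpace_im_le _)))
  · intro x hx
    rw [Complex.mem_reProdIm]
    exact ⟨⟨h3 hx, h4 hx⟩, ⟨h1 hx, h2 hx⟩⟩
  · intro x hx
    rw [Complex.mem_reProdIm] at hx
    exact ⟨(hKS hx1).1.trans_le hx.2.1, hx.2.2.trans_lt (hKS hx2).2⟩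

private lemma CELL_norm_deriv {n : ℕ} {H : ℂ → ℂ} (hd : DifferentiableOn ℂ H (St s.b.t₀))
    (hm : MapsTo H (St s.b.t₀) s.b.U) (he : ∀ x ∈ St s.b.t₀, s.b.F^[n] (H x) = s.b.φ x) {x : ℂ}
    (hx : x ∈ St s.b.t₀) : ‖deriv H x‖ = ‖deriv s.b.φ x‖ * s.sz n (H x) := by
  have h := s.b.deriv_mul (isOpen_St s.b.t₀) hd he hx
  have h0 := (s.b.lift_props hd hm he).2.1 x hx
  have h1 : ‖deriv s.b.F^[n] (H x)‖ ≠ 0 := norm_ne_zero_iff.mpr h0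
  rw [← h, norm_mul, sz]
  field_simp

lemma sz_pos {n : ℕ} {v : ℂ} (hv : v ∈ s.b.U) (h : s.b.F^[n] v = s.u₀) : 0 < s.sz n v := by
  obtain ⟨H, hd, hm, he, h0⟩ := s.b.liftS n hv s.hξ₀ h
  have h1 := (s.b.lift_props hd hm he).2.1 s.ξ₀ s.hξ₀
  rw [h0] at h1
  exact inv_pos.mpr (norm_pos_iff.mpr h1)

private lemma CELL_aux {A : Set ℂ} (hA : IsCompact A) (hAc : Convex ℝ A) (hAS : A ⊆ St s.b.t₀)
    (h0 : s.ξ₀ ∈ A) : ∃ (C : ℝ) (δ : ℝ), 1 ≤ C ∧ 0 < δ ∧ (∀ x ∈ A, ball x δ ⊆ St s.b.t₀) ∧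
      ∀ (n : ℕ) (H : ℂ → ℂ),
      DifferentiableOn ℂ H (St s.b.t₀) → MapsTo H (St s.b.t₀) s.b.U →
      (∀ x ∈ St s.b.t₀, s.b.F^[n] (H x) = s.b.φ x) → ∀ x ∈ A,
        ‖deriv H x‖ ≤ C * s.sz n (H s.ξ₀) ∧ s.sz n (H s.ξ₀) ≤ C * ‖deriv H x‖ ∧
          ‖H x - H s.ξ₀‖ ≤ C * s.sz n (H s.ξ₀) := by
  obtain ⟨δ, hδ, hδA⟩ := hA.exists_thickening_subset_open (isOpen_St s.b.t₀) hAS
  have hball : ∀ x ∈ A, ball x δ ⊆ St s.b.t₀ := fun x hx =>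
    (ball_subset_thickening hx δ).trans hδA
  obtain ⟨C, hC1, hC⟩ := chain_dist hδ (diam A)
  have hD : 0 < ‖deriv s.b.φ s.ξ₀‖ := norm_pos_iff.mpr (s.b.deriv_φ_ne (St_sub_Hp _ s.hξ₀))
  set D := ‖deriv s.b.φ s.ξ₀‖ with hDdef
  have hC0 : 0 < C := by linarith
  refine ⟨max 1 (max (C * D) (C / D)), δ, le_max_left _ _, hδ, hball, ?_⟩
  intro n H hd hm he x hx
  have hinj := (s.b.lift_props hd hm he).1
  have hsz := s.CELL_norm_deriv hd hm he s.hξ₀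
  rw [← hDdef] at hsz
  have hw : s.b.F^[n] (H s.ξ₀) = s.u₀ := he _ s.hξ₀
  have hszpos := s.sz_pos (hm s.hξ₀) hw
  have key := hC A H hAc (fun x hx y hy => by
      rw [← dist_eq_norm]
      exact dist_le_diam_of_mem hA.isBounded hx hy)
    (fun x hx => hd.mono (hball x hx)) (fun x hx => hinj.mono (hball x hx))
  have h1 := (key x hx s.ξ₀ h0).1
  have h2 := (key s.ξ₀ h0 x hx).1
  have h3 := (key x hx s.ξ₀ h0).2
  rw [hsz] at h1 h2 h3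
  have hmax1 : C * D ≤ max 1 (max (C * D) (C / D)) := (le_max_left _ _).trans (le_max_right _ _)
  have hmax2 : C / D ≤ max 1 (max (C * D) (C / D)) := (le_max_right _ _).trans (le_max_right _ _)
  refine ⟨?_, ?_, ?_⟩
  · calc ‖deriv H x‖ ≤ C * (D * s.sz n (H s.ξ₀)) := h1
      _ = (C * D) * s.sz n (H s.ξ₀) := by ring
      _ ≤ _ := by gcongr
  · have h4 : s.sz n (H s.ξ₀) ≤ C / D * ‖deriv H x‖ := by
      rw [div_mul_eq_mul_div, le_div_iff₀ hD]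
      calc s.sz n (H s.ξ₀) * D = D * s.sz n (H s.ξ₀) := by ring
        _ ≤ C * ‖deriv H x‖ := h2
    refine h4.trans ?_
    gcongr
  · calc ‖H x - H s.ξ₀‖ ≤ C * (D * s.sz n (H s.ξ₀)) := h3
      _ = (C * D) * s.sz n (H s.ξ₀) := by ring
      _ ≤ _ := by gcongr

/-- distortion of lifts on compact convex subsets of the strip -/
theorem rect_dist {A : Set ℂ} (hA : IsCompact A) (hAc : Convex ℝ A) (hAS : A ⊆ St s.b.t₀)
    (h0 : s.ξ₀ ∈ A) : ∃ C : ℝ, 1 ≤ C ∧ ∀ (n : ℕ) (H : ℂ → ℂ),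
      DifferentiableOn ℂ H (St s.b.t₀) → MapsTo H (St s.b.t₀) s.b.U →
      (∀ x ∈ St s.b.t₀, s.b.F^[n] (H x) = s.b.φ x) → ∀ x ∈ A,
        ‖deriv H x‖ ≤ C * s.sz n (H s.ξ₀) ∧ s.sz n (H s.ξ₀) ≤ C * ‖deriv H x‖ ∧
          ‖H x - H s.ξ₀‖ ≤ C * s.sz n (H s.ξ₀) := by
  obtain ⟨C, δ, hC, -, -, h⟩ := s.CELL_aux hA hAc hAS h0
  exact ⟨C, hC, h⟩

/-- The cell lemma. -/
theorem cell : ∃ C : ℝ, 1 ≤ C ∧ ∀ (n : ℕ) (z : ℂ) (σ : Bool) (j : ℕ) (η : ℂ), z ∈ s.b.U →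
    η ∈ s.k.G → s.b.ψ (s.b.F^[n] z) = (s.e.E σ)^[j] η →
      ∃ w ∈ s.b.U, s.b.F^[n] w = s.lab σ j ∧ s.sz (n + j) w ≤ C * infDist z s.b.Uᶜ ∧
        ∃ Z : Set ℂ, IsPreconnected Z ∧ Z ⊆ s.b.U ∧ z ∈ Z ∧ w ∈ Z ∧
          Z ⊆ closedBall w (C * s.sz (n + j) w) := by
  obtain ⟨A, hA, hAc, hGA, hAS⟩ := CELL_hull (s.k.hGc.insert s.ξ₀) ⟨s.ξ₀, mem_insert _ _⟩
    (insert_subset s.hξ₀ s.k.hGs)
  have h0A : s.ξ₀ ∈ A := hGA (mem_insert _ _)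
  obtain ⟨C, δ, hC1, hδ, hball, hC⟩ := s.CELL_aux hA hAc hAS h0A
  have hC0 : 0 < C := by linarith
  refine ⟨max C (16 * C / δ), hC1.trans (le_max_left _ _), ?_⟩
  intro n z σ j η hz hη hψ
  have hηS : η ∈ St s.b.t₀ := s.k.hGs hη
  have hηA : η ∈ A := hGA (mem_insert_of_mem _ hη)
  have hFn : s.b.F^[n] z = s.b.φ ((s.e.E σ)^[j] η) := by
    rw [← hψ, s.b.φψ (s.b.iter_mem hz n)]
  have hFnj : s.b.F^[n + j] z = s.b.φ η := by
    rw [add_comm, Function.iterate_add_apply, hFn]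
    exact (s.e.hinv σ).iter_F j hηS
  obtain ⟨H, hd, hm, he, h0⟩ := s.b.liftS (n + j) hz hηS hFnj
  have hw : s.b.F^[n + j] (H s.ξ₀) = s.u₀ := he _ s.hξ₀
  have hszpos := s.sz_pos (hm s.hξ₀) hw
  have heq : EqOn (fun x => s.b.F^[n] (H x)) (fun x => s.b.φ ((s.e.E σ)^[j] x)) (St s.b.t₀) := by
    refine s.b.lift_eqOn (n := j) (E := s.b.φ) (isOpen_St _) (convex_St _).isPreconnected ?_ ?_ ?_ ?_
      hηS (s.b.deriv_φ_ne (St_sub_Hp _ hηS)) ?_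
    · exact (s.b.iter_diff n).comp_differentiableOn hd
    · exact s.b.hφ.comp ((s.e.hinv σ).iter_diff j)
        (fun x hx => St_sub_Hp _ ((s.e.hinv σ).iter_mem j hx))
    · intro x hx
      rw [← Function.iterate_add_apply, add_comm j n]
      exact he x hx
    · intro x hx
      exact (s.e.hinv σ).iter_F j hx
    · simp only [h0]
      exact hFn
  refine ⟨H s.ξ₀, hm s.hξ₀, heq s.hξ₀, ?_, H '' A, ?_, ?_, ?_, ?_, ?_⟩
  · have h1 := koebe_cover hδ (hd.mono (hball η hηA))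
      ((s.b.lift_props hd hm he).1.mono (hball η hηA))
    rw [h0] at h1
    have h2 : ball z (δ * ‖deriv H η‖ / 16) ⊆ s.b.U := by
      refine h1.trans ?_
      rintro _ ⟨y, hy, rfl⟩
      exact hm (hball η hηA hy)
    have h3 : δ * ‖deriv H η‖ / 16 ≤ infDist z s.b.Uᶜ := by
      rw [le_infDist s.b.compl_nonempty]
      intro y hy
      by_contra hlt
      push Not at hlt
      exact hy (h2 (by rwa [mem_ball, dist_comm]))
    have h4 := (hC (n + j) H hd hm he η hηA).2.1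
    have h5 : s.sz (n + j) (H s.ξ₀) ≤ 16 * C / δ * infDist z s.b.Uᶜ := by
      calc s.sz (n + j) (H s.ξ₀) ≤ C * ‖deriv H η‖ := h4
        _ = 16 * C / δ * (δ * ‖deriv H η‖ / 16) := by field_simp
        _ ≤ _ := by gcongr
    refine h5.trans ?_
    gcongr
    · exact infDist_nonneg
    · exact le_max_right _ _
  · exact hAc.isPreconnected.image H (hd.continuousOn.mono hAS)
  · rintro _ ⟨y, hy, rfl⟩
    exact hm (hAS hy)
  · exact ⟨η, hηA, h0⟩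
  · exact ⟨s.ξ₀, h0A, rfl⟩
  · rintro _ ⟨y, hy, rfl⟩
    have h4 := (hC (n + j) H hd hm he y hy).2.2
    rw [mem_closedBall, dist_eq_norm]
    refine h4.trans ?_
    gcongr
    exact le_max_left _ _

end PS

end Pool.Agent.BB.P
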