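import Pool.Agent.BB.P.TILE

open Set Metric Filter Topology MeasureTheory

namespace Pool.Agent.BB.P

namespace PS

variable (s : PS)

/-- one channel in one tile -/
theorem CHAN_one {C : ℝ} {n : ℕ} {v b : ℂ} {T : Set ℂ} (hTo : IsOpen T) (hTc : IsPreconnected T)
    (hTU : T ⊆ s.b.U) (hunb : ¬ Bornology.IsBounded (s.b.F^[n] '' T))
    (hC : ∀ z ∈ s.b.U, z ∈ closure T → z ∉ T → ‖z - v‖ ≤ C * s.sz n v)
    (hvp : ‖v - s.p‖ < s.R / 8) (hsz : C * s.sz n v < s.R / 8) (hbO : b ∈ s.O) (hbT : b ∈ T)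
    (hbp : ‖b - s.p‖ < s.R / 4) : ∃ Q : Set ℂ, Q ⊆ T ∧ s.Channel Q := by
  have hR := s.hR
  have hTR : IsOpen (T ∩ ball s.p s.R) := hTo.inter isOpen_ball
  have hbTR : b ∈ T ∩ ball s.p s.R := ⟨hbT, by rw [mem_ball, dist_eq_norm]; linarith⟩
  set Q := connectedComponentIn (T ∩ ball s.p s.R) b with hQ
  have hQc : IsPreconnected Q := isPreconnected_connectedComponentIn
  have hQo : IsOpen Q := hTR.connectedComponentIn
  have hbQ : b ∈ Q := mem_connectedComponentIn hbTR
  have hQs : Q ⊆ T ∩ ball s.p s.R := connectedComponentIn_subset _ _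
  refine ⟨Q, fun z hz => (hQs hz).1, ?_, ?_, ?_⟩
  · exact s.sub_O hQc (fun z hz => ⟨hTU (hQs hz).1, (hQs hz).2⟩) hbQ hbO
  · -- crossing
    intro t ht
    by_contra hcon
    push Not at hcon
    have hbt : ‖b - s.p‖ < t := by linarith [ht.1]
    -- all points of Q are in ball p t
    have hQt : ∀ z ∈ Q, ‖z - s.p‖ < t := by
      intro z hz
      by_contra hge
      push Not at hge
      have hcont : ContinuousOn (fun z => ‖z - s.p‖) Q := by fun_prop
      have h1 := hQc.intermediate_value hbQ hz hcont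
      obtain ⟨y, hy, hyt⟩ := h1 ⟨hbt.le, hge⟩
      exact hcon y hy hyt
    have hvo : IsOpen (T \ Q) := by
      rw [isOpen_iff_mem_nhds]
      rintro z ⟨hzT, hzQ⟩
      rcases lt_or_ge t ‖z - s.p‖ with h | h
      · have hopen : IsOpen (T ∩ {z | t < ‖z - s.p‖}) :=
          hTo.inter (isOpen_lt continuous_const (by fun_prop))
        refine Filter.mem_of_superset (hopen.mem_nhds ⟨hzT, h⟩) ?_
        rintro y ⟨hyT, hyt⟩
        exact ⟨hyT, fun hyQ => absurd (hQt y hyQ) (not_lt.mpr (le_of_lt hyt))⟩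
      · have hzTR : z ∈ T ∩ ball s.p s.R := by
          refine ⟨hzT, ?_⟩
          rw [mem_ball, dist_eq_norm]
          linarith [ht.2]
        have hop : IsOpen (connectedComponentIn (T ∩ ball s.p s.R) z) := hTR.connectedComponentIn
        refine Filter.mem_of_superset (hop.mem_nhds (mem_connectedComponentIn hzTR)) ?_
        intro y hy
        refine ⟨(connectedComponentIn_subset _ _ hy).1, fun hyQ => hzQ ?_⟩
        have h1 : Q = connectedComponentIn (T ∩ ball s.p s.R) y := connectedComponentIn_eq hyQ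
        have h2 : connectedComponentIn (T ∩ ball s.p s.R) z =
            connectedComponentIn (T ∩ ball s.p s.R) y := connectedComponentIn_eq hy
        rw [h1, ← h2]
        exact mem_connectedComponentIn hzTR
    have hTQ : T ⊆ Q := by
      refine hTc.subset_left_of_subset_union hQo hvo disjoint_sdiff_self_right ?_ ⟨b, hbT, hbQ⟩
      intro z hz
      by_cases h : z ∈ Q
      · exact Or.inl h
      · exact Or.inr ⟨hz, h⟩
    apply hunb
    have hb : Bornology.IsBounded (s.b.F^[n] '' closedBall s.p s.R) :=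
      ((isCompact_closedBall _ _).image (s.b.iter_diff n).continuous).isBounded
    refine hb.subset (image_mono ?_)
    intro z hz
    exact ball_subset_closedBall (hQs (hTQ hz)).2
  · -- absorbing
    rintro Z hZ hZs ⟨z₀, hz₀Z, hz₀Q⟩
    have hZT : Z ⊆ T := by
      refine hZ.subset_left_of_subset_union hTo (isClosed_closure (s := T)).isOpen_compl ?_ ?_
        ⟨z₀, hz₀Z, (hQs hz₀Q).1⟩
      · exact disjoint_compl_right_iff_subset.mpr subset_closure
      · intro z hz
        by_cases h : z ∈ T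
        · exact Or.inl h
        · right
          intro hcl
          have h1 := hC z (hZs z hz).1 hcl h
          have h2 : ‖z - s.p‖ ≤ ‖z - v‖ + ‖v - s.p‖ := norm_sub_le_norm_sub_add_norm_sub _ _ _
          linarith [(hZs z hz).2.1]
    have h3 : Z ⊆ T ∩ ball s.p s.R := fun z hz => ⟨hZT hz, by
      rw [mem_ball, dist_eq_norm]; exact (hZs z hz).2.2⟩
    have h4 := hZ.subset_connectedComponentIn hz₀Z h3
    have h5 : Q = connectedComponentIn (T ∩ ball s.p s.R) z₀ := connectedComponentIn_eq hz₀Q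
    rw [h5]
    exact h4

/-- `N` disjoint channels at one preimage of the base point -/
theorem channels {N : ℕ} {t₂ : ℝ} {x : ℕ → ℝ} (hx : Rects s.b s.p s.R N t₂ x) :
    ∃ C : ℝ, 1 ≤ C ∧ ∀ (n : ℕ) (v : ℂ), v ∈ s.O → s.b.F^[n] v = s.u₀ → ‖v - s.p‖ < s.R / 8 →
      C * s.sz n v < s.R / 8 → ∃ Q : ℕ → Set ℂ, (∀ i < N, s.Channel (Q i)) ∧
        ∀ i < N, ∀ i' < N, i ≠ i' → Disjoint (Q i) (Q i') := by
  have hR := s.hR
  obtain ⟨C, hC1, hC⟩ := s.tiles hx
  refine ⟨C, hC1, fun n v hvO hF hvp hsz => ?_⟩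
  obtain ⟨T, hT, hdis⟩ := hC n v (s.O_sub hvO).1 hF
  have key : ∀ i, ∃ Q : Set ℂ, i < N → Q ⊆ T i ∧ s.Channel Q := by
    intro i
    by_cases hi : i < N
    · obtain ⟨hTo, hTc, hTU, hTF, hTb, Z, hZc, hZU, hZb, hvZ, b, hbZ, hbT⟩ := hT i hi
      have hball : ∀ z ∈ Z, ‖z - s.p‖ < s.R / 4 := by
        intro z hz
        have h1 : ‖z - v‖ ≤ C * s.sz n v := by
          have := hZb hz
          rwa [mem_closedBall, dist_eq_norm] at this
        have h2 : ‖z - s.p‖ ≤ ‖z - v‖ + ‖v - s.p‖ := norm_sub_le_norm_sub_add_norm_sub _ _ _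
        linarith
      have hZO : Z ⊆ s.O := s.sub_O hZc (fun z hz => ⟨hZU hz, by
        rw [mem_ball, dist_eq_norm]; linarith [hball z hz]⟩) hvZ hvO
      obtain ⟨Q, hQ1, hQ2⟩ := s.CHAN_one hTo hTc hTU (by rw [hTF]; exact hx.hunb i hi) hTb hvp hsz
        (hZO hbZ) hbT (hball b hbZ)
      exact ⟨Q, fun _ => ⟨hQ1, hQ2⟩⟩
    · exact ⟨∅, fun h => absurd h hi⟩
  choose Q hQ using key
  refine ⟨Q, fun i hi => (hQ i hi).2, fun i hi i' hi' hne => ?_⟩
  exact (hdis i hi i' hi' hne).mono (hQ i hi).1 (hQ i' hi').1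

end PS

end Pool.Agent.BB.P
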