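import Pool.Agent.BB.P.MANY

/-!
# Parabolic basins: the iterated function system
-/

open Set Metric Filter Topology MeasureTheory

namespace Pool.Agent.BB.P

namespace PS

variable (s : PS)

/-- a compact set of dimension `> 1` in the boundary -/
theorem core : ∃ Λ : Set ℂ, 1 < dimH Λ ∧ Λ ⊆ closedBall s.p s.R ∧ Λ ⊆ closure s.O ∧
    ∀ x ∈ Λ, ∃ᶠ m : ℕ in atTop, s.b.F^[m] x ∈ closedBall s.p s.R := by
  obtain ⟨Cd, hCd1, hbr⟩ := s.branch
  obtain ⟨k₁, hk₁, hdj⟩ := s.disc_disjoint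
  have hR := s.hR
  have hCd0 : 0 < Cd := by linarith
  set η : ℝ := min 1 (1 / (8 * Cd)) with hη
  have hη0 : 0 < η := by rw [hη]; simp only [lt_min_iff]; exact ⟨one_pos, by positivity⟩
  have hηCd : Cd * η ≤ 1 / 8 := by
    have h1 : Cd * η ≤ Cd * (1 / (8 * Cd)) := by gcongr; exact min_le_right _ _
    have h2 : Cd * (1 / (8 * Cd)) = 1 / 8 := by field_simp
    linarith
  obtain ⟨n₀, σ, r, W, hW, hWs⟩ := s.thin (K := 2 * Cd) hη0 k₁ hk₁
  have hbr' : ∀ i : {x // x ∈ W}, ∃ h : ℂ → ℂ, DifferentiableOn ℂ h (ball s.p (2 * s.R)) ∧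
      (∀ x ∈ ball s.p (2 * s.R), s.b.F^[n₀ + i.1.2] (h x) = x) ∧ h s.u₀ = i.1.1 ∧
      InjOn h (ball s.p (2 * s.R)) ∧
      (∀ x ∈ closedBall s.p s.R, ∀ y ∈ closedBall s.p s.R,
        ‖h x - h y‖ ≤ Cd * s.sz (n₀ + i.1.2) i.1.1 * ‖x - y‖ ∧
          s.sz (n₀ + i.1.2) i.1.1 * ‖x - y‖ ≤ Cd * ‖h x - h y‖) ∧
      (∀ x ∈ closedBall s.p s.R, ‖deriv h x‖ ≤ Cd * s.sz (n₀ + i.1.2) i.1.1) :=
    fun i => hbr (n₀ + i.1.2) i.1.1 (s.F_add (hW i.1 i.2).2.1)
  choose h hd he h0 hinj hdist hder using hbr'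
  have hm : ∀ i : {x // x ∈ W}, 1 ≤ n₀ + i.1.2 := by
    intro i
    by_contra hcon
    have h0' : n₀ + i.1.2 = 0 := by omega
    have h1 := (hW i.1 i.2).2.2.2.2
    rw [h0'] at h1
    have h2 : s.sz 0 i.1.1 = 1 := by simp [sz]
    rw [h2] at h1
    exact absurd (h1.trans_le (min_le_left _ _)) (lt_irrefl _)
  have hszpos : ∀ i : {x // x ∈ W}, 0 < s.sz (n₀ + i.1.2) i.1.1 := fun i => by
    have h1 := s.b.deriv_mul isOpen_ball (hd i) (E' := id) (fun x hx => he i x hx) s.u₀_ball2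
    rw [deriv_id, h0] at h1
    have h2 : deriv s.b.F^[n₀ + i.1.2] i.1.1 ≠ 0 := left_ne_zero_of_mul (h1 ▸ one_ne_zero)
    simp only [sz]
    positivity
  have hszle : ∀ i : {x // x ∈ W}, Cd * s.sz (n₀ + i.1.2) i.1.1 ≤ 1 / 8 := fun i => by
    have := (hW i.1 i.2).2.2.2.2
    have h1 : Cd * s.sz (n₀ + i.1.2) i.1.1 ≤ Cd * η := by gcongr
    linarith
  have hdiam : ∀ x ∈ closedBall s.p s.R, ‖x - s.u₀‖ ≤ 2 * s.R := by
    intro x hx
    rw [← dist_eq_norm]
    have h3 := dist_triangle_right x s.u₀ s.p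
    have h4 := mem_closedBall.mp hx
    have h5 := mem_ball.mp s.u₀_ball
    linarith
  have hmapsR : ∀ i, ∀ x ∈ closedBall s.p s.R, h i x ∈ ball s.p s.R := by
    intro i x hx
    have h1 := (hdist i x hx s.u₀ (ball_subset_closedBall s.u₀_ball)).1
    rw [h0] at h1
    have h6 : ‖h i x - i.1.1‖ ≤ 1 / 8 * (2 * s.R) := by
      refine h1.trans ?_
      have := hszle i
      have := hdiam x hx
      gcongr
    have h7 : ‖h i x - s.p‖ ≤ ‖h i x - i.1.1‖ + ‖i.1.1 - s.p‖ :=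
      norm_sub_le_norm_sub_add_norm_sub _ _ _
    have h8 := (hW i.1 i.2).2.2.2.1
    rw [mem_ball, dist_eq_norm]
    linarith
  have hmapsO : ∀ i, MapsTo (h i) s.O s.O := fun i =>
    s.branch_O (hd i) (he i) (h0 i) (hW i.1 i.2).1 fun x hx =>
      hmapsR i x (ball_subset_closedBall hx)
  have hsub := s.closedBall_sub
  refine ⟨{x : ℂ | ∃ ω : ℕ → {x // x ∈ W}, ∀ n, x ∈ word h ω n '' closedBall s.p s.R}, ?_, ?_, ?_,
    ?_⟩
  · refine ifs_dim (isCompact_closedBall _ _) ⟨s.p, mem_closedBall_self hR.le, s.u₀,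
      ball_subset_closedBall s.u₀_ball, fun h => s.hpU (h ▸ s.u₀_mem)⟩ h
      (fun i => (hd i).continuousOn.mono hsub)
      (fun i x hx => ball_subset_closedBall (hmapsR i x hx)) ?_
      (fun i => s.sz (n₀ + i.1.2) i.1.1 / Cd)
      (fun i => div_pos (hszpos i) hCd0) ?_ ?_
    · intro i j hij
      refine hdj n₀ σ i.1.2 j.1.2 i.1.1 j.1.1 (hW i.1 i.2).2.1 (hW j.1 j.2).2.1
        ((hW i.1 i.2).2.2.1.trans (hW j.1 j.2).2.2.1.symm) ?_ (h i) (h j) (hd i) (he i) (h0 i)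
        (hd j) (he j) (h0 j)
      intro h1
      exact hij (Subtype.ext (Prod.ext (Prod.ext_iff.mp h1).1 (Prod.ext_iff.mp h1).2))
    · intro i x hx y hy
      have h1 := (hdist i x hx y hy).2
      rw [dist_eq_norm, dist_eq_norm, div_mul_eq_mul_div, div_le_iff₀ hCd0]
      linarith
    · rw [← Finset.sum_div, lt_div_iff₀ hCd0]
      have h1 : ∑ i : {x // x ∈ W}, s.sz (n₀ + i.1.2) i.1.1 =
          ∑ τ ∈ W, s.sz (n₀ + τ.2) τ.1 :=
        Finset.sum_coe_sort W (fun τ => s.sz (n₀ + τ.2) τ.1)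
      rw [h1]
      linarith
  · rintro x ⟨ω, hω⟩
    obtain ⟨y, hy, hyx⟩ := hω 0
    simp only [word, id] at hyx
    rw [← hyx]; exact hy
  · -- closure of O
    rintro x ⟨ω, hω⟩
    have hwO : ∀ n, MapsTo (word h ω n) s.O s.O := by
      intro n
      induction n with
      | zero => intro z hz; exact hz
      | succ n ih => intro z hz; exact ih (hmapsO (ω n) hz)
    have hlip : ∀ n, ∀ y ∈ closedBall s.p s.R, ∀ z ∈ closedBall s.p s.R,
        ‖word h ω n y - word h ω n z‖ ≤ (1 / 8) ^ n * ‖y - z‖ := by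
      intro n
      induction n with
      | zero => intro y _ z _; simp [word]
      | succ n ih =>
        intro y hy z hz
        have h1 := ih (h (ω n) y) (ball_subset_closedBall (hmapsR _ y hy)) (h (ω n) z)
          (ball_subset_closedBall (hmapsR _ z hz))
        have h2 := (hdist (ω n) y hy z hz).1
        have h3 := hszle (ω n)
        calc ‖word h ω (n + 1) y - word h ω (n + 1) z‖
            = ‖word h ω n (h (ω n) y) - word h ω n (h (ω n) z)‖ := rfl
          _ ≤ (1 / 8) ^ n * ‖h (ω n) y - h (ω n) z‖ := h1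
          _ ≤ (1 / 8) ^ n * (1 / 8 * ‖y - z‖) := by
              gcongr
              exact h2.trans (by gcongr)
          _ = (1 / 8) ^ (n + 1) * ‖y - z‖ := by ring
    rw [Metric.mem_closure_iff]
    intro ε hε
    obtain ⟨n, hn⟩ := exists_pow_lt_of_lt_one (show (0:ℝ) < ε / (2 * s.R) by positivity)
      (show (1/8 : ℝ) < 1 by norm_num)
    obtain ⟨y, hy, hyx⟩ := hω n
    refine ⟨word h ω n s.u₀, hwO n s.u₀_O, ?_⟩
    rw [← hyx, dist_eq_norm]
    have h1 := hlip n y hy s.u₀ (ball_subset_closedBall s.u₀_ball)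
    have h2 := hdiam y hy
    calc ‖word h ω n y - word h ω n s.u₀‖ ≤ (1 / 8) ^ n * ‖y - s.u₀‖ := h1
      _ ≤ (1 / 8) ^ n * (2 * s.R) := by gcongr
      _ < ε / (2 * s.R) * (2 * s.R) := by gcongr
      _ = ε := by field_simp
  · rintro x ⟨ω, hω⟩
    have key : ∀ n, ∀ y ∈ closedBall s.p s.R,
        s.b.F^[∑ k ∈ Finset.range n, (n₀ + (ω k).1.2)] (word h ω n y) = y := by
      intro n
      induction n with
      | zero => intro y _; simp [word]
      | succ n ih =>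
        intro y hy
        have h1 := ih (h (ω n) y) (ball_subset_closedBall (hmapsR _ y hy))
        rw [Finset.sum_range_succ, add_comm, Function.iterate_add_apply]
        have h3 : word h ω (n + 1) y = word h ω n (h (ω n) y) := rfl
        rw [h3, h1, he (ω n) y (hsub hy)]
    have hge : ∀ n, n ≤ ∑ k ∈ Finset.range n, (n₀ + (ω k).1.2) := by
      intro n
      induction n with
      | zero => simp
      | succ n ih =>
        rw [Finset.sum_range_succ]
        have := hm (ω n)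
        omega
    rw [Filter.frequently_atTop]
    intro N
    obtain ⟨y, hy, hyx⟩ := hω N
    refine ⟨_, hge N, ?_⟩
    rw [← hyx, key N y hy]
    exact hy

end PS

end Pool.Agent.BB.P
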