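import Pool.Agent.BB.P.EXIT

open Set Metric Filter Topology MeasureTheory

namespace Pool.Agent.BB.P

namespace PS

variable (s : PS)

/-- exit points are close to the complement of `U` -/
theorem small_dist {L : Set ℂ} (hL : IsCompact L) {η : ℝ} (hη : 0 < η) : ∃ n₀ : ℕ, ∀ n ≥ n₀,
    ∀ z ∈ s.b.U, z ∈ L → ∀ (σ : Bool) (j : ℕ), ∀ θ ∈ s.k.G,
      s.b.ψ (s.b.F^[n] z) = (s.e.E σ)^[j] θ → infDist z s.b.Uᶜ < η := by
  set K : Set ℂ := L ∩ {z | η ≤ infDist z s.b.Uᶜ} with hK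
  have hKc : IsCompact K := hL.inter_right
    (isClosed_le continuous_const (continuous_infDist_pt _))
  have hKU : K ⊆ s.b.U := by
    intro z hz
    by_contra hcon
    have : infDist z s.b.Uᶜ = 0 := infDist_zero_of_mem hcon
    have h2 : η ≤ infDist z s.b.Uᶜ := hz.2
    linarith
  obtain ⟨n₀, hn₀⟩ := s.k.hleave K hKU hKc
  refine ⟨n₀, fun n hn z hz hzL σ j θ hθ hψ => ?_⟩
  by_contra hcon
  push Not at hcon
  have h1 := hn₀ n hn z ⟨hzL, hcon⟩
  rw [hψ] at h1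
  exact h1 (s.k.hGC σ j θ hθ)

theorem bad_countable : s.bad.Countable := by
  have h : s.bad = ⋃ m : ℕ, (fun y => ‖y - s.p‖) '' {y | s.b.F^[m] y = s.b.ζ} := by
    ext t
    simp only [bad, mem_setOf_eq, mem_iUnion, mem_image]
  rw [h]
  exact countable_iUnion fun m => (s.b.preim_countable m s.b.ζ).image _

/-- the labelled preimages of a level form a countable set -/
theorem countable_lab (n : ℕ) :
    {τ : ℂ × Bool × ℕ | s.b.F^[n] τ.1 = s.lab τ.2.1 τ.2.2}.Countable := by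
  have h : {τ : ℂ × Bool × ℕ | s.b.F^[n] τ.1 = s.lab τ.2.1 τ.2.2} ⊆
      ⋃ l : Bool × ℕ, (fun y : ℂ => (y, l)) '' {y | s.b.F^[n] y = s.lab l.1 l.2} := by
    rintro ⟨y, l⟩ hy
    exact mem_iUnion.mpr ⟨l, y, hy, rfl⟩
  exact (countable_iUnion fun l => (s.b.preim_countable n _).image _).mono h

end PS

end Pool.Agent.BB.P
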