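import Pool.Agent.BB.P.CELL
import Pool.Agent.BB.P.SMALL

open Set Metric Filter Topology MeasureTheory

namespace Pool.Agent.BB.P

namespace PS

variable (s : PS)

/-- The crossing lemma. -/
theorem crossing : ∃ C : ℝ, 1 ≤ C ∧ ∀ η : ℝ, 0 < η → ∃ n₀ : ℕ, ∀ n ≥ n₀, ∀ Q : Set ℂ,
    s.Channel Q → ∀ t ∈ Ioo (3 * s.R / 8) (s.R / 2), t ∉ s.bad → ∀ z ∈ Q, z ∈ s.V n →
      ‖z - s.p‖ = t → ∃ w ∈ Q, ∃ (σ : Bool) (j : ℕ), s.b.F^[n] w = s.lab σ j ∧
        s.sz (n + j) w < η ∧ ‖w - s.p‖ < 3 * s.R / 4 ∧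
          |t - ‖w - s.p‖| ≤ C * s.sz (n + j) w := by
  obtain ⟨C, hC1, hC⟩ := s.cell
  have hC0 : 0 < C := by linarith
  have hR := s.hR
  refine ⟨C, hC1, fun η hη => ?_⟩
  set δ : ℝ := min η (s.R / 8) / (2 * (1 + 2 * C * C)) with hδ
  have hmin : 0 < min η (s.R / 8) := lt_min hη (by linarith)
  have hδ0 : 0 < δ := by positivity
  have hδ1 : δ * (1 + 2 * C * C) < min η (s.R / 8) := by
    rw [hδ, div_mul_eq_mul_div, div_lt_iff₀ (by positivity)]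
    nlinarith [mul_pos hC0 hC0]
  obtain ⟨n₀, hn₀⟩ := s.small_dist (isCompact_closedBall s.p s.R) hδ0
  refine ⟨n₀, fun n hn Q hQ t ht htb z hzQ hzV hzt => ?_⟩
  obtain ⟨hQO, -, habs⟩ := hQ
  have ht0 : 0 < t := by linarith [ht.1]
  obtain ⟨y, hyt, hyU⟩ := s.hcirc t ht0
  -- rotation from z to y
  have hzp : z - s.p ≠ 0 := by
    intro h; rw [h, norm_zero] at hzt; exact ht0.ne hzt
  set q : ℂ := (y - s.p) / (z - s.p) with hq
  have hq1 : ‖q‖ = 1 := by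
    rw [hq, norm_div, hyt, hzt, div_self ht0.ne']
  have hq0 : q ≠ 0 := by
    intro h; rw [h, norm_zero] at hq1; exact zero_ne_one hq1
  have hlogre : (Complex.log q).re = 0 := by
    rw [Complex.log_re, hq1, Real.log_one]
  set κ : ℝ → ℂ := fun x => s.p + (z - s.p) * Complex.exp (x * Complex.log q) with hκdef
  have hκc : Continuous κ := by fun_prop
  have hκt : ∀ x, ‖κ x - s.p‖ = t := by
    intro x
    simp only [hκdef, add_sub_cancel_left, norm_mul, hzt, Complex.norm_exp]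
    have : ((x : ℂ) * Complex.log q).re = 0 := by simp [hlogre]
    rw [this, Real.exp_zero, mul_one]
  have hκ0 : κ 0 = z := by simp [hκdef]
  have hκ1 : κ 1 = y := by
    simp only [hκdef, Complex.ofReal_one, one_mul, Complex.exp_log hq0]
    rw [hq, mul_div_cancel₀ _ hzp]
    ring
  obtain ⟨t', ht', htU, σ, j, θ, hθ, htψ⟩ := s.k.exit (n := n) hκc.continuousOn
    (by rw [hκ0]; exact hzV.1) (by rw [hκ0]; exact hzV.2 n le_rfl)
    (by rw [hκ1]; exact hyU) (fun x _ h => htb ⟨n, κ x, h, hκt x⟩)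
  set z' := κ t' with hz'
  have hz'U : z' ∈ s.b.U := htU t' ⟨ht'.1.le, le_rfl⟩
  have hz'Q : z' ∈ Q := by
    have h1 : κ '' Icc 0 t' ⊆ Q := by
      refine habs _ (isPreconnected_Icc.image _ hκc.continuousOn) ?_ ⟨z, ⟨0, ⟨le_rfl, ht'.1.le⟩, hκ0⟩,
        hzQ⟩
      rintro _ ⟨x, hx, rfl⟩
      refine ⟨htU x hx, ?_, ?_⟩
      · rw [hκt]; linarith [ht.1]
      · rw [hκt]; linarith [ht.2]
    exact h1 ⟨t', ⟨ht'.1.le, le_rfl⟩, rfl⟩
  have hz't : ‖z' - s.p‖ = t := hκt t'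
  have hinf := hn₀ n hn z' hz'U (by rw [mem_closedBall, dist_eq_norm, hz't]; linarith [ht.2])
    σ j θ hθ htψ
  obtain ⟨w, hwU, hwF, hwsz, Z, hZ, hZU, hzZ, hwZ, hZb⟩ := hC n z' σ j θ hz'U hθ htψ
  have hszpos := s.sz_pos hwU (s.F_add hwF)
  have hsz : s.sz (n + j) w < C * δ := hwsz.trans_lt (by gcongr)
  have hCsz : C * s.sz (n + j) w < C * (C * δ) := by gcongr
  have hzw : ‖z' - w‖ ≤ C * s.sz (n + j) w := by
    have := hZb hzZ
    rwa [mem_closedBall, dist_eq_norm] at this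
  have hyZ : ∀ y ∈ Z, ‖y - z'‖ < s.R / 8 := by
    intro y hy
    have h2 : ‖y - w‖ ≤ C * s.sz (n + j) w := by
      have := hZb hy
      rwa [mem_closedBall, dist_eq_norm] at this
    have h3 : ‖y - z'‖ ≤ ‖y - w‖ + ‖w - z'‖ := norm_sub_le_norm_sub_add_norm_sub _ _ _
    rw [norm_sub_rev w z'] at h3
    have h4 := hδ1.trans_le (min_le_right η (s.R / 8))
    nlinarith
  have hring : ∀ y ∈ Z, s.R / 4 ≤ ‖y - s.p‖ ∧ ‖y - s.p‖ < 3 * s.R / 4 := by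
    intro y hy
    have h1 := hyZ y hy
    have h2 : ‖y - s.p‖ ≤ ‖y - z'‖ + ‖z' - s.p‖ := norm_sub_le_norm_sub_add_norm_sub _ _ _
    have h3 : ‖z' - s.p‖ ≤ ‖z' - y‖ + ‖y - s.p‖ := norm_sub_le_norm_sub_add_norm_sub _ _ _
    rw [norm_sub_rev z' y] at h3
    constructor <;> linarith [ht.1, ht.2]
  have hZQ : Z ⊆ Q := habs Z hZ (fun y hy => ⟨hZU hy, (hring y hy).1, by linarith [(hring y hy).2]⟩)
    ⟨z', hzZ, hz'Q⟩
  refine ⟨w, hZQ hwZ, σ, j, hwF, ?_, (hring w hwZ).2, ?_⟩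
  · have h4 := hδ1.trans_le (min_le_left η (s.R / 8))
    nlinarith
  · rw [← hz't]
    have h1 := abs_norm_sub_norm_le (z' - s.p) (w - s.p)
    have h2 : z' - s.p - (w - s.p) = z' - w := by ring
    rw [h2] at h1
    exact h1.trans hzw

end PS

end Pool.Agent.BB.P
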