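import Pool.Agent.BB.P.HARN

open Set Metric Filter Topology MeasureTheory

namespace Pool.Agent.BB.P

/-- the half-open rectangle -/
def rect (x t : ℝ) : Set ℂ := {z | |z.re| ≤ x ∧ (0 < z.im ∧ z.im ≤ t)}

/-- the union of the images of the rectangle -/
def CC {b : Base} (e : Ends b) (x t : ℝ) : Set ℂ :=
  ⋃ (σ : Bool) (j : ℕ), (e.E σ)^[j] '' rect x t

variable {b : Base}

/-- the compact part of the rectangle -/
private def cutaR (x t δ : ℝ) : Set ℂ := {z | |z.re| ≤ x ∧ (δ ≤ z.im ∧ z.im ≤ t)}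

private lemma cutaR_compact (x t δ : ℝ) : IsCompact (cutaR x t δ) := by
  have h : cutaR x t δ = Icc (-x) x ×ℂ Icc δ t := by
    ext z
    simp only [cutaR, Complex.mem_reProdIm, mem_Icc, abs_le, Set.mem_ofPred_eq]
  rw [h]
  exact isCompact_Icc.reProdIm isCompact_Icc

private lemma cutaR_sub_rect {x t δ : ℝ} (hδ : 0 < δ) : cutaR x t δ ⊆ rect x t :=
  fun _ hz => ⟨hz.1, lt_of_lt_of_le hδ hz.2.1, hz.2.2⟩

private lemma rect_sub_St {x t : ℝ} (ht : t < b.t₀) : rect x t ⊆ St b.t₀ :=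
  fun _ hz => ⟨hz.2.1, lt_of_le_of_lt hz.2.2 ht⟩

/-- only finitely many images of a rectangle meet `im ≥ δ` -/
theorem rect_small (e : Ends b) {x t : ℝ} (ht : t < b.t₀) {δ : ℝ} (hδ : 0 < δ) :
    ∃ j₀ : ℕ, ∀ j ≥ j₀, ∀ σ, ∀ η ∈ rect x t, ((e.E σ)^[j] η).im < δ := by
  have hAs : cutaR x t δ ⊆ St b.t₀ := (cutaR_sub_rect hδ).trans (rect_sub_St ht)
  obtain ⟨C, hC1, hC⟩ := harnack_compact (isOpen_St b.t₀) (convex_St b.t₀).isPreconnected
    (cutaR_compact x t δ) hAs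
  have hC0 : 0 < C := by linarith
  have main : ∀ σ, ∃ j₀ : ℕ, ∀ j ≥ j₀, ∀ η ∈ rect x t, ((e.E σ)^[j] η).im < δ := by
    intro σ
    rcases (cutaR x t δ).eq_empty_or_nonempty with hA | ⟨η₀, hη₀⟩
    · refine ⟨0, fun j _ η hη => ?_⟩
      have h1 : η.im < δ := by
        by_contra hcon
        push Not at hcon
        have : η ∈ cutaR x t δ := ⟨hη.1, hcon, hη.2.2⟩
        rw [hA] at this
        exact this
      exact lt_of_le_of_lt ((e.hinv σ).iter_im j (rect_sub_St ht hη)) h1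
    · have h2 := (e.him0 σ η₀ (hAs hη₀)).eventually (gt_mem_nhds (show (0:ℝ) < δ / C by positivity))
      obtain ⟨j₀, hj₀⟩ := eventually_atTop.1 h2
      refine ⟨j₀, fun j hj η hη => ?_⟩
      by_cases hd : η.im < δ
      · exact lt_of_le_of_lt ((e.hinv σ).iter_im j (rect_sub_St ht hη)) hd
      · push Not at hd
        have hηA : η ∈ cutaR x t δ := ⟨hη.1, hd, hη.2.2⟩
        have h3 := (hC _ ((e.hinv σ).iter_diff j)
          (fun z hz => ((e.hinv σ).iter_mem j hz).1.le) η hηA η₀ hη₀).1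
        have h4 := hj₀ j hj
        rw [lt_div_iff₀ hC0] at h4
        linarith
  obtain ⟨j₁, h₁⟩ := main true
  obtain ⟨j₂, h₂⟩ := main false
  refine ⟨max j₁ j₂, fun j hj σ => ?_⟩
  cases σ
  · exact h₂ j ((le_max_right _ _).trans hj)
  · exact h₁ j ((le_max_left _ _).trans hj)

/-- `CC` is relatively closed in the half plane -/
theorem CC_closed (e : Ends b) {x t : ℝ} (ht : t < b.t₀) :
    ∀ ξ ∈ Hp, ξ ∈ closure (CC e x t) → ξ ∈ CC e x t := by
  intro ξ hξ hcl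
  have hξ0 : 0 < ξ.im := hξ
  set δ := ξ.im / 2 with hδdef
  have hδ : 0 < δ := by positivity
  have hδξ : δ < ξ.im := by linarith
  obtain ⟨j₀, hj₀⟩ := rect_small e (x := x) ht hδ
  have hsub : cutaR x t δ ⊆ rect x t := cutaR_sub_rect hδ
  set T : Set ℂ := ⋃ σ : Bool, ⋃ j ∈ Finset.range j₀, (e.E σ)^[j] '' cutaR x t δ with hT
  have hTc : IsCompact T := by
    refine isCompact_iUnion fun σ => ?_
    refine (Finset.range j₀).isCompact_biUnion fun j _ => ?_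
    exact (cutaR_compact x t δ).image_of_continuousOn
      (((e.hinv σ).iter_diff j).continuousOn.mono (hsub.trans (rect_sub_St ht)))
  have hTsub : T ⊆ CC e x t := by
    intro z hz
    simp only [hT, mem_iUnion] at hz
    obtain ⟨σ, j, _, η, hη, rfl⟩ := hz
    exact mem_iUnion.2 ⟨σ, mem_iUnion.2 ⟨j, η, hsub hη, rfl⟩⟩
  have h1 : CC e x t ∩ {z : ℂ | δ < z.im} ⊆ T := by
    rintro z ⟨hz, hzδ⟩
    simp only [CC, mem_iUnion] at hz
    obtain ⟨σ, j, η, hη, rfl⟩ := hz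
    have hzδ' : δ < ((e.E σ)^[j] η).im := hzδ
    have hj : j < j₀ := by
      by_contra hcon
      push Not at hcon
      exact absurd (hj₀ j hcon σ η hη) (not_lt.2 hzδ'.le)
    have him : δ ≤ η.im := hzδ'.le.trans ((e.hinv σ).iter_im j (rect_sub_St ht hη))
    simp only [hT, mem_iUnion]
    exact ⟨σ, j, Finset.mem_range.2 hj, η, ⟨hη.1, him, hη.2.2⟩, rfl⟩
  have hopen : IsOpen {z : ℂ | δ < z.im} := isOpen_lt continuous_const Complex.continuous_im
  have h2 : ξ ∈ closure (CC e x t ∩ {z : ℂ | δ < z.im}) := by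
    rw [inter_comm]
    exact hopen.inter_closure ⟨hδξ, hcl⟩
  exact hTsub (hTc.isClosed.closure_subset_iff.2 h1 h2)

/-- orbits leave `CC` -/
theorem CC_leave (e : Ends b) {x t : ℝ} (ht : t < b.t₀) {K : Set ℂ} (hKU : K ⊆ b.U)
    (hK : IsCompact K) : ∃ n₀ : ℕ, ∀ n ≥ n₀, ∀ z ∈ K, b.ψ (b.F^[n] z) ∉ CC e x t := by
  rcases K.eq_empty_or_nonempty with hKe | hKne
  · subst hKe
    exact ⟨0, fun n _ z hz => absurd hz (notMem_empty z)⟩
  obtain ⟨z₀, hz₀, hmin⟩ := hK.exists_isMinOn hKne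
    (Complex.continuous_im.comp_continuousOn (b.hψ.continuousOn.mono hKU))
  set δ := (b.ψ z₀).im with hδdef
  have hδ : 0 < δ := b.ψ_mem (hKU hz₀)
  have hδK : ∀ z ∈ K, δ ≤ (b.ψ z).im := fun z hz => hmin hz
  have hsubH : cutaR x t δ ⊆ Hp :=
    (cutaR_sub_rect hδ).trans ((rect_sub_St ht).trans (St_sub_Hp _))
  have hK2 : IsCompact (b.φ '' cutaR x t δ) := b.φ_compact (cutaR_compact x t δ) hsubH
  have hζ : b.ζ ∉ b.φ '' cutaR x t δ := by
    rintro ⟨w, hw, hwe⟩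
    exact b.hζU (hwe ▸ b.φ_mem (hsubH hw))
  obtain ⟨ε, hε, hball⟩ := Metric.isOpen_iff.1 hK2.isClosed.isOpen_compl b.ζ hζ
  obtain ⟨n₀, hn₀⟩ := b.hunif K hKU hK ε hε
  refine ⟨n₀, fun n hn z hz hmem => ?_⟩
  simp only [CC, mem_iUnion] at hmem
  obtain ⟨σ, j, η, hη, hηe⟩ := hmem
  have hηS : η ∈ St b.t₀ := rect_sub_St ht hη
  have hzU : b.F^[n] z ∈ b.U := b.iter_mem (hKU hz) n
  have h1 : b.F^[n] z = b.φ ((e.E σ)^[j] η) := by rw [hηe, b.φψ hzU]
  have h2 : b.F^[j + n] z = b.φ η := by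
    rw [Function.iterate_add_apply, h1, (e.hinv σ).iter_F j hηS]
  have h3 : δ ≤ η.im := by
    have h4 := (e.hinv σ).iter_im j hηS
    rw [hηe] at h4
    exact (hδK z hz).trans ((b.im_iter (hKU hz) n).trans h4)
  have h5 : b.F^[j + n] z ∈ ball b.ζ ε := by
    rw [mem_ball, dist_eq_norm]
    exact hn₀ (j + n) (by omega) z hz
  exact hball h5 ⟨η, ⟨hη.1, h3, hη.2.2⟩, h2.symm⟩

end Pool.Agent.BB.P
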