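import Pool.Agent.BB.P.CUTA

open Set Metric Filter Topology MeasureTheory

namespace Pool.Agent.BB.P

variable {b : Base}

/-! ### The extended maps on the symmetric strip -/

private lemma cutb_maps (e : Ends b) (σ : Bool) {z : ℂ} (hz : z ∈ Sh b.t₀) :
    e.E σ z ∈ Sh b.t₀ ∧ (z.im ≤ 0 → (e.E σ z).im ≤ 0) := by
  rcases lt_trichotomy z.im 0 with h | h | h
  · have hw : (starRingEnd ℂ) z ∈ St b.t₀ := by
      refine ⟨by simpa using h, ?_⟩
      have h1 : |z.im| < b.t₀ := hz
      rw [abs_of_neg h] at h1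
      simpa using h1
    have h2 := (e.hinv σ).hm hw
    have h3 : (e.E σ z) = (starRingEnd ℂ) (e.E σ ((starRingEnd ℂ) z)) := by
      rw [(e.hext σ).hconj z hz, Complex.conj_conj]
    have h4 : (e.E σ z).im = -(e.E σ ((starRingEnd ℂ) z)).im := by
      rw [h3, Complex.conj_im]
    have h5 := h2.1
    have h6 := h2.2
    refine ⟨?_, fun _ => by rw [h4]; linarith⟩
    show |(e.E σ z).im| < b.t₀
    rw [h4, abs_neg, abs_of_pos h5]
    exact h6
  · have hz' : z = ((z.re : ℝ) : ℂ) := by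
      apply Complex.ext <;> simp [h]
    have h1 : (e.E σ z).im = 0 := by rw [hz']; exact (e.hext σ).hre z.re
    refine ⟨?_, fun _ => h1.le⟩
    show |(e.E σ z).im| < b.t₀
    rw [h1, abs_zero]
    exact b.ht₀
  · have hzS : z ∈ St b.t₀ := ⟨h, by have h1 : |z.im| < b.t₀ := hz; rwa [abs_of_pos h] at h1⟩
    exact ⟨St_sub_Sh _ ((e.hinv σ).hm hzS), fun h' => absurd h (not_lt.2 h')⟩

private lemma cutb_iter_maps (e : Ends b) (σ : Bool) (j : ℕ) {z : ℂ} (hz : z ∈ Sh b.t₀) :
    (e.E σ)^[j] z ∈ Sh b.t₀ ∧ (z.im ≤ 0 → ((e.E σ)^[j] z).im ≤ 0) := by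
  induction j with
  | zero => exact ⟨hz, fun h => h⟩
  | succ j ih =>
    rw [Function.iterate_succ_apply']
    have h1 := cutb_maps e σ ih.1
    exact ⟨h1.1, fun h => h1.2 (ih.2 h)⟩

private lemma cutb_iter_diff (e : Ends b) (σ : Bool) (j : ℕ) :
    DifferentiableOn ℂ (e.E σ)^[j] (Sh b.t₀) := by
  induction j with
  | zero => exact differentiableOn_id
  | succ j ih =>
    rw [Function.iterate_succ]
    exact ih.comp (e.hext σ).hd fun z hz => (cutb_maps e σ hz).1

private lemma cutb_iter_inj (e : Ends b) (σ : Bool) (j : ℕ) : InjOn (e.E σ)^[j] (Sh b.t₀) := by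
  induction j with
  | zero => exact fun x _ y _ h => h
  | succ j ih =>
    intro x hx y hy h
    rw [Function.iterate_succ_apply, Function.iterate_succ_apply] at h
    exact (e.hext σ).hinj hx hy (ih (cutb_maps e σ hx).1 (cutb_maps e σ hy).1 h)

private lemma cutb_real_mem (e : Ends b) (y : ℝ) : (y : ℂ) ∈ Sh b.t₀ := by
  show |((y : ℂ)).im| < b.t₀
  rw [Complex.ofReal_im, abs_zero]
  exact b.ht₀

/-- the real map -/
private noncomputable def cutbG (e : Ends b) (σ : Bool) (y : ℝ) : ℝ := (e.E σ y).re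

private lemma cutbG_eq (e : Ends b) (σ : Bool) (y : ℝ) : ((cutbG e σ y : ℝ) : ℂ) = e.E σ y := by
  apply Complex.ext
  · simp [cutbG]
  · simp [(e.hext σ).hre y]

private lemma cutbG_iter (e : Ends b) (σ : Bool) (j : ℕ) (y : ℝ) :
    (((cutbG e σ)^[j] y : ℝ) : ℂ) = (e.E σ)^[j] y := by
  have h : Function.Semiconj (fun x : ℝ => (x : ℂ)) (cutbG e σ) (e.E σ) :=
    fun x => cutbG_eq e σ x
  exact h.iterate_right j y

private lemma cutbG_cont (e : Ends b) (σ : Bool) : Continuous (cutbG e σ) := by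
  rw [continuous_iff_continuousAt]
  intro y
  have h1 : ContinuousAt (e.E σ) (y : ℂ) :=
    ((e.hext σ).hd.differentiableAt ((isOpen_Sh _).mem_nhds (cutb_real_mem e y))).continuousAt
  exact Complex.continuous_re.continuousAt.comp
    (ContinuousAt.comp (f := fun y : ℝ => (y : ℂ)) h1 Complex.continuous_ofReal.continuousAt)

/-! ### Covering of the real line -/

private lemma cutb_unbdd {g : ℝ → ℝ} (hc : Continuous g) (hg : ∀ y, y < g y) (x y : ℝ) :
    ∃ n : ℕ, y < g^[n] x := by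
  by_contra hcon
  push Not at hcon
  have hmono : Monotone fun n : ℕ => g^[n] x := by
    refine monotone_nat_of_le_succ fun n => ?_
    rw [Function.iterate_succ_apply']
    exact (hg _).le
  have hbdd : BddAbove (range fun n : ℕ => g^[n] x) := by
    refine ⟨y, ?_⟩
    rintro _ ⟨n, rfl⟩
    exact hcon n
  have hlim := tendsto_atTop_ciSup hmono hbdd
  set L := ⨆ n : ℕ, g^[n] x with hL
  have h1 : Tendsto (fun n : ℕ => g^[n + 1] x) atTop (𝓝 L) := hlim.comp (tendsto_add_atTop_nat 1)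
  have h2 : Tendsto (fun n : ℕ => g^[n + 1] x) atTop (𝓝 (g L)) := by
    have := (hc.tendsto L).comp hlim
    refine this.congr fun n => ?_
    rw [Function.iterate_succ_apply']
    rfl
  exact (hg L).ne (tendsto_nhds_unique h1 h2)

private lemma cutb_cover {g : ℝ → ℝ} (hc : Continuous g) (hm : StrictMono g) (hg : ∀ y, y < g y)
    {x : ℝ} (hx : 0 < x) (hx1 : g (-x) < x) {y : ℝ} (hy : -x < y) :
    ∃ (j : ℕ) (y' : ℝ), |y'| < x ∧ g^[j] y' = y := by
  classical
  have hex := cutb_unbdd hc hg x y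
  set j := Nat.find hex with hj
  have hjs : y < g^[j] x := Nat.find_spec hex
  have hjl : g^[j] (-x) < y := by
    rcases Nat.eq_zero_or_pos j with h0 | hpos
    · rw [h0]; exact hy
    · obtain ⟨m, hm'⟩ : ∃ m, j = m + 1 := ⟨j - 1, by omega⟩
      have h1 : ¬ y < g^[m] x := Nat.find_min hex (by omega)
      push Not at h1
      rw [hm', Function.iterate_succ_apply]
      exact lt_of_lt_of_le (hm.iterate m hx1) h1
  obtain ⟨y', hy', hy'e⟩ := intermediate_value_Ioo (show -x ≤ x by linarith)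
    (hc.iterate j).continuousOn ⟨hjl, hjs⟩
  exact ⟨j, y', abs_lt.2 hy', hy'e⟩

private lemma cutb_cover_all (e : Ends b) {x : ℝ} (hx : 0 < x)
    (hx1 : (e.E true (-x : ℝ)).re < x) (hx2 : -x < (e.E false x).re) (y : ℝ) :
    ∃ (σ : Bool) (j : ℕ) (y' : ℝ), |y'| < x ∧ (e.E σ)^[j] y' = y := by
  by_cases hy : -x < y
  · obtain ⟨j, y', hy', h⟩ := cutb_cover (cutbG_cont e true) (e.hext true).hmono e.hr hx hx1 hy
    exact ⟨true, j, y', hy', by rw [← cutbG_iter, h]⟩
  · push Not at hy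
    set h : ℝ → ℝ := fun y => -cutbG e false (-y) with hh
    have hs : Function.Semiconj (fun y : ℝ => -y) (cutbG e false) h := fun y => by
      simp only [hh, neg_neg]
    obtain ⟨j, y', hy', hj⟩ := cutb_cover (g := h)
      ((cutbG_cont e false).comp continuous_neg).neg
      (fun a c hac => neg_lt_neg ((e.hext false).hmono (neg_lt_neg hac)))
      (fun a => by
        have := e.hl (-a)
        simp only [hh, cutbG]
        linarith)
      hx (by simp only [hh, cutbG, neg_neg]; linarith) (y := -y) (by linarith)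
    refine ⟨false, j, -y', by rwa [abs_neg], ?_⟩
    have h1 := hs.iterate_right j (-y')
    simp only [neg_neg] at h1
    rw [hj] at h1
    rw [← cutbG_iter, show (cutbG e false)^[j] (-y') = y by linarith]

/-! ### Half neighbourhoods -/

/-- the open rectangle -/
private def cutbI (x t : ℝ) : Set ℂ := {z | |z.re| < x ∧ (0 < z.im ∧ z.im < t)}

private lemma cutbI_open (x t : ℝ) : IsOpen (cutbI x t) :=
  (isOpen_lt (continuous_abs.comp Complex.continuous_re) continuous_const).inter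
    ((isOpen_lt continuous_const Complex.continuous_im).inter
      (isOpen_lt Complex.continuous_im continuous_const))

private lemma cutbI_sub {x t : ℝ} : cutbI x t ⊆ rect x t :=
  fun _ hz => ⟨hz.1.le, hz.2.1, hz.2.2.le⟩

private lemma cutb_half (e : Ends b) (σ : Bool) (j : ℕ) {x t : ℝ} (ht0 : 0 < t) (ht : t < b.t₀)
    {y : ℝ} (hy : |y| < x) :
    ∃ r > 0, ∀ ξ ∈ Hp, ‖ξ - (e.E σ)^[j] y‖ < r → ξ ∈ (e.E σ)^[j] '' cutbI x t := by
  set B : Set ℂ := {z | |z.re| < x ∧ |z.im| < t} with hB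
  have hBo : IsOpen B :=
    (isOpen_lt (continuous_abs.comp Complex.continuous_re) continuous_const).inter
      (isOpen_lt (continuous_abs.comp Complex.continuous_im) continuous_const)
  have hBs : B ⊆ Sh b.t₀ := fun z hz => lt_trans hz.2 ht
  have hyB : (y : ℂ) ∈ B := ⟨by simpa using hy, by simpa using ht0⟩
  have ho := isOpen_image_of_inj (isOpen_Sh _) (cutb_iter_diff e σ j) (cutb_iter_inj e σ j) hBo hBs
  obtain ⟨r, hr, hb⟩ := Metric.isOpen_iff.1 ho _ (mem_image_of_mem _ hyB)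
  refine ⟨r, hr, fun ξ hξ hd => ?_⟩
  obtain ⟨η, hη, hηe⟩ := hb (show ξ ∈ ball ((e.E σ)^[j] y) r by rwa [mem_ball, dist_eq_norm])
  have him : 0 < η.im := by
    by_contra hcon
    push Not at hcon
    have h1 := (cutb_iter_maps e σ j (hBs hη)).2 hcon
    rw [hηe] at h1
    exact absurd hξ (not_lt.2 h1)
  refine ⟨η, ⟨hη.1, him, ?_⟩, hηe⟩
  have := hη.2
  rwa [abs_of_pos him] at this

/-- every real point has a half neighbourhood in `CC` -/
theorem CC_real (e : Ends b) {x t : ℝ} (ht0 : 0 < t) (ht : t < b.t₀) (hx : 0 < x)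
    (hx1 : (e.E true (-x : ℝ)).re < x) (hx2 : -x < (e.E false x).re) :
    ∀ y : ℝ, ∃ r > 0, ∀ ξ ∈ Hp, ‖ξ - y‖ < r → ξ ∈ CC e x t := by
  intro y
  obtain ⟨σ, j, y', hy', he⟩ := cutb_cover_all e hx hx1 hx2 y
  obtain ⟨r, hr, h⟩ := cutb_half e σ j ht0 ht hy'
  refine ⟨r, hr, fun ξ hξ hd => ?_⟩
  rw [← he] at hd
  obtain ⟨η, hη, hηe⟩ := h ξ hξ hd
  exact mem_iUnion.2 ⟨σ, mem_iUnion.2 ⟨j, η, cutbI_sub hη, hηe⟩⟩

/-- a real point in the open interval is the image of such a point -/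
private lemma cutb_corner (e : Ends b) (σ : Bool) {x t w : ℝ} (ht0 : 0 < t) (ht : t < b.t₀)
    (hx : 0 < x) (h1 : (e.E σ (-x : ℝ)).re < w) (h2 : w < (e.E σ x).re) :
    ∃ r > 0, ∀ ξ ∈ Hp, ‖ξ - w‖ < r → ξ ∈ e.E σ '' cutbI x t := by
  obtain ⟨y', hy', hy'e⟩ := intermediate_value_Ioo (show -x ≤ x by linarith)
    (cutbG_cont e σ).continuousOn (show w ∈ Ioo (cutbG e σ (-x)) (cutbG e σ x) from ⟨h1, h2⟩)
  obtain ⟨r, hr, h⟩ := cutb_half e σ 1 ht0 ht (abs_lt.2 hy')
  refine ⟨r, hr, fun ξ hξ hd => ?_⟩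
  have h3 : (e.E σ)^[1] (y' : ℂ) = w := by
    rw [Function.iterate_one, ← cutbG_eq, hy'e]
  rw [← h3] at hd
  have := h ξ hξ hd
  rwa [Function.iterate_one] at this

/-- low points above a real point which is moved into the open interval -/
private lemma cutb_low (e : Ends b) (σ : Bool) {x t w : ℝ} (ht0 : 0 < t)
    (h1 : -x < (e.E σ w).re) (h2 : (e.E σ w).re < x) :
    ∃ r > 0, ∀ ξ ∈ St b.t₀, ‖ξ - w‖ < r → e.E σ ξ ∈ cutbI x t := by
  set B : Set ℂ := {z | |z.re| < x ∧ |z.im| < t} with hB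
  have hBo : IsOpen B :=
    (isOpen_lt (continuous_abs.comp Complex.continuous_re) continuous_const).inter
      (isOpen_lt (continuous_abs.comp Complex.continuous_im) continuous_const)
  have hwB : e.E σ w ∈ B := ⟨abs_lt.2 ⟨h1, h2⟩, by
    rw [(e.hext σ).hre w, abs_zero]; exact ht0⟩
  have hca : ContinuousAt (e.E σ) (w : ℂ) :=
    ((e.hext σ).hd.differentiableAt ((isOpen_Sh _).mem_nhds (cutb_real_mem e w))).continuousAt
  obtain ⟨r, hr, hb⟩ := Metric.mem_nhds_iff.1 (hca.preimage_mem_nhds (hBo.mem_nhds hwB))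
  refine ⟨r, hr, fun ξ hξ hd => ?_⟩
  have h3 : e.E σ ξ ∈ B := hb (show ξ ∈ ball (w : ℂ) r by rwa [mem_ball, dist_eq_norm])
  have h4 := (e.hinv σ).hm hξ
  refine ⟨h3.1, h4.1, ?_⟩
  have := h3.2
  rwa [abs_of_pos h4.1] at this

theorem cut_exists (b : Base) (e : Ends b) : Nonempty (Cut b e) := by
  have ht₀ := b.ht₀
  set t : ℝ := b.t₀ / 2 with htdef
  have ht0 : 0 < t := by positivity
  have ht : t < b.t₀ := by linarith
  -- the width
  set x : ℝ := max 1 (max ((e.E true (0 : ℝ)).re + 1) (-(e.E false (0 : ℝ)).re + 1)) with hxdef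
  have hx : 0 < x := lt_of_lt_of_le one_pos (le_max_left _ _)
  have hxa : (e.E true (0 : ℝ)).re + 1 ≤ x := (le_max_left _ _).trans (le_max_right _ _)
  have hxb : -(e.E false (0 : ℝ)).re + 1 ≤ x := (le_max_right _ _).trans (le_max_right _ _)
  have hx1 : (e.E true (-x : ℝ)).re < x := by
    have h1 : (e.E true (-x : ℝ)).re < (e.E true (0 : ℝ)).re :=
      (e.hext true).hmono (show -x < 0 by linarith)
    linarith
  have hx2 : -x < (e.E false x).re := by
    have h1 : (e.E false (0 : ℝ)).re < (e.E false x).re := (e.hext false).hmono hx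
    linarith
  -- the four corner facts
  have htr := e.hr x
  have htl := e.hl (-x)
  have hrl := e.hl x
  have hrr := e.hr (-x)
  obtain ⟨r₁, hr₁, c₁⟩ := cutb_corner e true (w := x) ht0 ht hx hx1 htr
  obtain ⟨r₂, hr₂, c₂⟩ := cutb_corner e false (w := -x) ht0 ht hx htl hx2
  obtain ⟨r₃, hr₃, c₃⟩ := cutb_low e false (x := x) (w := x) ht0 hx2 hrl
  obtain ⟨r₄, hr₄, c₄⟩ := cutb_low e true (x := x) (w := -x) ht0 hrr hx1
  set y₀ : ℝ := min t (min (min r₁ r₂) (min r₃ r₄)) with hy₀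
  have hy₀0 : 0 < y₀ := lt_min ht0 (lt_min (lt_min hr₁ hr₂) (lt_min hr₃ hr₄))
  have hy₀t : y₀ ≤ t := min_le_left _ _
  have hy₁ : y₀ ≤ r₁ := (min_le_right _ _).trans ((min_le_left _ _).trans (min_le_left _ _))
  have hy₂ : y₀ ≤ r₂ := (min_le_right _ _).trans ((min_le_left _ _).trans (min_le_right _ _))
  have hy₃ : y₀ ≤ r₃ := (min_le_right _ _).trans ((min_le_right _ _).trans (min_le_left _ _))
  have hy₄ : y₀ ≤ r₄ := (min_le_right _ _).trans ((min_le_right _ _).trans (min_le_right _ _))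
  set G : Set ℂ := {z | (|z.re| ≤ x ∧ (y₀ ≤ z.im ∧ z.im ≤ t)) ∧ (z.im = t ∨ |z.re| = x)} with hG
  have hGrect : G ⊆ rect x t := fun z hz => ⟨hz.1.1, lt_of_lt_of_le hy₀0 hz.1.2.1, hz.1.2.2⟩
  have hrS : rect x t ⊆ St b.t₀ := fun z hz => ⟨hz.2.1, lt_of_le_of_lt hz.2.2 ht⟩
  have hIS : cutbI x t ⊆ St b.t₀ := cutbI_sub.trans hrS
  have hGc : IsCompact G := by
    have h1 : G = (Icc (-x) x ×ℂ Icc y₀ t) ∩ ({z : ℂ | z.im = t} ∪ {z : ℂ | |z.re| = x}) := by
      ext z
      simp only [hG, mem_inter_iff, Complex.mem_reProdIm, mem_Icc, abs_le, mem_union,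
        Set.mem_ofPred_eq]
    rw [h1]
    exact (isCompact_Icc.reProdIm isCompact_Icc).inter_right
      ((isClosed_eq Complex.continuous_im continuous_const).union
        (isClosed_eq (continuous_abs.comp Complex.continuous_re) continuous_const))
  -- images of the open rectangle are interior
  have hint : ∀ (σ : Bool) (j : ℕ) (η : ℂ), η ∈ cutbI x t →
      (e.E σ)^[j] η ∉ closure (Hp \ CC e x t) := by
    intro σ j η hη hcl
    have ho := isOpen_image_of_inj (isOpen_Sh _) (cutb_iter_diff e σ j) (cutb_iter_inj e σ j)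
      (cutbI_open x t) (hIS.trans (St_sub_Sh _))
    obtain ⟨w, hw1, hw2⟩ := mem_closure_iff.1 hcl _ ho (mem_image_of_mem _ hη)
    obtain ⟨η', hη', rfl⟩ := hw1
    exact hw2.2 (mem_iUnion.2 ⟨σ, mem_iUnion.2 ⟨j, η', cutbI_sub hη', rfl⟩⟩)
  refine ⟨{
    C := CC e x t
    G := G
    hGc := hGc
    hGs := hGrect.trans hrS
    hcl := CC_closed e ht
    hreal := CC_real e ht0 ht hx hx1 hx2
    hfr := ?_
    hleave := fun K hKU hK => CC_leave e ht hKU hK
    hGC := fun σ j η hη => mem_iUnion.2 ⟨σ, mem_iUnion.2 ⟨j, η, hGrect hη, rfl⟩⟩ }⟩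
  intro ξ _ hξC hξcl
  simp only [CC, mem_iUnion] at hξC
  obtain ⟨σ, j, η, hη, rfl⟩ := hξC
  by_cases hηG : η ∈ G
  · exact ⟨σ, j, η, hηG, rfl⟩
  exfalso
  have hηS : η ∈ St b.t₀ := hrS hη
  have hηH : η ∈ Hp := hη.2.1
  have him0 : 0 < η.im := hη.2.1
  -- one of the two vertical sides, or interior
  have him : ¬ (η.im = t) := by
    intro h
    exact hηG ⟨⟨hη.1, by rw [h]; exact hy₀t, hη.2.2⟩, Or.inl h⟩
  have himt : η.im < t := lt_of_le_of_ne hη.2.2 him
  by_cases hre : |η.re| = x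
  · have hlow : η.im < y₀ := by
      by_contra hcon
      push Not at hcon
      exact hηG ⟨⟨hη.1, hcon, hη.2.2⟩, Or.inr hre⟩
    rcases abs_eq hx.le |>.1 hre with h | h
    · -- right side
      have hd : ‖η - (x : ℂ)‖ = η.im := by
        have : η - (x : ℂ) = η.im * Complex.I := by
          apply Complex.ext <;> simp [h]
        rw [this, norm_mul, Complex.norm_I, mul_one, Complex.norm_real, Real.norm_of_nonneg him0.le]
      obtain ⟨η', hη', hη'e⟩ := c₁ η hηH (by rw [hd]; linarith)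
      cases σ
      · cases j with
        | zero =>
          refine hint true 1 η' hη' ?_
          rw [Function.iterate_one, hη'e]
          exact hξcl
        | succ m =>
          rw [Function.iterate_succ_apply] at hξcl
          exact hint false m _ (c₃ η hηS (by rw [hd]; linarith)) hξcl
      · refine hint true (j + 1) η' hη' ?_
        rw [Function.iterate_succ_apply, hη'e]
        exact hξcl
    · -- left side
      have hd : ‖η - ((-x : ℝ) : ℂ)‖ = η.im := by
        have : η - ((-x : ℝ) : ℂ) = η.im * Complex.I := by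
          apply Complex.ext <;> simp [h]
        rw [this, norm_mul, Complex.norm_I, mul_one, Complex.norm_real, Real.norm_of_nonneg him0.le]
      obtain ⟨η', hη', hη'e⟩ := c₂ η hηH (by rw [hd]; linarith)
      cases σ
      · refine hint false (j + 1) η' hη' ?_
        rw [Function.iterate_succ_apply, hη'e]
        exact hξcl
      · cases j with
        | zero =>
          refine hint false 1 η' hη' ?_
          rw [Function.iterate_one, hη'e]
          exact hξcl
        | succ m =>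
          rw [Function.iterate_succ_apply] at hξcl
          exact hint true m _ (c₄ η hηS (by rw [hd]; linarith)) hξcl
  · exact hint σ j η ⟨lt_of_le_of_ne hη.1 hre, him0, himt⟩ hξcl

end Pool.Agent.BB.P
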