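import Pool.Agent.BB.P.BRA

/-!
# Parabolic basins: disjointness of the branches along the two ends
-/

open Set Metric Filter Topology MeasureTheory

namespace Pool.Agent.BB.P

namespace PS

variable (s : PS)

theorem DISC_miss (σ : Bool) : ∃ k : ℕ, ∀ i ≥ k, ∀ g : ℂ → ℂ,
    DifferentiableOn ℂ g (ball s.p (2 * s.R)) →
    (∀ x ∈ ball s.p (2 * s.R), s.b.F^[i] (g x) = x) → g s.u₀ = s.lab σ i →
      ∀ x ∈ closedBall s.p s.R, g x ∉ closedBall s.p s.R := by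
  obtain ⟨C, hC1, hC⟩ := s.branch
  have hR := s.hR
  have hφc : ContinuousAt s.b.φ s.ξ₀ :=
    (s.b.hφ.differentiableAt (isOpen_Hp.mem_nhds (St_sub_Hp _ s.hξ₀))).continuousAt
  have hnh : St s.b.t₀ ∩ s.b.φ ⁻¹' ball s.p s.R ∈ 𝓝 s.ξ₀ :=
    inter_mem ((isOpen_St _).mem_nhds s.hξ₀) (hφc.preimage_mem_nhds (isOpen_ball.mem_nhds s.hξR))
  obtain ⟨δ, hδ, hδs⟩ := Metric.mem_nhds_iff.mp hnh
  set ξ₁ : ℂ := s.ξ₀ + ((δ / 2 : ℝ) : ℂ) with hξ₁
  have hξ₁b : ξ₁ ∈ ball s.ξ₀ δ := by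
    rw [mem_ball, dist_eq_norm, hξ₁, add_sub_cancel_left, Complex.norm_real, Real.norm_eq_abs,
      abs_of_pos (by positivity)]
    linarith
  have hne : ξ₁ ≠ s.ξ₀ := by
    intro h
    have h1 : ((δ / 2 : ℝ) : ℂ) = 0 := by
      have h2 : s.ξ₀ + ((δ / 2 : ℝ) : ℂ) = s.ξ₀ + 0 := by rw [add_zero]; exact h
      exact add_left_cancel h2
    rw [Complex.ofReal_eq_zero] at h1
    linarith
  have hξ₁S : ξ₁ ∈ St s.b.t₀ := (hδs hξ₁b).1
  have hξ₁R : s.b.φ ξ₁ ∈ ball s.p s.R := (hδs hξ₁b).2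
  have hφne : s.b.φ ξ₁ ≠ s.u₀ := by
    intro h
    exact hne (s.b.φ_inj (St_sub_Hp _ hξ₁S) (St_sub_Hp _ s.hξ₀) h)
  set d : ℝ := ‖s.b.φ ξ₁ - s.u₀‖ with hd
  have hd0 : 0 < d := norm_pos_iff.mpr (sub_ne_zero.mpr hφne)
  set M : ℝ := 1 + 4 * s.R * (C * C) / d with hM
  have hC0 : 0 < C := by linarith
  have hM0 : 0 < M := by positivity
  set ε : ℝ := s.R / (2 * M) with hε
  have hε0 : 0 < ε := by positivity
  have hεM : ε * M = s.R / 2 := by rw [hε]; field_simp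
  have hl0 := s.e.hlim σ s.ξ₀ s.hξ₀
  have hl1 := s.e.hlim σ ξ₁ hξ₁S
  obtain ⟨k0, hk0⟩ := (Metric.tendsto_atTop.mp hl0) ε hε0
  obtain ⟨k1, hk1⟩ := (Metric.tendsto_atTop.mp hl1) ε hε0
  refine ⟨max k0 k1, fun i hi g hgd hge hg0 x hx hgx => ?_⟩
  have hi0 := hk0 i ((le_max_left _ _).trans hi)
  have hi1 := hk1 i ((le_max_right _ _).trans hi)
  rw [dist_eq_norm] at hi0 hi1
  -- the bounds for `g`
  have hFi : s.b.F^[i] (s.lab σ i) = s.u₀ := s.F_lab σ i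
  obtain ⟨h, hhd, hhe, hh0, -, hdist, -⟩ := hC i (s.lab σ i) hFi
  obtain ⟨-, heq⟩ := s.branch_unique hgd hge hhd hhe s.u₀_ball2 s.u₀_ball2 (hg0.trans hh0.symm)
  have hb2 : closedBall s.p s.R ⊆ ball s.p (2 * s.R) := s.closedBall_sub
  have huc : s.u₀ ∈ closedBall s.p s.R := ball_subset_closedBall s.u₀_ball
  -- value at `φ ξ₁`
  have hderiv : deriv s.b.F^[i] (g s.u₀) ≠ 0 := by
    have h1 := s.b.deriv_mul isOpen_ball hgd (E' := id) (fun x hx => hge x hx) s.u₀_ball2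
    intro h2
    rw [h2, zero_mul, deriv_id] at h1
    exact zero_ne_one h1
  have hmaps : MapsTo s.b.φ (ball s.ξ₀ δ) (ball s.p (2 * s.R)) := fun z hz =>
    ball_subset_ball (by linarith) (hδs hz).2
  have hlift : EqOn (g ∘ s.b.φ) (s.b.φ ∘ (s.e.E σ)^[i]) (ball s.ξ₀ δ) := by
    refine lift_unique (s.b.iter_diff i) isOpen_ball (convex_ball _ _).isPreconnected
      (hgd.comp (s.b.hφ.mono fun z hz => St_sub_Hp _ (hδs hz).1) hmaps)
      (s.b.hφ.comp (((s.e.hinv σ).iter_diff i).mono fun z hz => (hδs hz).1) fun z hz =>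
        St_sub_Hp _ ((s.e.hinv σ).iter_mem i (hδs hz).1))
      (fun z hz => ?_) (mem_ball_self hδ) ?_ ?_
    · simp only [Function.comp_apply]
      rw [hge _ (hmaps hz), (s.e.hinv σ).iter_F i (hδs hz).1]
    · exact hg0
    · exact hderiv
  have hg1 : g (s.b.φ ξ₁) = s.b.φ ((s.e.E σ)^[i] ξ₁) := hlift hξ₁b
  have hg1c : s.b.φ ξ₁ ∈ closedBall s.p s.R := ball_subset_closedBall hξ₁R
  have hsz : s.sz i (s.lab σ i) * d ≤ C * (2 * ε) := by
    have h1 := (hdist _ hg1c _ huc).2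
    rw [← heq (hb2 hg1c), ← heq (hb2 huc), hg1, hg0] at h1
    refine h1.trans ?_
    have h2 : ‖s.b.φ ((s.e.E σ)^[i] ξ₁) - s.lab σ i‖ ≤ 2 * ε := by
      have h3 : s.b.φ ((s.e.E σ)^[i] ξ₁) - s.lab σ i =
          (s.b.φ ((s.e.E σ)^[i] ξ₁) - s.b.ζ) - (s.b.φ ((s.e.E σ)^[i] s.ξ₀) - s.b.ζ) := by
        rw [lab]; ring
      rw [h3]
      refine (norm_sub_le _ _).trans ?_
      linarith
    exact mul_le_mul_of_nonneg_left h2 hC0.le
  have hsz2 : s.sz i (s.lab σ i) ≤ C * (2 * ε) / d := by rwa [le_div_iff₀ hd0]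
  have hgx2 : ‖g x - s.lab σ i‖ ≤ C * (C * (2 * ε) / d) * (2 * s.R) := by
    have h1 := (hdist _ hx _ huc).1
    rw [← heq (hb2 hx), ← heq (hb2 huc), hg0] at h1
    refine h1.trans ?_
    have h2 : ‖x - s.u₀‖ ≤ 2 * s.R := by
      rw [← dist_eq_norm]
      have h3 := dist_triangle_right x s.u₀ s.p
      have h4 := mem_closedBall.mp hx
      have h5 := mem_ball.mp s.u₀_ball
      linarith
    gcongr
  have hfin : ‖g x - s.b.ζ‖ < s.R := by
    have h1 : g x - s.b.ζ = (g x - s.lab σ i) + (s.b.φ ((s.e.E σ)^[i] s.ξ₀) - s.b.ζ) := by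
      rw [lab]; ring
    have h2 : ‖g x - s.b.ζ‖ ≤ C * (C * (2 * ε) / d) * (2 * s.R) + ε := by
      rw [h1]
      refine (norm_add_le _ _).trans ?_
      exact add_le_add hgx2 hi0.le
    have h3 : C * (C * (2 * ε) / d) * (2 * s.R) + ε = ε * M := by
      rw [hM]; field_simp; ring
    rw [h3, hεM] at h2
    linarith
  have hζ := s.hζR
  rw [mem_ball, dist_eq_norm, not_lt] at hζ
  rw [mem_closedBall, dist_eq_norm] at hgx
  have h4 : ‖s.b.ζ - s.p‖ ≤ ‖g x - s.b.ζ‖ + ‖g x - s.p‖ := by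
    have h5 : s.b.ζ - s.p = -(g x - s.b.ζ) + (g x - s.p) := by ring
    rw [h5]
    refine (norm_add_le _ _).trans ?_
    rw [norm_neg]
  linarith

/-- branches at two labelled points of the same level whose labels lie on the same end and whose
indices are congruent modulo `k₁` have disjoint images -/
theorem disc_disjoint : ∃ k₁ : ℕ, 1 ≤ k₁ ∧ ∀ (n : ℕ) (σ : Bool) (j j' : ℕ) (w w' : ℂ),
    s.b.F^[n] w = s.lab σ j → s.b.F^[n] w' = s.lab σ j' → j % k₁ = j' % k₁ →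
    (w, j) ≠ (w', j') → ∀ h h' : ℂ → ℂ, DifferentiableOn ℂ h (ball s.p (2 * s.R)) →
    (∀ x ∈ ball s.p (2 * s.R), s.b.F^[n + j] (h x) = x) → h s.u₀ = w →
    DifferentiableOn ℂ h' (ball s.p (2 * s.R)) →
    (∀ x ∈ ball s.p (2 * s.R), s.b.F^[n + j'] (h' x) = x) → h' s.u₀ = w' →
      Disjoint (h '' closedBall s.p s.R) (h' '' closedBall s.p s.R) := by
  choose k hk using s.DISC_miss
  refine ⟨max 1 (max (k true) (k false)), le_max_left _ _, ?_⟩
  set k₁ : ℕ := max 1 (max (k true) (k false)) with hk₁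
  have hkσ : ∀ σ, k σ ≤ k₁ := by
    intro σ
    cases σ
    · exact (le_max_right _ _).trans (le_max_right _ _)
    · exact (le_max_left _ _).trans (le_max_right _ _)
  have hb2 : closedBall s.p s.R ⊆ ball s.p (2 * s.R) := s.closedBall_sub
  -- different indices
  have aux : ∀ (n : ℕ) (σ : Bool) (j j' : ℕ) (w' : ℂ), s.b.F^[n] w' = s.lab σ j' → j < j' →
      j % k₁ = j' % k₁ → ∀ h' : ℂ → ℂ, DifferentiableOn ℂ h' (ball s.p (2 * s.R)) →
      (∀ x ∈ ball s.p (2 * s.R), s.b.F^[n + j'] (h' x) = x) → h' s.u₀ = w' →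
      ∀ y ∈ closedBall s.p s.R, s.b.F^[n + j] (h' y) ∉ closedBall s.p s.R := by
    intro n σ j j' w' hw' hlt hmod h' hd' he' h0' y hy
    have hge : k₁ ≤ j' - j := by
      have h1 : k₁ ∣ j' - j := (Nat.modEq_iff_dvd' hlt.le).mp hmod
      exact Nat.le_of_dvd (by omega) h1
    refine hk σ (j' - j) ((hkσ σ).trans hge) (fun y => s.b.F^[n + j] (h' y)) ?_ ?_ ?_ y hy
    · exact (s.b.iter_diff (n + j)).comp_differentiableOn hd'
    · intro x hx
      rw [← Function.iterate_add_apply, show j' - j + (n + j) = n + j' by omega]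
      exact he' x hx
    · rw [h0', add_comm n j, Function.iterate_add_apply, hw', s.F_lab_sub σ hlt.le]
  intro n σ j j' w w' hw hw' hmod hne h h' hd he h0 hd' he' h0'
  rw [Set.disjoint_left]
  rintro z ⟨x, hx, rfl⟩ ⟨y, hy, hyx⟩
  rcases lt_trichotomy j j' with hlt | heq | hlt
  · refine aux n σ j j' w' hw' hlt hmod h' hd' he' h0' y hy ?_
    rw [hyx, he x (hb2 hx)]
    exact hx
  · subst heq
    obtain ⟨-, h2⟩ := s.branch_unique hd he hd' he' (hb2 hx) (hb2 hy) hyx.symm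
    apply hne
    rw [← h0, ← h0', h2 s.u₀_ball2]
  · refine aux n σ j' j w hw hlt hmod.symm h hd he h0 x hx ?_
    rw [← hyx, he' y (hb2 hy)]
    exact hy

end PS

end Pool.Agent.BB.P
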