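import Pool.Agent.BB.Core9
import Pool.Agent.BB.Main

/-!
# Parabolic basins (MP_b9540e_an, Theorem P): definitions

`Hp` is the upper half plane, `St t` the strip `0 < im < t`, `Sh t` the strip `|im| < t`,
`Vs R` the (obtuse) sector of a fat petal in Fatou coordinates, `Qs s R` the upper (`s = 1`) or
lower (`s = -1`) quadrant in which two neighbouring petals overlap.
-/

open Set Metric Filter Topology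

namespace Pool.Agent.BB.P

/-- upper half plane -/
def Hp : Set ℂ := {z | 0 < z.im}

/-- the strip `0 < im < t` -/
def St (t : ℝ) : Set ℂ := {z | 0 < z.im ∧ z.im < t}

/-- the strip `|im| < t` -/
def Sh (t : ℝ) : Set ℂ := {z | |z.im| < t}

/-- sector of a fat petal -/
def Vs (R : ℝ) : Set ℂ := {w | R < w.re + |w.im|}

/-- quadrant around `s i ℝ` -/
def Qs (s R : ℝ) : Set ℂ := {w | R + |w.re| < s * w.im}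

/-- the change of coordinates `w ↦ ζ + c w^(-1/q)` -/
noncomputable def Xc (ζ c : ℂ) (q : ℕ) (w : ℂ) : ℂ := ζ + c * Complex.exp (-(Complex.log w / q))

/-- the basin of the fixed point `ζ` without the backward orbit of `ζ` -/
def Att0 (F : ℂ → ℂ) (ζ : ℂ) : Set ℂ :=
  {z | Tendsto (fun n : ℕ => F^[n] z) atTop (𝓝 ζ) ∧ ∀ n : ℕ, F^[n] z ≠ ζ}

/-- `T (ζ + x) = ζ + x + a x^(q+1) + o(x^(q+1))` with `a ≠ 0`, `q ≥ 1` -/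
structure Par (T : ℂ → ℂ) (ζ a : ℂ) (q : ℕ) : Prop where
  hq : 1 ≤ q
  ha : a ≠ 0
  an : AnalyticAt ℂ T ζ
  ho : (fun x : ℂ => T (ζ + x) - ζ - x - a * x ^ (q + 1)) =o[𝓝 0] fun x => x ^ (q + 1)

/-- the map `T` in the coordinate `Xc` -/
noncomputable def Gc (T : ℂ → ℂ) (ζ c : ℂ) (q : ℕ) (w : ℂ) : ℂ := (c / (T (Xc ζ c q w) - ζ)) ^ q

/-- The basin of the cycle of a parabolic point `ζ` with `f^[p] ζ = ζ`. -/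
def PBasin (f : ℂ → ℂ) (p : ℕ) (ζ : ℂ) : Set ℂ :=
  {z | ∃ j < p, Tendsto (fun n : ℕ => f^[p * n] z) atTop (𝓝 (f^[j] ζ)) ∧
    ∀ n : ℕ, f^[p * n] z ≠ f^[j] ζ}

/-- `φ` is unbounded near the real point `x` -/
def UnbAt (φ : ℂ → ℂ) (x : ℝ) : Prop :=
  ∀ r > 0, ¬ Bornology.IsBounded (φ '' (Hp ∩ ball (x : ℂ) r))

/-- An invariant simply connected domain `U` with its Riemann map from the upper half plane,
normalised so that the Denjoy-Wolff point is `∞`. -/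
structure Base where
  F : ℂ → ℂ
  hF : Differentiable ℂ F
  U : Set ℂ
  hUo : IsOpen U
  hUc : IsPreconnected U
  φ : ℂ → ℂ
  ψ : ℂ → ℂ
  hφ : DifferentiableOn ℂ φ Hp
  hψ : DifferentiableOn ℂ ψ U
  hφψ : ∀ z ∈ Hp, φ z ∈ U ∧ ψ (φ z) = z
  hψφ : ∀ z ∈ U, ψ z ∈ Hp ∧ φ (ψ z) = z
  hFU : MapsTo F U U
  hcl : ∀ z ∈ closure U, F z ∈ U → z ∈ U
  him : ∀ z ∈ U, (ψ z).im ≤ (ψ (F z)).im
  ζ : ℂ
  hζU : ζ ∉ U
  hFζ : F ζ = ζ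
  hunif : ∀ K ⊆ U, IsCompact K → ∀ ε > 0, ∃ n₀ : ℕ, ∀ n ≥ n₀, ∀ z ∈ K, ‖F^[n] z - ζ‖ < ε
  t₀ : ℝ
  ht₀ : 0 < t₀
  hsing : ∀ w ∈ U, (ψ w).im < t₀ → w ∉ SingVals F U

/-- a holomorphic inverse branch of the inner function `ψ F φ` on the strip -/
structure Inv (b : Base) (K : ℂ → ℂ) : Prop where
  hd : DifferentiableOn ℂ K (St b.t₀)
  hm : MapsTo K (St b.t₀) (St b.t₀)
  hF : ∀ ξ ∈ St b.t₀, b.F (b.φ (K ξ)) = b.φ ξ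

/-- Backward orbits near `ζ` on the side `s = 1` or `s = -1` of the petal. -/
structure Side (b : Base) (s : ℝ) (q : ℕ) (ℓ : ℂ → ℂ) (l₀ : ℂ) where
  hs : s = 1 ∨ s = -1
  hq : 1 ≤ q
  R : ℝ
  hR : 1 ≤ R
  Ψ : ℕ → ℂ → ℂ
  hd : ∀ j, DifferentiableOn ℂ (Ψ j) (Qs s R)
  hm : ∀ j, MapsTo (Ψ j) (Qs s R) Hp
  hF : ∀ j, ∀ w ∈ Qs s R, b.F (b.φ (Ψ (j + 1) w)) = b.φ (Ψ j w)
  G : ℂ → ℂ
  hG1 : ∀ w ∈ Qs s R, ‖G w - (w - 1)‖ ≤ 1 / 4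
  hG2 : ∀ j, ∀ w ∈ Qs s R, G w ∈ Qs s R → Ψ (j + 1) w = Ψ j (G w)
  grow : ∃ C : ℝ, ∀ T : ℝ, 2 * R + 1 ≤ T → (Ψ 0 (s * T * Complex.I)).im ≤ C * T ^ (2 / 3 : ℝ)
  hlog : ∀ w ∈ Qs s R, Tendsto (fun j : ℕ => ℓ (Ψ j w) + ((Real.log j / q : ℝ) : ℂ)) atTop
    (𝓝 (l₀ - s * Real.pi * Complex.I / q))

/-- What one side provides: an inverse branch whose iterates tend to the real axis, but only
polynomially fast, and approach `ζ` in a prescribed direction. -/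
structure Arm (b : Base) (q : ℕ) (ℓ : ℂ → ℂ) (θ : ℂ) (K : ℂ → ℂ) : Prop where
  inv : Inv b K
  him0 : ∀ ξ ∈ St b.t₀, Tendsto (fun n : ℕ => (K^[n] ξ).im) atTop (𝓝 0)
  poly : ∃ ξ ∈ St b.t₀, ∃ c > 0, ∃ m : ℕ, ∀ n : ℕ, c / ((n : ℝ) + 1) ^ m ≤ (K^[n] ξ).im
  hlog : ∀ ξ ∈ St b.t₀, Tendsto (fun n : ℕ => ℓ (K^[n] ξ) + ((Real.log n / q : ℝ) : ℂ)) atTop
    (𝓝 θ)

/-- the extension by reflection of a map `K` of the strip -/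
structure Ext (t : ℝ) (K E : ℂ → ℂ) : Prop where
  hd : DifferentiableOn ℂ E (Sh t)
  heq : EqOn E K (St t)
  hre : ∀ x : ℝ, (E x).im = 0
  hconj : ∀ z ∈ Sh t, E ((starRingEnd ℂ) z) = (starRingEnd ℂ) (E z)
  hinj : InjOn E (Sh t)
  hpos : ∀ x : ℝ, 0 < (deriv E x).re
  hmono : StrictMono fun x : ℝ => (E x).re

/-- the two ends of the strip: the two inverse branches fixing the Denjoy-Wolff point -/
structure Ends (b : Base) where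
  E : Bool → ℂ → ℂ
  hinv : ∀ σ, Inv b (E σ)
  hext : ∀ σ, Ext b.t₀ (E σ) (E σ)
  hr : ∀ x : ℝ, x < (E true x).re
  hl : ∀ x : ℝ, (E false x).re < x
  hdisj : ∀ x y : ℝ, (E false x).re < (E true y).re
  him0 : ∀ σ, ∀ ξ ∈ St b.t₀, Tendsto (fun n : ℕ => ((E σ)^[n] ξ).im) atTop (𝓝 0)
  hlim : ∀ σ, ∀ ξ ∈ St b.t₀, Tendsto (fun n : ℕ => b.φ ((E σ)^[n] ξ)) atTop (𝓝 b.ζ)

/-- the region `C` whose frontier has a compact fundamental piece `G` -/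
structure Cut (b : Base) (e : Ends b) where
  C : Set ℂ
  G : Set ℂ
  hGc : IsCompact G
  hGs : G ⊆ St b.t₀
  hcl : ∀ ξ ∈ Hp, ξ ∈ closure C → ξ ∈ C
  hreal : ∀ x : ℝ, ∃ r > 0, ∀ ξ ∈ Hp, ‖ξ - x‖ < r → ξ ∈ C
  hfr : ∀ ξ ∈ Hp, ξ ∈ C → ξ ∈ closure (Hp \ C) →
    ∃ (σ : Bool) (j : ℕ), ∃ η ∈ G, (e.E σ)^[j] η = ξ
  hleave : ∀ K ⊆ b.U, IsCompact K → ∃ n₀ : ℕ, ∀ n ≥ n₀, ∀ z ∈ K, b.ψ (b.F^[n] z) ∉ C
  hGC : ∀ (σ : Bool) (j : ℕ), ∀ η ∈ G, (e.E σ)^[j] η ∈ C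

/-- `N` adjacent thin rectangles with bounded vertical sides on which `φ` is unbounded -/
structure Rects (b : Base) (p : ℂ) (R : ℝ) (N : ℕ) (t₂ : ℝ) (x : ℕ → ℝ) : Prop where
  ht₂ : 0 < t₂
  ht : t₂ < b.t₀
  hx : ∀ i < N, x i < x (i + 1)
  hside : ∀ i ≤ N, ∀ y : ℝ, 0 < y → y ≤ t₂ → b.φ (x i + y * Complex.I) ∈ ball p R
  hunb : ∀ i < N, ¬ Bornology.IsBounded
    (b.φ '' {z | (x i < z.re ∧ z.re < x (i + 1)) ∧ (0 < z.im ∧ z.im < t₂)})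

/-- The data used in the main argument (parabolic case). -/
structure PS where
  b : Base
  e : Ends b
  k : Cut b e
  p : ℂ
  R : ℝ
  hR : 0 < R
  hpU : p ∉ b.U
  hζR : b.ζ ∉ ball p (2 * R)
  hbr : ∀ (n : ℕ) (v : ℂ), b.F^[n] v ∈ ball p (2 * R) → ∃ h : ℂ → ℂ,
    DifferentiableOn ℂ h (ball p (2 * R)) ∧ (∀ x ∈ ball p (2 * R), b.F^[n] (h x) = x) ∧
      h (b.F^[n] v) = v
  hcirc : ∀ t : ℝ, 0 < t → ∃ y : ℂ, ‖y - p‖ = t ∧ y ∉ b.U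
  ξ₀ : ℂ
  hξ₀ : ξ₀ ∈ St b.t₀
  hξR : b.φ ξ₀ ∈ ball p R
  κ : ℝ → ℂ
  hκc : ContinuousOn κ (Icc 0 1)
  hκ0 : κ 0 ∈ connectedComponentIn (b.U ∩ ball p R) (b.φ ξ₀)
  hκU : ∀ x ∈ Ico (0:ℝ) 1, κ x ∈ b.U ∧ κ x ∈ ball p (R / 16)
  hκ1 : κ 1 ∉ b.U
  hκζ : ∀ m : ℕ, b.F^[m] (κ 1) ≠ b.ζ
  hrect : ∀ N : ℕ, ∃ (t₂ : ℝ) (x : ℕ → ℝ), Rects b p R N t₂ x

end Pool.Agent.BB.P
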