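import Pool.Agent.BB.P.RD
import Pool.Agent.BB.P.ARM

open Set Metric Filter Topology MeasureTheory

namespace Pool.Agent.BB.P

private lemma ends_real_mem {t : ℝ} (ht : 0 < t) (x : ℝ) : (x : ℂ) ∈ Sh t := by
  simp [Sh, ht]

private lemma ends_pos {t : ℝ} {K E : ℂ → ℂ} (hE : Ext t K E)
    (hm : ∀ ξ ∈ St t, 0 < (K ξ).im) {z : ℂ} (hz : z ∈ Sh t) (h : 0 < (E z).im) : z ∈ St t := by
  have hz' : |z.im| < t := hz
  rcases lt_trichotomy z.im 0 with h0 | h0 | h0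
  · exfalso
    have h1 : (starRingEnd ℂ) z ∈ St t := by
      rw [abs_of_neg h0] at hz'
      exact ⟨by simpa using h0, by simpa using hz'⟩
    have h2 := hE.hconj z hz
    rw [hE.heq h1] at h2
    have h3 := hm _ h1
    rw [h2, Complex.conj_im] at h3
    linarith
  · exfalso
    have h1 : z = ((z.re : ℝ) : ℂ) := by
      apply Complex.ext <;> simp [h0]
    rw [h1, hE.hre] at h
    exact lt_irrefl _ h
  · rw [abs_of_pos h0] at hz'
    exact ⟨h0, hz'⟩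

/-- two inverse branches whose extensions have a common real value are equal -/
theorem inv_eq_of_real (b : Base) {K₁ K₂ E₁ E₂ : ℂ → ℂ} (h₁ : Inv b K₁) (h₂ : Inv b K₂)
    (hE₁ : Ext b.t₀ K₁ E₁) (hE₂ : Ext b.t₀ K₂ E₂) {x y : ℝ} (hxy : E₁ x = E₂ y) :
    EqOn K₁ K₂ (St b.t₀) := by
  have hV : IsOpen (E₂ '' Sh b.t₀) :=
    isOpen_image_of_inj (isOpen_Sh _) hE₂.hd hE₂.hinj (isOpen_Sh _) subset_rfl
  have hxS : (x : ℂ) ∈ Sh b.t₀ := ends_real_mem b.ht₀ x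
  have hpre : IsOpen (Sh b.t₀ ∩ E₁ ⁻¹' (E₂ '' Sh b.t₀)) :=
    hE₁.hd.continuousOn.isOpen_inter_preimage (isOpen_Sh _) hV
  have hxO : (x : ℂ) ∈ Sh b.t₀ ∩ E₁ ⁻¹' (E₂ '' Sh b.t₀) :=
    ⟨hxS, by rw [mem_preimage, hxy]; exact mem_image_of_mem _ (ends_real_mem b.ht₀ y)⟩
  obtain ⟨r, hr, hball⟩ := Metric.isOpen_iff.mp hpre _ hxO
  set a : ℂ := (x : ℂ) + ((min r b.t₀ / 2 : ℝ) : ℂ) * Complex.I with ha
  have hmin : 0 < min r b.t₀ := lt_min hr b.ht₀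
  have haS : a ∈ St b.t₀ := by
    have h2 : min r b.t₀ ≤ b.t₀ := min_le_right _ _
    constructor
    · simp only [ha, Complex.add_im, Complex.ofReal_im, Complex.mul_im, Complex.ofReal_re,
        Complex.I_im, Complex.I_re]
      linarith
    · simp only [ha, Complex.add_im, Complex.ofReal_im, Complex.mul_im, Complex.ofReal_re,
        Complex.I_im, Complex.I_re]
      linarith
  have haB : a ∈ ball (x : ℂ) r := by
    rw [mem_ball, dist_eq_norm, ha, add_sub_cancel_left, norm_mul, Complex.norm_I, mul_one,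
      Complex.norm_real, Real.norm_eq_abs, abs_of_pos (by linarith)]
    have h2 : min r b.t₀ ≤ r := min_le_left _ _
    linarith
  have hev : ∀ᶠ ξ in 𝓝 a, K₁ ξ = K₂ ξ := by
    filter_upwards [isOpen_ball.mem_nhds haB, (isOpen_St _).mem_nhds haS] with ξ hξB hξS
    obtain ⟨ξ₂, hξ₂, he⟩ := (hball hξB).2
    have h3 : E₁ ξ = K₁ ξ := hE₁.heq hξS
    have h4 : ξ₂ ∈ St b.t₀ := ends_pos hE₂ (fun z hz => (h₂.hm hz).1) hξ₂ (by
      rw [he, h3]; exact (h₁.hm hξS).1)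
    have h5 : E₂ ξ₂ = K₂ ξ₂ := hE₂.heq h4
    have h6 : ξ = ξ₂ := by
      apply b.φ_inj (St_sub_Hp _ hξS) (St_sub_Hp _ h4)
      rw [← h₁.hF ξ hξS, ← h₂.hF ξ₂ h4, ← h3, ← h5, he]
    rw [← h3, ← he, h5, ← h6]
  have hd₁ : AnalyticOnNhd ℂ K₁ (St b.t₀) := h₁.hd.analyticOnNhd (isOpen_St _)
  have hd₂ : AnalyticOnNhd ℂ K₂ (St b.t₀) := h₂.hd.analyticOnNhd (isOpen_St _)
  exact hd₁.eqOn_of_preconnected_of_eventuallyEq hd₂ (convex_St _).isPreconnected haS hev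

/-- auxiliary data of an end -/
private structure EArm (b : Base) (q : ℕ) (ℓ : ℂ → ℂ) (θ : ℂ) (E : ℂ → ℂ) : Prop where
  inv : Inv b E
  ext : Ext b.t₀ E E
  him0 : ∀ ξ ∈ St b.t₀, Tendsto (fun n : ℕ => (E^[n] ξ).im) atTop (𝓝 0)
  hlog : ∀ ξ ∈ St b.t₀, Tendsto (fun n : ℕ => ℓ (E^[n] ξ) + ((Real.log n / q : ℝ) : ℂ)) atTop
    (𝓝 θ)
  side : (∀ x : ℝ, x < (E x).re) ∨ (∀ x : ℝ, (E x).re < x)

private lemma ends_earm {b : Base} {q : ℕ} {ℓ : ℂ → ℂ} {θ : ℂ} {K : ℂ → ℂ}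
    (A : Arm b q ℓ θ K) : ∃ E : ℂ → ℂ, EArm b q ℓ θ E := by
  obtain ⟨E, hE⟩ := refl_exists b.ht₀ A.inv.hd (fun ξ hξ => (A.inv.hm hξ).1)
    (fun ξ hξ => A.inv.him hξ) A.inv.injOn
  have hiter : ∀ n : ℕ, ∀ ξ ∈ St b.t₀, E^[n] ξ = K^[n] ξ := by
    intro n ξ hξ
    induction n with
    | zero => rfl
    | succ n ih =>
      rw [Function.iterate_succ_apply', Function.iterate_succ_apply', ih]
      exact hE.heq (A.inv.iter_mem n hξ)
  refine ⟨E, ⟨A.inv.hd.congr hE.heq, fun ξ hξ => ?_, fun ξ hξ => ?_⟩,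
    ⟨hE.hd, fun _ _ => rfl, hE.hre, hE.hconj, hE.hinj, hE.hpos, hE.hmono⟩, ?_, ?_, ?_⟩
  · rw [hE.heq hξ]; exact A.inv.hm hξ
  · rw [hE.heq hξ]; exact A.inv.hF ξ hξ
  · intro ξ hξ
    exact (A.him0 ξ hξ).congr fun n => by rw [hiter n ξ hξ]
  · intro ξ hξ
    exact (A.hlog ξ hξ).congr fun n => by rw [hiter n ξ hξ]
  · exact real_dyn b.ht₀ A.inv.hd A.inv.hm (fun ξ hξ => A.inv.him hξ) hE A.him0 A.poly

private lemma ends_cont {t : ℝ} (ht : 0 < t) {E : ℂ → ℂ} (hE : Ext t E E) :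
    Continuous fun x : ℝ => (E x).re := by
  rw [continuous_iff_continuousAt]
  intro x
  have h1 : ContinuousAt E (x : ℂ) :=
    (hE.hd.differentiableAt ((isOpen_Sh t).mem_nhds (ends_real_mem ht x))).continuousAt
  have h2 : ContinuousAt (fun x : ℝ => E (x : ℂ)) x :=
    ContinuousAt.comp (f := fun x : ℝ => (x : ℂ)) h1 Complex.continuous_ofReal.continuousAt
  exact Complex.continuous_re.continuousAt.comp h2

private lemma ends_ofReal {t : ℝ} {E : ℂ → ℂ} (hE : Ext t E E) (x : ℝ) :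
    E x = (((E x).re : ℝ) : ℂ) := by
  apply Complex.ext <;> simp [hE.hre]

/-- a value in the convex hull of two values is taken -/
private lemma ends_ivt {t : ℝ} (ht : 0 < t) {E : ℂ → ℂ} (hE : Ext t E E) {x₁ x₂ v : ℝ}
    (h₁ : (E x₁).re ≤ v) (h₂ : v ≤ (E x₂).re) : ∃ x : ℝ, E x = (v : ℂ) := by
  have h := intermediate_value_uIcc (a := x₁) (b := x₂) (ends_cont ht hE).continuousOn
  have h3 : v ∈ uIcc (E x₁).re (E x₂).re := by
    rw [uIcc_of_le (h₁.trans h₂)]; exact ⟨h₁, h₂⟩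
  obtain ⟨x, -, hx⟩ := h h3
  refine ⟨x, ?_⟩
  rw [ends_ofReal hE x]
  exact_mod_cast hx

private lemma ends_ne {b : Base} {q : ℕ} {ℓ : ℂ → ℂ} {θ θ' : ℂ} {E E' : ℂ → ℂ}
    (A : EArm b q ℓ θ E) (A' : EArm b q ℓ θ' E') (hθ : θ ≠ θ') (x y : ℝ) : E x ≠ E' y := by
  intro hxy
  apply hθ
  have h := inv_eq_of_real b A.inv A'.inv A.ext A'.ext hxy
  set ξ : ℂ := ((b.t₀ / 2 : ℝ) : ℂ) * Complex.I with hξd
  have hξ : ξ ∈ St b.t₀ := by
    have := b.ht₀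
    constructor <;> simp [hξd] <;> linarith
  have hiter : ∀ n : ℕ, E^[n] ξ = E'^[n] ξ := by
    intro n
    induction n with
    | zero => rfl
    | succ n ih =>
      rw [Function.iterate_succ_apply', Function.iterate_succ_apply', ← ih]
      exact h (A.inv.iter_mem n hξ)
  refine tendsto_nhds_unique (A.hlog ξ hξ) ((A'.hlog ξ hξ).congr fun n => ?_)
  rw [hiter n]

private lemma ends_not_same {b : Base} {q : ℕ} {ℓ : ℂ → ℂ} {θ θ' : ℂ} {E E' : ℂ → ℂ}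
    (A : EArm b q ℓ θ E) (A' : EArm b q ℓ θ' E') (hθ : θ ≠ θ')
    (hle : (E (0 : ℝ)).re ≤ (E' (0 : ℝ)).re) (hr : ∀ x : ℝ, x < (E x).re)
    (_hr' : ∀ x : ℝ, x < (E' x).re) : False := by
  obtain ⟨x, hx⟩ := ends_ivt b.ht₀ A.ext hle (hr (E' (0 : ℝ)).re).le
  exact ends_ne A A' hθ x 0 (by rw [hx]; exact (ends_ofReal A'.ext 0).symm)

private lemma ends_not_same' {b : Base} {q : ℕ} {ℓ : ℂ → ℂ} {θ θ' : ℂ} {E E' : ℂ → ℂ}
    (A : EArm b q ℓ θ E) (A' : EArm b q ℓ θ' E') (hθ : θ ≠ θ')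
    (hle : (E (0 : ℝ)).re ≤ (E' (0 : ℝ)).re) (_hr : ∀ x : ℝ, (E x).re < x)
    (hr' : ∀ x : ℝ, (E' x).re < x) : False := by
  obtain ⟨x, hx⟩ := ends_ivt b.ht₀ A'.ext (hr' (E (0 : ℝ)).re).le hle
  exact ends_ne A A' hθ 0 x (by rw [hx]; exact ends_ofReal A.ext 0)

private lemma ends_lim {b : Base} {q : ℕ} (hq : 1 ≤ q) {ℓ : ℂ → ℂ} {θ : ℂ} {E : ℂ → ℂ}
    (hℓe : ∀ z ∈ Hp, Complex.exp (ℓ z) = b.φ z - b.ζ)
    (A : EArm b q ℓ θ E) : ∀ ξ ∈ St b.t₀, Tendsto (fun n : ℕ => b.φ (E^[n] ξ)) atTop (𝓝 b.ζ) := by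
  intro ξ hξ
  have hq0 : (0 : ℝ) < q := by exact_mod_cast hq
  have h1 : Tendsto (fun n : ℕ => Real.log n / q) atTop atTop :=
    (Real.tendsto_log_atTop.comp tendsto_natCast_atTop_atTop).atTop_div_const hq0
  have h2 : Tendsto (fun n : ℕ => (ℓ (E^[n] ξ) + ((Real.log n / q : ℝ) : ℂ)).re) atTop
      (𝓝 θ.re) := (Complex.continuous_re.tendsto _).comp (A.hlog ξ hξ)
  have h3 : Tendsto (fun n : ℕ => (ℓ (E^[n] ξ)).re) atTop atBot := by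
    have h4 : Tendsto (fun n : ℕ => -(Real.log n / q)) atTop atBot := tendsto_neg_atTop_atBot.comp h1
    have h5 := h2.add_atBot h4
    refine h5.congr fun n => ?_
    rw [Complex.add_re, Complex.ofReal_re]
    ring
  have h4 : Tendsto (fun n : ℕ => Complex.exp (ℓ (E^[n] ξ))) atTop (𝓝 0) := by
    rw [tendsto_zero_iff_norm_tendsto_zero]
    have h5 := Real.tendsto_exp_atBot.comp h3
    refine h5.congr fun n => ?_
    rw [Complex.norm_exp]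
    rfl
  have h5 := h4.add_const b.ζ
  rw [zero_add] at h5
  refine h5.congr fun n => ?_
  rw [hℓe _ (St_sub_Hp _ (A.inv.iter_mem n hξ))]
  ring

private lemma ends_build {b : Base} {q : ℕ} (hq : 1 ≤ q) {ℓ : ℂ → ℂ} {θ θ' : ℂ} {E E' : ℂ → ℂ}
    (hℓe : ∀ z ∈ Hp, Complex.exp (ℓ z) = b.φ z - b.ζ)
    (A : EArm b q ℓ θ E) (A' : EArm b q ℓ θ' E') (hθ : θ ≠ θ') (hr : ∀ x : ℝ, x < (E x).re)
    (hl : ∀ x : ℝ, (E' x).re < x) : Nonempty (Ends b) := by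
  refine ⟨⟨fun σ => if σ then E else E', ?_, ?_, ?_, ?_, ?_, ?_, ?_⟩⟩
  · rintro (_ | _)
    · exact A'.inv
    · exact A.inv
  · rintro (_ | _)
    · exact A'.ext
    · exact A.ext
  · exact hr
  · exact hl
  · intro x y
    by_contra hcon
    have h1 : (E y).re ≤ (E' x).re := not_lt.mp hcon
    obtain ⟨z, hz⟩ := ends_ivt b.ht₀ A'.ext (hl (E y).re).le h1
    exact ends_ne A A' hθ y z (by rw [hz]; exact ends_ofReal A.ext y)
  · rintro (_ | _)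
    · exact A'.him0
    · exact A.him0
  · rintro (_ | _)
    · exact ends_lim hq hℓe A'
    · exact ends_lim hq hℓe A

/-- the two ends -/
theorem ends_exist (b : Base) {q : ℕ} (hq : 1 ≤ q) {ℓ : ℂ → ℂ} {l₀ : ℂ}
    (hℓ : DifferentiableOn ℂ ℓ Hp) (hℓe : ∀ z ∈ Hp, Complex.exp (ℓ z) = b.φ z - b.ζ)
    (S₁ : Side b 1 q ℓ l₀) (S₂ : Side b (-1) q ℓ l₀) : Nonempty (Ends b) := by
  obtain ⟨K₁, A₁⟩ := S₁.arm hℓ hℓe
  obtain ⟨K₂, A₂⟩ := S₂.arm hℓ hℓe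
  obtain ⟨E₁, B₁⟩ := ends_earm A₁
  obtain ⟨E₂, B₂⟩ := ends_earm A₂
  have hq0 : (q : ℂ) ≠ 0 := by exact_mod_cast (by omega : q ≠ 0)
  have hθ : l₀ - ((1 : ℝ) : ℂ) * Real.pi * Complex.I / q ≠
      l₀ - ((-1 : ℝ) : ℂ) * Real.pi * Complex.I / q := by
    intro h
    have h1 : (2 : ℂ) * Real.pi * Complex.I / q = 0 := by
      have h2 := sub_right_inj.mp h
      push_cast at h2
      have h3 : (2 : ℂ) * Real.pi * Complex.I / q =
        1 * Real.pi * Complex.I / q - -1 * Real.pi * Complex.I / q := by ring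
      rw [h3, h2, sub_self]
    have h2 : (2 : ℂ) * Real.pi * Complex.I / q ≠ 0 := by
      refine div_ne_zero (mul_ne_zero (mul_ne_zero two_ne_zero ?_) Complex.I_ne_zero) hq0
      exact_mod_cast Real.pi_ne_zero
    exact h2 h1
  rcases B₁.side with h₁ | h₁ <;> rcases B₂.side with h₂ | h₂
  · exfalso
    rcases le_total (E₁ (0 : ℝ)).re (E₂ (0 : ℝ)).re with h | h
    · exact ends_not_same B₁ B₂ hθ h h₁ h₂
    · exact ends_not_same B₂ B₁ hθ.symm h h₂ h₁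
  · exact ends_build hq hℓe B₁ B₂ hθ h₁ h₂
  · exact ends_build hq hℓe B₂ B₁ hθ.symm h₂ h₁
  · exfalso
    rcases le_total (E₁ (0 : ℝ)).re (E₂ (0 : ℝ)).re with h | h
    · exact ends_not_same' B₁ B₂ hθ h h₁ h₂
    · exact ends_not_same' B₂ B₁ hθ.symm h h₂ h₁

end Pool.Agent.BB.P
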