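import Pool.Agent.BB.P.Basic

open Set Metric Filter Topology MeasureTheory

namespace Pool.Agent.BB.P

/-- the concatenation of the images of the segment from `z₀` to `z₁` -/
private noncomputable def ORBd (b : Base) (z₀ z₁ : ℂ) (s : ℝ) : ℂ :=
  b.F^[⌊s⌋₊] (b.φ (z₀ + ((s - ⌊s⌋₊ : ℝ) : ℂ) * (z₁ - z₀)))

private lemma ORB_seg (z₀ z₁ : ℂ) (h₀ : z₀ ∈ Hp) (h₁ : z₁ ∈ Hp) {t : ℝ} (ht0 : 0 ≤ t)
    (ht1 : t ≤ 1) : z₀ + (t : ℂ) * (z₁ - z₀) ∈ Hp := by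
  have := convex_Hp.add_smul_sub_mem h₀ h₁ ⟨ht0, ht1⟩
  simpa [Complex.real_smul] using this

private lemma ORB_piece (b : Base) (z₀ z₁ : ℂ)
    (h01 : b.φ z₁ = b.F (b.φ z₀)) (n : ℕ) {s : ℝ} (hs : s ∈ Icc (n : ℝ) (n + 1)) :
    ORBd b z₀ z₁ s = b.F^[n] (b.φ (z₀ + ((s - n : ℝ) : ℂ) * (z₁ - z₀))) := by
  rcases hs.2.lt_or_eq with h | h
  · have : ⌊s⌋₊ = n := by
      rw [Nat.floor_eq_iff ((Nat.cast_nonneg n).trans hs.1)]
      exact ⟨hs.1, h⟩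
    rw [ORBd, this]
  · have : ⌊s⌋₊ = n + 1 := by
      rw [h]
      exact_mod_cast Nat.floor_natCast (n + 1)
    rw [ORBd, this, h]
    have e1 : (((n : ℝ) + 1 - ((n + 1 : ℕ) : ℝ) : ℝ) : ℂ) = 0 := by push_cast; ring
    have e2 : (((n : ℝ) + 1 - (n : ℝ) : ℝ) : ℂ) = 1 := by push_cast; ring
    rw [e1, e2, zero_mul, add_zero, one_mul, add_sub_cancel, h01, Function.iterate_succ_apply]

private lemma ORB_cont (b : Base) (z₀ z₁ : ℂ) (h₀ : z₀ ∈ Hp) (h₁ : z₁ ∈ Hp)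
    (h01 : b.φ z₁ = b.F (b.φ z₀)) : ContinuousOn (ORBd b z₀ z₁) (Ici 0) := by
  have h1 : ∀ n : ℕ, ContinuousOn (ORBd b z₀ z₁) (Icc (n : ℝ) (n + 1)) := by
    intro n
    have h2 : ContinuousOn (fun s : ℝ => b.F^[n] (b.φ (z₀ + ((s - n : ℝ) : ℂ) * (z₁ - z₀))))
        (Icc (n : ℝ) (n + 1)) := by
      refine (b.iter_diff n).continuous.comp_continuousOn ?_
      refine b.hφ.continuousOn.comp (by fun_prop) ?_
      intro s hs
      exact ORB_seg z₀ z₁ h₀ h₁ (by linarith [hs.1]) (by linarith [hs.2])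
    exact h2.congr fun s hs => ORB_piece b z₀ z₁ h01 n hs
  have h2 : ∀ n : ℕ, ContinuousOn (ORBd b z₀ z₁) (Icc (0:ℝ) n) := by
    intro n
    induction n with
    | zero => simp
    | succ n ih =>
      have := ih.union_of_isClosed (h1 n) isClosed_Icc isClosed_Icc
      rw [Icc_union_Icc_eq_Icc (Nat.cast_nonneg n) (by linarith)] at this
      exact_mod_cast this
  intro s hs
  obtain ⟨n, hn⟩ := exists_nat_gt s
  refine (h2 n s ⟨hs, hn.le⟩).mono_of_mem_nhdsWithin ?_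
  rw [mem_nhdsWithin]
  exact ⟨Iio n, isOpen_Iio, hn, fun x hx => ⟨hx.2, le_of_lt hx.1⟩⟩

/-- a forward orbit curve: it tends to infinity and its image tends to `ζ` -/
theorem Base.orbit_curve (b : Base) : ∃ γ : ℝ → ℂ, ContinuousOn γ (Ico 0 1) ∧
    (∀ x ∈ Ico (0:ℝ) 1, γ x ∈ Hp) ∧ Tendsto (fun x => ‖γ x‖) (𝓝[<] 1) atTop ∧
      Tendsto (fun x => b.φ (γ x)) (𝓝[<] 1) (𝓝 b.ζ) := by
  have hI : Complex.I ∈ Hp := by simp [Hp]
  set z₀ : ℂ := Complex.I with hz₀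
  set z₁ : ℂ := b.ψ (b.F (b.φ z₀)) with hz₁
  have hFU : b.F (b.φ z₀) ∈ b.U := b.hFU (b.φ_mem hI)
  have h₁ : z₁ ∈ Hp := b.ψ_mem hFU
  have h01 : b.φ z₁ = b.F (b.φ z₀) := b.φψ hFU
  -- the compact set
  have hKc : IsCompact ((fun t : ℝ => z₀ + (t : ℂ) * (z₁ - z₀)) '' Icc 0 1) :=
    isCompact_Icc.image (by fun_prop)
  have hKH : (fun t : ℝ => z₀ + (t : ℂ) * (z₁ - z₀)) '' Icc 0 1 ⊆ Hp := by
    rintro _ ⟨t, ht, rfl⟩
    exact ORB_seg z₀ z₁ hI h₁ ht.1 ht.2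
  set K : Set ℂ := b.φ '' ((fun t : ℝ => z₀ + (t : ℂ) * (z₁ - z₀)) '' Icc 0 1) with hK
  have hKcomp : IsCompact K := b.φ_compact hKc hKH
  have hKU : K ⊆ b.U := by
    rintro _ ⟨z, hz, rfl⟩
    exact b.φ_mem (hKH hz)
  have hmem : ∀ s : ℝ, 0 ≤ s → b.φ (z₀ + ((s - ⌊s⌋₊ : ℝ) : ℂ) * (z₁ - z₀)) ∈ K := by
    intro s hs
    refine ⟨_, ⟨s - ⌊s⌋₊, ⟨?_, ?_⟩, rfl⟩, rfl⟩
    · have := Nat.floor_le hs
      linarith
    · have := Nat.lt_floor_add_one s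
      linarith
  have hdU : ∀ s : ℝ, 0 ≤ s → ORBd b z₀ z₁ s ∈ b.U := fun s hs =>
    b.iter_mem (hKU (hmem s hs)) _
  let σ : ℝ → ℝ := fun x => x / (1 - x)
  have hσ0 : ∀ x ∈ Ico (0:ℝ) 1, 0 ≤ σ x := fun x hx => div_nonneg hx.1 (by linarith [hx.2])
  have hσc : ContinuousOn σ (Ico 0 1) := by
    refine continuousOn_id.div (continuousOn_const.sub continuousOn_id) ?_
    intro x hx
    have := hx.2
    exact (sub_pos.2 this).ne'
  have hσt : Tendsto σ (𝓝[<] 1) atTop := by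
    have h1 : Tendsto (fun x : ℝ => 1 - x) (𝓝[<] 1) (𝓝[>] 0) := by
      refine tendsto_nhdsWithin_of_tendsto_nhds_of_eventually_within _ ?_ ?_
      · have : Tendsto (fun x : ℝ => 1 - x) (𝓝 1) (𝓝 (1 - 1)) := by
          exact (continuous_const.sub continuous_id).tendsto 1
        rw [sub_self] at this
        exact this.mono_left nhdsWithin_le_nhds
      · filter_upwards [self_mem_nhdsWithin] with x hx
        simp only [mem_Iio] at hx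
        simp only [mem_Ioi]
        linarith
    have h2 : Tendsto (fun x : ℝ => (1 - x)⁻¹) (𝓝[<] 1) atTop := tendsto_inv_nhdsGT_zero.comp h1
    have h3 : Tendsto (fun x : ℝ => (1 - x)⁻¹ - 1) (𝓝[<] 1) atTop :=
      tendsto_atTop_add_const_right _ _ h2
    refine h3.congr' ?_
    filter_upwards [self_mem_nhdsWithin] with x hx
    simp only [mem_Iio] at hx
    have : (1 : ℝ) - x ≠ 0 := by linarith
    simp only [σ]
    field_simp
    ring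
  have hIco : ∀ᶠ x in 𝓝[<] (1:ℝ), x ∈ Ico (0:ℝ) 1 := by
    have : Ioo (0:ℝ) 1 ∈ 𝓝[<] (1:ℝ) := Ioo_mem_nhdsLT zero_lt_one
    exact mem_of_superset this Ioo_subset_Ico_self
  have hφγ : ∀ x ∈ Ico (0:ℝ) 1, b.φ (b.ψ (ORBd b z₀ z₁ (σ x))) = ORBd b z₀ z₁ (σ x) :=
    fun x hx => b.φψ (hdU _ (hσ0 x hx))
  -- closeness to zeta
  have hclose : ∀ ε > 0, ∀ᶠ x in 𝓝[<] (1:ℝ), ‖ORBd b z₀ z₁ (σ x) - b.ζ‖ < ε := by
    intro ε hε
    obtain ⟨n₀, hn₀⟩ := b.hunif K hKU hKcomp ε hε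
    filter_upwards [hσt.eventually_ge_atTop (n₀ : ℝ), hIco] with x hx hx'
    exact hn₀ _ (Nat.le_floor hx) _ (hmem _ (hσ0 x hx'))
  have hlim : Tendsto (fun x => b.φ (b.ψ (ORBd b z₀ z₁ (σ x)))) (𝓝[<] 1) (𝓝 b.ζ) := by
    rw [Metric.tendsto_nhds]
    intro ε hε
    filter_upwards [hclose ε hε, hIco] with x hx hx'
    rw [hφγ x hx', dist_eq_norm]
    exact hx
  refine ⟨fun x => b.ψ (ORBd b z₀ z₁ (σ x)), ?_, ?_, ?_, hlim⟩
  · refine b.hψ.continuousOn.comp ?_ fun x hx => hdU _ (hσ0 x hx)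
    exact (ORB_cont b z₀ z₁ hI h₁ h01).comp hσc fun x hx => hσ0 x hx
  · intro x hx
    exact b.ψ_mem (hdU _ (hσ0 x hx))
  · -- tends to infinity
    -- lower bound for the imaginary part
    have hψK : IsCompact (b.ψ '' K) := b.ψ_compact hKcomp hKU
    have hKne : K.Nonempty := ⟨_, hmem 0 le_rfl⟩
    obtain ⟨w, hwK, hwmin⟩ := hψK.exists_isMinOn (hKne.image _)
      Complex.continuous_im.continuousOn
    have hwpos : 0 < w.im := by
      obtain ⟨v, hv, rfl⟩ := hwK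
      exact b.ψ_mem (hKU hv)
    have him : ∀ x ∈ Ico (0:ℝ) 1, w.im ≤ (b.ψ (ORBd b z₀ z₁ (σ x))).im := by
      intro x hx
      have h1 := hmem _ (hσ0 x hx)
      refine le_trans ?_ (b.im_iter (hKU h1) ⌊σ x⌋₊)
      exact hwmin ⟨_, h1, rfl⟩
    rw [Filter.tendsto_atTop]
    intro M
    -- the compact set of points of norm at most M
    have hL : IsCompact (closedBall (0:ℂ) M ∩ {z : ℂ | w.im ≤ z.im}) :=
      (isCompact_closedBall 0 M).inter_right (isClosed_le continuous_const Complex.continuous_im)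
    have hLH : closedBall (0:ℂ) M ∩ {z : ℂ | w.im ≤ z.im} ⊆ Hp := fun z hz =>
      lt_of_lt_of_le hwpos hz.2
    have hφL : IsCompact (b.φ '' (closedBall (0:ℂ) M ∩ {z : ℂ | w.im ≤ z.im})) :=
      b.φ_compact hL hLH
    have hζ : b.ζ ∈ (b.φ '' (closedBall (0:ℂ) M ∩ {z : ℂ | w.im ≤ z.im}))ᶜ := by
      rintro ⟨z, hz, h⟩
      exact b.hζU (h ▸ b.φ_mem (hLH hz))
    obtain ⟨ε, hε, hball⟩ := Metric.isOpen_iff.1 hφL.isClosed.isOpen_compl _ hζ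
    filter_upwards [hclose ε hε, hIco] with x hx hx'
    by_contra hcon
    push Not at hcon
    have h1 : ORBd b z₀ z₁ (σ x) ∈ ball b.ζ ε := by rw [mem_ball, dist_eq_norm]; exact hx
    apply hball h1
    refine ⟨b.ψ (ORBd b z₀ z₁ (σ x)), ⟨?_, him x hx'⟩, hφγ x hx'⟩
    rw [mem_closedBall, dist_zero_right]
    exact hcon.le

end Pool.Agent.BB.P
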