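import Pool.Agent.BB.P.TL
import Pool.Agent.BB.P.ORB

open Set Metric Filter Topology MeasureTheory

namespace Pool.Agent.BB.P

variable {b : Base}

/-- a curve in the half plane which leaves every compact set and does not tend to infinity
comes close to a real point -/
private lemma EXIT_cluster {γ : ℝ → ℂ} (hH : ∀ᶠ x in 𝓝[<] (1:ℝ), γ x ∈ Hp)
    (hK : ∀ K ⊆ Hp, IsCompact K → ∀ᶠ x in 𝓝[<] (1:ℝ), γ x ∉ K)
    (hnt : ¬ Tendsto (fun x => ‖γ x‖) (𝓝[<] 1) atTop) :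
    ∃ y : ℝ, ∀ r > 0, ∃ᶠ x in 𝓝[<] (1:ℝ), ‖γ x - y‖ < r := by
  rw [Filter.tendsto_atTop] at hnt
  push Not at hnt
  obtain ⟨M, hM⟩ := hnt
  have hcl : IsClosed {z : ℂ | 0 ≤ z.im} := isClosed_le continuous_const Complex.continuous_im
  have hKc : IsCompact (closedBall (0:ℂ) M ∩ {z : ℂ | 0 ≤ z.im}) :=
    (isCompact_closedBall _ _).inter_right hcl
  have hfr : ∃ᶠ x in 𝓝[<] (1:ℝ), γ x ∈ closedBall (0:ℂ) M ∩ {z : ℂ | 0 ≤ z.im} := by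
    refine (hM.and_eventually hH).mono ?_
    rintro x ⟨h1, h2⟩
    refine ⟨?_, show (0:ℝ) ≤ (γ x).im from (show (0:ℝ) < (γ x).im from h2).le⟩
    rw [mem_closedBall, dist_zero_right]
    exact h1.le
  obtain ⟨y, hy, hcp⟩ := hKc.exists_mapClusterPt_of_frequently hfr
  have hball : ∀ r > 0, ∃ᶠ x in 𝓝[<] (1:ℝ), γ x ∈ ball y r := by
    intro r hr
    exact hcp.frequently (ball_mem_nhds y hr)
  rcases eq_or_lt_of_le (show 0 ≤ y.im from hy.2) with h0 | h0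
  · refine ⟨y.re, fun r hr => (hball r hr).mono ?_⟩
    intro x hx
    have hyr : y = (y.re : ℂ) := by
      apply Complex.ext
      · simp
      · simp [← h0]
    rw [mem_ball, dist_eq_norm] at hx
    rwa [← hyr]
  · exfalso
    obtain ⟨r, hr, hrs⟩ := Metric.isOpen_iff.mp isOpen_Hp y h0
    have h1 : closedBall y (r / 2) ⊆ Hp :=
      (closedBall_subset_ball (by linarith)).trans hrs
    have h2 := hK _ h1 (isCompact_closedBall _ _)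
    obtain ⟨x, hx1, hx2⟩ := ((hball (r / 2) (by linarith)).and_eventually h2).exists
    exact hx2 (ball_subset_closedBall hx1)

/-- first time in a relatively closed set -/
private lemma EXIT_first {κ : ℝ → ℂ} {A : Set ℂ} {x₁ : ℝ} (hx₁ : 0 ≤ x₁)
    (hκ : ContinuousOn κ (Icc 0 x₁)) (hA : ∀ x ∈ Icc 0 x₁, κ x ∈ closure A → κ x ∈ A)
    (h1 : κ x₁ ∈ A) : ∃ t ∈ Icc 0 x₁, κ t ∈ A ∧ ∀ x, 0 ≤ x → x < t → κ x ∉ A := by
  set S : Set ℝ := Icc 0 x₁ ∩ κ ⁻¹' closure A with hS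
  have hSc : IsClosed S := hκ.preimage_isClosed_of_isClosed isClosed_Icc isClosed_closure
  have hSb : BddBelow S := ⟨0, fun x hx => hx.1.1⟩
  have hSne : S.Nonempty := ⟨x₁, ⟨hx₁, le_rfl⟩, subset_closure h1⟩
  have hmem : sInf S ∈ S := hSc.csInf_mem hSne hSb
  refine ⟨sInf S, hmem.1, hA _ hmem.1 hmem.2, ?_⟩
  intro x hx0 hxlt hxA
  have : x ∈ S := ⟨⟨hx0, (hxlt.le.trans hmem.1.2)⟩, subset_closure hxA⟩
  exact absurd (csInf_le hSb this) (not_le.mpr hxlt)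

/-- exit of a half-open curve -/
theorem Cut.exit_aux {e : Ends b} (k : Cut b e) {n : ℕ} {κ : ℝ → ℂ}
    (hκ : ContinuousOn κ (Ico 0 1)) (hU : ∀ x ∈ Ico (0:ℝ) 1, κ x ∈ b.U)
    (h0 : b.ψ (b.F^[n] (κ 0)) ∉ k.C)
    (hleave : ∀ K ⊆ b.U, IsCompact K → ∀ᶠ x in 𝓝[<] (1:ℝ), b.F^[n] (κ x) ∉ K)
    (hnt : ¬ Tendsto (fun x => ‖b.ψ (b.F^[n] (κ x))‖) (𝓝[<] 1) atTop) :
    ∃ t ∈ Ioo (0:ℝ) 1, ∃ (σ : Bool) (j : ℕ), ∃ η ∈ k.G,
      b.ψ (b.F^[n] (κ t)) = (e.E σ)^[j] η := by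
  have hIco : ∀ᶠ x in 𝓝[<] (1:ℝ), x ∈ Ico (0:ℝ) 1 := by
    filter_upwards [Ioo_mem_nhdsLT (show (0:ℝ) < 1 by norm_num)] with x hx
    exact ⟨hx.1.le, hx.2⟩
  have hUn : ∀ x ∈ Ico (0:ℝ) 1, b.F^[n] (κ x) ∈ b.U := fun x hx => b.iter_mem (hU x hx) n
  have hHn : ∀ x ∈ Ico (0:ℝ) 1, b.ψ (b.F^[n] (κ x)) ∈ Hp := fun x hx => b.ψ_mem (hUn x hx)
  have hcont : ContinuousOn (fun x => b.ψ (b.F^[n] (κ x))) (Ico 0 1) :=
    b.hψ.continuousOn.comp ((b.iter_diff n).continuous.comp_continuousOn hκ) hUn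
  obtain ⟨y, hy⟩ := EXIT_cluster (γ := fun x => b.ψ (b.F^[n] (κ x)))
    (hIco.mono hHn) (by
      intro K hK hKc
      have h1 : b.φ '' K ⊆ b.U := by
        rintro _ ⟨z, hz, rfl⟩
        exact b.φ_mem (hK hz)
      filter_upwards [hleave _ h1 (b.φ_compact hKc hK), hIco] with x hx hxI hxK
      apply hx
      refine ⟨_, hxK, ?_⟩
      exact b.φψ (hUn x hxI)) hnt
  obtain ⟨r, hr, hrC⟩ := k.hreal y
  obtain ⟨x₁, hx₁r, hx₁⟩ := ((hy r hr).and_eventually hIco).exists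
  have hx₁C : b.ψ (b.F^[n] (κ x₁)) ∈ k.C := hrC _ (hHn x₁ hx₁) hx₁r
  have hsub : Icc 0 x₁ ⊆ Ico (0:ℝ) 1 := fun x hx => ⟨hx.1, hx.2.trans_lt hx₁.2⟩
  obtain ⟨t, ht, htC, htf⟩ := EXIT_first (κ := fun x => b.ψ (b.F^[n] (κ x))) (A := k.C) hx₁.1
    (hcont.mono hsub) (fun x hx h => k.hcl _ (hHn x (hsub hx)) h) hx₁C
  have ht0 : 0 < t := by
    rcases eq_or_lt_of_le ht.1 with h | h
    · exfalso
      subst h
      exact h0 htC
    · exact h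
  have ht1 : t < 1 := ht.2.trans_lt hx₁.2
  suffices h : b.ψ (b.F^[n] (κ t)) ∈ closure (Hp \ k.C) by
    obtain ⟨σ, j, η, hη, he⟩ := k.hfr _ (hHn t ⟨ht0.le, ht1⟩) htC h
    exact ⟨t, ⟨ht0, ht1⟩, σ, j, η, hη, he.symm⟩
  -- `γ t` is a limit of points outside `C`
  have h1 : Tendsto (fun x => b.ψ (b.F^[n] (κ x))) (𝓝[<] t) (𝓝 (b.ψ (b.F^[n] (κ t)))) := by
    have h2 := hcont t ⟨ht0.le, ht1⟩
    refine h2.mono_left ?_
    have h3 : Ioo 0 t ⊆ Ico (0:ℝ) 1 := fun x hx => ⟨hx.1.le, hx.2.trans ht1⟩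
    rw [← nhdsWithin_Ioo_eq_nhdsLT ht0]
    exact nhdsWithin_mono _ h3
  refine mem_closure_of_tendsto h1 ?_
  filter_upwards [Ioo_mem_nhdsLT ht0] with x hx
  exact ⟨hHn x ⟨hx.1.le, hx.2.trans ht1⟩, htf x hx.1.le hx.2⟩

/-- the first exit of a path -/
theorem Cut.exit {e : Ends b} (k : Cut b e) {n : ℕ} {κ : ℝ → ℂ} (hκ : ContinuousOn κ (Icc 0 1))
    (hU : κ 0 ∈ b.U) (h0 : b.ψ (b.F^[n] (κ 0)) ∉ k.C) (h1 : κ 1 ∉ b.U)
    (hζ : ∀ x ∈ Icc (0:ℝ) 1, b.F^[n] (κ x) ≠ b.ζ) :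
    ∃ t ∈ Ioo (0:ℝ) 1, (∀ x ∈ Icc 0 t, κ x ∈ b.U) ∧ ∃ (σ : Bool) (j : ℕ), ∃ η ∈ k.G,
      b.ψ (b.F^[n] (κ t)) = (e.E σ)^[j] η := by
  obtain ⟨τ, hτ, hτU, hτf⟩ := EXIT_first (κ := κ) (A := b.Uᶜ) zero_le_one hκ
    (fun x _ h => by rwa [b.hUo.isClosed_compl.closure_eq] at h) h1
  have hτ0 : 0 < τ := by
    rcases eq_or_lt_of_le hτ.1 with h | h
    · exfalso
      subst h
      exact hτU hU
    · exact h
  set κ' : ℝ → ℂ := fun x => κ (τ * x) with hκ'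
  have hmaps : MapsTo (fun x : ℝ => τ * x) (Icc 0 1) (Icc 0 1) := by
    intro x hx
    exact ⟨mul_nonneg hτ.1 hx.1, mul_le_one₀ hτ.2 hx.1 hx.2⟩
  have hκ'c : ContinuousOn κ' (Icc 0 1) := hκ.comp (by fun_prop) hmaps
  have hκ'U : ∀ x ∈ Ico (0:ℝ) 1, κ' x ∈ b.U := by
    intro x hx
    by_contra hcon
    exact hτf (τ * x) (mul_nonneg hτ.1 hx.1) (by nlinarith [hx.2]) hcon
  have hκ'1 : κ' 1 = κ τ := by simp [hκ']
  have hIco : ∀ᶠ x in 𝓝[<] (1:ℝ), x ∈ Ico (0:ℝ) 1 := by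
    filter_upwards [Ioo_mem_nhdsLT (show (0:ℝ) < 1 by norm_num)] with x hx
    exact ⟨hx.1.le, hx.2⟩
  have htend : Tendsto κ' (𝓝[<] 1) (𝓝 (κ τ)) := by
    have h2 := hκ'c 1 ⟨zero_le_one, le_rfl⟩
    rw [ContinuousWithinAt, hκ'1] at h2
    refine h2.mono_left ?_
    rw [← nhdsWithin_Ioo_eq_nhdsLT (show (0:ℝ) < 1 by norm_num)]
    exact nhdsWithin_mono _ Ioo_subset_Icc_self
  have hτcl : κ τ ∈ closure b.U :=
    mem_closure_of_tendsto htend (hIco.mono hκ'U)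
  have hFτ : b.F^[n] (κ τ) ∉ b.U := fun h => hτU (b.cl_iter n hτcl h)
  have hFt : Tendsto (fun x => b.F^[n] (κ' x)) (𝓝[<] 1) (𝓝 (b.F^[n] (κ τ))) :=
    ((b.iter_diff n).continuous.tendsto _).comp htend
  have hIc : Ico (0:ℝ) 1 ⊆ Icc 0 1 := Ico_subset_Icc_self
  have hmainc : ContinuousOn (fun x => b.ψ (b.F^[n] (κ' x))) (Ico 0 1) :=
    b.hψ.continuousOn.comp ((b.iter_diff n).continuous.comp_continuousOn (hκ'c.mono hIc))
      (fun x hx => b.iter_mem (hκ'U x hx) n)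
  obtain ⟨t, ht, hex⟩ := k.exit_aux (n := n) (κ := κ') (hκ'c.mono hIc) hκ'U
    (by simpa [hκ'] using h0)
    (by
      intro K hK hKc
      have : b.F^[n] (κ τ) ∈ Kᶜ := fun h => hFτ (hK h)
      exact hFt.eventually (hKc.isClosed.isOpen_compl.mem_nhds this))
    (by
      intro hinf
      obtain ⟨γ, hγc, hγH, hγn, hγζ⟩ := b.orbit_curve
      have := two_limits b.hφ b.φ_inj (γ₁ := fun x => b.ψ (b.F^[n] (κ' x))) (γ₂ := γ)
        hmainc hγc (fun x hx => b.ψ_mem (b.iter_mem (hκ'U x hx) n)) hγH hinf hγn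
        (p₁ := b.F^[n] (κ τ)) (p₂ := b.ζ)
        (hFt.congr' (by
          filter_upwards [hIco] with x hx
          exact (b.φψ (b.iter_mem (hκ'U x hx) n)).symm)) hγζ
      exact hζ τ hτ this)
  refine ⟨τ * t, ⟨mul_pos hτ0 ht.1, ?_⟩, ?_, hex⟩
  · have h3 : τ * t < τ * 1 := mul_lt_mul_of_pos_left ht.2 hτ0
    linarith [hτ.2]
  · intro x hx
    by_contra hcon
    have h3 : τ * t < τ * 1 := mul_lt_mul_of_pos_left ht.2 hτ0
    exact hτf x hx.1 (by linarith [hx.2]) hcon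

/-- curves which land at a boundary point other than `ζ` come close to the real axis -/
theorem Base.access_real (b : Base) {κ : ℝ → ℂ} (hκ : ContinuousOn κ (Icc 0 1))
    (hU : ∀ x ∈ Ico (0:ℝ) 1, κ x ∈ b.U) (h1 : κ 1 ∉ b.U) (hζ : κ 1 ≠ b.ζ) {t : ℝ} (ht : 0 < t) :
    ∃ x ∈ Ico (0:ℝ) 1, (b.ψ (κ x)).im < t := by
  have hIco : ∀ᶠ x in 𝓝[<] (1:ℝ), x ∈ Ico (0:ℝ) 1 := by
    filter_upwards [Ioo_mem_nhdsLT (show (0:ℝ) < 1 by norm_num)] with x hx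
    exact ⟨hx.1.le, hx.2⟩
  have hIc : Ico (0:ℝ) 1 ⊆ Icc 0 1 := Ico_subset_Icc_self
  have htend : Tendsto κ (𝓝[<] 1) (𝓝 (κ 1)) := by
    have h2 := hκ 1 ⟨zero_le_one, le_rfl⟩
    refine h2.mono_left ?_
    rw [← nhdsWithin_Ioo_eq_nhdsLT (show (0:ℝ) < 1 by norm_num)]
    exact nhdsWithin_mono _ Ioo_subset_Icc_self
  have hmainc : ContinuousOn (fun x => b.ψ (κ x)) (Ico 0 1) :=
    b.hψ.continuousOn.comp (hκ.mono hIc) hU
  obtain ⟨y, hy⟩ := EXIT_cluster (γ := fun x => b.ψ (κ x))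
    (hIco.mono fun x hx => b.ψ_mem (hU x hx)) (by
      intro K hK hKc
      have h2 : b.φ '' K ⊆ b.U := by
        rintro _ ⟨z, hz, rfl⟩
        exact b.φ_mem (hK hz)
      have h3 : κ 1 ∈ (b.φ '' K)ᶜ := fun h => h1 (h2 h)
      filter_upwards [htend.eventually
        ((b.φ_compact hKc hK).isClosed.isOpen_compl.mem_nhds h3), hIco] with x hx hxI hxK
      exact hx ⟨_, hxK, b.φψ (hU x hxI)⟩)
    (by
      intro hinf
      obtain ⟨γ, hγc, hγH, hγn, hγζ⟩ := b.orbit_curve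
      have := two_limits b.hφ b.φ_inj (γ₁ := fun x => b.ψ (κ x)) (γ₂ := γ)
        hmainc hγc (fun x hx => b.ψ_mem (hU x hx)) hγH hinf hγn
        (p₁ := κ 1) (p₂ := b.ζ)
        (htend.congr' (by
          filter_upwards [hIco] with x hx
          exact (b.φψ (hU x hx)).symm)) hγζ
      exact hζ this)
  obtain ⟨x, hx1, hx⟩ := ((hy t ht).and_eventually hIco).exists
  refine ⟨x, hx, ?_⟩
  have h4 := (Complex.abs_im_le_norm (b.ψ (κ x) - y)).trans_lt hx1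
  simp only [Complex.sub_im, Complex.ofReal_im, sub_zero] at h4
  exact (le_abs_self _).trans_lt h4

end Pool.Agent.BB.P
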