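import Pool.Agent.BB.P.Basic

open Set Metric Filter Topology MeasureTheory

namespace Pool.Agent.BB.P

/-- first exit point of a segment -/
private lemma STR_exit {U : Set ℂ} (hU : IsOpen U) {u y : ℂ} (hu : u ∈ U) (hy : y ∉ U) :
    ∃ τ : ℝ, 0 < τ ∧ τ ≤ 1 ∧ u + τ * (y - u) ∉ U ∧ ∀ x : ℝ, 0 ≤ x → x < τ → u + x * (y - u) ∈ U := by
  have hc : Continuous fun x : ℝ => u + (x : ℂ) * (y - u) := by fun_prop
  have hcl : IsClosed {x : ℝ | u + (x : ℂ) * (y - u) ∉ U} := by
    have := hU.isClosed_compl.preimage hc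
    exact this
  have hcomp : IsCompact (Icc (0:ℝ) 1 ∩ {x : ℝ | u + (x : ℂ) * (y - u) ∉ U}) :=
    isCompact_Icc.inter_right hcl
  have hne : (Icc (0:ℝ) 1 ∩ {x : ℝ | u + (x : ℂ) * (y - u) ∉ U}).Nonempty :=
    ⟨1, ⟨zero_le_one, le_rfl⟩, by
      simp only [mem_ofPred_eq, Complex.ofReal_one, one_mul, add_sub_cancel]
      exact hy⟩
  obtain ⟨τ, ⟨hτ, hτU⟩, hmin⟩ := hcomp.exists_isLeast hne
  refine ⟨τ, ?_, hτ.2, hτU, ?_⟩
  · rcases hτ.1.lt_or_eq with h | h
    · exact h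
    · exfalso
      apply hτU
      rw [← h]
      simpa using hu
  · intro x hx0 hx
    by_contra h
    exact absurd (hmin ⟨⟨hx0, hx.le.trans hτ.2⟩, h⟩) (not_le.2 hx)

/-- two distinct points on the line through `u` and `e` -/
private lemma STR_line {u e y y' : ℂ} (hne : y ≠ y')
    (h : ∃ τ : ℝ, 0 < τ ∧ e = u + τ * (y - u)) (h' : ∃ τ : ℝ, 0 < τ ∧ e = u + τ * (y' - u)) :
    ∃ s : ℝ, u = y + s * (y' - y) := by
  obtain ⟨a, ha, hea⟩ := h
  obtain ⟨b, hb, heb⟩ := h'
  have ha' : (a : ℂ) ≠ 0 := by exact_mod_cast ha.ne'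
  have hb' : (b : ℂ) ≠ 0 := by exact_mod_cast hb.ne'
  have h1 : (a : ℂ) * (y - u) = b * (y' - u) := by
    have : u + (a : ℂ) * (y - u) = u + b * (y' - u) := by rw [← hea, ← heb]
    exact add_left_cancel this
  have hab : a ≠ b := by
    rintro rfl
    exact hne (by
      have := mul_left_cancel₀ ha' h1
      exact sub_left_injective this)
  have hab' : (b : ℂ) - a ≠ 0 := by
    intro h
    apply hab
    have : (b : ℂ) = a := sub_eq_zero.1 h
    exact_mod_cast this.symm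
  refine ⟨b / (b - a), ?_⟩
  push_cast
  field_simp
  linear_combination h1

/-- boundary points accessible by straight segments, outside a countable set -/
theorem straight {U : Set ℂ} (hU : IsOpen U) {p : ℂ} (hp : p ∈ closure U)
    (hcirc : ∀ t : ℝ, 0 < t → ∃ y : ℂ, ‖y - p‖ = t ∧ y ∉ U) {N : Set ℂ} (hN : N.Countable)
    {ε : ℝ} (hε : 0 < ε) : ∃ κ : ℝ → ℂ, Continuous κ ∧ (∀ x ∈ Ico (0:ℝ) 1, κ x ∈ U) ∧
      (∀ x ∈ Icc (0:ℝ) 1, κ x ∈ ball p ε) ∧ κ 1 ∉ U ∧ κ 1 ∉ N := by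
  obtain ⟨u, huU, hup⟩ := Metric.mem_closure_iff.1 hp ε hε
  have hu : u ∈ U ∩ ball p ε := ⟨huU, by rw [mem_ball, dist_comm]; exact hup⟩
  obtain ⟨r, hr, hball⟩ := Metric.isOpen_iff.1 (hU.inter isOpen_ball) u hu
  have hr2 : 0 < r / 2 := by positivity
  -- three points
  let us : Fin 3 → ℂ := ![u, u + (r / 2 : ℝ), u + (r / 2 : ℝ) * Complex.I]
  have hus : ∀ i, us i ∈ U ∩ ball p ε := by
    intro i
    apply hball
    fin_cases i
    · simpa [us] using hr
    · simp only [us, mem_ball, dist_eq_norm]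
      simp only [Matrix.cons_val_zero, Matrix.cons_val_one, Fin.mk_one, add_sub_cancel_left]
      rw [Complex.norm_real, Real.norm_of_nonneg hr2.le]
      linarith
    · simp only [us, mem_ball, dist_eq_norm]
      simp only [Fin.reduceFinMk, Matrix.cons_val, add_sub_cancel_left, norm_mul, Complex.norm_I,
        mul_one]
      rw [Complex.norm_real, Real.norm_of_nonneg hr2.le]
      linarith
  choose! y hy hyU using hcirc
  have hex : ∀ (t : ℝ) (i : Fin 3), 0 < t → ∃ τ : ℝ, 0 < τ ∧ τ ≤ 1 ∧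
      us i + τ * (y t - us i) ∉ U ∧ ∀ x : ℝ, 0 ≤ x → x < τ → us i + x * (y t - us i) ∈ U :=
    fun t i ht => STR_exit hU (hus i).1 (hyU t ht)
  choose! τ h0 h1 hout hin using hex
  by_cases hcase : ∃ (t : ℝ) (i : Fin 3), 0 < t ∧ t < ε ∧ us i + τ t i * (y t - us i) ∉ N
  · obtain ⟨t, i, ht, htε, hnN⟩ := hcase
    refine ⟨fun x => us i + ((x * τ t i : ℝ) : ℂ) * (y t - us i), by fun_prop, ?_, ?_, ?_, ?_⟩
    · intro x hx
      refine hin t i ht _ (mul_nonneg hx.1 (h0 t i ht).le) ?_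
      exact mul_lt_of_lt_one_left (h0 t i ht) hx.2
    · intro x hx
      have hconv := convex_ball p ε
      have hy' : y t ∈ ball p ε := by rw [mem_ball, dist_eq_norm, hy t ht]; exact htε
      have hs0 : 0 ≤ x * τ t i := mul_nonneg hx.1 (h0 t i ht).le
      have hs1 : x * τ t i ≤ 1 := mul_le_one₀ hx.2 (h0 t i ht).le (h1 t i ht)
      have := hconv.add_smul_sub_mem (hus i).2 hy' ⟨hs0, hs1⟩
      simpa [Complex.real_smul] using this
    · simpa using hout t i ht
    · simpa using hnN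
  · exfalso
    push Not at hcase
    let T : ℝ → ℂ × ℂ × ℂ := fun t => (us 0 + τ t 0 * (y t - us 0), us 1 + τ t 1 * (y t - us 1),
      us 2 + τ t 2 * (y t - us 2))
    have hmaps : MapsTo T (Ioo 0 ε) (N ×ˢ N ×ˢ N) := by
      intro t ht
      exact ⟨hcase t 0 ht.1 ht.2, hcase t 1 ht.1 ht.2, hcase t 2 ht.1 ht.2⟩
    have hcount : (N ×ˢ N ×ˢ N).Countable := hN.prod (hN.prod hN)
    have hnot : ¬ (Ioo 0 ε).Countable := by
      intro h
      have := h.measure_zero volume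
      rw [Real.volume_Ioo] at this
      simp at this
      linarith
    have hinj : InjOn T (Ioo 0 ε) := by
      intro t ht t' ht' hTT
      by_contra hne
      have hyne : y t ≠ y t' := by
        intro h
        apply hne
        rw [← hy t ht.1, ← hy t' ht'.1, h]
      have hT0 : us 0 + τ t 0 * (y t - us 0) = us 0 + τ t' 0 * (y t' - us 0) :=
        congrArg (fun q => q.1) hTT
      have hT1 : us 1 + τ t 1 * (y t - us 1) = us 1 + τ t' 1 * (y t' - us 1) :=
        congrArg (fun q => q.2.1) hTT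
      have hT2 : us 2 + τ t 2 * (y t - us 2) = us 2 + τ t' 2 * (y t' - us 2) :=
        congrArg (fun q => q.2.2) hTT
      obtain ⟨s0, hs0⟩ := STR_line hyne ⟨τ t 0, h0 t 0 ht.1, rfl⟩ ⟨τ t' 0, h0 t' 0 ht'.1, hT0⟩
      obtain ⟨s1, hs1⟩ := STR_line hyne ⟨τ t 1, h0 t 1 ht.1, rfl⟩ ⟨τ t' 1, h0 t' 1 ht'.1, hT1⟩
      obtain ⟨s2, hs2⟩ := STR_line hyne ⟨τ t 2, h0 t 2 ht.1, rfl⟩ ⟨τ t' 2, h0 t' 2 ht'.1, hT2⟩
      have e0 : us 0 = u := rfl
      have e1 : us 1 = u + (r / 2 : ℝ) := rfl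
      have e2 : us 2 = u + (r / 2 : ℝ) * Complex.I := rfl
      rw [e0] at hs0
      rw [e1] at hs1
      rw [e2] at hs2
      have hd1 : ((r / 2 : ℝ) : ℂ) = ((s1 - s0 : ℝ) : ℂ) * (y t' - y t) := by
        push_cast
        push_cast at hs1
        linear_combination hs1 - hs0
      have hd2 : ((r / 2 : ℝ) : ℂ) * Complex.I = ((s2 - s0 : ℝ) : ℂ) * (y t' - y t) := by
        push_cast
        push_cast at hs2
        linear_combination hs2 - hs0
      have i1 := congrArg Complex.im hd1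
      have r1 := congrArg Complex.re hd1
      have i2 := congrArg Complex.im hd2
      simp only [Complex.mul_im, Complex.mul_re, Complex.ofReal_im, Complex.ofReal_re,
        Complex.I_im, Complex.I_re, zero_mul, add_zero, mul_one, mul_zero, sub_zero] at i1 r1 i2
      have hs : s1 - s0 ≠ 0 := by
        intro h
        rw [h, zero_mul] at r1
        linarith
      have him : (y t' - y t).im = 0 := by
        rcases mul_eq_zero.1 i1.symm with h | h
        · exact absurd h hs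
        · exact h
      rw [him, mul_zero] at i2
      linarith
    exact hnot (hmaps.countable_of_injOn hinj hcount)

/-- the frontier is infinite near each of its points -/
theorem frontier_inf {U : Set ℂ} (hU : IsOpen U) {p : ℂ} (hp : p ∈ frontier U)
    (hcirc : ∀ t : ℝ, 0 < t → ∃ y : ℂ, ‖y - p‖ = t ∧ y ∉ U) {ε : ℝ} (hε : 0 < ε) :
    (frontier U ∩ ball p ε).Infinite := by
  intro hfin
  obtain ⟨κ, hκ, hκU, hκb, hκ1, hκN⟩ := straight hU (frontier_subset_closure hp) hcirc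
    hfin.countable hε
  apply hκN
  refine ⟨⟨?_, ?_⟩, hκb 1 ⟨zero_le_one, le_rfl⟩⟩
  · have h1 : Tendsto κ (𝓝[<] 1) (𝓝 (κ 1)) := (hκ.tendsto 1).mono_left nhdsWithin_le_nhds
    refine mem_closure_of_tendsto h1 ?_
    have h2 : Ico (0:ℝ) 1 ∈ 𝓝[<] (1:ℝ) := by
      have : Ioo (0:ℝ) 1 ∈ 𝓝[<] (1:ℝ) := Ioo_mem_nhdsLT zero_lt_one
      exact mem_of_superset this Ioo_subset_Ico_self
    filter_upwards [h2] with x hx
    exact hκU x hx
  · rw [hU.interior_eq]
    exact hκ1

end Pool.Agent.BB.P
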