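import Pool.Agent.BB.P.Basic

open Set Metric Filter Topology MeasureTheory

namespace Pool.Agent.BB.P

namespace Base

variable (b : Base)

/-- Existence of lifts over the strip. -/
theorem liftS : ∀ (n : ℕ) {z ξ : ℂ}, z ∈ b.U → ξ ∈ St b.t₀ → b.F^[n] z = b.φ ξ →
    ∃ H : ℂ → ℂ, DifferentiableOn ℂ H (St b.t₀) ∧ MapsTo H (St b.t₀) b.U ∧
      (∀ x ∈ St b.t₀, b.F^[n] (H x) = b.φ x) ∧ H ξ = z := by
  intro n
  induction n with
  | zero =>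
    intro z ξ hz hξ h
    exact ⟨b.φ, b.hφ.mono (St_sub_Hp _), fun x hx => b.φ_mem (St_sub_Hp _ hx), fun x _ => rfl,
      h.symm⟩
  | succ n ih =>
    intro z ξ hz hξ h
    rw [Function.iterate_succ_apply] at h
    obtain ⟨H1, hd1, hm1, he1, h01⟩ := ih (b.hFU hz) hξ h
    have hW : ∀ w ∈ {w | w ∈ b.U ∧ (b.ψ w).im < b.t₀}, w ∉ SingVals b.F b.U :=
      fun w hw => b.hsing w hw.1 hw.2
    have hmW : MapsTo H1 (St b.t₀) {w | w ∈ b.U ∧ (b.ψ w).im < b.t₀} := by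
      intro x hx
      refine ⟨hm1 hx, ?_⟩
      have h1 := b.im_iter (hm1 hx) n
      rw [he1 x hx, b.ψφ (St_sub_Hp _ hx)] at h1
      exact h1.trans_lt hx.2
    obtain ⟨H, hd, hm, he, h0⟩ := lift_convex b.hF b.hUo hW (convex_St b.t₀) (isOpen_St b.t₀)
      hd1 hmW hξ hz (by rw [h01])
    refine ⟨H, hd, hm, fun x hx => ?_, h0⟩
    rw [Function.iterate_succ_apply, he x hx, he1 x hx]

/-- Properties of lifts. -/
theorem lift_props {n : ℕ} {H : ℂ → ℂ} (hd : DifferentiableOn ℂ H (St b.t₀))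
    (hm : MapsTo H (St b.t₀) b.U) (he : ∀ x ∈ St b.t₀, b.F^[n] (H x) = b.φ x) :
    InjOn H (St b.t₀) ∧ (∀ x ∈ St b.t₀, deriv b.F^[n] (H x) ≠ 0) ∧
      (∀ x ∈ St b.t₀, 0 < (b.ψ (H x)).im ∧ (b.ψ (H x)).im ≤ x.im) ∧
      DifferentiableOn ℂ (fun x => b.ψ (H x)) (St b.t₀) ∧
      InjOn (fun x => b.ψ (H x)) (St b.t₀) := by
  have hinj : InjOn H (St b.t₀) := by
    intro x hx y hy hxy
    apply b.φ_inj (St_sub_Hp _ hx) (St_sub_Hp _ hy)
    rw [← he x hx, ← he y hy, hxy]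
  refine ⟨hinj, ?_, ?_, ?_, ?_⟩
  · intro x hx h0
    have h1 := b.deriv_mul (isOpen_St b.t₀) hd he hx
    rw [h0, zero_mul] at h1
    exact b.deriv_φ_ne (St_sub_Hp _ hx) h1.symm
  · intro x hx
    refine ⟨b.ψ_mem (hm hx), ?_⟩
    have h1 := b.im_iter (hm hx) n
    rw [he x hx, b.ψφ (St_sub_Hp _ hx)] at h1
    exact h1
  · exact b.hψ.comp hd hm
  · intro x hx y hy hxy
    apply hinj hx hy
    simp only at hxy
    rw [← b.φψ (hm hx), ← b.φψ (hm hy), hxy]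

/-- Uniqueness of lifts (of any map `E` on a connected open set). -/
theorem lift_eqOn {n : ℕ} {S : Set ℂ} (hSo : IsOpen S) (hSc : IsPreconnected S) {H H' E : ℂ → ℂ}
    (hH : DifferentiableOn ℂ H S) (hH' : DifferentiableOn ℂ H' S)
    (he : ∀ x ∈ S, b.F^[n] (H x) = E x) (he' : ∀ x ∈ S, b.F^[n] (H' x) = E x) {ξ : ℂ}
    (hξ : ξ ∈ S) (hE : deriv E ξ ≠ 0) (h0 : H ξ = H' ξ) : EqOn H H' S := by
  refine lift_unique (b.iter_diff n) hSo hSc hH hH' (fun x hx => by rw [he x hx, he' x hx]) hξ h0 ?_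
  intro h1
  apply hE
  rw [← b.deriv_mul hSo hH he hξ, h1, zero_mul]

/-- an inverse branch of `F` on the strip, in the coordinate `ψ` -/
theorem exists_inv {z ξ : ℂ} (hz : z ∈ b.U) (hξ : ξ ∈ St b.t₀) (h : b.F z = b.φ ξ) :
    ∃ K : ℂ → ℂ, Inv b K ∧ K ξ = b.ψ z := by
  obtain ⟨H, hd, hm, he, h0⟩ := b.liftS 1 hz hξ h
  obtain ⟨-, -, h3, h4, -⟩ := b.lift_props hd hm he
  refine ⟨fun x => b.ψ (H x), ⟨h4, ?_, ?_⟩, ?_⟩
  · intro x hx
    exact ⟨(h3 x hx).1, (h3 x hx).2.trans_lt hx.2⟩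
  · intro x hx
    have h5 := he x hx
    rw [Function.iterate_one] at h5
    rw [b.φψ (hm hx), h5]
  · simp only [h0]

end Base

end Pool.Agent.BB.P
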