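import Pool.Agent.BB.P.SPA

open Set Metric Filter Topology MeasureTheory

namespace Pool.Agent.BB.P

/-- removability of the real line -/
private lemma rf_removable {U : Set ℂ} (hU : IsOpen U) {f : ℂ → ℂ} (hc : ContinuousOn f U)
    (hd : ∀ z ∈ U, z.im ≠ 0 → DifferentiableAt ℂ f z) : DifferentiableOn ℂ f U := by
  rw [← Complex.isConservativeOn_and_continuousOn_iff_isDifferentiableOn hU]
  refine ⟨?_, hc⟩
  -- rectangles whose interior does not meet the real axis
  have key : ∀ z w : ℂ, (uIcc z.re w.re ×ℂ uIcc z.im w.im) ⊆ U →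
      (∀ y ∈ Ioo (min z.im w.im) (max z.im w.im), y ≠ 0) →
      (∫ x : ℝ in z.re..w.re, f (x + z.im * Complex.I)) -
      (∫ x : ℝ in z.re..w.re, f (x + w.im * Complex.I)) +
      Complex.I • (∫ y : ℝ in z.im..w.im, f (w.re + y * Complex.I)) -
      Complex.I • (∫ y : ℝ in z.im..w.im, f (z.re + y * Complex.I)) = 0 := by
    intro z w hsub hne
    apply Complex.integral_boundary_rect_eq_zero_of_continuousOn_of_differentiableOn
    · exact hc.mono hsub
    · intro x hx
      have hx' : x ∈ U := hsub ⟨⟨hx.1.1.le, hx.1.2.le⟩, ⟨hx.2.1.le, hx.2.2.le⟩⟩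
      exact (hd x hx' (hne _ hx.2)).differentiableWithinAt
  intro z w hzw
  rw [← add_eq_zero_iff_eq_neg, Complex.wedgeIntegral_add_wedgeIntegral_eq]
  have hsub : (uIcc z.re w.re ×ℂ uIcc z.im w.im) ⊆ U := hzw
  by_cases h0 : (0:ℝ) ∈ uIcc z.im w.im
  · -- split at the real axis
    have hs1 : uIcc z.im (0:ℝ) ⊆ uIcc z.im w.im := uIcc_subset_uIcc left_mem_uIcc h0
    have hs2 : uIcc (0:ℝ) w.im ⊆ uIcc z.im w.im := uIcc_subset_uIcc h0 right_mem_uIcc
    have h1 := key z ((w.re : ℂ) + (0:ℝ) * Complex.I) (by
      refine Subset.trans ?_ hsub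
      intro x hx
      simp only [Complex.add_re, Complex.ofReal_re, Complex.mul_re, Complex.I_re, mul_zero,
        Complex.ofReal_im, Complex.I_im, mul_one, sub_self, add_zero, Complex.add_im,
        Complex.mul_im, zero_add] at hx
      exact ⟨hx.1, hs1 hx.2⟩) (by
      intro y hy hy0
      subst hy0
      simp only [Complex.add_im, Complex.ofReal_im, Complex.mul_im, Complex.ofReal_re,
        Complex.I_im, mul_one, Complex.I_re, mul_zero, add_zero] at hy
      rcases le_total z.im 0 with h | h
      · rw [max_eq_right h] at hy; exact lt_irrefl _ hy.2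
      · rw [min_eq_right h] at hy; exact lt_irrefl _ hy.1)
    have h2 := key ((z.re : ℂ) + (0:ℝ) * Complex.I) w (by
      refine Subset.trans ?_ hsub
      intro x hx
      simp only [Complex.add_re, Complex.ofReal_re, Complex.mul_re, Complex.I_re, mul_zero,
        Complex.ofReal_im, Complex.I_im, mul_one, sub_self, add_zero, Complex.add_im,
        Complex.mul_im, zero_add] at hx
      exact ⟨hx.1, hs2 hx.2⟩) (by
      intro y hy hy0
      subst hy0
      simp only [Complex.add_im, Complex.ofReal_im, Complex.mul_im, Complex.ofReal_re,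
        Complex.I_im, mul_one, Complex.I_re, mul_zero, add_zero] at hy
      rcases le_total w.im 0 with h | h
      · rw [max_eq_left h] at hy; exact lt_irrefl _ hy.2
      · rw [min_eq_left h] at hy; exact lt_irrefl _ hy.1)
    simp only [Complex.add_re, Complex.ofReal_re, Complex.mul_re, Complex.I_re, mul_zero,
      Complex.ofReal_im, Complex.I_im, mul_one, sub_self, add_zero, Complex.add_im,
      Complex.mul_im, zero_add] at h1 h2
    have hint : ∀ a ∈ uIcc z.re w.re, ∀ b₁ ∈ uIcc z.im w.im, ∀ b₂ ∈ uIcc z.im w.im,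
        IntervalIntegrable (fun y : ℝ => f (a + y * Complex.I)) volume b₁ b₂ := by
      intro a ha b₁ hb₁ b₂ hb₂
      apply ContinuousOn.intervalIntegrable
      refine hc.comp (f := fun y : ℝ => (a : ℂ) + y * Complex.I) (by fun_prop) ?_
      intro y hy
      apply hsub
      refine ⟨?_, ?_⟩
      · simpa using ha
      · have : y ∈ uIcc z.im w.im := uIcc_subset_uIcc hb₁ hb₂ hy
        simpa using this
    have e1 := intervalIntegral.integral_add_adjacent_intervals
      (hint w.re right_mem_uIcc z.im left_mem_uIcc 0 h0)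
      (hint w.re right_mem_uIcc 0 h0 w.im right_mem_uIcc)
    have e2 := intervalIntegral.integral_add_adjacent_intervals
      (hint z.re left_mem_uIcc z.im left_mem_uIcc 0 h0)
      (hint z.re left_mem_uIcc 0 h0 w.im right_mem_uIcc)
    rw [← e1, ← e2, smul_add, smul_add]
    linear_combination h1 + h2
  · refine key z w hsub ?_
    intro y hy hy0
    subst hy0
    exact h0 ⟨hy.1.le, hy.2.le⟩

/-- extension by reflection, the holomorphic part -/
theorem refl_holo {t : ℝ} (ht : 0 < t) {K : ℂ → ℂ} (hd : DifferentiableOn ℂ K (St t))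
    (hm : ∀ ξ ∈ St t, 0 < (K ξ).im) (him : ∀ ξ ∈ St t, (K ξ).im ≤ ξ.im) :
    ∃ E : ℂ → ℂ, DifferentiableOn ℂ E (Sh t) ∧ EqOn E K (St t) ∧ (∀ x : ℝ, (E x).im = 0) ∧
      ∀ z ∈ Sh t, E ((starRingEnd ℂ) z) = (starRingEnd ℂ) (E z) := by
  -- the Lipschitz bound near the real axis
  have hsub2 : St (t / 2) ⊆ St t := fun z hz => ⟨hz.1, by have := hz.2; linarith⟩
  have hKat : ∀ z ∈ St t, DifferentiableAt ℂ K z := fun z hz =>
    hd.differentiableAt ((isOpen_St t).mem_nhds hz)
  have hball : ∀ z ∈ St (t / 2), ball z z.im ⊆ St t := by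
    intro z hz w hw
    rw [mem_ball, dist_eq_norm] at hw
    have h1 := Complex.abs_im_le_norm (w - z)
    rw [Complex.sub_im] at h1
    have h2 := abs_lt.mp (lt_of_le_of_lt h1 hw)
    have h3 := hz.1
    have h4 := hz.2
    exact ⟨by linarith [h2.1], by linarith [h2.2]⟩
  have hder : ∀ z ∈ St (t / 2), ‖deriv K z‖ ≤ 2 := by
    intro z hz
    have hz1 : 0 < z.im := hz.1
    have h1 := hp_deriv (f := K) (a := z) (r := z.im) hz1 (hd.mono (hball z hz))
      (fun w hw => (hm w (hball z hz hw)).le)
    refine h1.trans ?_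
    rw [div_le_iff₀ hz1]
    have := him z (hsub2 hz)
    linarith
  have hlip : LipschitzOnWith 2 K (St (t / 2)) := by
    apply (convex_St (t / 2)).lipschitzOnWith_of_nnnorm_deriv_le (𝕜 := ℂ)
    · intro z hz
      exact hKat z (hsub2 hz)
    · intro z hz
      have := hder z hz
      rw [← NNReal.coe_le_coe]
      simpa using this
  have hlre : LipschitzOnWith 2 (fun z => (K z).re) (St (t / 2)) := by
    intro x hx y hy
    refine le_trans ?_ (hlip hx hy)
    rw [edist_dist, edist_dist]
    apply ENNReal.ofReal_le_ofReal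
    rw [Real.dist_eq, dist_eq_norm, ← Complex.sub_re]
    exact Complex.abs_re_le_norm _
  have hlim : LipschitzOnWith 2 (fun z => (K z).im) (St (t / 2)) := by
    intro x hx y hy
    refine le_trans ?_ (hlip hx hy)
    rw [edist_dist, edist_dist]
    apply ENNReal.ofReal_le_ofReal
    rw [Real.dist_eq, dist_eq_norm, ← Complex.sub_im]
    exact Complex.abs_im_le_norm _
  obtain ⟨gr, hgr, hgre⟩ := hlre.extend_real
  obtain ⟨gi, hgi, hgie⟩ := hlim.extend_real
  -- the imaginary part vanishes on the axis
  have hgi0 : ∀ z : ℂ, z.im = 0 → gi z = 0 := by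
    intro z hz
    have h1 : Tendsto (fun y : ℝ => gi (z + y * Complex.I)) (𝓝[>] 0) (𝓝 (gi z)) := by
      have hc : Continuous fun y : ℝ => gi (z + y * Complex.I) :=
        hgi.continuous.comp (by fun_prop)
      have := hc.tendsto 0
      simp only [Complex.ofReal_zero, zero_mul, add_zero] at this
      exact this.mono_left nhdsWithin_le_nhds
    have hmem : ∀ᶠ y : ℝ in 𝓝[>] 0, z + y * Complex.I ∈ St (t / 2) := by
      filter_upwards [Ioo_mem_nhdsGT (show (0:ℝ) < t / 2 by linarith)] with y hy
      simp only [St, mem_ofPred_eq, Complex.add_im, Complex.mul_im, Complex.ofReal_re,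
        Complex.I_im, mul_one, Complex.ofReal_im, Complex.I_re, mul_zero, add_zero, hz, zero_add]
      exact hy
    have h2 : Tendsto (fun y : ℝ => gi (z + y * Complex.I)) (𝓝[>] 0) (𝓝 0) := by
      refine tendsto_of_tendsto_of_tendsto_of_le_of_le' (g := fun _ => (0:ℝ)) (h := fun y => y)
        tendsto_const_nhds (tendsto_id.mono_left nhdsWithin_le_nhds) ?_ ?_
      · filter_upwards [hmem] with y hy
        rw [← hgie hy]
        exact (hm _ (hsub2 hy)).le
      · filter_upwards [hmem] with y hy
        rw [← hgie hy]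
        refine (him _ (hsub2 hy)).trans ?_
        simp [hz]
    exact tendsto_nhds_unique h1 h2
  set L : ℂ → ℂ := fun z => (gr z : ℂ) + (gi z : ℂ) * Complex.I with hL
  have hLc : Continuous L := by
    rw [hL]
    have h1 := hgr.continuous
    have h2 := hgi.continuous
    fun_prop
  have hLK : EqOn L K (St (t / 2)) := by
    intro z hz
    rw [hL]
    simp only
    rw [← hgre hz, ← hgie hz]
    exact Complex.re_add_im _
  have hL0 : ∀ z : ℂ, z.im = 0 → L z = (gr z : ℂ) := by
    intro z hz
    rw [hL]
    simp only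
    rw [hgi0 z hz]
    simp
  set E : ℂ → ℂ := fun z => if 0 < z.im then K z else if z.im < 0 then
    (starRingEnd ℂ) (K ((starRingEnd ℂ) z)) else (gr z : ℂ) with hE
  have hEp : ∀ z : ℂ, 0 < z.im → E z = K z := fun z hz => by rw [hE]; simp only; rw [if_pos hz]
  have hEn : ∀ z : ℂ, z.im < 0 → E z = (starRingEnd ℂ) (K ((starRingEnd ℂ) z)) := fun z hz => by
    rw [hE]; simp only; rw [if_neg (by linarith), if_pos hz]
  have hE0 : ∀ z : ℂ, z.im = 0 → E z = (gr z : ℂ) := fun z hz => by
    rw [hE]; simp only; rw [if_neg (by linarith), if_neg (by linarith)]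
  have hdpos : ∀ z ∈ Sh t, 0 < z.im → DifferentiableAt ℂ E z := by
    intro z hz hzi
    have hzt : z ∈ St t := ⟨hzi, (abs_lt.mp (show |z.im| < t from hz)).2⟩
    refine (hKat z hzt).congr_of_eventuallyEq ?_
    filter_upwards [(isOpen_St t).mem_nhds hzt] with w hw
    exact hEp w hw.1
  have hdneg : ∀ z ∈ Sh t, z.im < 0 → DifferentiableAt ℂ E z := by
    intro z hz hzi
    have hzt : (starRingEnd ℂ) z ∈ St t := by
      refine ⟨?_, ?_⟩
      · rw [Complex.conj_im]; linarith
      · rw [Complex.conj_im]; have := (abs_lt.mp (show |z.im| < t from hz)).1; linarith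
    have h1 : DifferentiableAt ℂ (fun w => (starRingEnd ℂ) (K ((starRingEnd ℂ) w))) z := by
      have h2 := (hKat _ hzt).conj_conj
      simpa [Function.comp_def] using h2
    refine h1.congr_of_eventuallyEq ?_
    filter_upwards [(isOpen_lt Complex.continuous_im continuous_const).mem_nhds hzi] with w hw
    exact hEn w hw
  have hcont : ContinuousOn E (Sh t) := by
    intro z hz
    rcases lt_trichotomy z.im 0 with h | h | h
    · exact (hdneg z hz h).continuousAt.continuousWithinAt
    · -- near the axis
      have hc1 : Continuous (fun w : ℂ => if 0 ≤ w.im then L w else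
          (starRingEnd ℂ) (L ((starRingEnd ℂ) w))) := by
        refine Continuous.if_le hLc
          (Complex.continuous_conj.comp (hLc.comp Complex.continuous_conj))
          continuous_const Complex.continuous_im ?_
        intro w hw
        have hw' : w.im = 0 := hw.symm
        have hcw : (starRingEnd ℂ) w = w := Complex.conj_eq_iff_im.mpr hw'
        rw [hcw, hL0 w hw', Complex.conj_ofReal]
      refine (hc1.continuousAt (x := z)).congr ?_ |>.continuousWithinAt
      have hnb : {w : ℂ | |w.im| < t / 2} ∈ 𝓝 z := by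
        apply (isOpen_lt (continuous_abs.comp Complex.continuous_im) continuous_const).mem_nhds
        simp only [mem_ofPred_eq, Function.comp]
        rw [h, abs_zero]; linarith
      filter_upwards [hnb] with w hw
      have hw2 := abs_lt.mp hw
      rcases lt_trichotomy w.im 0 with h' | h' | h'
      · rw [if_neg (by linarith), hEn w h']
        congr 1
        apply hLK
        refine ⟨?_, ?_⟩
        · rw [Complex.conj_im]; linarith
        · rw [Complex.conj_im]; linarith [hw2.1]
      · rw [if_pos h'.ge, hE0 w h', hL0 w h']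
      · rw [if_pos h'.le, hEp w h']
        exact hLK ⟨h', hw2.2⟩
    · exact (hdpos z hz h).continuousAt.continuousWithinAt
  refine ⟨E, ?_, ?_, ?_, ?_⟩
  · apply rf_removable (isOpen_Sh t) hcont
    intro z hz hne
    rcases lt_or_gt_of_ne hne with h | h
    · exact hdneg z hz h
    · exact hdpos z hz h
  · intro z hz
    exact hEp z hz.1
  · intro x
    rw [hE0 x (Complex.ofReal_im x), Complex.ofReal_im]
  · intro z hz
    rcases lt_trichotomy z.im 0 with h | h | h
    · rw [hEn z h, hEp _ (by rw [Complex.conj_im]; linarith), Complex.conj_conj]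
    · have hcz : (starRingEnd ℂ) z = z := Complex.conj_eq_iff_im.mpr h
      rw [hcz, hE0 z h, Complex.conj_ofReal]
    · rw [hEp z h, hEn _ (by rw [Complex.conj_im]; linarith), Complex.conj_conj]

/-- extension by reflection of an injective map -/
theorem refl_exists {t : ℝ} (ht : 0 < t) {K : ℂ → ℂ} (hd : DifferentiableOn ℂ K (St t))
    (hm : ∀ ξ ∈ St t, 0 < (K ξ).im) (him : ∀ ξ ∈ St t, (K ξ).im ≤ ξ.im)
    (hinj : InjOn K (St t)) : ∃ E : ℂ → ℂ, Ext t K E := by
  obtain ⟨E, hEd, hEK, hEr, hEc⟩ := refl_holo ht hd hm him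
  have hreal : ∀ x : ℝ, (x : ℂ) ∈ Sh t := by
    intro x
    simp only [Sh, mem_ofPred_eq, Complex.ofReal_im, abs_zero]
    exact ht
  have hEat : ∀ x : ℝ, HasDerivAt E (deriv E x) x := fun x =>
    (hEd.differentiableAt ((isOpen_Sh t).mem_nhds (hreal x))).hasDerivAt
  have hpos : ∀ x : ℝ, 0 < (deriv E x).re := by
    intro x
    set r : ℝ := t / 4 with hr
    have hr0 : 0 < r := by rw [hr]; linarith
    set a : ℂ := x + r * Complex.I with ha
    have hai : a.im = r := by rw [ha]; simp
    have hsub : ball a r ⊆ St t := by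
      intro w hw
      rw [mem_ball, dist_eq_norm] at hw
      have h1 := Complex.abs_im_le_norm (w - a)
      rw [Complex.sub_im, hai] at h1
      have h2 := abs_lt.mp (lt_of_le_of_lt h1 hw)
      exact ⟨by linarith [h2.1], by rw [hr] at h2; linarith [h2.2]⟩
    have haS : a ∈ St t := hsub (mem_ball_self hr0)
    have hKa := hm a haS
    set c : ℝ := (K a).im / (2 * r) with hc
    have hc0 : 0 < c := by rw [hc]; positivity
    -- lower bound on the vertical ray
    have hlow : ∀ y : ℝ, 0 < y → y < r → c * y ≤ (E (x + y * Complex.I)).im := by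
      intro y hy0 hyr
      have hmem : (x : ℂ) + y * Complex.I ∈ ball a r := by
        rw [mem_ball, dist_eq_norm, ha]
        have : (x : ℂ) + y * Complex.I - (x + r * Complex.I) = ((y - r : ℝ) : ℂ) * Complex.I := by
          push_cast; ring
        rw [this, norm_mul, Complex.norm_I, mul_one, Complex.norm_real, Real.norm_eq_abs,
          abs_of_neg (by linarith)]
        linarith
      have hn : ‖(x : ℂ) + y * Complex.I - a‖ = r - y := by
        rw [ha]
        have : (x : ℂ) + y * Complex.I - (x + r * Complex.I) = ((y - r : ℝ) : ℂ) * Complex.I := by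
          push_cast; ring
        rw [this, norm_mul, Complex.norm_I, mul_one, Complex.norm_real, Real.norm_eq_abs,
          abs_of_neg (by linarith)]
        ring
      have h1 := (hp_harnack hr0 (hd.mono hsub) (fun w hw => (hm w (hsub hw)).le) hmem).1
      rw [hn] at h1
      rw [hEK (hsub hmem)]
      refine le_trans ?_ h1
      have e1 : (r - (r - y)) / (r + (r - y)) * (K a).im = y * (K a).im / (2 * r - y) := by
        have : r - (r - y) = y := by ring
        rw [this]
        have : r + (r - y) = 2 * r - y := by ring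
        rw [this]
        ring
      rw [e1, hc]
      have e2 : (K a).im / (2 * r) * y = y * (K a).im / (2 * r) := by ring
      rw [e2]
      apply div_le_div_of_nonneg_left (by positivity) (by linarith) (by linarith)
    -- the derivative along the ray
    have hline : HasDerivAt (fun y : ℝ => (x : ℂ) + y * Complex.I) Complex.I 0 := by
      simpa using ((Complex.ofRealCLM.hasDerivAt (x := (0:ℝ))).mul_const Complex.I).const_add (x : ℂ)
    have hcomp : HasDerivAt (fun y : ℝ => E (x + y * Complex.I)) (deriv E x * Complex.I) 0 := by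
      have := (hEat x)
      have h2 : HasDerivAt E (deriv E x) ((x : ℂ) + (0:ℝ) * Complex.I) := by simpa using this
      exact h2.comp_of_eq (h := fun y : ℝ => (x : ℂ) + y * Complex.I) 0 hline (by simp)
    have him' : HasDerivAt (fun y : ℝ => (E (x + y * Complex.I)).im) (deriv E x).re 0 := by
      have h3 := (Complex.imCLM.hasFDerivAt (x := E (x + (0:ℝ) * Complex.I))).comp_hasDerivAt 0 hcomp
      have h4 : Complex.imCLM (deriv E x * Complex.I) = (deriv E x).re := by simp
      rw [h4] at h3
      exact h3
    have hslope := him'.hasDerivWithinAt (s := Ioi 0)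
    rw [hasDerivWithinAt_iff_tendsto_slope' (by simp)] at hslope
    have hge : c ≤ (deriv E x).re := by
      refine ge_of_tendsto hslope ?_
      filter_upwards [Ioo_mem_nhdsGT hr0] with y hy
      have hy0 : (0:ℝ) < y := hy.1
      rw [slope_def_field]
      have e0 : (E (x + ((0:ℝ):ℂ) * Complex.I)).im = 0 := by
        simpa using hEr x
      rw [e0, sub_zero, sub_zero, le_div_iff₀ hy0]
      exact hlow y hy.1 hy.2
    exact lt_of_lt_of_le hc0 hge
  have hmono : StrictMono fun x : ℝ => (E x).re := by
    apply strictMono_of_deriv_pos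
    intro x
    have h1 : HasDerivAt (fun y : ℝ => E y) (deriv E x) x := (hEat x).comp_ofReal
    have h2 : HasDerivAt (fun y : ℝ => (E y).re) (deriv E x).re x := by
      have h3 := (Complex.reCLM.hasFDerivAt (x := E x)).comp_hasDerivAt x h1
      exact h3
    rw [h2.deriv]
    exact hpos x
  refine ⟨E, hEd, hEK, hEr, hEc, ?_, hpos, hmono⟩
  -- injectivity
  have sgn : ∀ z ∈ Sh t, (0 < z.im → 0 < (E z).im) ∧ (z.im < 0 → (E z).im < 0) ∧
      (z.im = 0 → (E z).im = 0) := by
    intro z hz
    have hz2 := abs_lt.mp (show |z.im| < t from hz)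
    refine ⟨?_, ?_, ?_⟩
    · intro h
      rw [hEK (show z ∈ St t from ⟨h, hz2.2⟩)]
      exact hm z ⟨h, hz2.2⟩
    · intro h
      have hcz : (starRingEnd ℂ) z ∈ St t := by
        refine ⟨?_, ?_⟩
        · rw [Complex.conj_im]; linarith
        · rw [Complex.conj_im]; linarith [hz2.1]
      have h1 := hm _ hcz
      rw [← hEK hcz, hEc z hz, Complex.conj_im] at h1
      linarith
    · intro h
      have : z = ((z.re : ℝ) : ℂ) := by
        apply Complex.ext
        · simp
        · simp [h]
      rw [this]
      exact hEr _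
  intro z hz w hw hzw
  obtain ⟨z1, z2, z3⟩ := sgn z hz
  obtain ⟨w1, w2, w3⟩ := sgn w hw
  have himeq : (E z).im = (E w).im := by rw [hzw]
  have hz' := abs_lt.mp (show |z.im| < t from hz)
  have hw' := abs_lt.mp (show |w.im| < t from hw)
  rcases lt_trichotomy z.im 0 with h | h | h
  · have hwneg : w.im < 0 := by
      rcases lt_trichotomy w.im 0 with h' | h' | h'
      · exact h'
      · have a1 := z2 h; have a2 := w3 h'; linarith
      · have a1 := z2 h; have a2 := w1 h'; linarith
    have hcz : (starRingEnd ℂ) z ∈ St t :=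
      ⟨by rw [Complex.conj_im]; linarith, by rw [Complex.conj_im]; linarith [hz'.1]⟩
    have hcw : (starRingEnd ℂ) w ∈ St t :=
      ⟨by rw [Complex.conj_im]; linarith, by rw [Complex.conj_im]; linarith [hw'.1]⟩
    have : (starRingEnd ℂ) z = (starRingEnd ℂ) w := by
      apply hinj hcz hcw
      rw [← hEK hcz, ← hEK hcw, hEc z hz, hEc w hw, hzw]
    exact (starRingEnd ℂ).injective this
  · have hw0 : w.im = 0 := by
      rcases lt_trichotomy w.im 0 with h' | h' | h'
      · have a1 := z3 h; have a2 := w2 h'; linarith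
      · exact h'
      · have a1 := z3 h; have a2 := w1 h'; linarith
    have hzr : z = ((z.re : ℝ) : ℂ) := Complex.ext (by simp) (by simp [h])
    have hwr : w = ((w.re : ℝ) : ℂ) := Complex.ext (by simp) (by simp [hw0])
    have : z.re = w.re := by
      apply hmono.injective
      simp only
      rw [← hzr, ← hwr, hzw]
    rw [hzr, hwr, this]
  · have hwpos : 0 < w.im := by
      rcases lt_trichotomy w.im 0 with h' | h' | h'
      · have a1 := z1 h; have a2 := w2 h'; linarith
      · have a1 := z1 h; have a2 := w3 h'; linarith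
      · exact h'
    have hzS : z ∈ St t := ⟨h, hz'.2⟩
    have hwS : w ∈ St t := ⟨hwpos, hw'.2⟩
    apply hinj hzS hwS
    rw [← hEK hzS, ← hEK hwS, hzw]

end Pool.Agent.BB.P
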