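import Pool.Agent.BB.P.EXIT
import Pool.Agent.BB.P.LIFT
import Pool.Agent.BB.P.RF

open Set Metric Filter Topology MeasureTheory

namespace Pool.Agent.BB.P

private lemma TR_half {t : ℝ} (ht : 0 < t) {G : Set ℂ} (hG : IsCompact G) (hGS : G ⊆ St t) :
    ∃ t₁ B d : ℝ, 0 < t₁ ∧ t₁ < t ∧ 0 ≤ B ∧ 0 < d ∧
      ∀ η ∈ G, |η.re| ≤ B ∧ η.im ≤ t₁ ∧ 0 < η.im ∧ ball η d ⊆ St t := by
  rcases G.eq_empty_or_nonempty with rfl | hne
  · exact ⟨t / 2, 0, 1, by linarith, by linarith, le_rfl, one_pos, by simp⟩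
  obtain ⟨z₂, hz₂, h₂⟩ := hG.exists_isMaxOn hne Complex.continuous_im.continuousOn
  obtain ⟨B, hB⟩ := hG.isBounded.exists_norm_le
  obtain ⟨d, hd, hdS⟩ := hG.exists_cthickening_subset_open (isOpen_St t) hGS
  refine ⟨max (t / 2) z₂.im, B, d, lt_max_of_lt_left (by linarith), max_lt (by linarith)
    (hGS hz₂).2, (norm_nonneg _).trans (hB z₂ hz₂), hd, fun η hη => ⟨?_, ?_, (hGS hη).1, ?_⟩⟩
  · exact (Complex.abs_re_le_norm η).trans (hB η hη)
  · exact (h₂ hη).trans (le_max_right _ _)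
  · exact (ball_subset_closedBall.trans (closedBall_subset_cthickening hη d)).trans hdS

/-- the tail leaves all compact sets under every iterate -/
private lemma TR_leave {b : Base} {x δ M : ℝ} (hδ : 0 < δ)
    (hM : ∀ y : ℝ, 0 < y → y ≤ δ → ‖b.φ (x + y * Complex.I)‖ ≤ M) (n : ℕ) {K : Set ℂ}
    (hKU : K ⊆ b.U) (hK : IsCompact K) :
    ∀ᶠ s in 𝓝[<] (1:ℝ), b.F^[n] (b.φ (x + ((δ * (1 - s) : ℝ) : ℂ) * Complex.I)) ∉ K := by
  set Q : Set ℂ := (closedBall 0 M ∩ closure b.U) ∩ b.F^[n] ⁻¹' K with hQ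
  have hQc : IsCompact Q := ((isCompact_closedBall _ _).inter_right isClosed_closure).inter_right
    (hK.isClosed.preimage (b.iter_diff n).continuous)
  have hQU : Q ⊆ b.U := fun z hz => b.cl_iter n hz.1.2 (hKU hz.2)
  have hψQ : IsCompact (b.ψ '' Q) := b.ψ_compact hQc hQU
  obtain ⟨ε, hε, hεQ⟩ : ∃ ε > 0, ∀ z ∈ b.ψ '' Q, ε ≤ z.im := by
    rcases (b.ψ '' Q).eq_empty_or_nonempty with h | h
    · exact ⟨1, one_pos, by rw [h]; simp⟩
    · obtain ⟨z₀, hz₀, hmin⟩ := hψQ.exists_isMinOn h Complex.continuous_im.continuousOn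
      refine ⟨z₀.im, ?_, fun z hz => hmin hz⟩
      obtain ⟨q, hq, rfl⟩ := hz₀
      exact b.ψ_mem (hQU hq)
  have h1 : Tendsto (fun s : ℝ => δ * (1 - s)) (𝓝[<] 1) (𝓝 0) := by
    have h2 : Tendsto (fun s : ℝ => δ * (1 - s)) (𝓝 1) (𝓝 (δ * (1 - 1))) := by
      apply Continuous.tendsto
      fun_prop
    rw [sub_self, mul_zero] at h2
    exact h2.mono_left nhdsWithin_le_nhds
  filter_upwards [h1.eventually_lt_const hε, Ioo_mem_nhdsLT (show (0:ℝ) < 1 by norm_num)]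
    with s hs hs01 hcon
  have hy0 : 0 < δ * (1 - s) := mul_pos hδ (by linarith [hs01.2])
  have hyδ : δ * (1 - s) ≤ δ := by nlinarith [hs01.1]
  have hHp : (x + ((δ * (1 - s) : ℝ) : ℂ) * Complex.I : ℂ) ∈ Hp := by
    simp only [Hp, mem_setOf_eq, Complex.add_im, Complex.ofReal_im, Complex.mul_im,
      Complex.ofReal_re, Complex.I_im, Complex.I_re]
    linarith
  have hzQ : b.φ (x + ((δ * (1 - s) : ℝ) : ℂ) * Complex.I) ∈ Q :=
    ⟨⟨by rw [mem_closedBall_zero_iff]; exact hM _ hy0 hyδ, subset_closure (b.φ_mem hHp)⟩, hcon⟩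
  have h3 := hεQ _ (mem_image_of_mem _ hzQ)
  rw [b.ψφ hHp] at h3
  simp only [Complex.add_im, Complex.ofReal_im, Complex.mul_im,
      Complex.ofReal_re, Complex.I_im, Complex.I_re] at h3
  linarith

/-- Transport: if `φ` is unbounded near one real point, it is unbounded near the end of every
good vertical tail. -/
theorem transport {b : Base} {e : Ends b} (k : Cut b e) {x' x : ℝ} (h' : UnbAt b.φ x')
    {M h : ℝ} (hh : 0 < h) (hM : ∀ y : ℝ, 0 < y → y ≤ h → ‖b.φ (x + y * Complex.I)‖ ≤ M)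
    (hgood : ∀ n : ℕ, ¬ Tendsto (fun y : ℝ => ‖b.ψ (b.F^[n] (b.φ (x + y * Complex.I)))‖)
      (𝓝[>] 0) atTop) : UnbAt b.φ x := by
  have ht₀ := b.ht₀
  obtain ⟨t₁, B, d, ht₁, ht₁t, hB0, hd, hG⟩ := TR_half ht₀ k.hGc k.hGs
  -- the rectangle
  set B' : ℝ := max B (|x'| + 1) with hB'
  set A : Set ℂ := Icc (-B') B' ×ℂ Icc (-t₁) t₁ with hA
  have hAc : Convex ℝ A :=
    ((convex_Icc _ _).is_linear_preimage (f := Complex.re)
      ⟨Complex.add_re, fun c x => by simp⟩).inter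
      ((convex_Icc _ _).is_linear_preimage (f := Complex.im)
      ⟨Complex.add_im, fun c x => by simp⟩)
  have hAd : ∀ z ∈ A, ∀ w ∈ A, ‖z - w‖ ≤ 2 * B' + 2 * t₁ := by
    intro z hz w hw
    rw [hA, Complex.mem_reProdIm] at hz hw
    refine (Complex.norm_le_abs_re_add_abs_im _).trans (add_le_add ?_ ?_)
    · rw [Complex.sub_re, abs_le]
      constructor <;> linarith [hz.1.1, hz.1.2, hw.1.1, hw.1.2]
    · rw [Complex.sub_im, abs_le]
      constructor <;> linarith [hz.2.1, hz.2.2, hw.2.1, hw.2.2]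
  have hs₀ : 0 < b.t₀ - t₁ := by linarith
  have hAb : ∀ z ∈ A, ball z (b.t₀ - t₁) ⊆ Sh b.t₀ := by
    intro z hz w hw
    rw [hA, Complex.mem_reProdIm] at hz
    rw [mem_ball, dist_eq_norm] at hw
    have h1 := (Complex.abs_im_le_norm (w - z)).trans_lt hw
    rw [Complex.sub_im, abs_lt] at h1
    simp only [Sh, mem_setOf_eq, abs_lt]
    constructor <;> linarith [hz.2.1, hz.2.2, h1.1, h1.2]
  obtain ⟨C, hC1, hC⟩ := chain_dist hs₀ (2 * B' + 2 * t₁)
  have hC0 : 0 < C := by linarith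
  intro r hr hbdd
  set δ : ℝ := min h (r / (2 * (1 + C * 2 / d))) with hδ
  have hden : 0 < 1 + C * 2 / d := by positivity
  have hδ0 : 0 < δ := lt_min hh (by positivity)
  have hδh : δ ≤ h := min_le_left _ _
  have hδr : δ * (1 + C * 2 / d) < r := by
    have h1 : δ ≤ r / (2 * (1 + C * 2 / d)) := min_le_right _ _
    rw [le_div_iff₀ (by positivity)] at h1
    nlinarith
  have hMδ : ∀ y : ℝ, 0 < y → y ≤ δ → ‖b.φ (x + y * Complex.I)‖ ≤ M :=
    fun y hy hyδ => hM y hy (hyδ.trans hδh)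
  have hHp : ∀ y : ℝ, 0 < y → (x + (y : ℂ) * Complex.I : ℂ) ∈ Hp := by
    intro y hy
    simp only [Hp, mem_setOf_eq, Complex.add_im, Complex.ofReal_im, Complex.mul_im,
      Complex.ofReal_re, Complex.I_im, Complex.I_re]
    linarith
  obtain ⟨n, hn⟩ := k.hleave {b.φ (x + (δ : ℂ) * Complex.I)}
    (by simpa using b.φ_mem (hHp δ hδ0)) isCompact_singleton
  -- the curve
  set κ : ℝ → ℂ := fun s => b.φ (x + ((δ * (1 - s) : ℝ) : ℂ) * Complex.I) with hκ
  have hpos : ∀ s ∈ Ico (0:ℝ) 1, 0 < δ * (1 - s) := fun s hs => mul_pos hδ0 (by linarith [hs.2])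
  have hκU : ∀ s ∈ Ico (0:ℝ) 1, κ s ∈ b.U := fun s hs => b.φ_mem (hHp _ (hpos s hs))
  have hκc : ContinuousOn κ (Ico 0 1) := by
    refine b.hφ.continuousOn.comp ?_ (fun s hs => hHp _ (hpos s hs))
    exact Continuous.continuousOn (by fun_prop)
  have h0 : b.ψ (b.F^[n] (κ 0)) ∉ k.C := by
    have h1 : κ 0 = b.φ (x + (δ : ℂ) * Complex.I) := by
      simp only [hκ, sub_zero, mul_one]
    rw [h1]
    exact hn n le_rfl _ rfl
  have hnt : ¬ Tendsto (fun s => ‖b.ψ (b.F^[n] (κ s))‖) (𝓝[<] 1) atTop := by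
    intro hcon
    apply hgood n
    have h1 : Tendsto (fun y : ℝ => 1 - y / δ) (𝓝[>] 0) (𝓝[<] 1) := by
      apply tendsto_nhdsWithin_of_tendsto_nhds_of_eventually_within
      · have h2 : Tendsto (fun y : ℝ => 1 - y / δ) (𝓝 0) (𝓝 (1 - 0 / δ)) := by
          apply Continuous.tendsto
          fun_prop
        rw [zero_div, sub_zero] at h2
        exact h2.mono_left nhdsWithin_le_nhds
      · filter_upwards [self_mem_nhdsWithin] with y hy
        have : 0 < y / δ := div_pos hy hδ0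
        simp only [mem_Iio]
        linarith
    refine (hcon.comp h1).congr fun y => ?_
    simp only [Function.comp_apply, hκ]
    have h2 : δ * (1 - (1 - y / δ)) = y := by field_simp; ring
    rw [h2]
  obtain ⟨t, ht, σ, j, η, hη, hex⟩ := k.exit_aux (n := n) hκc hκU h0
    (fun K hKU hK => TR_leave hδ0 hMδ n hKU hK) hnt
  have htI : t ∈ Ico (0:ℝ) 1 := ⟨ht.1.le, ht.2⟩
  set y : ℝ := δ * (1 - t) with hy
  have hy0 : 0 < y := hpos t htI
  have hyδ : y ≤ δ := by nlinarith [ht.1]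
  have hκt : κ t = b.φ (x + (y : ℂ) * Complex.I) := rfl
  have hηS : η ∈ St b.t₀ := k.hGs hη
  obtain ⟨hηre, hηim, hηpos, hηball⟩ := hG η hη
  have hFn : b.F^[n] (κ t) = b.φ ((e.E σ)^[j] η) := by
    rw [← hex, b.φψ (b.iter_mem (hκU t htI) n)]
  have hFnj : b.F^[n + j] (κ t) = b.φ η := by
    rw [add_comm, Function.iterate_add_apply, hFn]
    exact (e.hinv σ).iter_F j hηS
  obtain ⟨H, hHd, hHm, hHe, hH0⟩ := b.liftS (n + j) (hκU t htI) hηS hFnj
  obtain ⟨-, -, h3, h4, h5⟩ := b.lift_props hHd hHm hHe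
  obtain ⟨E, hE⟩ := refl_exists ht₀ h4 (fun ξ hξ => (h3 ξ hξ).1) (fun ξ hξ => (h3 ξ hξ).2) h5
  have hKη : b.ψ (H η) = x + (y : ℂ) * Complex.I := by rw [hH0, hκt, b.ψφ (hHp y hy0)]
  have hEη : E η = x + (y : ℂ) * Complex.I := by rw [hE.heq hηS]; exact hKη
  -- derivative at `η`
  have hder : ‖deriv E η‖ ≤ 2 * y / d := by
    have hEd : DifferentiableOn ℂ E (ball η d) := hE.hd.mono (hηball.trans (St_sub_Sh _))
    have h6 := hp_deriv hd hEd (fun z hz => by rw [hE.heq (hηball hz)]; exact (h3 z (hηball hz)).1.le)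
    rw [hEη] at h6
    simpa using h6
  have hηA : η ∈ A := by
    rw [hA, Complex.mem_reProdIm]
    have h6 : |η.re| ≤ B' := hηre.trans (le_max_left _ _)
    rw [abs_le] at h6
    exact ⟨⟨h6.1, h6.2⟩, ⟨by linarith, hηim⟩⟩
  have hdist : ∀ ξ ∈ A, ‖E ξ - (x + (y : ℂ) * Complex.I)‖ ≤ C * (2 * y / d) := by
    intro ξ hξ
    have h6 := (hC A E hAc hAd (fun z hz => hE.hd.mono (hAb z hz))
      (fun z hz => hE.hinj.mono (hAb z hz)) ξ hξ η hηA).2
    rw [hEη] at h6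
    exact h6.trans (mul_le_mul_of_nonneg_left hder hC0.le)
  -- half disc at `x'`
  set ρ : ℝ := min 1 t₁ with hρ
  have hρ0 : 0 < ρ := lt_min one_pos ht₁
  have hsub : ∀ ξ ∈ Hp ∩ ball (x' : ℂ) ρ, ξ ∈ A ∧ ξ ∈ St b.t₀ := by
    rintro ξ ⟨hξ, hξb⟩
    rw [mem_ball, dist_eq_norm] at hξb
    have h6 := (Complex.abs_re_le_norm (ξ - x')).trans_lt hξb
    have h7 := (Complex.abs_im_le_norm (ξ - x')).trans_lt hξb
    rw [Complex.sub_re, Complex.ofReal_re, abs_lt] at h6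
    rw [Complex.sub_im, Complex.ofReal_im, sub_zero, abs_lt] at h7
    have hρ1 : ρ ≤ 1 := min_le_left _ _
    have hρt : ρ ≤ t₁ := min_le_right _ _
    have hξ' : 0 < ξ.im := hξ
    have hB1 : |x'| + 1 ≤ B' := le_max_right _ _
    have h8 := abs_le.mp (le_refl |x'|)
    refine ⟨?_, hξ', by linarith [h7.2]⟩
    rw [hA, Complex.mem_reProdIm]
    exact ⟨⟨by linarith [h6.1, h8.1], by linarith [h6.2, h8.2]⟩, ⟨by linarith, by linarith [h7.2]⟩⟩
  apply h' ρ hρ0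
  -- bounded image under the iterate
  have hcomp : IsCompact (closure (b.φ '' (Hp ∩ ball (x : ℂ) r))) := hbdd.isCompact_closure
  have himg : Bornology.IsBounded (b.F^[n + j] '' closure (b.φ '' (Hp ∩ ball (x : ℂ) r))) :=
    (hcomp.image (b.iter_diff (n + j)).continuous).isBounded
  refine himg.subset ?_
  rintro _ ⟨ξ, hξ, rfl⟩
  obtain ⟨hξA, hξS⟩ := hsub ξ hξ
  have hEξ : E ξ = b.ψ (H ξ) := hE.heq hξS
  have hKHp : b.ψ (H ξ) ∈ Hp := (h3 ξ hξS).1
  refine ⟨b.φ (b.ψ (H ξ)), subset_closure (mem_image_of_mem _ ⟨hKHp, ?_⟩), ?_⟩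
  · rw [mem_ball, dist_eq_norm, ← hEξ]
    have h6 := hdist ξ hξA
    have h7 : E ξ - x = (E ξ - (x + (y : ℂ) * Complex.I)) + (y : ℂ) * Complex.I := by ring
    rw [h7]
    refine (norm_add_le _ _).trans_lt ?_
    have h8 : ‖(y : ℂ) * Complex.I‖ = y := by
      rw [norm_mul, Complex.norm_I, mul_one, Complex.norm_real, Real.norm_eq_abs, abs_of_pos hy0]
    rw [h8]
    have h9 : C * (2 * y / d) + y = y * (1 + C * 2 / d) := by ring
    calc ‖E ξ - (x + (y : ℂ) * Complex.I)‖ + y ≤ C * (2 * y / d) + y := by linarith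
      _ = y * (1 + C * 2 / d) := h9
      _ ≤ δ * (1 + C * 2 / d) := mul_le_mul_of_nonneg_right hyδ hden.le
      _ < r := hδr
  · rw [b.φψ (hHm hξS)]
    exact hHe ξ hξS

end Pool.Agent.BB.P
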