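import Pool.Agent.BB.P.RF

open Set Metric Filter Topology MeasureTheory

namespace Pool.Agent.BB.P

private lemma UNBA_lip {t : ℝ} (ht : 0 < t) {E : ℂ → ℂ} (hd : DifferentiableOn ℂ E (Sh t))
    (hm : ∀ ξ ∈ St t, 0 < (E ξ).im ∧ (E ξ).im ≤ ξ.im) {x y : ℝ} (hy : 0 < y) (hyt : y < t / 2) :
    ‖E (x + y * Complex.I) - E x‖ ≤ 2 * y := by
  have hxS : (x : ℂ) ∈ Sh t := by simp [Sh, ht]
  have hin : ∀ ε : ℝ, 0 < ε → ε ≤ y → (x + (ε : ℂ) * Complex.I : ℂ) ∈ St (t / 2) := by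
    intro ε h1 h2
    constructor
    · simp; exact h1
    · simp; linarith
  have hsub : St (t / 2) ⊆ St t := fun z hz => ⟨hz.1, by have := hz.2; linarith⟩
  have hder : ∀ z ∈ St (t / 2), ‖deriv E z‖ ≤ 2 := by
    intro z hz
    have hb : ball z z.im ⊆ St t := by
      intro w hw
      rw [mem_ball, dist_eq_norm] at hw
      have h1 := (Complex.abs_im_le_norm (w - z)).trans_lt hw
      rw [Complex.sub_im, abs_lt] at h1
      exact ⟨by linarith [h1.1], by linarith [h1.2, hz.2]⟩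
    have h1 := hp_deriv hz.1 (hd.mono (hb.trans (St_sub_Sh _))) (fun w hw => (hm w (hb hw)).1.le)
    refine h1.trans ?_
    rw [div_le_iff₀ hz.1]
    have h2 := (hm z (hsub hz)).2
    linarith
  have hmv : ∀ ε : ℝ, 0 < ε → ε ≤ y →
      ‖E (x + y * Complex.I) - E (x + ε * Complex.I)‖ ≤ 2 * y := by
    intro ε h1 h2
    have h3 := (convex_St (t / 2)).norm_image_sub_le_of_norm_deriv_le
      (fun z hz => hd.differentiableAt ((isOpen_Sh t).mem_nhds (St_sub_Sh _ (hsub hz)))) hder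
      (hin ε h1 h2) (hin y hy le_rfl)
    refine h3.trans ?_
    have h4 : (x + (y : ℂ) * Complex.I) - (x + (ε : ℂ) * Complex.I) =
        ((y - ε : ℝ) : ℂ) * Complex.I := by push_cast; ring
    rw [h4, norm_mul, Complex.norm_I, mul_one, Complex.norm_real, Real.norm_eq_abs,
      abs_of_nonneg (by linarith)]
    linarith
  have hcont : ContinuousAt E (x : ℂ) :=
    (hd.differentiableAt ((isOpen_Sh t).mem_nhds hxS)).continuousAt
  have hlim : Tendsto (fun ε : ℝ => E (x + ε * Complex.I)) (𝓝[>] 0) (𝓝 (E x)) := by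
    have h1 : Tendsto (fun ε : ℝ => (x : ℂ) + ε * Complex.I) (𝓝 0) (𝓝 x) := by
      have h2 : Tendsto (fun ε : ℝ => (x : ℂ) + ε * Complex.I) (𝓝 0)
          (𝓝 ((x : ℂ) + ((0 : ℝ) : ℂ) * Complex.I)) := by
        apply Continuous.tendsto
        fun_prop
      simpa using h2
    exact (hcont.tendsto.comp h1).mono_left nhdsWithin_le_nhds
  have hlim2 := (hlim.const_sub (E (x + y * Complex.I))).norm
  refine le_of_tendsto hlim2 ?_
  filter_upwards [Ioc_mem_nhdsGT hy] with ε hε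
  exact hmv ε hε.1 hε.2

private def UNBA_P (b : Base) (S : Set ℝ) : Prop :=
  ∃ y : ℝ, 0 < y ∧ Bornology.IsBounded (b.φ '' {ξ | ξ.re ∈ S ∧ 0 < ξ.im ∧ ξ.im < y})

private lemma UNBA_mono (b : Base) {S T : Set ℝ} (hST : S ⊆ T) (h : UNBA_P b T) : UNBA_P b S := by
  obtain ⟨y, hy, hb⟩ := h
  exact ⟨y, hy, hb.subset (image_mono fun ξ hξ => ⟨hST hξ.1, hξ.2⟩)⟩

private lemma UNBA_union (b : Base) {S T : Set ℝ} (h₁ : UNBA_P b S) (h₂ : UNBA_P b T) :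
    UNBA_P b (S ∪ T) := by
  obtain ⟨y₁, hy₁, hb₁⟩ := h₁
  obtain ⟨y₂, hy₂, hb₂⟩ := h₂
  refine ⟨min y₁ y₂, lt_min hy₁ hy₂, (hb₁.union hb₂).subset ?_⟩
  rintro _ ⟨ξ, ⟨hξ | hξ, h0, hlt⟩, rfl⟩
  · exact Or.inl ⟨ξ, ⟨hξ, h0, hlt.trans_le (min_le_left _ _)⟩, rfl⟩
  · exact Or.inr ⟨ξ, ⟨hξ, h0, hlt.trans_le (min_le_right _ _)⟩, rfl⟩

private lemma UNBA_local (b : Base) {x : ℝ} (h : ¬ UnbAt b.φ x) :
    ∃ r : ℝ, 0 < r ∧ Bornology.IsBounded (b.φ '' (Hp ∩ ball (x : ℂ) r)) := by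
  simp only [UnbAt] at h
  push Not at h
  obtain ⟨r, hr, hb⟩ := h
  exact ⟨r, hr, hb⟩

private lemma UNBA_icc (b : Base) (h : ∀ x : ℝ, ¬ UnbAt b.φ x) (x₁ x₂ : ℝ) :
    UNBA_P b (Icc x₁ x₂) := by
  refine isCompact_Icc.induction_on (p := UNBA_P b) ?_ (fun S T hST hT => UNBA_mono b hST hT)
    (fun S T hS hT => UNBA_union b hS hT) ?_
  · refine ⟨1, one_pos, ?_⟩
    have : {ξ : ℂ | ξ.re ∈ (∅ : Set ℝ) ∧ 0 < ξ.im ∧ ξ.im < 1} = ∅ := by
      ext ξ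
      simp
    rw [this, image_empty]
    exact Bornology.isBounded_empty
  · intro x _
    obtain ⟨r, hr, hb⟩ := UNBA_local b (h x)
    refine ⟨ball x (r / 2), mem_nhdsWithin_of_mem_nhds (ball_mem_nhds x (by linarith)), r / 2,
      by linarith, hb.subset (image_mono ?_)⟩
    rintro ξ ⟨hξ, h0, hlt⟩
    refine ⟨h0, ?_⟩
    rw [mem_ball, Real.dist_eq] at hξ
    rw [mem_ball, dist_eq_norm]
    have h1 := Complex.norm_le_abs_re_add_abs_im (ξ - x)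
    rw [Complex.sub_re, Complex.sub_im, Complex.ofReal_re, Complex.ofReal_im, sub_zero,
      abs_of_pos h0] at h1
    linarith

/-- near an end: the values of the branch are near a real point -/
private lemma UNBA_end (b : Base) (e : Ends b) (σ : Bool) {a : ℝ} (ha : ¬ UnbAt b.φ a)
    :
    ∃ r : ℝ, 0 < r ∧ UNBA_P b {x : ℝ | |((e.E σ) x).re - a| < r} := by
  obtain ⟨r, hr, hb⟩ := UNBA_local b ha
  have ht₀ := b.ht₀
  refine ⟨r / 2, by linarith, min (b.t₀ / 2) (r / 4), lt_min (by linarith) (by linarith), ?_⟩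
  have hcomp : IsCompact (closure (b.φ '' (Hp ∩ ball (a : ℂ) r))) := hb.isCompact_closure
  refine ((hcomp.image b.hF.continuous).isBounded).subset ?_
  rintro _ ⟨ξ, ⟨hξ, h0, hlt⟩, rfl⟩
  have hξt : ξ.im < b.t₀ / 2 := hlt.trans_le (min_le_left _ _)
  have hξr : ξ.im < r / 4 := hlt.trans_le (min_le_right _ _)
  have hξS : ξ ∈ St b.t₀ := ⟨h0, by linarith⟩
  have hEm := (e.hinv σ).hm hξS
  refine ⟨b.φ (e.E σ ξ), subset_closure (mem_image_of_mem _ ⟨hEm.1, ?_⟩), (e.hinv σ).hF ξ hξS⟩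
  have h1 := UNBA_lip ht₀ (e.hext σ).hd
    (fun z hz => ⟨((e.hinv σ).hm hz).1, (e.hinv σ).him hz⟩) (x := ξ.re) h0 hξt
  rw [Complex.re_add_im] at h1
  have h2 : (e.E σ) (ξ.re : ℂ) = ((((e.E σ) (ξ.re : ℂ)).re : ℝ) : ℂ) := by
    apply Complex.ext
    · simp
    · simp [(e.hext σ).hre]
  rw [mem_ball, dist_eq_norm]
  have h3 : e.E σ ξ - a = (e.E σ ξ - e.E σ (ξ.re : ℂ)) +
      (((((e.E σ) (ξ.re : ℂ)).re - a : ℝ)) : ℂ) := by
    rw [Complex.ofReal_sub, ← h2]; ring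
  rw [h3]
  refine (norm_add_le _ _).trans_lt ?_
  rw [Complex.norm_real, Real.norm_eq_abs]
  have h4 : |((e.E σ) (ξ.re : ℂ)).re - a| < r / 2 := hξ
  linarith

/-- if `φ` is bounded near every real point, it is bounded on a strip -/
theorem bdd_strip (b : Base) (e : Ends b) (h : ∀ x : ℝ, ¬ UnbAt b.φ x) :
    ∃ t > 0, Bornology.IsBounded (b.φ '' St t) := by
  -- the left end
  have hbb : BddBelow (range fun x : ℝ => ((e.E true) x).re) := by
    refine ⟨((e.E false) (0 : ℝ)).re, ?_⟩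
    rintro _ ⟨x, rfl⟩
    exact (e.hdisj 0 x).le
  have hba : BddAbove (range fun x : ℝ => ((e.E false) x).re) := by
    refine ⟨((e.E true) (0 : ℝ)).re, ?_⟩
    rintro _ ⟨x, rfl⟩
    exact (e.hdisj x 0).le
  have hl := tendsto_atBot_ciInf ((e.hext true).hmono.monotone) hbb
  have hr := tendsto_atTop_ciSup ((e.hext false).hmono.monotone) hba
  set a₁ : ℝ := ⨅ x : ℝ, ((e.E true) x).re with ha₁
  set a₂ : ℝ := ⨆ x : ℝ, ((e.E false) x).re with ha₂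
  obtain ⟨r₁, hr₁, hP₁⟩ := UNBA_end b e true (h a₁)
  obtain ⟨r₂, hr₂, hP₂⟩ := UNBA_end b e false (h a₂)
  obtain ⟨x₁, hx₁⟩ : ∃ x₁ : ℝ, ∀ x ≤ x₁, |((e.E true) x).re - a₁| < r₁ := by
    have h1 := hl.eventually (ball_mem_nhds a₁ hr₁)
    obtain ⟨x₁, hx₁⟩ := eventually_atBot.mp h1
    refine ⟨x₁, fun x hx => ?_⟩
    have h2 := hx₁ x hx
    rwa [Real.dist_eq] at h2
  obtain ⟨x₂, hx₂⟩ : ∃ x₂ : ℝ, ∀ x ≥ x₂, |((e.E false) x).re - a₂| < r₂ := by
    have h1 := hr.eventually (ball_mem_nhds a₂ hr₂)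
    obtain ⟨x₂, hx₂⟩ := eventually_atTop.mp h1
    refine ⟨x₂, fun x hx => ?_⟩
    have h2 := hx₂ x hx
    rwa [Real.dist_eq] at h2
  have hall : UNBA_P b univ := by
    have h1 := UNBA_union b (UNBA_union b hP₁ hP₂) (UNBA_icc b h x₁ x₂)
    refine UNBA_mono b ?_ h1
    intro x _
    rcases le_total x x₁ with h3 | h3
    · exact Or.inl (Or.inl (hx₁ x h3))
    · rcases le_total x x₂ with h4 | h4
      · exact Or.inr ⟨h3, h4⟩
      · exact Or.inl (Or.inr (hx₂ x h4))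
  obtain ⟨y, hy, hb⟩ := hall
  exact ⟨y, hy, hb.subset (image_mono fun ξ hξ => ⟨mem_univ _, hξ.1, hξ.2⟩)⟩

end Pool.Agent.BB.P
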