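import Pool.Agent.BB.P.Basic

open Set Metric Filter Topology MeasureTheory

namespace Pool.Agent.BB.P

/-- growth along vertical lines -/
private lemma unbb_growth {φ : ℂ → ℂ} (hd : DifferentiableOn ℂ φ Hp) (hi : InjOn φ Hp) {ζ : ℂ}
    (hζ : ζ ∉ φ '' Hp) (x : ℝ) {a y : ℝ} (ha : 0 < a) (hay : a ≤ y) :
    ‖φ (x + y * Complex.I) - ζ‖ ≤ ‖φ (x + a * Complex.I) - ζ‖ * (y / a) ^ 16 := by
  -- `N s = |φ(x+is) - ζ|²`
  set u : ℝ → ℂ := fun s => φ (x + s * Complex.I) - ζ with hu
  have hmem : ∀ s : ℝ, 0 < s → ((x : ℂ) + s * Complex.I) ∈ Hp := by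
    intro s hs
    simp [Hp, hs]
  have hder : ∀ s : ℝ, 0 < s →
      HasDerivAt u (deriv φ (x + s * Complex.I) * Complex.I) s := by
    intro s hs
    have e1 := (hd.differentiableAt (isOpen_Hp.mem_nhds (hmem s hs))).hasDerivAt
    have e2 : HasDerivAt (fun s : ℝ => (x : ℂ) + s * Complex.I) Complex.I s := by
      have := ((Complex.ofRealCLM.hasDerivAt (x := s)).mul_const Complex.I).const_add (x : ℂ)
      simpa using this
    exact (e1.comp_of_eq (h := fun s : ℝ => (x : ℂ) + s * Complex.I) s e2 rfl).sub_const ζ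
  have hbd : ∀ s : ℝ, 0 < s → ‖deriv φ (x + s * Complex.I) * Complex.I‖ ≤ 16 / s * ‖u s‖ := by
    intro s hs
    have hsub : ball ((x : ℂ) + s * Complex.I) s ⊆ Hp := by
      intro w hw
      rw [mem_ball, dist_eq_norm] at hw
      have h1 := Complex.abs_im_le_norm (w - (x + s * Complex.I))
      simp only [Complex.sub_im, Complex.add_im, Complex.ofReal_im, Complex.mul_im,
        Complex.ofReal_re, Complex.I_im, mul_one, Complex.I_re, mul_zero, add_zero, zero_add] at h1
      have h2 := abs_lt.1 (lt_of_le_of_lt h1 hw)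
      show 0 < w.im
      linarith
    have h3 := koebe_omit (hd.mono hsub) (hi.mono hsub) (mem_ball_self hs)
      (ω := ζ) (fun h => hζ (image_mono hsub h))
    rw [sub_self, norm_zero, sub_zero] at h3
    rw [norm_mul, Complex.norm_I, mul_one, div_mul_eq_mul_div, le_div_iff₀ hs]
    linarith
  -- Gronwall on `[a, y]` after the substitution is replaced by monotonicity
  set N : ℝ → ℝ := fun s => ‖u s‖ ^ 2 / s ^ 32 with hN
  have hNd : ∀ s : ℝ, 0 < s → HasDerivAt N
      ((2 * inner ℝ (u s) (deriv φ (x + s * Complex.I) * Complex.I) * s ^ 32 -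
        ‖u s‖ ^ 2 * (32 * s ^ 31)) / (s ^ 32) ^ 2) s := by
    intro s hs
    have e1 := (hder s hs).norm_sq
    have e2 : HasDerivAt (fun s : ℝ => s ^ 32) (32 * s ^ 31) s := by
      simpa using hasDerivAt_pow 32 s
    exact e1.div e2 (by positivity)
  have hanti : AntitoneOn N (Icc a y) := by
    apply antitoneOn_of_deriv_nonpos (convex_Icc a y)
    · intro s hs
      exact (hNd s (ha.trans_le hs.1)).continuousAt.continuousWithinAt
    · intro s hs
      rw [interior_Icc] at hs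
      exact (hNd s (ha.trans hs.1)).differentiableAt.differentiableWithinAt
    · intro s hs
      rw [interior_Icc] at hs
      have hs0 : 0 < s := ha.trans hs.1
      rw [(hNd s hs0).deriv]
      apply div_nonpos_of_nonpos_of_nonneg _ (by positivity)
      have e1 : inner ℝ (u s) (deriv φ (x + s * Complex.I) * Complex.I) ≤
          ‖u s‖ * (16 / s * ‖u s‖) :=
        (real_inner_le_norm _ _).trans (mul_le_mul_of_nonneg_left (hbd s hs0) (norm_nonneg _))
      have e2 : ‖u s‖ * (16 / s * ‖u s‖) * s ^ 32 = 16 * ‖u s‖ ^ 2 * s ^ 31 := by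
        field_simp
      have e3 := mul_le_mul_of_nonneg_right e1 (show 0 ≤ s ^ 32 by positivity)
      rw [e2] at e3
      linarith
  have h1 := hanti (left_mem_Icc.2 hay) (right_mem_Icc.2 hay) hay
  simp only [hN] at h1
  have hy : 0 < y := ha.trans_le hay
  rw [div_le_div_iff₀ (by positivity) (by positivity)] at h1
  have h2 : ‖u y‖ ^ 2 ≤ (‖u a‖ * (y / a) ^ 16) ^ 2 := by
    rw [mul_pow, ← pow_mul, div_pow, ← mul_div_assoc, le_div_iff₀ (by positivity)]
    exact h1
  exact (abs_le_of_sq_le_sq' h2 (by positivity)).2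

/-- a univalent function on the half plane which is bounded on a strip at the boundary is
bounded -/
theorem bdd_of_strip {φ : ℂ → ℂ} (hd : DifferentiableOn ℂ φ Hp) (hi : InjOn φ Hp) {ζ : ℂ}
    (hζ : ζ ∉ φ '' Hp) {t : ℝ} (ht : 0 < t) (h : Bornology.IsBounded (φ '' St t)) :
    Bornology.IsBounded (φ '' Hp) := by
  obtain ⟨M, hM⟩ := h.exists_norm_le
  have hM' : ∀ z ∈ St t, ‖φ z‖ ≤ M := fun z hz => hM _ ⟨z, hz, rfl⟩
  have hM0 : 0 ≤ M := by
    have hz : ((t / 2 : ℝ) : ℂ) * Complex.I ∈ St t := by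
      constructor
      · simp; linarith
      · simp; linarith
    exact (norm_nonneg _).trans (hM' _ hz)
  set K : ℝ := 1 + 2 / t with hK
  have hK1 : 1 ≤ K := by
    rw [hK]
    have : 0 < 2 / t := by positivity
    linarith
  set D : ℝ := ‖ζ‖ + (M + ‖ζ‖) * K ^ 16 with hD
  -- growth in terms of the height
  have hgr : ∀ z : ℂ, t / 2 ≤ z.im → ‖φ z‖ ≤ ‖ζ‖ + (M + ‖ζ‖) * (z.im / (t / 2)) ^ 16 := by
    intro z hz
    have h1 := unbb_growth hd hi hζ z.re (a := t / 2) (y := z.im) (by linarith) hz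
    rw [Complex.re_add_im] at h1
    have h2 : ‖φ (z.re + ((t / 2 : ℝ) : ℂ) * Complex.I)‖ ≤ M := by
      apply hM'
      constructor
      · simp; linarith
      · simp; linarith
    have h3 : ‖φ (z.re + ((t / 2 : ℝ) : ℂ) * Complex.I) - ζ‖ ≤ M + ‖ζ‖ :=
      (norm_sub_le _ _).trans (by linarith)
    have h4 : ‖φ z‖ ≤ ‖ζ‖ + ‖φ z - ζ‖ := by
      have := norm_add_le ζ (φ z - ζ)
      rwa [add_sub_cancel] at this
    have h5 : ‖φ (z.re + ((t / 2 : ℝ) : ℂ) * Complex.I) - ζ‖ * (z.im / (t / 2)) ^ 16 ≤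
        (M + ‖ζ‖) * (z.im / (t / 2)) ^ 16 := by
      gcongr
    linarith
  -- Phragmen-Lindelof
  set f : ℂ → ℂ := fun v => φ (v ^ 2 + ((t / 2 : ℝ) : ℂ) * Complex.I) with hf
  have him : ∀ v : ℂ, (v ^ 2 + ((t / 2 : ℝ) : ℂ) * Complex.I).im = 2 * v.re * v.im + t / 2 := by
    intro v
    rw [pow_two]
    simp [Complex.mul_im]
    ring
  have hcl : closure (Ioi (0:ℝ) ×ℂ Ioi (0:ℝ)) ⊆ {v : ℂ | 0 ≤ v.re ∧ 0 ≤ v.im} := by
    apply closure_minimal
    · intro v hv
      rw [Complex.mem_reProdIm] at hv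
      exact ⟨le_of_lt hv.1, le_of_lt hv.2⟩
    · exact (isClosed_le continuous_const Complex.continuous_re).inter
        (isClosed_le continuous_const Complex.continuous_im)
  have hfd : DiffContOnCl ℂ f (Ioi (0:ℝ) ×ℂ Ioi (0:ℝ)) := by
    apply DifferentiableOn.diffContOnCl
    intro v hv
    have hv' := hcl hv
    have hm : (v ^ 2 + ((t / 2 : ℝ) : ℂ) * Complex.I) ∈ Hp := by
      show 0 < (v ^ 2 + ((t / 2 : ℝ) : ℂ) * Complex.I).im
      rw [him]
      have : 0 ≤ v.re * v.im := mul_nonneg hv'.1 hv'.2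
      nlinarith
    have e1 := hd.differentiableAt (isOpen_Hp.mem_nhds hm)
    have e2 : DifferentiableAt ℂ (fun v : ℂ => v ^ 2 + ((t / 2 : ℝ) : ℂ) * Complex.I) v := by
      fun_prop
    exact (e1.comp v e2).differentiableWithinAt
  have hO : ∃ c < (2:ℝ), ∃ B, f =O[Bornology.cobounded ℂ ⊓ 𝓟 (Ioi (0:ℝ) ×ℂ Ioi (0:ℝ))]
      fun z => Real.exp (B * ‖z‖ ^ c) := by
    refine ⟨1, by norm_num, 32, ?_⟩
    apply Asymptotics.IsBigO.of_bound D
    rw [eventually_inf_principal]
    refine Eventually.of_forall fun v hv => ?_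
    rw [Complex.mem_reProdIm] at hv
    have hv1 : 0 < v.re := hv.1
    have hv2 : 0 < v.im := hv.2
    have hmul : 0 < v.re * v.im := mul_pos hv1 hv2
    have e1 := hgr (v ^ 2 + ((t / 2 : ℝ) : ℂ) * Complex.I) (by rw [him]; nlinarith)
    rw [him] at e1
    rw [Real.rpow_one, Real.norm_of_nonneg (Real.exp_pos _).le]
    have e2 : 2 * v.re * v.im ≤ ‖v‖ ^ 2 := by
      rw [← Complex.normSq_eq_norm_sq, Complex.normSq_apply]
      nlinarith [sq_nonneg (v.re - v.im)]
    have e3 : (2 * v.re * v.im + t / 2) / (t / 2) ≤ K * Real.exp (2 * ‖v‖) := by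
      have e4 : (2 * v.re * v.im + t / 2) / (t / 2) = 1 + 2 / t * (2 * v.re * v.im) := by
        field_simp
        ring
      rw [e4]
      have e5 : 1 + ‖v‖ ≤ Real.exp ‖v‖ := by
        have := Real.add_one_le_exp ‖v‖
        linarith
      have e6 : (1 + ‖v‖) ^ 2 ≤ Real.exp (2 * ‖v‖) := by
        rw [mul_comm, Real.exp_mul, Real.rpow_two]
        have := norm_nonneg v
        gcongr
      have e7 : 1 + 2 / t * (2 * v.re * v.im) ≤ K * (1 + ‖v‖) ^ 2 := by
        have h0 : 0 < 2 / t := by positivity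
        have h1 : 2 / t * (2 * v.re * v.im) ≤ 2 / t * ‖v‖ ^ 2 := by gcongr
        have h2 := norm_nonneg v
        rw [hK]
        nlinarith [mul_nonneg h0.le h2]
      exact e7.trans (by gcongr)
    have e8 : 0 ≤ (2 * v.re * v.im + t / 2) / (t / 2) := by
      apply div_nonneg <;> nlinarith
    calc ‖f v‖ ≤ ‖ζ‖ + (M + ‖ζ‖) * ((2 * v.re * v.im + t / 2) / (t / 2)) ^ 16 := e1
      _ ≤ ‖ζ‖ + (M + ‖ζ‖) * (K * Real.exp (2 * ‖v‖)) ^ 16 := by gcongr
      _ = ‖ζ‖ * 1 + (M + ‖ζ‖) * K ^ 16 * Real.exp (32 * ‖v‖) := by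
        rw [mul_pow, ← Real.exp_nat_mul]
        push_cast
        ring_nf
      _ ≤ ‖ζ‖ * Real.exp (32 * ‖v‖) + (M + ‖ζ‖) * K ^ 16 * Real.exp (32 * ‖v‖) := by
        gcongr
        exact Real.one_le_exp (by positivity)
      _ = D * Real.exp (32 * ‖v‖) := by rw [hD]; ring
  have hre : ∀ x : ℝ, 0 ≤ x → ‖f x‖ ≤ M := by
    intro x _
    apply hM'
    constructor
    · rw [him]; simp; linarith
    · rw [him]; simp; linarith
  have himm : ∀ x : ℝ, 0 ≤ x → ‖f (x * Complex.I)‖ ≤ M := by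
    intro x _
    apply hM'
    constructor
    · rw [him]; simp; linarith
    · rw [him]; simp; linarith
  -- conclusion
  refine (Metric.isBounded_closedBall (x := (0:ℂ)) (r := M)).subset ?_
  rintro _ ⟨z, hz, rfl⟩
  rw [mem_closedBall_zero_iff]
  rcases lt_or_ge z.im t with h1 | h1
  · exact hM' z ⟨hz, h1⟩
  · -- square root of `z - i t/2`
    set w : ℂ := z - ((t / 2 : ℝ) : ℂ) * Complex.I with hw
    have hwim : 0 < w.im := by
      rw [hw]
      simp
      linarith
    set v : ℂ := w ^ (1 / 2 : ℂ) with hv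
    have hw0 : w ≠ 0 := by
      intro h0
      rw [h0] at hwim
      simp at hwim
    have hv2 : v ^ 2 = w := by
      rw [hv, ← Complex.cpow_nat_mul]
      norm_num
    have harg : 0 ≤ Complex.arg w ∧ Complex.arg w ≤ Real.pi :=
      ⟨Complex.arg_nonneg_iff.2 hwim.le, Complex.arg_le_pi w⟩
    have hvf : v = (Real.sqrt ‖w‖ : ℂ) * Complex.exp ((Complex.arg w / 2 : ℝ) * Complex.I) := by
      rw [hv, Complex.cpow_def_of_ne_zero hw0]
      have : Complex.log w * (1 / 2 : ℂ) = ((Real.log ‖w‖ / 2 : ℝ) : ℂ) +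
          (Complex.arg w / 2 : ℝ) * Complex.I := by
        rw [Complex.log]
        push_cast
        ring
      rw [this, Complex.exp_add, ← Complex.ofReal_exp]
      congr 2
      rw [Real.sqrt_eq_rpow, Real.rpow_def_of_pos (norm_pos_iff.2 hw0)]
      congr 1
      ring
    have hvre : 0 ≤ v.re := by
      rw [hvf, Complex.re_ofReal_mul, Complex.exp_ofReal_mul_I_re]
      apply mul_nonneg (Real.sqrt_nonneg _)
      apply Real.cos_nonneg_of_mem_Icc
      constructor <;> linarith [harg.1, harg.2, Real.pi_pos]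
    have hvim : 0 ≤ v.im := by
      rw [hvf, Complex.im_ofReal_mul, Complex.exp_ofReal_mul_I_im]
      apply mul_nonneg (Real.sqrt_nonneg _)
      apply Real.sin_nonneg_of_mem_Icc
      constructor <;> linarith [harg.1, harg.2, Real.pi_pos]
    have h2 := PhragmenLindelof.quadrant_I hfd hO hre himm hvre hvim
    have h3 : f v = φ z := by
      rw [hf]
      simp only
      rw [hv2, hw]
      congr 1
      ring
    rwa [h3] at h2

end Pool.Agent.BB.P
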