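import Pool.Agent.BB.P.GT
import Pool.Agent.BB.P.TR
import Pool.Agent.BB.P.STR
import Pool.Agent.BB.P.UNBA
import Pool.Agent.BB.P.UNBB

open Set Metric Filter Topology MeasureTheory

namespace Pool.Agent.BB.P

private lemma rect_unb_at (b : Base) (e : Ends b) (hunb : ¬ Bornology.IsBounded b.U) :
    ∃ x : ℝ, UnbAt b.φ x := by
  by_contra hcon
  push Not at hcon
  obtain ⟨t, ht, hb⟩ := bdd_strip b e hcon
  have hζ : b.ζ ∉ b.φ '' Hp := by
    rintro ⟨z, hz, hzz⟩
    exact b.hζU (hzz ▸ b.φ_mem hz)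
  have h1 := bdd_of_strip b.hφ b.φ_inj hζ ht hb
  apply hunb
  refine h1.subset ?_
  intro z hz
  exact ⟨b.ψ z, b.ψ_mem hz, b.φψ hz⟩

private lemma rect_sep (n : ℕ) (q : ℕ → ℂ) (hq : ∀ i < n, ∀ j < n, i ≠ j → q i ≠ q j) {R : ℝ}
    (hR : 0 < R) : ∃ ρ : ℝ, 0 < ρ ∧ ρ ≤ R ∧ ∀ i < n, ∀ j < n, i ≠ j → 2 * ρ ≤ ‖q i - q j‖ := by
  classical
  set S : Finset (ℕ × ℕ) := ((Finset.range n) ×ˢ (Finset.range n)).filter fun a => a.1 ≠ a.2
    with hS
  set D : Finset ℝ := insert R (S.image fun a => ‖q a.1 - q a.2‖ / 2) with hD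
  have hDne : D.Nonempty := ⟨R, Finset.mem_insert_self _ _⟩
  have hpos : ∀ d ∈ D, 0 < d := by
    intro d hd
    rw [hD, Finset.mem_insert, Finset.mem_image] at hd
    rcases hd with rfl | ⟨a, ha, rfl⟩
    · exact hR
    · rw [hS, Finset.mem_filter, Finset.mem_product, Finset.mem_range, Finset.mem_range] at ha
      have := norm_pos_iff.2 (sub_ne_zero.2 (hq a.1 ha.1.1 a.2 ha.1.2 ha.2))
      positivity
  refine ⟨D.min' hDne, hpos _ (Finset.min'_mem _ _),
    Finset.min'_le _ _ (Finset.mem_insert_self _ _), ?_⟩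
  intro i hi j hj hij
  have h1 : D.min' hDne ≤ ‖q i - q j‖ / 2 := by
    apply Finset.min'_le
    rw [hD]
    apply Finset.mem_insert_of_mem
    rw [Finset.mem_image]
    refine ⟨(i, j), ?_, rfl⟩
    rw [hS, Finset.mem_filter, Finset.mem_product, Finset.mem_range, Finset.mem_range]
    exact ⟨⟨hi, hj⟩, hij⟩
  linarith

/-- arbitrarily many adjacent rectangles -/
theorem rects_exist (b : Base) (e : Ends b) (k : Cut b e) (hunb : ¬ Bornology.IsBounded b.U)
    {p : ℂ} {R : ℝ} (hR : 0 < R) (hp : p ∈ frontier b.U)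
    (hcirc : ∀ t : ℝ, 0 < t → ∃ y : ℂ, ‖y - p‖ = t ∧ y ∉ b.U) (N : ℕ) :
    ∃ (t₂ : ℝ) (x : ℕ → ℝ), Rects b p R N t₂ x := by
  classical
  obtain ⟨x', hx'⟩ := rect_unb_at b e hunb
  obtain ⟨M, hM2, hM⟩ := good_tail
  have hM0 : 0 < M := by linarith
  -- distinct frontier points
  have hinf := frontier_inf b.hUo hp hcirc (half_pos hR)
  set emb := hinf.natEmbedding with hemb
  set q : ℕ → ℂ := fun i => (emb i : ℂ) with hq
  have hqf : ∀ i, q i ∈ frontier b.U := fun i => (emb i).2.1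
  have hqb : ∀ i, q i ∈ ball p (R / 2) := fun i => (emb i).2.2
  have hqi : ∀ i j, i ≠ j → q i ≠ q j := by
    intro i j hij h
    exact hij (emb.injective (Subtype.ext h))
  obtain ⟨ρ, hρ0, hρR, hρ⟩ := rect_sep (2 * N + 1) q (fun i _ j _ hij => hqi i j hij)
    (half_pos hR)
  -- tails
  have key : ∀ i : ℕ, ∃ x h : ℝ, 0 < h ∧
      (∀ y : ℝ, 0 < y → y ≤ h → ‖b.φ (x + y * Complex.I) - q i‖ < ρ) ∧
      ∀ n : ℕ, ¬ Tendsto (fun y : ℝ => ‖b.ψ (b.F^[n] (b.φ (x + y * Complex.I)))‖) (𝓝[>] 0)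
        atTop := by
    intro i
    have hqU : q i ∉ b.U := by
      have h1 := (hqf i).2
      rwa [b.hUo.interior_eq] at h1
    have hqc : q i ∈ closure b.U := (hqf i).1
    obtain ⟨u, hu, hud⟩ := Metric.mem_closure_iff.1 hqc (ρ / M) (by positivity)
    have hz : b.ψ u ∈ Hp := b.ψ_mem hu
    obtain ⟨x, _, hx1, hx2⟩ := hM b (q i) (b.ψ u) hqU hz
    refine ⟨x, (b.ψ u).im, hz, ?_, hx2⟩
    intro y hy hy'
    refine (hx1 y hy hy').trans ?_
    rw [b.φψ hu, ← dist_eq_norm, dist_comm, mul_comm]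
    rwa [lt_div_iff₀ hM0] at hud
  choose X H hH hX1 hX2 using key
  -- distinct abscissae
  have hXinj : ∀ i < 2 * N + 1, ∀ j < 2 * N + 1, i ≠ j → X i ≠ X j := by
    intro i hi j hj hij h
    have h1 := hX1 i (min (H i) (H j)) (lt_min (hH i) (hH j)) (min_le_left _ _)
    have h2 := hX1 j (min (H i) (H j)) (lt_min (hH i) (hH j)) (min_le_right _ _)
    rw [← h] at h2
    have h3 := hρ i hi j hj hij
    have h4 : ‖q i - q j‖ ≤ ‖b.φ (X i + (min (H i) (H j) : ℝ) * Complex.I) - q i‖ +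
        ‖b.φ (X i + (min (H i) (H j) : ℝ) * Complex.I) - q j‖ := by
      calc ‖q i - q j‖ = ‖(b.φ (X i + (min (H i) (H j) : ℝ) * Complex.I) - q j) -
            (b.φ (X i + (min (H i) (H j) : ℝ) * Complex.I) - q i)‖ := by congr 1; ring
        _ ≤ _ := (norm_sub_le _ _).trans (le_of_eq (add_comm _ _))
    linarith
  -- sort
  set s : Finset ℝ := (Finset.range (2 * N + 1)).image X with hs
  have hcard : s.card = 2 * N + 1 := by
    rw [hs, Finset.card_image_of_injOn, Finset.card_range]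
    intro i hi j hj h
    by_contra hij
    exact hXinj i (Finset.mem_range.1 hi) j (Finset.mem_range.1 hj) hij h
  set E := s.orderEmbOfFin hcard with hE
  set Y : ℕ → ℝ := fun m => if h : m < 2 * N + 1 then E ⟨m, h⟩ else 0 with hY
  have hYlt : ∀ m m', m < m' → m' < 2 * N + 1 → Y m < Y m' := by
    intro m m' hmm hm'
    rw [hY]
    simp only
    rw [dif_pos (hmm.trans hm'), dif_pos hm']
    exact E.strictMono hmm
  have hYX : ∀ m, m < 2 * N + 1 → ∃ i < 2 * N + 1, Y m = X i := by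
    intro m hm
    have h1 : E ⟨m, hm⟩ ∈ s := Finset.orderEmbOfFin_mem _ _ _
    rw [hs, Finset.mem_image] at h1
    obtain ⟨i, hi, hi'⟩ := h1
    refine ⟨i, Finset.mem_range.1 hi, ?_⟩
    rw [hY]
    simp only
    rw [dif_pos hm, hi']
  -- the height
  obtain ⟨t₂, ht0, htt, htH⟩ : ∃ t₂ : ℝ, 0 < t₂ ∧ t₂ < b.t₀ ∧ ∀ i < 2 * N + 1, t₂ ≤ H i := by
    set D : Finset ℝ := insert (b.t₀ / 2) ((Finset.range (2 * N + 1)).image H) with hD
    have hDne : D.Nonempty := ⟨_, Finset.mem_insert_self _ _⟩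
    have hpos : ∀ d ∈ D, 0 < d := by
      intro d hd
      rw [hD, Finset.mem_insert, Finset.mem_image] at hd
      rcases hd with rfl | ⟨a, _, rfl⟩
      · exact half_pos b.ht₀
      · exact hH a
    refine ⟨D.min' hDne, hpos _ (Finset.min'_mem _ _), ?_, ?_⟩
    · have h1 : D.min' hDne ≤ b.t₀ / 2 := Finset.min'_le _ _ (Finset.mem_insert_self _ _)
      have := b.ht₀
      linarith
    · intro i hi
      apply Finset.min'_le
      apply Finset.mem_insert_of_mem
      exact Finset.mem_image_of_mem _ (Finset.mem_range.2 hi)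
  refine ⟨t₂, fun j => Y (2 * j), ht0, htt, ?_, ?_, ?_⟩
  · intro i hi
    exact hYlt _ _ (by omega) (by omega)
  · intro i hi y hy hy'
    obtain ⟨j, hj, hj'⟩ := hYX (2 * i) (by omega)
    have h1 := hX1 j y hy (hy'.trans (htH j hj))
    show b.φ ((Y (2 * i) : ℝ) + y * Complex.I) ∈ ball p R
    rw [hj', mem_ball]
    have h2 := hqb j
    rw [mem_ball] at h2
    calc dist (b.φ ((X j : ℝ) + y * Complex.I)) p ≤
          dist (b.φ ((X j : ℝ) + y * Complex.I)) (q j) + dist (q j) p := dist_triangle _ _ _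
      _ < R := by
        rw [dist_eq_norm (b.φ ((X j : ℝ) + y * Complex.I)) (q j)]
        linarith
  · intro i hi
    show ¬ Bornology.IsBounded (b.φ '' {z | (Y (2 * i) < z.re ∧ z.re < Y (2 * (i + 1))) ∧
      (0 < z.im ∧ z.im < t₂)})
    obtain ⟨j, hj, hj'⟩ := hYX (2 * i + 1) (by omega)
    have h1 : Y (2 * i) < X j := by
      rw [← hj']
      exact hYlt _ _ (by omega) (by omega)
    have h2 : X j < Y (2 * (i + 1)) := by
      rw [← hj']
      exact hYlt _ _ (by omega) (by omega)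
    have h3 : UnbAt b.φ (X j) := by
      refine transport k hx' (M := ‖q j‖ + ρ) (hH j) ?_ (hX2 j)
      intro y hy hy'
      have h4 := hX1 j y hy hy'
      have h5 : ‖b.φ ((X j : ℝ) + y * Complex.I)‖ ≤
          ‖q j‖ + ‖b.φ ((X j : ℝ) + y * Complex.I) - q j‖ := by
        have := norm_add_le (q j) (b.φ ((X j : ℝ) + y * Complex.I) - q j)
        rwa [add_sub_cancel] at this
      linarith
    have hr : 0 < min (min (X j - Y (2 * i)) (Y (2 * (i + 1)) - X j)) t₂ :=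
      lt_min (lt_min (by linarith) (by linarith)) ht0
    intro hb
    apply h3 _ hr
    refine hb.subset (image_mono ?_)
    rintro z ⟨hz1, hz2⟩
    rw [mem_ball, dist_eq_norm] at hz2
    have h6 := lt_of_le_of_lt (Complex.abs_re_le_norm (z - (X j : ℂ))) hz2
    have h7 := lt_of_le_of_lt (Complex.abs_im_le_norm (z - (X j : ℂ))) hz2
    rw [Complex.sub_re, Complex.ofReal_re, abs_lt] at h6
    rw [Complex.sub_im, Complex.ofReal_im, sub_zero, abs_lt] at h7
    have h8 : min (min (X j - Y (2 * i)) (Y (2 * (i + 1)) - X j)) t₂ ≤ X j - Y (2 * i) :=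
      (min_le_left _ _).trans (min_le_left _ _)
    have h9 : min (min (X j - Y (2 * i)) (Y (2 * (i + 1)) - X j)) t₂ ≤ Y (2 * (i + 1)) - X j :=
      (min_le_left _ _).trans (min_le_right _ _)
    have h10 : min (min (X j - Y (2 * i)) (Y (2 * (i + 1)) - X j)) t₂ ≤ t₂ := min_le_right _ _
    exact ⟨⟨by linarith [h6.1], by linarith [h6.2]⟩, hz1, by linarith [h7.2]⟩

end Pool.Agent.BB.P
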