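import Pool.Agent.BB.P.SPA

open Set Metric Filter Topology MeasureTheory

namespace Pool.Agent.BB.P

private lemma grow_cos_add {θ : ℝ} (h : |θ| < 3 * Real.pi / 4) : 0 < Real.cos θ + |Real.sin θ| := by
  have h1 : 0 < Real.sin (|θ| + Real.pi / 4) :=
    Real.sin_pos_of_pos_of_lt_pi (by have := abs_nonneg θ; have := Real.pi_pos; linarith)
      (by linarith)
  rw [Real.sin_add, Real.cos_pi_div_four, Real.sin_pi_div_four, Real.cos_abs] at h1
  have h2 : Real.sin |θ| ≤ |Real.sin θ| := by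
    rcases abs_cases θ with ⟨h3, _⟩ | ⟨h3, _⟩
    · rw [h3]; exact le_abs_self _
    · rw [h3, Real.sin_neg]; exact neg_le_abs _
  have h3 : 0 < Real.sqrt 2 / 2 := by positivity
  have h4 : 0 < (Real.sin |θ| + Real.cos θ) * (Real.sqrt 2 / 2) := by linarith
  have h5 := pos_of_mul_pos_left h4 h3.le
  linarith

private lemma grow_mem_Vs {R : ℝ} {v : ℂ} (hv : 0 < v.re) :
    (R : ℂ) + Complex.exp (((3 / 2 : ℝ) : ℂ) * Complex.log v) ∈ Vs R := by
  have hv0 : v ≠ 0 := by rintro rfl; simp at hv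
  have harg : |v.arg| < Real.pi / 2 := Complex.abs_arg_lt_pi_div_two_iff.2 (Or.inl hv)
  have him : (((3 / 2 : ℝ) : ℂ) * Complex.log v).im = 3 / 2 * v.arg := by
    rw [Complex.im_ofReal_mul, Complex.log_im]
  have h1 : 0 < Real.cos (3 / 2 * v.arg) + |Real.sin (3 / 2 * v.arg)| := by
    apply grow_cos_add
    rw [abs_mul, abs_of_pos (by norm_num : (0:ℝ) < 3 / 2)]
    linarith
  simp only [Vs, Set.mem_ofPred_eq, Complex.add_re, Complex.add_im, Complex.ofReal_re,
    Complex.ofReal_im, zero_add, Complex.exp_re, Complex.exp_im, him, abs_mul, Real.abs_exp]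
  nlinarith [Real.exp_pos (((3 / 2 : ℝ) : ℂ) * Complex.log v).re]

/-- Harnack in the right half plane -/
private lemma grow_half {F : ℂ → ℂ} (hd : DifferentiableOn ℂ F {v | 0 < v.re})
    (hm : ∀ v : ℂ, 0 < v.re → 0 ≤ (F v).im) {v : ℂ} (hv : 0 < v.re) :
    (F v).im ≤ ‖v + 1‖ ^ 2 / v.re * (F 1).im := by
  have hden : ∀ z : ℂ, ‖z‖ < 1 → 1 - z ≠ 0 := by
    intro z hz h
    have : z = 1 := (sub_eq_zero.1 h).symm
    rw [this, norm_one] at hz
    exact lt_irrefl _ hz
  have hre : ∀ z : ℂ, ‖z‖ < 1 → 0 < ((1 + z) / (1 - z)).re := by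
    intro z hz
    have h0 := hden z hz
    have h1 : ((1 + z) / (1 - z)).re = (1 - ‖z‖ ^ 2) / Complex.normSq (1 - z) := by
      rw [Complex.div_re, ← Complex.normSq_eq_norm_sq, Complex.normSq_apply z]
      simp only [Complex.add_re, Complex.sub_re, Complex.add_im, Complex.sub_im, Complex.one_re,
        Complex.one_im]
      ring
    rw [h1]
    apply div_pos
    · nlinarith [norm_nonneg z]
    · exact Complex.normSq_pos.2 h0
  have hdG : DifferentiableOn ℂ (fun z : ℂ => F ((1 + z) / (1 - z))) (ball 0 1) := by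
    refine hd.comp (t := {v : ℂ | 0 < v.re}) ?_ ?_
    · intro z hz
      have hz' : ‖z‖ < 1 := by simpa using hz
      exact ((differentiableAt_const _).add differentiableAt_id).div
        ((differentiableAt_const _).sub differentiableAt_id) (hden z hz') |>.differentiableWithinAt
    · intro z hz
      exact hre z (by simpa using hz)
  have hv1 : v + 1 ≠ 0 := by
    intro h
    have := congrArg Complex.re h
    simp at this
    linarith
  set z : ℂ := (v - 1) / (v + 1) with hz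
  have hnv : 0 < ‖v + 1‖ := norm_pos_iff.2 hv1
  have hsq : ‖v + 1‖ ^ 2 - ‖v - 1‖ ^ 2 = 4 * v.re := by
    rw [← Complex.normSq_eq_norm_sq, ← Complex.normSq_eq_norm_sq, Complex.normSq_apply,
      Complex.normSq_apply]
    simp only [Complex.add_re, Complex.sub_re, Complex.add_im, Complex.sub_im, Complex.one_re,
      Complex.one_im]
    ring
  have hzn : ‖z‖ = ‖v - 1‖ / ‖v + 1‖ := by rw [hz, norm_div]
  have hlt : ‖v - 1‖ < ‖v + 1‖ := by
    nlinarith [norm_nonneg (v - 1), norm_nonneg (v + 1)]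
  have hz1 : ‖z‖ < 1 := by
    rw [hzn, div_lt_one hnv]
    exact hlt
  have hzv : (1 + z) / (1 - z) = v := by
    have h0 := hden z hz1
    rw [div_eq_iff h0, hz]
    field_simp
    ring
  have key := (hp_harnack (f := fun z : ℂ => F ((1 + z) / (1 - z))) one_pos hdG
    (fun z hz => hm _ (hre z (by simpa using hz))) (z := z) (by simpa using hz1)).2
  simp only [sub_zero, add_zero, div_one, hzv] at key
  refine key.trans (mul_le_mul_of_nonneg_right ?_ (hm 1 (by simp)))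
  rw [hzn, div_le_div_iff₀ (by rw [← hzn]; linarith) hv]
  have e1 : (1 + ‖v - 1‖ / ‖v + 1‖) = (‖v + 1‖ + ‖v - 1‖) / ‖v + 1‖ := by field_simp
  have e2 : (1 - ‖v - 1‖ / ‖v + 1‖) = (‖v + 1‖ - ‖v - 1‖) / ‖v + 1‖ := by field_simp
  rw [e1, e2]
  have e3 : ‖v + 1‖ ^ 2 * ((‖v + 1‖ - ‖v - 1‖) / ‖v + 1‖) = ‖v + 1‖ * (‖v + 1‖ - ‖v - 1‖) := by
    field_simp
  rw [e3, div_mul_eq_mul_div, div_le_iff₀ hnv]
  have e4 : v.re = (‖v + 1‖ - ‖v - 1‖) * (‖v + 1‖ + ‖v - 1‖) / 4 := by linarith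
  rw [e4]
  have e5 : 0 ≤ ‖v + 1‖ - ‖v - 1‖ := by linarith
  have e6 : (‖v + 1‖ + ‖v - 1‖) * (‖v + 1‖ + ‖v - 1‖) ≤ 4 * ‖v + 1‖ * ‖v + 1‖ := by
    nlinarith [norm_nonneg (v - 1), norm_nonneg (v + 1)]
  nlinarith [mul_le_mul_of_nonneg_left e6 e5]

private lemma grow_point {f : ℂ → ℂ} {R : ℝ} (hd : DifferentiableOn ℂ f (Vs R))
    (hm : ∀ w ∈ Vs R, 0 ≤ (f w).im) {u : ℂ} (hu : 1 ≤ ‖u‖) (hre : -(‖u‖ / 2) ≤ u.re) :
    (f (R + u)).im ≤ 4 / Real.cos (4 * Real.pi / 9) * ‖u‖ ^ (2 / 3 : ℝ) * (f (R + 1)).im := by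
  have hu0 : 0 < ‖u‖ := by linarith
  have hune : u ≠ 0 := norm_pos_iff.1 hu0
  have hpi := Real.pi_pos
  -- the argument of `u`
  have harg : |u.arg| ≤ 2 * Real.pi / 3 := by
    by_contra hcon
    push Not at hcon
    have h1 : Real.cos |u.arg| < Real.cos (2 * Real.pi / 3) :=
      Real.cos_lt_cos_of_nonneg_of_le_pi (by positivity) (Complex.abs_arg_le_pi u) hcon
    rw [Real.cos_abs, Complex.cos_arg hune, show 2 * Real.pi / 3 = Real.pi - Real.pi / 3 by ring,
      Real.cos_pi_sub, Real.cos_pi_div_three, div_lt_iff₀ hu0] at h1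
    linarith
  set c := Real.cos (4 * Real.pi / 9) with hc
  have hc0 : 0 < c := Real.cos_pos_of_mem_Ioo ⟨by linarith, by linarith⟩
  -- the point of the half plane
  set v : ℂ := Complex.exp (((2 / 3 : ℝ) : ℂ) * Complex.log u) with hv
  have him : (((2 / 3 : ℝ) : ℂ) * Complex.log u).im = 2 / 3 * u.arg := by
    rw [Complex.im_ofReal_mul, Complex.log_im]
  have hrel : (((2 / 3 : ℝ) : ℂ) * Complex.log u).re = 2 / 3 * Real.log ‖u‖ := by
    rw [Complex.re_ofReal_mul, Complex.log_re]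
  have hnorm : ‖v‖ = ‖u‖ ^ (2 / 3 : ℝ) := by
    rw [hv, Complex.norm_exp, hrel, Real.rpow_def_of_pos hu0, mul_comm]
  have hcos : c ≤ Real.cos (2 / 3 * u.arg) := by
    rw [← Real.cos_abs (2 / 3 * u.arg), abs_mul, abs_of_pos (by norm_num : (0:ℝ) < 2 / 3)]
    exact Real.cos_le_cos_of_nonneg_of_le_pi (by positivity) (by linarith) (by linarith)
  have hvre : c * ‖v‖ ≤ v.re := by
    have : v.re = ‖v‖ * Real.cos (2 / 3 * u.arg) := by
      rw [hv, Complex.exp_re, Complex.norm_exp, him]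
    rw [this, mul_comm]
    exact mul_le_mul_of_nonneg_left hcos (norm_nonneg _)
  have hv1 : 1 ≤ ‖v‖ := by
    rw [hnorm]; exact Real.one_le_rpow hu (by norm_num)
  have hvre0 : 0 < v.re := by nlinarith
  have hlog : Complex.log v = ((2 / 3 : ℝ) : ℂ) * Complex.log u := by
    rw [hv, Complex.log_exp]
    · rw [him]
      have := (abs_le.1 harg).1
      linarith
    · rw [him]
      have := (abs_le.1 harg).2
      linarith
  have hback : Complex.exp (((3 / 2 : ℝ) : ℂ) * Complex.log v) = u := by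
    rw [hlog, ← mul_assoc, ← Complex.ofReal_mul]
    norm_num
    exact Complex.exp_log hune
  have hdF : DifferentiableOn ℂ
      (fun v : ℂ => f (R + Complex.exp (((3 / 2 : ℝ) : ℂ) * Complex.log v))) {v | 0 < v.re} := by
    refine hd.comp (t := Vs R) ?_ ?_
    · intro v hv
      have hs : v ∈ Complex.slitPlane := Or.inl hv
      exact ((differentiableAt_const _).add
        (((differentiableAt_const _).mul (Complex.differentiableAt_log hs)).cexp)).differentiableWithinAt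
    · intro v hv
      exact grow_mem_Vs hv
  have key := grow_half hdF (fun v hv => hm _ (grow_mem_Vs hv)) hvre0
  simp only [hback, Complex.log_one, mul_zero, Complex.exp_zero] at key
  refine key.trans (mul_le_mul_of_nonneg_right ?_ (hm _ ?_))
  · rw [← hnorm, div_le_iff₀ hvre0]
    have h1 : ‖v + 1‖ ≤ 2 * ‖v‖ := by
      have := norm_add_le v 1
      rw [norm_one] at this
      linarith
    have h2 : ‖v + 1‖ ^ 2 ≤ 4 * ‖v‖ ^ 2 := by nlinarith [norm_nonneg (v + 1)]
    have h3 : 4 / c * ‖v‖ * (c * ‖v‖) ≤ 4 / c * ‖v‖ * v.re :=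
      mul_le_mul_of_nonneg_left hvre (by positivity)
    have h4 : 4 / c * ‖v‖ * (c * ‖v‖) = 4 * ‖v‖ ^ 2 := by field_simp
    linarith
  · have := grow_mem_Vs (R := R) (v := 1) (by simp)
    simpa using this

/-- growth of positive harmonic functions in the sector `Vs R` of opening `3π/2` -/
theorem grow_wedge {f : ℂ → ℂ} {R : ℝ} (hR : 0 ≤ R) (hd : DifferentiableOn ℂ f (Vs R))
    (hm : ∀ w ∈ Vs R, 0 ≤ (f w).im) : ∃ C : ℝ, ∀ T : ℝ, 2 * R + 1 ≤ T →
      (f (T * Complex.I)).im ≤ C * T ^ (2 / 3 : ℝ) ∧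
        (f (-(T * Complex.I))).im ≤ C * T ^ (2 / 3 : ℝ) := by
  set c := Real.cos (4 * Real.pi / 9) with hc
  have hpi := Real.pi_pos
  have hc0 : 0 < c := Real.cos_pos_of_mem_Ioo ⟨by linarith, by linarith⟩
  have h1m : 0 ≤ (f (R + 1)).im := hm _ (by
    have := grow_mem_Vs (R := R) (v := 1) (by simp)
    simpa using this)
  refine ⟨8 / c * (f (R + 1)).im, fun T hT => ?_⟩
  have hT0 : 0 < T := by linarith
  have main : ∀ w : ℂ, ‖w‖ = T → w.re = 0 → (f w).im ≤ 8 / c * (f (R + 1)).im * T ^ (2 / 3 : ℝ) := by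
    intro w hw hwre
    set u : ℂ := w - R with hu
    have hure : u.re = -R := by simp [hu, hwre]
    have huim : u.im = w.im := by simp [hu]
    have hun1 : T ≤ ‖u‖ := by
      have h1 : ‖u‖ ^ 2 = R ^ 2 + w.im ^ 2 := by
        rw [← Complex.normSq_eq_norm_sq, Complex.normSq_apply, hure, huim]; ring
      have h2 : T ^ 2 = w.im ^ 2 := by
        rw [← hw, ← Complex.normSq_eq_norm_sq, Complex.normSq_apply, hwre]; ring
      have h3 : T ^ 2 ≤ ‖u‖ ^ 2 := by nlinarith
      exact (sq_le_sq₀ hT0.le (norm_nonneg _)).1 h3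
    have hun2 : ‖u‖ ≤ 2 * T := by
      have := norm_sub_le w (R : ℂ)
      rw [hw, Complex.norm_real, Real.norm_of_nonneg hR] at this
      linarith
    have key := grow_point hd hm (u := u) (by linarith) (by rw [hure]; linarith)
    rw [show (R : ℂ) + u = w by simp [hu]] at key
    have h2 : ‖u‖ ^ (2 / 3 : ℝ) ≤ 2 * T ^ (2 / 3 : ℝ) := by
      calc ‖u‖ ^ (2 / 3 : ℝ) ≤ (2 * T) ^ (2 / 3 : ℝ) :=
            Real.rpow_le_rpow (norm_nonneg _) hun2 (by norm_num)
        _ = 2 ^ (2 / 3 : ℝ) * T ^ (2 / 3 : ℝ) := Real.mul_rpow (by norm_num) hT0.le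
        _ ≤ 2 ^ (1 : ℝ) * T ^ (2 / 3 : ℝ) := by
            refine mul_le_mul_of_nonneg_right ?_ (by positivity)
            exact Real.rpow_le_rpow_of_exponent_le (by norm_num) (by norm_num)
        _ = 2 * T ^ (2 / 3 : ℝ) := by rw [Real.rpow_one]
    have h3 : 4 / c * ‖u‖ ^ (2 / 3 : ℝ) ≤ 4 / c * (2 * T ^ (2 / 3 : ℝ)) :=
      mul_le_mul_of_nonneg_left h2 (by positivity)
    have h4 := mul_le_mul_of_nonneg_right h3 h1m
    refine key.trans (h4.trans (le_of_eq ?_))
    ring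
  constructor
  · refine main _ ?_ ?_
    · rw [norm_mul, Complex.norm_real, Complex.norm_I, mul_one, Real.norm_of_nonneg hT0.le]
    · simp
  · refine main _ ?_ ?_
    · rw [norm_neg, norm_mul, Complex.norm_real, Complex.norm_I, mul_one,
        Real.norm_of_nonneg hT0.le]
    · simp

end Pool.Agent.BB.P
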