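import Pool.Agent.BB.P.Basic

open Set Metric Filter Topology MeasureTheory

namespace Pool.Agent.BB.P

/-- the normal form at a fixed point of multiplier `1` -/
theorem par_exists {F : ℂ → ℂ} (hF : Differentiable ℂ F) {ζ : ℂ} (h0 : F ζ = ζ)
    (h1 : deriv F ζ = 1) (hne : ∃ z, F z ≠ z) : ∃ (a : ℂ) (q : ℕ), Par F ζ a q := by
  set f : ℂ → ℂ := fun x => F (ζ + x) - ζ - x with hf
  have hfd : Differentiable ℂ f := by
    have : Differentiable ℂ fun x : ℂ => F (ζ + x) := hF.comp (differentiable_id.const_add ζ)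
    exact (this.sub_const ζ).sub differentiable_id
  have hf0 : f 0 = 0 := by simp [hf, h0]
  have hf1 : HasDerivAt f 0 0 := by
    have h2 : HasDerivAt F 1 (ζ + 0) := by
      rw [add_zero, ← h1]
      exact (hF ζ).hasDerivAt
    have h3 := h2.comp_const_add ζ 0
    have h4 := (h3.sub_const ζ).sub (hasDerivAt_id (0:ℂ))
    rw [sub_self] at h4
    exact h4
  have hnz : ¬ ∀ᶠ z in 𝓝 (0:ℂ), f z = 0 := by
    intro hev
    obtain ⟨z, hz⟩ := hne
    have h2 : AnalyticOnNhd ℂ f univ := fun z _ => hfd.analyticAt z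
    have h3 := h2.eqOn_zero_of_preconnected_of_eventuallyEq_zero isPreconnected_univ
      (mem_univ 0) hev
    have h4 := h3 (mem_univ (z - ζ))
    apply hz
    simp only [hf, Pi.zero_apply, add_sub_cancel] at h4
    linear_combination h4
  obtain ⟨N, g, hg, hg0, hfg⟩ := ((hfd.analyticAt 0).exists_eventuallyEq_pow_smul_nonzero_iff).2 hnz
  simp only [sub_zero, smul_eq_mul] at hfg
  have hN : 2 ≤ N := by
    by_contra hcon
    rcases (by omega : N = 0 ∨ N = 1) with h | h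
    · subst h
      have h2 := hfg.self_of_nhds
      rw [pow_zero, one_mul, hf0] at h2
      exact hg0 h2.symm
    · subst h
      have h2 : HasDerivAt f (g 0) 0 := by
        have h3 : HasDerivAt (fun z : ℂ => z ^ 1 * g z) (g 0) 0 := by
          have h4 := (hasDerivAt_id (0:ℂ)).mul hg.differentiableAt.hasDerivAt
          have h5 : (1:ℂ) * g 0 + id (0:ℂ) * deriv g 0 = g 0 := by simp
          rw [h5] at h4
          refine h4.congr_of_eventuallyEq (Eventually.of_forall fun z => ?_)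
          simp
        exact h3.congr_of_eventuallyEq hfg
      exact hg0 (h2.unique hf1)
  refine ⟨g 0, N - 1, by omega, hg0, hF.analyticAt ζ, ?_⟩
  have hNe : N - 1 + 1 = N := by omega
  rw [hNe]
  have h2 : (fun x : ℂ => g x - g 0) =o[𝓝 0] (fun _ => (1:ℂ)) := by
    rw [Asymptotics.isLittleO_one_iff]
    have := hg.continuousAt.tendsto.sub_const (g 0)
    rwa [sub_self] at this
  have h3 : (fun x : ℂ => x ^ N * (g x - g 0)) =o[𝓝 0] fun x => x ^ N * 1 :=
    (Asymptotics.isBigO_refl _ _).mul_isLittleO h2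
  simp only [mul_one] at h3
  refine h3.congr' ?_ EventuallyEq.rfl
  filter_upwards [hfg] with x hx
  have hx' : F (ζ + x) - ζ - x = x ^ N * g x := hx
  rw [hx']
  ring

/-- the multiplier is `1` -/
lemma Par.hasDerivAt {T : ℂ → ℂ} {ζ a : ℂ} {q : ℕ} (h : Par T ζ a q) (h0 : T ζ = ζ) :
    HasDerivAt T 1 ζ := by
  rw [hasDerivAt_iff_isLittleO_nhds_zero]
  have hp : (fun x : ℂ => x ^ (q + 1)) =o[𝓝 0] fun x => x :=
    Asymptotics.isLittleO_pow_id (by have := h.hq; omega)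
  have h1 := (h.ho.trans hp).add (hp.const_mul_left a)
  refine h1.congr' ?_ EventuallyEq.rfl
  filter_upwards with x
  rw [h0, smul_eq_mul]
  ring

/-- the local inverse has the normal form with `-a` -/
theorem par_inverse {F : ℂ → ℂ} (hF : Differentiable ℂ F) {ζ a : ℂ} {q : ℕ} (h : Par F ζ a q)
    (h0 : F ζ = ζ) : ∃ L : ℂ → ℂ, Par L ζ (-a) q ∧ (∀ᶠ x in 𝓝 ζ, F (L x) = x) ∧
      ∀ᶠ x in 𝓝 ζ, L (F x) = x := by
  have hd := h.hasDerivAt h0
  have hFa := hF.analyticAt ζ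
  have hne : deriv F ζ ≠ 0 := by rw [hd.deriv]; exact one_ne_zero
  set L : ℂ → ℂ := hFa.hasStrictDerivAt.localInverse _ _ _ hne with hL
  have hLa : AnalyticAt ℂ L ζ := by
    have := hFa.analyticAt_localInverse hne
    rwa [h0] at this
  have hLl : ∀ᶠ x in 𝓝 ζ, L (F x) = x := hFa.hasStrictDerivAt.eventually_left_inverse hne
  have hLr : ∀ᶠ x in 𝓝 ζ, F (L x) = x := by
    have := hFa.hasStrictDerivAt.eventually_right_inverse hne
    rwa [h0] at this
  have hLζ : L ζ = ζ := by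
    have := hLl.self_of_nhds
    rwa [h0] at this
  have hLd : HasDerivAt L 1 ζ := by
    have h2 : HasDerivAt L (deriv F ζ)⁻¹ (F ζ) :=
      (hFa.hasStrictDerivAt.to_localInverse hne).hasDerivAt
    have h3 : (deriv F ζ)⁻¹ = 1 := by rw [hd.deriv, inv_one]
    rw [h3, h0] at h2
    exact h2
  refine ⟨L, ⟨h.hq, neg_ne_zero.2 h.ha, hLa, ?_⟩, hLr, hLl⟩
  -- the new variable
  set X : ℂ → ℂ := fun u => L (ζ + u) - ζ with hX
  have hXo : (fun u => X u - u) =o[𝓝 0] fun u => u := by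
    have h2 := hasDerivAt_iff_isLittleO_nhds_zero.1 hLd
    refine h2.congr' ?_ EventuallyEq.rfl
    filter_upwards with u
    rw [hLζ, smul_eq_mul, mul_one]
  have hXe : Asymptotics.IsEquivalent (𝓝 0) X (fun u => u) := hXo
  have hXp : Asymptotics.IsEquivalent (𝓝 0) (X ^ (q + 1)) ((fun u => u) ^ (q + 1)) :=
    hXe.pow (q + 1)
  have hXt : Tendsto X (𝓝 0) (𝓝 0) := by
    have h2 : Tendsto (fun u : ℂ => ζ + u) (𝓝 0) (𝓝 ζ) := by
      have : Tendsto (fun u : ℂ => ζ + u) (𝓝 0) (𝓝 (ζ + 0)) := tendsto_id.const_add ζ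
      rwa [add_zero] at this
    have h3 : Tendsto (fun u : ℂ => L (ζ + u)) (𝓝 0) (𝓝 (L ζ)) :=
      hLa.continuousAt.tendsto.comp h2
    have h4 := h3.sub_const ζ
    rwa [hLζ, sub_self] at h4
  have h2 := h.ho.comp_tendsto hXt
  have h3 : (fun u => (X u) ^ (q + 1)) =O[𝓝 0] fun u : ℂ => u ^ (q + 1) := hXp.isBigO
  have h4 : (fun u => (X u) ^ (q + 1) - u ^ (q + 1)) =o[𝓝 0] fun u : ℂ => u ^ (q + 1) := hXp.isLittleO
  have h5 := (h2.trans_isBigO h3).add (h4.const_mul_left a)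
  refine h5.neg_left.congr' ?_ EventuallyEq.rfl
  have h6 : ∀ᶠ u in 𝓝 (0:ℂ), F (L (ζ + u)) = ζ + u := by
    have h7 : Tendsto (fun u : ℂ => ζ + u) (𝓝 0) (𝓝 ζ) := by
      have : Tendsto (fun u : ℂ => ζ + u) (𝓝 0) (𝓝 (ζ + 0)) := tendsto_id.const_add ζ
      rwa [add_zero] at this
    exact h7.eventually hLr
  filter_upwards [h6] with u hu
  have h7 : F (ζ + X u) = ζ + u := by rw [hX]; simp only [add_sub_cancel]; exact hu
  simp only [Function.comp_apply, h7]
  rw [show L (ζ + u) = X u + ζ by rw [hX]; simp]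
  ring

end Pool.Agent.BB.P
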