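import Pool.Agent.BB.P.Basic

open Set Metric Filter Topology MeasureTheory

namespace Pool.Agent.BB.P

/-- orbits of a map close to `w + 1` in a sector -/
theorem pw_iter {G : ℂ → ℂ} {R : ℝ} (hG : ∀ w ∈ Vs R, ‖G w - w - 1‖ ≤ 1 / 4) {w : ℂ}
    (hw : w ∈ Vs R) (n : ℕ) : G^[n] w ∈ Vs R ∧ ‖G^[n] w - w - n‖ ≤ (n : ℝ) / 4 := by
  induction n with
  | zero => simpa using hw
  | succ n ih =>
    obtain ⟨h1, h2⟩ := ih
    rw [Function.iterate_succ_apply']
    set v := G^[n] w with hv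
    have h3 := hG v h1
    have hre : |(G v - v - 1).re| ≤ 1 / 4 := (Complex.abs_re_le_norm _).trans h3
    have him : |(G v - v - 1).im| ≤ 1 / 4 := (Complex.abs_im_le_norm _).trans h3
    constructor
    · change R < (G v).re + |(G v).im|
      have h1' : R < v.re + |v.im| := h1
      simp only [Complex.sub_re, Complex.one_re, Complex.sub_im, Complex.one_im, sub_zero] at hre him
      have h4 : |v.im| ≤ |(G v).im| + |(G v).im - v.im| := by
        have := abs_sub_abs_le_abs_sub v.im (G v).im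
        rw [abs_sub_comm v.im] at this
        linarith
      have h5 := neg_abs_le ((G v).re - v.re - 1)
      linarith
    · have h4 : G v - w - ((n + 1 : ℕ) : ℂ) = (G v - v - 1) + (v - w - n) := by
        push_cast; ring
      rw [h4]
      refine (norm_add_le _ _).trans ?_
      push_cast
      linarith

/-- the sector `Vs R` is connected -/
theorem Vs_preconn {R : ℝ} (hR : 0 ≤ R) : IsPreconnected (Vs R) := by
  have hA : IsPreconnected {w : ℂ | R < w.re} := (convex_halfSpace_re_gt R).isPreconnected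
  have hAs : {w : ℂ | R < w.re} ⊆ Vs R := by
    intro w hw
    change R < w.re + |w.im|
    have hw' : R < w.re := hw
    have := abs_nonneg w.im
    linarith
  refine isPreconnected_of_forall ((R + 1 : ℝ) : ℂ) fun y hy => ?_
  have hy' : R < y.re + |y.im| := hy
  refine ⟨{w : ℂ | R < w.re} ∪ (fun t : ℝ => y + (t : ℂ)) '' Ici 0, ?_, ?_, ?_, ?_⟩
  · refine union_subset hAs ?_
    rintro _ ⟨t, ht, rfl⟩
    change R < (y + (t : ℂ)).re + |(y + (t : ℂ)).im|
    simp only [Complex.add_re, Complex.ofReal_re, Complex.add_im, Complex.ofReal_im, add_zero]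
    have ht' : (0 : ℝ) ≤ t := ht
    linarith
  · left
    change R < ((R + 1 : ℝ) : ℂ).re
    rw [Complex.ofReal_re]
    linarith
  · right
    exact ⟨0, mem_Ici.2 le_rfl, by simp⟩
  · refine IsPreconnected.union (y + ((|y.im| + 1 : ℝ) : ℂ)) ?_ ?_ hA ?_
    · change R < (y + ((|y.im| + 1 : ℝ) : ℂ)).re
      rw [Complex.add_re, Complex.ofReal_re]
      linarith
    · exact ⟨|y.im| + 1, mem_Ici.2 (by positivity), rfl⟩
    · exact (isPreconnected_Ici).image _ (by fun_prop)

theorem pw_ratio {G : ℂ → ℂ} {R : ℝ} (hG : ∀ w ∈ Vs R, ‖G w - w - 1‖ ≤ 1 / 4)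
    (hε : ∀ ε > 0, ∃ R₁ : ℝ, ∀ w ∈ Vs R₁, ‖G w - w - 1‖ ≤ ε) {w : ℂ} (hw : w ∈ Vs R) :
    Tendsto (fun n : ℕ => G^[n] w / n) atTop (𝓝 1) := by
  have hstep : Tendsto (fun n : ℕ => G^[n + 1] w - G^[n] w) atTop (𝓝 1) := by
    rw [Metric.tendsto_atTop]
    intro ε hεp
    obtain ⟨R₁, hR₁⟩ := hε (ε / 2) (half_pos hεp)
    obtain ⟨N, hN⟩ := exists_nat_gt ((R₁ - w.re) / (3 / 4))
    refine ⟨N, fun n hn => ?_⟩
    obtain ⟨_, h2⟩ := pw_iter hG hw n
    have h3 : |(G^[n] w - w - n).re| ≤ (n : ℝ) / 4 := (Complex.abs_re_le_norm _).trans h2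
    simp only [Complex.sub_re, Complex.natCast_re] at h3
    have h4 := neg_abs_le ((G^[n] w).re - w.re - n)
    have h5 : (N : ℝ) ≤ n := by exact_mod_cast hn
    rw [div_lt_iff₀ (by norm_num)] at hN
    have h6 : G^[n] w ∈ Vs R₁ := by
      change R₁ < (G^[n] w).re + |(G^[n] w).im|
      have := abs_nonneg (G^[n] w).im
      nlinarith
    rw [dist_eq_norm, Function.iterate_succ_apply']
    exact (hR₁ _ h6).trans_lt (half_lt_self hεp)
  have h1 := hstep.cesaro_smul
  have h2 : Tendsto (fun n : ℕ => ((n : ℝ)⁻¹ : ℝ) • w) atTop (𝓝 ((0 : ℝ) • w)) :=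
    (tendsto_inv_atTop_nhds_zero_nat (𝕜 := ℝ)).smul_const w
  have h3 := h1.add h2
  rw [zero_smul, add_zero] at h3
  refine h3.congr fun n => ?_
  rw [Finset.sum_range_sub (fun n : ℕ => G^[n] w) n, ← smul_add]
  simp only [Function.iterate_zero, id_eq, sub_add_cancel]
  rw [Complex.real_smul, div_eq_inv_mul]
  push_cast
  rfl

end Pool.Agent.BB.P
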