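import Pool.Agent.BB.P.PW
import Pool.Agent.BB.P.PWI
import Pool.Agent.BB.P.PAR
import Pool.Agent.BB.P.GROW

open Set Metric Filter Topology MeasureTheory

namespace Pool.Agent.BB.P

/-- logarithms of zero free functions on the unit disc -/
private lemma side_log_ball {u : ℂ → ℂ} (hu : DifferentiableOn ℂ u (ball 0 1))
    (h0 : ∀ z ∈ ball (0:ℂ) 1, u z ≠ 0) :
    ∃ L : ℂ → ℂ, DifferentiableOn ℂ L (ball 0 1) ∧ ∀ z ∈ ball (0:ℂ) 1, Complex.exp (L z) = u z := by
  have hL : DifferentiableOn ℂ (fun z => deriv u z / u z) (ball 0 1) :=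
    (hu.deriv isOpen_ball).div hu h0
  have hm : (0:ℂ) ∈ ball (0:ℂ) 1 := mem_ball_self one_pos
  obtain ⟨L, hL0, hL⟩ := (hL.isExactOn_ball).with_val_at 0 (Complex.log (u 0))
  have hv : ∀ z ∈ ball (0:ℂ) 1, HasDerivAt (fun z => u z * Complex.exp (- L z)) 0 z := by
    intro z hz
    have hd := (hu.differentiableAt (isOpen_ball.mem_nhds hz)).hasDerivAt
    have := hd.mul ((hL z hz).neg.cexp)
    refine this.congr_deriv ?_
    have := h0 z hz
    field_simp
    ring
  have hconst : ∀ z ∈ ball (0:ℂ) 1, u z * Complex.exp (- L z) = 1 := by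
    intro z hz
    have h1 := IsOpen.is_const_of_deriv_eq_zero (𝕜 := ℂ) isOpen_ball
      (convex_ball (0:ℂ) 1).isPreconnected
      (f := fun z => u z * Complex.exp (- L z))
      (fun z hz => (hv z hz).differentiableAt.differentiableWithinAt)
      (fun z hz => (hv z hz).deriv) hz hm
    show u z * Complex.exp (- L z) = 1
    rw [h1, hL0, Complex.exp_neg, Complex.exp_log (h0 0 hm), mul_inv_cancel₀ (h0 0 hm)]
  refine ⟨L, fun z hz => (hL z hz).differentiableAt.differentiableWithinAt, fun z hz => ?_⟩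
  have h2 := hconst z hz
  rw [Complex.exp_neg] at h2
  have h4 := Complex.exp_ne_zero (L z)
  field_simp at h2
  exact h2.symm

/-- a branch of the logarithm of `φ - ζ` -/
theorem Base.exists_log (b : Base) : ∃ ℓ : ℂ → ℂ, DifferentiableOn ℂ ℓ Hp ∧
    ∀ z ∈ Hp, Complex.exp (ℓ z) = b.φ z - b.ζ := by
  have hden : ∀ w ∈ ball (0:ℂ) 1, 1 - w ≠ 0 := by
    intro w hw h
    have : w = 1 := by linear_combination -h
    rw [this] at hw
    simp at hw
  set C : ℂ → ℂ := fun w => Complex.I * (1 + w) / (1 - w) with hC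
  have hCH : ∀ w ∈ ball (0:ℂ) 1, C w ∈ Hp := by
    intro w hw
    have h1 : 0 < Complex.normSq (1 - w) := Complex.normSq_pos.mpr (hden w hw)
    have h2 : w.re ^ 2 + w.im ^ 2 < 1 := by
      rw [mem_ball_zero_iff] at hw
      have h3 : ‖w‖ ^ 2 < 1 := by
        have := norm_nonneg w
        nlinarith
      rw [← Complex.normSq_eq_norm_sq, Complex.normSq_apply] at h3
      nlinarith
    simp only [Hp, mem_setOf_eq, hC, Complex.div_im, Complex.mul_re, Complex.mul_im,
      Complex.I_re, Complex.I_im, Complex.add_re, Complex.add_im, Complex.one_re, Complex.one_im,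
      Complex.sub_re, Complex.sub_im]
    rw [← sub_div, div_pos_iff_of_pos_right h1]
    nlinarith
  have hCd : DifferentiableOn ℂ C (ball 0 1) := by
    refine DifferentiableOn.div (by fun_prop) (by fun_prop) hden
  obtain ⟨L, hLd, hLe⟩ := side_log_ball (u := fun w => b.φ (C w) - b.ζ)
    ((b.hφ.comp hCd hCH).sub_const _) (by
      intro w hw h
      exact b.hζU ((sub_eq_zero.mp h) ▸ b.φ_mem (hCH w hw)))
  set D : ℂ → ℂ := fun z => (z - Complex.I) / (z + Complex.I) with hD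
  have hden2 : ∀ z ∈ Hp, z + Complex.I ≠ 0 := by
    intro z hz h
    have h1 : (z + Complex.I).im = 0 := by rw [h]; rfl
    simp only [Complex.add_im, Complex.I_im] at h1
    have : 0 < z.im := hz
    linarith
  have hDb : ∀ z ∈ Hp, D z ∈ ball (0:ℂ) 1 := by
    intro z hz
    have hz' : 0 < z.im := hz
    rw [mem_ball_zero_iff, hD]
    simp only
    rw [norm_div, div_lt_one (norm_pos_iff.mpr (hden2 z hz))]
    rw [← sq_lt_sq₀ (norm_nonneg _) (norm_nonneg _), ← Complex.normSq_eq_norm_sq,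
      ← Complex.normSq_eq_norm_sq, Complex.normSq_apply, Complex.normSq_apply]
    simp only [Complex.sub_re, Complex.sub_im, Complex.add_re, Complex.add_im, Complex.I_re,
      Complex.I_im]
    nlinarith
  have hDd : DifferentiableOn ℂ D Hp := by
    refine DifferentiableOn.div (by fun_prop) (by fun_prop) hden2
  have hCD : ∀ z ∈ Hp, C (D z) = z := by
    intro z hz
    have h1 := hden2 z hz
    have h2 := hden _ (hDb z hz)
    simp only [hC]
    rw [div_eq_iff h2]
    simp only [hD]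
    field_simp
    ring
  refine ⟨fun z => L (D z), hLd.comp hDd hDb, fun z hz => ?_⟩
  show Complex.exp (L (D z)) = b.φ z - b.ζ
  rw [hLe _ (hDb z hz), hCD z hz]

/-- functions with constant exponential are constant -/
private lemma side_const {S : Set ℂ} (hS : IsOpen S) (hSc : IsPreconnected S) {f : ℂ → ℂ}
    (hd : DifferentiableOn ℂ f S) {c : ℂ} (he : ∀ z ∈ S, Complex.exp (f z) = c) {x y : ℂ}
    (hx : x ∈ S) (hy : y ∈ S) : f x = f y := by
  refine IsOpen.is_const_of_deriv_eq_zero (𝕜 := ℂ) hS hSc hd ?_ hx hy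
  intro z hz
  have h1 := (hd.differentiableAt (hS.mem_nhds hz)).hasDerivAt.cexp
  have h2 : HasDerivAt (fun z => Complex.exp (f z)) 0 z := by
    refine (hasDerivAt_const z c).congr_of_eventuallyEq ?_
    filter_upwards [hS.mem_nhds hz] with w hw using he w hw
  have h3 := h1.unique h2
  rcases mul_eq_zero.mp h3 with h | h
  · exact absurd h (Complex.exp_ne_zero _)
  · exact h

private lemma side_log_neg {s R : ℝ} (hs : s = 1 ∨ s = -1) (hR : 0 ≤ R) {w : ℂ}
    (hw : w ∈ Qs s R) : Complex.log w = Complex.log (-w) + s * Real.pi * Complex.I := by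
  have hw' : R + |w.re| < s * w.im := hw
  have habs := abs_nonneg w.re
  rcases hs with rfl | rfl
  · have him : 0 < w.im := by linarith
    rw [Complex.log, Complex.log, norm_neg, Complex.arg_neg_eq_arg_sub_pi_of_im_pos him]
    push_cast
    ring
  · have him : w.im < 0 := by linarith
    rw [Complex.log, Complex.log, norm_neg, Complex.arg_neg_eq_arg_add_pi_of_im_neg him]
    push_cast
    ring

private lemma side_xc {ζ c : ℂ} {q : ℕ} (hq : 1 ≤ q) {s R : ℝ} (hs : s = 1 ∨ s = -1)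
    (hR : 0 ≤ R) {w : ℂ} (hw : w ∈ Qs s R) :
    Xc ζ c q w = Xc ζ (c * Complex.exp (-(s * Real.pi * Complex.I / q))) q (-w) := by
  have hq0 : (q : ℂ) ≠ 0 := by exact_mod_cast (by omega : q ≠ 0)
  simp only [Xc]
  rw [side_log_neg hs hR hw, mul_assoc c, ← Complex.exp_add]
  congr 3
  field_simp
  ring

private lemma side_Qs_Vs {s R : ℝ} (hs : s = 1 ∨ s = -1) {w : ℂ} (hw : w ∈ Qs s R) :
    w ∈ Vs R ∧ -w ∈ Vs R := by
  have hw' : R + |w.re| < s * w.im := hw
  have h1 : s * w.im ≤ |w.im| := by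
    rcases hs with rfl | rfl
    · rw [one_mul]; exact le_abs_self _
    · rw [neg_one_mul]; exact neg_le_abs _
  have h2 := neg_abs_le w.re
  have h3 := le_abs_self w.re
  constructor
  · simp only [Vs, mem_setOf_eq]; linarith
  · simp only [Vs, mem_setOf_eq, Complex.neg_re, Complex.neg_im, abs_neg]; linarith

private lemma side_norm {R : ℝ} {w : ℂ} (hw : w ∈ Vs R) : R / 2 ≤ ‖w‖ := by
  have h1 := Complex.abs_re_le_norm w
  have h2 := Complex.abs_im_le_norm w
  have h3 := le_abs_self w.re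
  have hw' : R < w.re + |w.im| := hw
  linarith

private lemma side_Vs_mono {R R' : ℝ} (h : R' ≤ R) : Vs R ⊆ Vs R' := fun _ hw =>
  lt_of_le_of_lt h hw

/-- one side of a petal -/
private theorem side_one (b : Base) {a c : ℂ} {q : ℕ} (h : Par b.F b.ζ a q)
    (hc : c ^ q * (q * a) = -1) {R₀ : ℝ} (hR₀ : 0 ≤ R₀) (hpet : Xc b.ζ c q '' Vs R₀ ⊆ b.U)
    {ℓ : ℂ → ℂ} (hℓ : DifferentiableOn ℂ ℓ Hp)
    (hℓe : ∀ z ∈ Hp, Complex.exp (ℓ z) = b.φ z - b.ζ) {l₀ : ℂ}
    (hl₀ : ∀ w ∈ Vs R₀, ℓ (b.ψ (Xc b.ζ c q w)) + Complex.log w / q = l₀)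
    {s : ℝ} (hs : s = 1 ∨ s = -1) : Nonempty (Side b s q ℓ l₀) := by
  have hq := h.hq
  have hq0 : (q : ℂ) ≠ 0 := by exact_mod_cast (by omega : q ≠ 0)
  have hc0 : c ≠ 0 := by
    rintro rfl
    rw [zero_pow (by omega), zero_mul] at hc
    norm_num at hc
  obtain ⟨L, hLpar, hFL, -⟩ := par_inverse b.hF h b.hFζ
  set cs : ℂ := c * Complex.exp (-(s * Real.pi * Complex.I / q)) with hcs
  have hcs0 : cs ≠ 0 := mul_ne_zero hc0 (Complex.exp_ne_zero _)
  have hcsq : cs ^ q * (q * (-a)) = -1 := by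
    have h1 : Complex.exp (-(s * Real.pi * Complex.I / q)) ^ q = -1 := by
      rw [← Complex.exp_nat_mul]
      have h2 : (q : ℂ) * -(s * Real.pi * Complex.I / q) = -(s * Real.pi * Complex.I) := by
        field_simp
      rw [h2]
      rcases hs with rfl | rfl
      · rw [Complex.ofReal_one, one_mul, Complex.exp_neg, Complex.exp_pi_mul_I]
        norm_num
      · push_cast
        rw [neg_one_mul, neg_mul, neg_neg, Complex.exp_pi_mul_I]
    rw [hcs, mul_pow, h1]
    linear_combination hc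
  obtain ⟨R₁, hR₁, hR₁c⟩ := pw_conj hLpar (ε := 1 / 4) (by norm_num)
  obtain ⟨hGd, hG⟩ := hR₁c cs hcsq
  obtain ⟨r, hr, hrF⟩ := Metric.eventually_nhds_iff_ball.mp hFL
  obtain ⟨M, hM1, hM⟩ := xc_small (ζ := b.ζ) (c := cs) hq hr
  set R : ℝ := max (max R₀ R₁) (2 * M) with hR
  have hRR₀ : R₀ ≤ R := (le_max_left _ _).trans (le_max_left _ _)
  have hRR₁ : R₁ ≤ R := (le_max_right _ _).trans (le_max_left _ _)
  have hRM : 2 * M ≤ R := le_max_right _ _
  have hR1 : 1 ≤ R := hR₁.trans hRR₁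
  have hR0 : 0 ≤ R := by linarith
  set gL : ℂ → ℂ := Gc L b.ζ cs q with hGL
  have hG4 : ∀ w ∈ Vs R, ‖gL w - w - 1‖ ≤ 1 / 4 := fun w hw =>
    (hG w (side_Vs_mono hRR₁ hw)).2.2
  have hGit : ∀ (j : ℕ) {v : ℂ}, v ∈ Vs R → gL^[j] v ∈ Vs R := fun j v hv => (pw_iter hG4 hv j).1
  have hGmaps : MapsTo gL (Vs R) (Vs R) := fun v hv => by
    have := hGit 1 hv
    simpa using this
  have hGitd : ∀ j : ℕ, DifferentiableOn ℂ gL^[j] (Vs R) := by
    intro j
    induction j with
    | zero => exact differentiableOn_id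
    | succ j ih =>
      rw [Function.iterate_succ]
      exact ih.comp (hGd.mono (side_Vs_mono hRR₁)) hGmaps
  obtain ⟨hXd, -, hXne⟩ := xc_facts (ζ := b.ζ) hq hcs0
  obtain ⟨hXd', -, -⟩ := xc_facts (ζ := b.ζ) hq hc0
  have hslit : Vs R ⊆ Complex.slitPlane := Vs_slit hR0
  set P : ℕ → ℂ → ℂ := fun j w => Xc b.ζ cs q (gL^[j] (-w)) with hP
  have hP0 : ∀ w ∈ Qs s R, P 0 w = Xc b.ζ c q w := fun w hw => (side_xc hq hs hR0 hw).symm
  have hP0U : ∀ w ∈ Qs s R, P 0 w ∈ b.U := by
    intro w hw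
    rw [hP0 w hw]
    exact hpet ⟨w, side_Vs_mono hRR₀ (side_Qs_Vs hs hw).1, rfl⟩
  have hFP : ∀ j, ∀ w ∈ Qs s R, b.F (P (j + 1) w) = P j w := by
    intro j w hw
    have hv := (side_Qs_Vs hs hw).2
    have h1 := hGit j hv
    have h2 := (hG _ (side_Vs_mono hRR₁ h1)).2.1
    simp only [hP]
    rw [Function.iterate_succ_apply', ← h2]
    apply hrF
    rw [mem_ball, dist_eq_norm]
    exact hM _ (by have := side_norm h1; linarith)
  have hFjP : ∀ j, ∀ w ∈ Qs s R, b.F^[j] (P j w) = P 0 w := by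
    intro j
    induction j with
    | zero => intro w _; rfl
    | succ j ih =>
      intro w hw
      rw [Function.iterate_succ_apply, hFP j w hw, ih w hw]
  have hPd : ∀ j, DifferentiableOn ℂ (P j) (Qs s R) := by
    intro j
    have h1 : DifferentiableOn ℂ (fun w : ℂ => -w) (Qs s R) := by fun_prop
    have h2 := (hGitd j).comp h1 (fun w hw => (side_Qs_Vs hs hw).2)
    exact hXd.comp h2 (fun w hw => hslit (hGit j (side_Qs_Vs hs hw).2))
  -- the special points
  have hspec : ∀ j : ℕ, ∃ w ∈ Qs s R, ∃ w' ∈ Qs s R, gL^[j] (-w) = -w' := by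
    intro j
    set T : ℝ := R + 2 * j + 2 with hT
    have hj0 : (0:ℝ) ≤ j := Nat.cast_nonneg j
    have hTpos : 0 < T := by rw [hT]; linarith
    set w : ℂ := (s * T : ℝ) * Complex.I with hw
    have hwre : w.re = 0 := by simp [hw]
    have hwim : w.im = s * T := by simp [hw]
    have hss : s * s = 1 := by rcases hs with rfl | rfl <;> norm_num
    have hwQ : w ∈ Qs s R := by
      simp only [Qs, mem_setOf_eq, hwre, hwim, abs_zero]
      rw [← mul_assoc, hss, one_mul, hT]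
      linarith
    refine ⟨w, hwQ, -(gL^[j] (-w)), ?_, by rw [neg_neg]⟩
    have h1 := (pw_iter hG4 (side_Qs_Vs hs hwQ).2 j).2
    set δ := gL^[j] (-w) - -w - j with hδ
    have h2 : -(gL^[j] (-w)) = w - j - δ := by rw [hδ]; ring
    have h3 := (Complex.abs_re_le_norm δ).trans h1
    have h4 := (Complex.abs_im_le_norm δ).trans h1
    have h5 : |(-(gL^[j] (-w))).re| ≤ j + j / 4 := by
      rw [h2]
      simp only [Complex.sub_re, hwre, Complex.natCast_re]
      rw [abs_le] at h3 ⊢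
      constructor <;> linarith [h3.1, h3.2]
    have h6 : s * (-(gL^[j] (-w))).im = T - s * δ.im := by
      rw [h2]
      simp only [Complex.sub_im, hwim, Complex.natCast_im, sub_zero]
      rw [mul_sub, ← mul_assoc, hss, one_mul]
    have h7 : s * δ.im ≤ j / 4 := by
      rw [abs_le] at h4
      rcases hs with rfl | rfl
      · linarith [h4.2]
      · linarith [h4.1]
    simp only [Qs, mem_setOf_eq, h6]
    rw [hT]
    linarith
  have hPU : ∀ j, ∀ w ∈ Qs s R, P j w ∈ b.U := by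
    intro j
    have hpc : IsPreconnected (P j '' Qs s R) :=
      (convex_Qs s R).isPreconnected.image _ (hPd j).continuousOn
    have h1 := b.sub_U hpc j (by
      rintro _ ⟨w, hw, rfl⟩
      rw [hFjP j w hw]
      exact hP0U w hw) (by
      obtain ⟨w, hw, w', hw', hww⟩ := hspec j
      refine ⟨P j w, ⟨w, hw, rfl⟩, ?_⟩
      simp only [hP]
      rw [hww]
      exact hP0U w' hw')
    exact fun w hw => h1 ⟨w, hw, rfl⟩
  set G : ℂ → ℂ := fun w => -(gL (-w)) with hGdef
  have hφP : ∀ j, ∀ w ∈ Qs s R, b.φ (b.ψ (P j w)) = P j w := fun j w hw => b.φψ (hPU j w hw)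
  have hψd : ∀ j, DifferentiableOn ℂ (fun w => b.ψ (P j w)) (Qs s R) := fun j =>
    b.hψ.comp (hPd j) (hPU j)
  -- the constant
  have hconst : ∀ j, ∀ w ∈ Qs s R, ℓ (b.ψ (P j w)) + Complex.log (gL^[j] (-w)) / q =
      l₀ - s * Real.pi * Complex.I / q := by
    intro j w hw
    obtain ⟨w₁, hw₁, w₂, hw₂, hww⟩ := hspec j
    have hd : DifferentiableOn ℂ (fun w => ℓ (b.ψ (P j w)) + Complex.log (gL^[j] (-w)) / q)
        (Qs s R) := by
      refine (hℓ.comp (hψd j) (fun w hw => b.ψ_mem (hPU j w hw))).add ?_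
      refine DifferentiableOn.div_const ?_ _
      have h1 : DifferentiableOn ℂ (fun w : ℂ => -w) (Qs s R) := by fun_prop
      have h2 := (hGitd j).comp h1 (fun w hw => (side_Qs_Vs hs hw).2)
      exact h2.clog (fun w hw => hslit (hGit j (side_Qs_Vs hs hw).2))
    have he : ∀ w ∈ Qs s R,
        Complex.exp (ℓ (b.ψ (P j w)) + Complex.log (gL^[j] (-w)) / q) = cs := by
      intro w hw
      rw [Complex.exp_add, hℓe _ (b.ψ_mem (hPU j w hw)), hφP j w hw]
      simp only [hP, Xc, add_sub_cancel_left]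
      rw [mul_assoc, ← Complex.exp_add, neg_add_cancel, Complex.exp_zero, mul_one]
    have h1 := side_const (isOpen_Qs s R) (convex_Qs s R).isPreconnected hd he hw hw₁
    rw [h1]
    have h2 : P j w₁ = Xc b.ζ c q w₂ := by
      rw [← hP0 w₂ hw₂]
      simp only [hP]
      rw [hww]
      rfl
    rw [h2, hww]
    have h3 := hl₀ w₂ (side_Vs_mono hRR₀ (side_Qs_Vs hs hw₂).1)
    have h4 := side_log_neg hs hR0 hw₂
    rw [← h3, h4]
    field_simp
    ring
  refine ⟨{
    hs := hs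
    hq := hq
    R := R
    hR := hR1
    Ψ := fun j w => b.ψ (P j w)
    hd := hψd
    hm := fun j w hw => b.ψ_mem (hPU j w hw)
    hF := ?_
    G := G
    hG1 := ?_
    hG2 := ?_
    grow := ?_
    hlog := ?_ }⟩
  · intro j w hw
    rw [hφP _ w hw, hφP _ w hw]
    exact hFP j w hw
  · intro w hw
    have h1 := hG4 _ (side_Qs_Vs hs hw).2
    have h2 : G w - (w - 1) = -(gL (-w) - -w - 1) := by simp only [hGdef]; ring
    rw [h2, norm_neg]
    exact h1
  · intro j w _ _
    have h1 : P (j + 1) w = P j (G w) := by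
      simp only [hP, hGdef, neg_neg, Function.iterate_succ_apply]
    show b.ψ (P (j + 1) w) = b.ψ (P j (G w))
    rw [h1]
  · obtain ⟨C, hC⟩ := grow_wedge (f := fun w => b.ψ (Xc b.ζ c q w)) hR0
      (b.hψ.comp (hXd'.mono hslit) (fun w hw => hpet ⟨w, side_Vs_mono hRR₀ hw, rfl⟩))
      (fun w hw => le_of_lt (b.ψ_mem (hpet ⟨w, side_Vs_mono hRR₀ hw, rfl⟩)))
    refine ⟨C, fun T hT => ?_⟩
    obtain ⟨h1, h2⟩ := hC T hT
    have hTQ : ((s : ℂ) * T * Complex.I) ∈ Qs s R := by
      have hss : s * s = 1 := by rcases hs with rfl | rfl <;> norm_num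
      simp only [Qs, mem_setOf_eq]
      have e1 : ((s : ℂ) * T * Complex.I).re = 0 := by simp
      have e2 : ((s : ℂ) * T * Complex.I).im = s * T := by simp
      rw [e1, e2, abs_zero, ← mul_assoc, hss]
      linarith
    have h3 : P 0 ((s : ℂ) * T * Complex.I) = Xc b.ζ c q ((s : ℂ) * T * Complex.I) := hP0 _ hTQ
    show (b.ψ (P 0 ((s : ℂ) * T * Complex.I))).im ≤ C * T ^ (2 / 3 : ℝ)
    rw [h3]
    rcases hs with rfl | rfl
    · rw [Complex.ofReal_one, one_mul]
      exact h1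
    · have e : (((-1 : ℝ) : ℂ) * T * Complex.I) = -(T * Complex.I) := by push_cast; ring
      rw [e]
      exact h2
  · intro w hw
    have hv := (side_Qs_Vs hs hw).2
    have hratio : Tendsto (fun j : ℕ => gL^[j] (-w) / j) atTop (𝓝 1) := by
      refine pw_ratio hG4 ?_ hv
      intro ε hε
      obtain ⟨R', -, hR'⟩ := pw_conj hLpar hε
      exact ⟨R', fun w hw => ((hR' cs hcsq).2 w hw).2.2⟩
    have hlog : Tendsto (fun j : ℕ => Complex.log (gL^[j] (-w) / j)) atTop (𝓝 0) := by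
      have h1 := (continuousAt_clog (by simp : (1:ℂ) ∈ Complex.slitPlane)).tendsto.comp hratio
      rw [Complex.log_one] at h1
      exact h1
    have hmain : Tendsto (fun j : ℕ => l₀ - s * Real.pi * Complex.I / q -
        Complex.log (gL^[j] (-w) / j) / q) atTop (𝓝 (l₀ - s * Real.pi * Complex.I / q)) := by
      have h1 := (hlog.div_const (q : ℂ)).const_sub (l₀ - s * Real.pi * Complex.I / q)
      simpa using h1
    refine hmain.congr' ?_
    filter_upwards [eventually_ge_atTop 1] with j hj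
    have hj0 : (0:ℝ) < j := by exact_mod_cast hj
    have hne : gL^[j] (-w) ≠ 0 := Complex.slitPlane_ne_zero (hslit (hGit j hv))
    have h1 : Complex.log (gL^[j] (-w) / j) = Complex.log (gL^[j] (-w)) - Real.log j := by
      have h2 : gL^[j] (-w) / j = ((j : ℝ)⁻¹ : ℝ) * gL^[j] (-w) := by
        push_cast
        rw [div_eq_inv_mul]
      rw [h2, Complex.log_ofReal_mul (inv_pos.mpr hj0) hne, Real.log_inv]
      push_cast
      ring
    rw [h1, ← hconst j w hw]
    push_cast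
    ring

/-- the two sides of a petal contained in `U` -/
theorem sides_exist (b : Base) {a c : ℂ} {q : ℕ} (h : Par b.F b.ζ a q)
    (hc : c ^ q * (q * a) = -1) {R₀ : ℝ} (hpet : Xc b.ζ c q '' Vs R₀ ⊆ b.U) {ℓ : ℂ → ℂ}
    (hℓ : DifferentiableOn ℂ ℓ Hp) (hℓe : ∀ z ∈ Hp, Complex.exp (ℓ z) = b.φ z - b.ζ) :
    ∃ l₀ : ℂ, Nonempty (Side b 1 q ℓ l₀) ∧ Nonempty (Side b (-1) q ℓ l₀) := by
  have hq := h.hq
  have hc0 : c ≠ 0 := by
    rintro rfl
    rw [zero_pow (by omega), zero_mul] at hc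
    norm_num at hc
  set R : ℝ := max R₀ 0 with hR
  have hR0 : 0 ≤ R := le_max_right _ _
  have hpet' : Xc b.ζ c q '' Vs R ⊆ b.U := (image_mono (side_Vs_mono (le_max_left _ _))).trans hpet
  have hslit : Vs R ⊆ Complex.slitPlane := Vs_slit hR0
  obtain ⟨hXd', -, -⟩ := xc_facts (ζ := b.ζ) hq hc0
  have hU : ∀ w ∈ Vs R, Xc b.ζ c q w ∈ b.U := fun w hw => hpet' ⟨w, hw, rfl⟩
  have hmem : ((R + 1 : ℝ) : ℂ) ∈ Vs R := by
    simp [Vs]
  set l₀ : ℂ := ℓ (b.ψ (Xc b.ζ c q ((R + 1 : ℝ) : ℂ))) + Complex.log ((R + 1 : ℝ) : ℂ) / q with hl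
  have hl₀ : ∀ w ∈ Vs R, ℓ (b.ψ (Xc b.ζ c q w)) + Complex.log w / q = l₀ := by
    intro w hw
    have hd : DifferentiableOn ℂ (fun w => ℓ (b.ψ (Xc b.ζ c q w)) + Complex.log w / q) (Vs R) := by
      refine (hℓ.comp (b.hψ.comp (hXd'.mono hslit) hU) (fun w hw => b.ψ_mem (hU w hw))).add ?_
      refine DifferentiableOn.div_const ?_ _
      exact differentiableOn_id.clog hslit
    refine side_const (isOpen_Vs R) (Vs_preconn hR0) hd (c := c) ?_ hw hmem
    intro w hw
    rw [Complex.exp_add, hℓe _ (b.ψ_mem (hU w hw)), b.φψ (hU w hw)]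
    simp only [Xc, add_sub_cancel_left]
    rw [mul_assoc, ← Complex.exp_add, neg_add_cancel, Complex.exp_zero, mul_one]
  exact ⟨l₀, side_one b h hc hR0 hpet' hℓ hℓe hl₀ (Or.inl rfl),
    side_one b h hc hR0 hpet' hℓ hℓe hl₀ (Or.inr rfl)⟩

end Pool.Agent.BB.P
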