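import Pool.Agent.BB.P.TRANS
import Pool.Agent.BB.P.BASE
import Pool.Agent.BB.P.RECT
import Pool.Agent.BB.P.CUTB
import Pool.Agent.BB.P.ENDS
import Pool.Agent.BB.P.SIDE

/-!
# Parabolic basins: assembly
-/

open Set Metric Filter Topology MeasureTheory

namespace Pool.Agent.BB.P

variable {f : ℂ → ℂ} {k : ℕ} {ζ : ℂ}

/-- The setup exists. -/
theorem exists_ps (hf : Differentiable ℂ f) (hζ : f^[k] ζ = ζ)
    (hd : deriv f^[k] ζ = 1) (hne : ∃ z, f^[k] z ≠ z) {u : ℂ} (hu : u ∈ PBasin f k ζ)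
    (hFu : f^[k] u ∈ connectedComponentIn (PBasin f k ζ) u)
    (hunb : ¬ Bornology.IsBounded (connectedComponentIn (PBasin f k ζ) u))
    (hsing : ∃ K ⊆ connectedComponentIn (PBasin f k ζ) u, IsCompact K ∧
      SingVals f^[k] (connectedComponentIn (PBasin f k ζ) u) ∩
        connectedComponentIn (PBasin f k ζ) u ⊆ K)
    (hpost : ¬ frontier (connectedComponentIn (PBasin f k ζ) u) ⊆ PostSing f) :
    ∃ s : PS, s.b.F = f^[k] ∧ s.b.U = connectedComponentIn (PBasin f k ζ) u := by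
  set B := PBasin f k ζ with hB
  set U := connectedComponentIn B u with hU
  set F := f^[k] with hFdef
  have hF : Differentiable ℂ F := hf.iterate k
  have hBo : IsOpen B := pbasin_open hf hζ hd hne
  have hUo : IsOpen U := hBo.connectedComponentIn
  have hUc : IsPreconnected U := isPreconnected_connectedComponentIn
  have hUB : U ⊆ B := connectedComponentIn_subset _ _
  have huU : u ∈ U := mem_connectedComponentIn hu
  obtain ⟨j, hj, huj⟩ : ∃ j < k, u ∈ Att0 F (f^[j] ζ) := by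
    have h1 := hu
    rw [hB, pbasin_eq] at h1
    simp only [mem_iUnion, Finset.mem_range, exists_prop] at h1
    exact h1
  set ζ' := f^[j] ζ with hζ'
  obtain ⟨h0', h1'⟩ := deriv_cycle hf hζ hd j
  obtain ⟨a, q, hpar⟩ := par_exists hF h0' h1' hne
  have hUA : U ⊆ Att0 F ζ' := pbasin_comp hf hζ hd hne hUc hUB huU huj
  have hAB : Att0 F ζ' ⊆ B := by
    intro z hz
    rw [hB, pbasin_eq]
    simp only [mem_iUnion, Finset.mem_range, exists_prop]
    exact ⟨j, hj, hz⟩
  have hUeq : U = connectedComponentIn (Att0 F ζ') u := by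
    apply Subset.antisymm
    · exact hUc.subset_connectedComponentIn huU hUA
    · exact isPreconnected_connectedComponentIn.subset_connectedComponentIn
        (mem_connectedComponentIn huj) ((connectedComponentIn_subset _ _).trans hAB)
  obtain ⟨b, hbF, hbU, hbζ, c, R₀, hc, hpet⟩ := base_exists hF hpar h0' rfl huj hUeq hFu hsing
  obtain ⟨ℓ, hℓ, hℓe⟩ := b.exists_log
  have hpar' : Par b.F b.ζ a q := by rw [hbF, hbζ]; exact hpar
  have hpet' : Xc b.ζ c q '' Vs R₀ ⊆ b.U := by rw [hbζ, hbU]; exact hpet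
  obtain ⟨l₀, ⟨S₁⟩, ⟨S₂⟩⟩ := sides_exist b hpar' hc hpet' hℓ hℓe
  obtain ⟨e⟩ := ends_exist b hpar.hq hℓ hℓe S₁ S₂
  obtain ⟨kk⟩ := cut_exists b e
  -- the circle property
  have hclU : ∀ z ∈ closure U, z ∈ B → z ∈ U := fun z hz hzB => closure_comp hBo hz hzB
  have hcircB : ∀ p' ∉ B, ∀ t : ℝ, 0 < t → ∃ y : ℂ, ‖y - p'‖ = t ∧ y ∉ B :=
    fun p' hp' t ht => pbasin_circle hf hζ hd hne hp' ht
  have hcircU : ∀ p' ∈ frontier U, ∀ t : ℝ, 0 < t → ∃ y : ℂ, ‖y - p'‖ = t ∧ y ∉ U := by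
    intro p' hp' t ht
    have hp'B : p' ∉ B := by
      intro h
      have h1 := hclU p' hp'.1 h
      have h2 := hp'.2
      rw [hUo.interior_eq] at h2
      exact h2 h1
    obtain ⟨y, hy1, hy2⟩ := hcircB p' hp'B t ht
    exact ⟨y, hy1, fun h => hy2 (hUB h)⟩
  -- a good boundary point
  obtain ⟨p, hpF, hpP, hpζ⟩ : ∃ p ∈ frontier U, p ∉ PostSing f ∧ p ≠ ζ' := by
    obtain ⟨p₀, hp₀F, hp₀P⟩ := Set.not_subset.mp hpost
    obtain ⟨r, hr, hrP⟩ : ∃ r > 0, ball p₀ r ⊆ (PostSing f)ᶜ :=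
      Metric.isOpen_iff.mp
        (isClosed_closure (s := ⋃ n : ℕ, f^[n] '' SingVals f univ)).isOpen_compl p₀ hp₀P
    have hinf := frontier_inf hUo hp₀F (hcircU p₀ hp₀F) hr
    obtain ⟨p, ⟨hp1, hp2⟩, hp3⟩ := hinf.exists_notMem_finset {ζ'}
    exact ⟨p, hp1, hrP hp2, by simpa using hp3⟩
  have hpU : p ∉ U := by
    have := hpF.2
    rwa [hUo.interior_eq] at this
  obtain ⟨R₁, hR₁, hR₁P⟩ : ∃ r > 0, ball p r ⊆ (PostSing f)ᶜ :=
    Metric.isOpen_iff.mp
      (isClosed_closure (s := ⋃ n : ℕ, f^[n] '' SingVals f univ)).isOpen_compl p hpP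
  have hdist : 0 < dist ζ' p := dist_pos.mpr (Ne.symm hpζ)
  set R := min (R₁ / 2) (dist ζ' p / 2) with hR
  have hR0 : 0 < R := lt_min (by positivity) (by positivity)
  have hR1 : 2 * R ≤ R₁ := by have := min_le_left (R₁ / 2) (dist ζ' p / 2); linarith
  have hR2 : 2 * R ≤ dist ζ' p := by have := min_le_right (R₁ / 2) (dist ζ' p / 2); linarith
  -- the access path
  set N : Set ℂ := ⋃ m : ℕ, {y | b.F^[m] y = b.ζ} with hN
  have hNc : N.Countable := countable_iUnion fun m => b.preim_countable m b.ζ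
  obtain ⟨κ, hκc, hκU, hκb, hκ1, hκN⟩ := straight hUo hpF.1 (hcircU p hpF) hNc
    (ε := R / 16) (by positivity)
  have hκN' : ∀ m : ℕ, b.F^[m] (κ 1) ≠ b.ζ := fun m h => hκN (mem_iUnion.mpr ⟨m, h⟩)
  obtain ⟨x₀, hx₀, hx₀im⟩ := b.access_real hκc.continuousOn
    (fun x hx => by rw [hbU]; exact hκU x hx) (by rw [hbU]; exact hκ1) (hκN' 0) b.ht₀
  have hκx₀U : κ x₀ ∈ b.U := by rw [hbU]; exact hκU x₀ hx₀
  have hφψx₀ : b.φ (b.ψ (κ x₀)) = κ x₀ := b.φψ hκx₀U
  have hballR : ball p (R / 16) ⊆ ball p R := ball_subset_ball (by linarith)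
  refine ⟨{
    b := b
    e := e
    k := kk
    p := p
    R := R
    hR := hR0
    hpU := by rw [hbU]; exact hpU
    hζR := ?_
    hbr := ?_
    hcirc := ?_
    ξ₀ := b.ψ (κ x₀)
    hξ₀ := ⟨(b.hψφ _ hκx₀U).1, hx₀im⟩
    hξR := ?_
    κ := κ
    hκc := hκc.continuousOn
    hκ0 := ?_
    hκU := ?_
    hκ1 := by rw [hbU]; exact hκ1
    hκζ := hκN'
    hrect := ?_ }, hbF, hbU⟩
  · rw [hbζ, mem_ball, not_lt]
    exact hR2
  · intro n v hv
    have hFn : b.F^[n] = f^[k * n] := by rw [hbF, hFdef, Function.iterate_mul]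
    rw [hFn] at hv ⊢
    refine branch_exists hf isOpen_ball (convex_ball _ _) ?_ (k * n) v hv
    intro x hx
    exact hR₁P (ball_subset_ball hR1 hx)
  · intro t ht
    rw [hbU]
    exact hcircU p hpF t ht
  · rw [hφψx₀]
    exact hballR (hκb x₀ ⟨hx₀.1, hx₀.2.le⟩)
  · rw [hφψx₀]
    have hpc : IsPreconnected (κ '' Icc 0 x₀) :=
      isPreconnected_Icc.image _ hκc.continuousOn
    refine hpc.subset_connectedComponentIn ⟨x₀, ⟨hx₀.1, le_rfl⟩, rfl⟩ ?_
      ⟨0, ⟨le_rfl, hx₀.1⟩, rfl⟩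
    rintro _ ⟨x, hx, rfl⟩
    have hx1 : x < 1 := hx.2.trans_lt hx₀.2
    exact ⟨by rw [hbU]; exact hκU x ⟨hx.1, hx1⟩, hballR (hκb x ⟨hx.1, hx1.le⟩)⟩
  · intro x hx
    exact ⟨by rw [hbU]; exact hκU x hx, hκb x ⟨hx.1, hx.2.le⟩⟩
  · intro N
    exact rects_exist b e kk (by rw [hbU]; exact hunb) hR0 (by rw [hbU]; exact hpF)
      (by rw [hbU]; exact hcircU p hpF) N

/-- the points of the literal basin which are not in the basin are countable -/
theorem basin_diff_countable (hf : Differentiable ℂ f) (hk : 1 ≤ k) (hζ : f^[k] ζ = ζ)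
    (hd : deriv f^[k] ζ = 1) : (Basin f k ζ \ PBasin f k ζ).Countable := by
  have hsub : Basin f k ζ \ PBasin f k ζ ⊆
      ⋃ j ∈ Finset.range k, ⋃ n : ℕ, {z | f^[k * n] z = f^[j] ζ} := by
    rintro z ⟨⟨j, hj, hz⟩, hz2⟩
    have h1 : ∃ n : ℕ, f^[k * n] z = f^[j] ζ := by
      by_contra hcon
      push Not at hcon
      exact hz2 ⟨j, hj, hz, hcon⟩
    obtain ⟨n, hn⟩ := h1
    simp only [mem_iUnion, Finset.mem_range, exists_prop]
    exact ⟨j, hj, n, hn⟩
  refine Set.Countable.mono hsub ?_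
  refine Set.Countable.biUnion (Finset.countable_toSet _) fun j _ => countable_iUnion fun n => ?_
  -- the iterate is not constant
  have hdn : ∀ n : ℕ, deriv f^[k * n] ζ = 1 := by
    intro n
    induction n with
    | zero => simp
    | succ n ih =>
      have e1 : f^[k * (n + 1)] = f^[k * n] ∘ f^[k] := by
        rw [Nat.mul_succ, Function.iterate_add]
      rw [e1, deriv_comp _ (hf.iterate _ _) (hf.iterate _ _), hζ, ih, hd, one_mul]
  have hne : ∃ x, f^[k * n] x - f^[j] ζ ≠ 0 := by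
    by_contra hcon
    push Not at hcon
    have h1 : f^[k * n] = fun _ => f^[j] ζ := funext fun x => sub_eq_zero.mp (hcon x)
    have h2 := hdn n
    rw [h1, deriv_const] at h2
    exact zero_ne_one h2
  obtain ⟨x, hx⟩ := hne
  have h2 := countable_zeros (g := fun y => f^[k * n] y - f^[j] ζ)
    ((hf.iterate (k * n)).sub_const _) hx
  refine h2.mono ?_
  intro y hy
  simp only [mem_setOf_eq] at hy ⊢
  rw [hy, sub_self]

/-- **Main theorem, parabolic case.** -/
theorem main_parabolic (hf : Differentiable ℂ f) (hk : 1 ≤ k) (hζ : f^[k] ζ = ζ)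
    (hd : deriv f^[k] ζ = 1) (hne : ∃ z, f^[k] z ≠ z) {u : ℂ} (hu : u ∈ PBasin f k ζ)
    (hFu : f^[k] u ∈ connectedComponentIn (PBasin f k ζ) u)
    (hunb : ¬ Bornology.IsBounded (connectedComponentIn (PBasin f k ζ) u))
    (hsing : ∃ K ⊆ connectedComponentIn (PBasin f k ζ) u, IsCompact K ∧
      SingVals f^[k] (connectedComponentIn (PBasin f k ζ) u) ∩
        connectedComponentIn (PBasin f k ζ) u ⊆ K)
    (hpost : ¬ frontier (connectedComponentIn (PBasin f k ζ) u) ⊆ PostSing f)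
    {z : ℂ} (hz : z ∈ PBasin f k ζ) {m : ℕ}
    (hm : f^[m] z ∈ connectedComponentIn (PBasin f k ζ) u) :
    1 < dimH (frontier (connectedComponentIn (PBasin f k ζ) z)) ∧
      1 < dimH (frontier (connectedComponentIn (Basin f k ζ) z)) := by
  obtain ⟨s, hsF, hsU⟩ := exists_ps hf hζ hd hne hu hFu hunb hsing hpost
  have hBo : IsOpen (PBasin f k ζ) := pbasin_open hf hζ hd hne
  have hUB : s.b.U ⊆ PBasin f k ζ := by rw [hsU]; exact connectedComponentIn_subset _ _
  have hcircB : ∀ p' ∉ PBasin f k ζ, ∀ t : ℝ, 0 < t → ∃ y : ℂ, ‖y - p'‖ = t ∧ y ∉ PBasin f k ζ :=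
    fun p' hp' t ht => pbasin_circle hf hζ hd hne hp' ht
  have hmain : 1 < dimH (frontier (connectedComponentIn (PBasin f k ζ) z)) := by
    refine s.transfer hBo hUB ?_ hcircB hz (hf.iterate m) ?_
      (fun x hx => (pbasin_iter hf hk hζ m).mp hx) ?_ ?_
    · intro x hx hxB
      rw [hsU] at hx ⊢
      exact closure_comp hBo hx hxB
    · by_contra hcon
      push Not at hcon
      have hconst : ∀ x, f^[m] x = f^[m] z := fun x =>
        is_const_of_deriv_eq_zero (hf.iterate m) hcon x z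
      have huniv : PBasin f k ζ = univ := by
        rw [eq_univ_iff_forall]
        intro x
        rw [← pbasin_iter hf hk hζ m, hconst x]
        exact (pbasin_iter hf hk hζ m).mpr hz
      apply s.hpU
      rw [hsU, huniv, connectedComponentIn_univ]
      have : connectedComponent u = (univ : Set ℂ) :=
        PreconnectedSpace.connectedComponent_eq_univ u
      rw [this]
      exact mem_univ _
    · intro n x hx
      rw [hsF, ← Function.iterate_mul] at hx
      exact (pbasin_iter hf hk hζ (k * n)).mp hx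
    · -- components are mapped into U
      have hU'c : IsPreconnected (connectedComponentIn (PBasin f k ζ) z) :=
        isPreconnected_connectedComponentIn
      have h1 : IsPreconnected (f^[m] '' connectedComponentIn (PBasin f k ζ) z) :=
        hU'c.image _ (hf.iterate m).continuous.continuousOn
      have h2 : f^[m] '' connectedComponentIn (PBasin f k ζ) z ⊆ PBasin f k ζ := by
        rintro _ ⟨x, hx, rfl⟩
        exact (pbasin_iter hf hk hζ m).mpr (connectedComponentIn_subset _ _ hx)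
      have h3 := h1.subset_connectedComponentIn (x := f^[m] z)
        ⟨z, mem_connectedComponentIn hz, rfl⟩ h2
      have h4 : connectedComponentIn (PBasin f k ζ) u =
          connectedComponentIn (PBasin f k ζ) (f^[m] z) :=
        connectedComponentIn_eq hm
      intro x hx
      rw [hsU, h4]
      exact h3 ⟨x, hx, rfl⟩
  refine ⟨hmain, hmain.trans_le (dimH_mono ?_)⟩
  -- the literal basin
  have hPB : PBasin f k ζ ⊆ Basin f k ζ := fun y ⟨j, hj, h1, _⟩ => ⟨j, hj, h1⟩
  set V := connectedComponentIn (PBasin f k ζ) z with hV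
  set V' := connectedComponentIn (Basin f k ζ) z with hV'
  have hVo : IsOpen V := hBo.connectedComponentIn
  have hVV' : V ⊆ V' := isPreconnected_connectedComponentIn.subset_connectedComponentIn
    (mem_connectedComponentIn hz) ((connectedComponentIn_subset _ _).trans hPB)
  intro x hx
  refine ⟨closure_mono hVV' hx.1, fun hint => ?_⟩
  have hxV : x ∉ V := by
    have := hx.2
    rwa [hVo.interior_eq] at this
  have hxB : x ∉ PBasin f k ζ := fun h => hxV (closure_comp hBo hx.1 h)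
  obtain ⟨r, hr, hrV⟩ : ∃ r > 0, ball x r ⊆ V' := Metric.mem_nhds_iff.mp
    (mem_interior_iff_mem_nhds.mp hint)
  have hch : ∀ t : ℝ, t ∈ Ioo 0 r → ∃ y : ℂ, ‖y - x‖ = t ∧ y ∈ Basin f k ζ \ PBasin f k ζ := by
    intro t ht
    obtain ⟨y, hy1, hy2⟩ := hcircB x hxB t ht.1
    refine ⟨y, hy1, ?_, hy2⟩
    exact connectedComponentIn_subset _ _ (hrV (by rw [mem_ball, dist_eq_norm, hy1]; exact ht.2))
  have hsub : Ioo 0 r ⊆ (fun y : ℂ => ‖y - x‖) '' (Basin f k ζ \ PBasin f k ζ) := by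
    intro t ht
    obtain ⟨y, hy1, hy2⟩ := hch t ht
    exact ⟨y, hy2, hy1⟩
  have hcount : (Ioo (0:ℝ) r).Countable :=
    ((basin_diff_countable hf hk hζ hd).image _).mono hsub
  have h3 : ¬ (Ioo (0:ℝ) r).Countable := by
    intro h
    have h4 := h.measure_zero volume
    rw [Real.volume_Ioo] at h4
    simp at h4
    linarith
  exact h3 hcount

end Pool.Agent.BB.P
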