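import Pool.Agent.BB.P.SPA

open Set Metric Filter Topology MeasureTheory

namespace Pool.Agent.BB.P

private lemma nuli_mem {x y : ℝ} (hy : 0 < y) : (x : ℂ) + y * Complex.I ∈ Hp := by
  show 0 < ((x : ℂ) + y * Complex.I).im
  simpa using hy

private lemma nuli_one_le {w : ℂ} (hw : 0 < w.im) : 1 ≤ ‖w + Complex.I‖ := by
  have h1 : (w + Complex.I).im = w.im + 1 := by simp
  have h2 := Complex.abs_im_le_norm (w + Complex.I)
  rw [h1, abs_of_pos (by linarith)] at h2
  linarith

private lemma nuli_slit {w : ℂ} (hw : 0 < w.im) : w + Complex.I ∈ Complex.slitPlane := by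
  rw [Complex.mem_slitPlane_iff]
  right
  have h1 : (w + Complex.I).im = w.im + 1 := by simp
  rw [h1]
  linarith

private lemma nuli_log_le {w : ℂ} (hw : 0 < w.im) :
    ‖Complex.log (w + Complex.I)‖ ≤ ‖w‖ + 1 + Real.pi := by
  have h1 := nuli_one_le hw
  have h2 : ‖Complex.log (w + Complex.I)‖ ≤
      |(Complex.log (w + Complex.I)).re| + |(Complex.log (w + Complex.I)).im| :=
    Complex.norm_le_abs_re_add_abs_im _
  rw [Complex.log_re, Complex.log_im, abs_of_nonneg (Real.log_nonneg h1)] at h2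
  have h3 : Real.log ‖w + Complex.I‖ ≤ ‖w + Complex.I‖ - 1 :=
    Real.log_le_sub_one_of_pos (by linarith)
  have h4 : ‖w + Complex.I‖ ≤ ‖w‖ + 1 := by
    have := norm_add_le w Complex.I
    rwa [Complex.norm_I] at this
  have h5 := Complex.abs_arg_le_pi (w + Complex.I)
  linarith

private lemma nuli_bd {f : ℂ → ℂ} (hd : DifferentiableOn ℂ f Hp) (hm : MapsTo f Hp Hp) (x₀ : ℝ) :
    ∃ C : ℝ, 0 ≤ C ∧ ∀ x ∈ Icc (x₀ - 1) (x₀ + 1), ∀ y : ℝ, 0 < y → y ≤ 1 →
      ‖Complex.log (f (x + y * Complex.I) + Complex.I)‖ ≤ C / y := by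
  have hcont : ContinuousOn (fun x : ℝ => f (x + Complex.I)) (Icc (x₀ - 1) (x₀ + 1)) := by
    refine (hd.continuousOn).comp (by fun_prop) ?_
    intro x _
    show 0 < ((x : ℂ) + Complex.I).im
    simp
  obtain ⟨M, hM⟩ := isCompact_Icc.exists_bound_of_continuousOn hcont
  refine ⟨3 * |M| + 1 + Real.pi, by positivity, fun x hx y hy0 hy1 => ?_⟩
  set a : ℂ := x + Complex.I with ha
  set z : ℂ := x + y * Complex.I with hz
  have hza : z - a = ((y - 1 : ℝ) : ℂ) * Complex.I := by
    simp only [hz, ha]; push_cast; ring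
  have hn : ‖z - a‖ = 1 - y := by
    rw [hza, norm_mul, Complex.norm_I, mul_one, Complex.norm_real, Real.norm_eq_abs,
      abs_of_nonpos (by linarith)]
    ring
  have hball : ball a 1 ⊆ Hp := by
    intro w hw
    rw [mem_ball, dist_eq_norm] at hw
    have h1 := Complex.abs_im_le_norm (w - a)
    have h2 : (w - a).im = w.im - 1 := by simp [ha]
    rw [h2] at h1
    have h3 := (abs_lt.1 (lt_of_le_of_lt h1 hw)).1
    show 0 < w.im
    linarith
  have hzb : z ∈ ball a 1 := by rw [mem_ball, dist_eq_norm, hn]; linarith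
  have h1 := hp_dist one_pos (hd.mono hball) (fun w hw => (hm (hball hw)).le) hzb
  have hMa : ‖f a‖ ≤ |M| := (hM x hx).trans (le_abs_self M)
  have him : (f a).im ≤ |M| := (le_abs_self _).trans ((Complex.abs_im_le_norm _).trans hMa)
  have him0 : 0 ≤ (f a).im := (hm (hball (mem_ball_self one_pos))).le
  rw [hn, show (1 : ℝ) - (1 - y) = y by ring] at h1
  have h2 : 2 * (1 - y) / y * (f a).im ≤ 2 / y * |M| := by
    apply mul_le_mul _ him him0 (by positivity)
    apply div_le_div_of_nonneg_right _ hy0.le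
    linarith
  have h3 : ‖f z‖ ≤ |M| + 2 / y * |M| := by
    have := norm_add_le (f z - f a) (f a)
    rw [sub_add_cancel] at this
    linarith
  have h4 := nuli_log_le (w := f z) (hm (nuli_mem hy0))
  have h5 : |M| ≤ |M| / y := by
    rw [le_div_iff₀ hy0]
    nlinarith [abs_nonneg M]
  have h6 : (1 + Real.pi) ≤ (1 + Real.pi) / y := by
    rw [le_div_iff₀ hy0]
    nlinarith [Real.pi_pos]
  have h7 : (3 * |M| + 1 + Real.pi) / y = |M| / y + 2 / y * |M| + (1 + Real.pi) / y := by
    field_simp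
    ring
  rw [h7]
  linarith

private lemma nuli_diff {f : ℂ → ℂ} (hd : DifferentiableOn ℂ f Hp) (hm : MapsTo f Hp Hp) :
    DifferentiableOn ℂ (fun z => Complex.log (f z + Complex.I)) Hp := by
  intro z hz
  exact (((hd z hz).add_const Complex.I).clog (nuli_slit (hm hz)))

private lemma nuli_int {f : ℂ → ℂ} (hd : DifferentiableOn ℂ f Hp) (hm : MapsTo f Hp Hp) (x₀ : ℝ) :
    ∃ M : ℝ, ∀ y : ℝ, 0 < y → y < 1 →
      ∫ x in (x₀ - 1)..(x₀ + 1), (1 - (x - x₀) ^ 2) * Real.log ‖f (x + y * Complex.I) + Complex.I‖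
        ≤ M := by
  obtain ⟨C, hC0, hC⟩ := nuli_bd hd hm x₀
  refine ⟨10 * C + 6 * C, fun y hy0 hy1 => ?_⟩
  set h : ℂ → ℂ := fun z => Complex.log (f z + Complex.I) with hh
  set w : ℂ → ℂ := fun z => 1 - (z - x₀ - y * Complex.I) ^ 2 with hw
  set F : ℂ → ℂ := fun z => w z * h z with hF
  have hFd : DifferentiableOn ℂ F Hp := by
    refine DifferentiableOn.mul ?_ (nuli_diff hd hm)
    exact Differentiable.differentiableOn (by fun_prop)
  -- Cauchy
  have hcauchy := Complex.integral_boundary_rect_eq_zero_of_differentiableOn F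
    (⟨x₀ - 1, y⟩ : ℂ) (⟨x₀ + 1, 1⟩ : ℂ) (hFd.mono (by
      intro z hz
      rw [Complex.mem_reProdIm] at hz
      have h1 := hz.2
      simp only at h1
      rw [uIcc_of_le hy1.le] at h1
      exact lt_of_lt_of_le hy0 h1.1))
  simp only at hcauchy
  set I1 := ∫ x in (x₀ - 1)..(x₀ + 1), F (x + y * Complex.I) with hI1
  set I2 := ∫ x in (x₀ - 1)..(x₀ + 1), F (x + (1 : ℝ) * Complex.I) with hI2
  set I3 := ∫ t in y..1, F ((x₀ + 1 : ℝ) + t * Complex.I) with hI3
  set I4 := ∫ t in y..1, F ((x₀ - 1 : ℝ) + t * Complex.I) with hI4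
  have hI1e : I1 = I2 - Complex.I • I3 + Complex.I • I4 := by
    linear_combination hcauchy
  -- bounds
  have b2 : ‖I2‖ ≤ 5 * C * |x₀ + 1 - (x₀ - 1)| := by
    refine intervalIntegral.norm_integral_le_of_norm_le_const fun x hx => ?_
    rw [uIoc_of_le (by linarith)] at hx
    have hxI : x ∈ Icc (x₀ - 1) (x₀ + 1) := ⟨hx.1.le, hx.2⟩
    rw [hF]
    simp only
    rw [norm_mul]
    have h1 : ‖h (x + (1 : ℝ) * Complex.I)‖ ≤ C := by
      have := hC x hxI 1 one_pos le_rfl
      rwa [div_one] at this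
    have h2 : ‖w (x + (1 : ℝ) * Complex.I)‖ ≤ 5 := by
      have e1 : (x : ℂ) + (1 : ℝ) * Complex.I - x₀ - y * Complex.I =
          ((x - x₀ : ℝ) : ℂ) + ((1 - y : ℝ) : ℂ) * Complex.I := by push_cast; ring
      have e2 : ‖(x : ℂ) + (1 : ℝ) * Complex.I - x₀ - y * Complex.I‖ ≤ 2 := by
        rw [e1]
        refine (norm_add_le _ _).trans ?_
        rw [norm_mul, Complex.norm_I, mul_one, Complex.norm_real, Complex.norm_real,
          Real.norm_eq_abs, Real.norm_eq_abs]
        have e3 : |x - x₀| ≤ 1 := abs_le.2 ⟨by linarith [hxI.1], by linarith [hxI.2]⟩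
        have e4 : |1 - y| ≤ 1 := abs_le.2 ⟨by linarith, by linarith⟩
        linarith
      rw [hw]
      simp only
      refine (norm_sub_le _ _).trans ?_
      rw [norm_one, norm_pow]
      nlinarith [norm_nonneg ((x : ℂ) + (1 : ℝ) * Complex.I - x₀ - y * Complex.I)]
    exact mul_le_mul h2 h1 (norm_nonneg _) (by norm_num)
  have side : ∀ ε : ℝ, ε = 1 ∨ ε = -1 →
      ‖∫ t in y..1, F ((x₀ + ε : ℝ) + t * Complex.I)‖ ≤ 3 * C * |1 - y| := by
    intro ε hε
    refine intervalIntegral.norm_integral_le_of_norm_le_const fun t ht => ?_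
    rw [uIoc_of_le hy1.le] at ht
    have ht0 : 0 < t := lt_trans hy0 ht.1
    have hε1 : ε ^ 2 = 1 := by rcases hε with rfl | rfl <;> norm_num
    have hεa : |ε| = 1 := by rcases hε with rfl | rfl <;> norm_num
    have hxI : x₀ + ε ∈ Icc (x₀ - 1) (x₀ + 1) := by
      rcases hε with rfl | rfl
      · exact ⟨by linarith, le_rfl⟩
      · exact ⟨by linarith, by linarith⟩
    rw [hF]
    simp only
    rw [norm_mul]
    have h1 : ‖h ((x₀ + ε : ℝ) + t * Complex.I)‖ ≤ C / t := hC _ hxI t ht0 ht.2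
    have h2 : ‖w ((x₀ + ε : ℝ) + t * Complex.I)‖ ≤ 3 * t := by
      have e1 : w ((x₀ + ε : ℝ) + t * Complex.I) =
          ((t - y : ℝ) : ℂ) * (((t - y : ℝ) : ℂ) - 2 * (ε : ℂ) * Complex.I) := by
        rw [hw]
        simp only
        have e2 : ((ε : ℂ)) ^ 2 = 1 := by exact_mod_cast hε1
        push_cast
        linear_combination (-1 : ℂ) * e2 + (-(t - y : ℂ) ^ 2) * Complex.I_sq
      rw [e1, norm_mul, Complex.norm_real, Real.norm_eq_abs, abs_of_nonneg (by linarith [ht.1])]
      have e3 : ‖((t - y : ℝ) : ℂ) - 2 * (ε : ℂ) * Complex.I‖ ≤ 3 := by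
        refine (norm_sub_le _ _).trans ?_
        rw [norm_mul, norm_mul, Complex.norm_I, mul_one, Complex.norm_real, Complex.norm_real,
          Real.norm_eq_abs, Real.norm_eq_abs, hεa, abs_of_nonneg (by linarith [ht.1])]
        have : ‖(2 : ℂ)‖ = 2 := by norm_num
        rw [this]
        linarith [ht.2]
      have e4 : 0 ≤ t - y := by linarith [ht.1]
      nlinarith [norm_nonneg (((t - y : ℝ) : ℂ) - 2 * (ε : ℂ) * Complex.I)]
    calc ‖w ((x₀ + ε : ℝ) + t * Complex.I)‖ * ‖h ((x₀ + ε : ℝ) + t * Complex.I)‖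
        ≤ (3 * t) * (C / t) := mul_le_mul h2 h1 (norm_nonneg _) (by positivity)
      _ = 3 * C := by field_simp
  have b3 : ‖I3‖ ≤ 3 * C := by
    refine (side 1 (Or.inl rfl)).trans ?_
    rw [abs_of_nonneg (by linarith)]
    nlinarith
  have b4 : ‖I4‖ ≤ 3 * C := by
    have h1 := side (-1) (Or.inr rfl)
    rw [show x₀ + (-1 : ℝ) = x₀ - 1 by ring] at h1
    refine h1.trans ?_
    rw [abs_of_nonneg (by linarith)]
    nlinarith
  rw [show |x₀ + 1 - (x₀ - 1)| = 2 by rw [show x₀ + 1 - (x₀ - 1) = 2 by ring]; norm_num] at b2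
  have b1 : ‖I1‖ ≤ 10 * C + 6 * C := by
    rw [hI1e]
    refine (norm_add_le _ _).trans ?_
    have h1 := norm_sub_le I2 (Complex.I • I3)
    rw [norm_smul, Complex.norm_I, one_mul] at h1
    rw [norm_smul, Complex.norm_I, one_mul]
    linarith
  -- the real part
  have hci : IntervalIntegrable (fun x : ℝ => F (x + y * Complex.I)) volume (x₀ - 1) (x₀ + 1) := by
    apply Continuous.intervalIntegrable
    exact (hFd.continuousOn).comp_continuous (by fun_prop) fun x => nuli_mem hy0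
  have hre : ∫ x in (x₀ - 1)..(x₀ + 1),
      (1 - (x - x₀) ^ 2) * Real.log ‖f (x + y * Complex.I) + Complex.I‖ = I1.re := by
    have h1 := Complex.reCLM.intervalIntegral_comp_comm hci
    simp only [Complex.reCLM_apply] at h1
    rw [hI1, ← h1]
    refine intervalIntegral.integral_congr fun x _ => ?_
    simp only [hF, hw, hh]
    have e1 : (1 : ℂ) - ((x : ℂ) + y * Complex.I - x₀ - y * Complex.I) ^ 2 =
        ((1 - (x - x₀) ^ 2 : ℝ) : ℂ) := by push_cast; ring
    rw [e1, Complex.re_ofReal_mul, Complex.log_re]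
  rw [hre]
  exact (Complex.re_le_norm I1).trans b1

/-- a self-map of the half plane has vertical limit `∞` only on a null set -/
theorem null_infty {f : ℂ → ℂ} (hd : DifferentiableOn ℂ f Hp) (hm : MapsTo f Hp Hp) :
    volume {x : ℝ | Tendsto (fun y : ℝ => ‖f (x + y * Complex.I)‖) (𝓝[>] 0) atTop} = 0 := by
  set S : Set ℝ := {x : ℝ | Tendsto (fun y : ℝ => ‖f (x + y * Complex.I)‖) (𝓝[>] 0) atTop} with hS
  -- local statement
  have hloc : ∀ x₀ : ℝ, volume (S ∩ Ioo (x₀ - 1) (x₀ + 1)) = 0 := by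
    intro x₀
    obtain ⟨M, hM⟩ := nuli_int hd hm x₀
    set yy : ℕ → ℝ := fun n => 1 / ((n : ℝ) + 2) with hyy
    have hy0 : ∀ n, 0 < yy n := fun n => by positivity
    have hy1 : ∀ n, yy n < 1 := fun n => by
      simp only [hyy]
      rw [div_lt_one (by positivity)]
      have : (0 : ℝ) ≤ n := Nat.cast_nonneg n
      linarith
    have hylim : Tendsto yy atTop (𝓝[>] 0) := by
      refine tendsto_nhdsWithin_iff.2 ⟨?_, Eventually.of_forall fun n => hy0 n⟩
      have h1 : Tendsto (fun n : ℕ => 1 / (((n + 1 : ℕ) : ℝ) + 1)) atTop (𝓝 0) :=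
        (tendsto_one_div_add_atTop_nhds_zero_nat (𝕜 := ℝ)).comp (tendsto_add_atTop_nat 1)
      refine h1.congr fun n => ?_
      simp only [hyy]
      push_cast
      ring_nf
    set g : ℕ → ℝ → ℝ := fun n x =>
      (1 - (x - x₀) ^ 2) * Real.log ‖f (x + yy n * Complex.I) + Complex.I‖ with hg
    have hgc : ∀ n, Continuous (g n) := by
      intro n
      have h1 : Continuous fun x : ℝ => f (x + yy n * Complex.I) :=
        (hd.continuousOn).comp_continuous (by fun_prop) fun x => nuli_mem (hy0 n)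
      refine Continuous.mul (by fun_prop) (Continuous.log (h1.add continuous_const).norm ?_)
      intro x
      have := nuli_one_le (w := f (x + yy n * Complex.I)) (hm (nuli_mem (hy0 n)))
      linarith
    have hg0 : ∀ n, ∀ x ∈ Ioo (x₀ - 1) (x₀ + 1), 0 ≤ g n x := by
      intro n x hx
      refine mul_nonneg ?_ (Real.log_nonneg (nuli_one_le (hm (nuli_mem (hy0 n)))))
      nlinarith [hx.1, hx.2]
    set μ : Measure ℝ := volume.restrict (Ioo (x₀ - 1) (x₀ + 1)) with hμ
    have hint : ∀ n, ∫⁻ x, ENNReal.ofReal (g n x) ∂μ ≤ ENNReal.ofReal M := by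
      intro n
      have h1 : Integrable (g n) μ :=
        ((hgc n).integrableOn_Icc (a := x₀ - 1) (b := x₀ + 1)).mono_set Ioo_subset_Icc_self
      have h2 : 0 ≤ᵐ[μ] g n := by
        rw [hμ]
        exact (ae_restrict_iff' measurableSet_Ioo).2 (Eventually.of_forall fun x hx => hg0 n x hx)
      rw [← ofReal_integral_eq_lintegral_ofReal h1 h2]
      apply ENNReal.ofReal_le_ofReal
      have h3 := hM (yy n) (hy0 n) (hy1 n)
      rw [intervalIntegral.integral_of_le (by linarith), integral_Ioc_eq_integral_Ioo] at h3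
      exact h3
    have hfatou : ∫⁻ x, liminf (fun n => ENNReal.ofReal (g n x)) atTop ∂μ ≤ ENNReal.ofReal M := by
      refine (lintegral_liminf_le fun n => (hgc n).measurable.ennreal_ofReal).trans ?_
      refine liminf_le_of_frequently_le' (Frequently.of_forall fun n => hint n)
    have hae : ∀ᵐ x ∂μ, liminf (fun n => ENNReal.ofReal (g n x)) atTop < ⊤ := by
      refine ae_lt_top (Measurable.liminf fun n => (hgc n).measurable.ennreal_ofReal) ?_
      exact (lt_of_le_of_lt hfatou ENNReal.ofReal_lt_top).ne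
    rw [hμ, ae_restrict_iff' measurableSet_Ioo] at hae
    rw [← nonpos_iff_eq_zero]
    refine (measure_mono ?_).trans (le_of_eq hae)
    rintro x ⟨hxS, hx⟩ hcon
    have h1 : Tendsto (fun n => ‖f (x + yy n * Complex.I)‖) atTop atTop :=
      Tendsto.comp (g := fun y : ℝ => ‖f (x + y * Complex.I)‖) (f := yy) hxS hylim
    have h2 : Tendsto (fun n => ‖f (x + yy n * Complex.I) + Complex.I‖) atTop atTop := by
      refine tendsto_atTop_mono (fun n => ?_) (tendsto_atTop_add_const_right _ (-1) h1)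
      have h3 := norm_sub_le (f (x + yy n * Complex.I) + Complex.I) Complex.I
      rw [add_sub_cancel_right, Complex.norm_I] at h3
      linarith
    have hwt : 0 < 1 - (x - x₀) ^ 2 := by nlinarith [hx.1, hx.2]
    have h3 : Tendsto (fun n => g n x) atTop atTop :=
      (Real.tendsto_log_atTop.comp h2).const_mul_atTop hwt
    have h4 : Tendsto (fun n => ENNReal.ofReal (g n x)) atTop (𝓝 ⊤) :=
      ENNReal.tendsto_ofReal_atTop.comp h3
    have h5 := hcon hx
    rw [h4.liminf_eq] at h5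
    exact lt_irrefl _ h5
  have hcov : S ⊆ ⋃ n : ℤ, S ∩ Ioo ((n : ℝ) - 1) (n + 1) := by
    intro x hx
    refine mem_iUnion.2 ⟨⌊x⌋, hx, ?_, ?_⟩
    · have := Int.floor_le x
      linarith
    · exact Int.lt_floor_add_one x
  rw [← nonpos_iff_eq_zero]
  refine (measure_mono hcov).trans ?_
  rw [nonpos_iff_eq_zero, measure_iUnion_null_iff]
  exact fun n => hloc n

end Pool.Agent.BB.P
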