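import Pool.Agent.BB.P.VT
import Pool.Agent.BB.P.NULI

open Set Metric Filter Topology MeasureTheory

namespace Pool.Agent.BB.P

/-- good vertical tails -/
theorem good_tail : ∃ M : ℝ, 2 ≤ M ∧ ∀ (b : Base) (p z₀ : ℂ), p ∉ b.U → z₀ ∈ Hp →
    ∃ x : ℝ, |x - z₀.re| < z₀.im / 2 ∧
      (∀ y : ℝ, 0 < y → y ≤ z₀.im → ‖b.φ (x + y * Complex.I) - p‖ < M * ‖b.φ z₀ - p‖) ∧
      ∀ n : ℕ, ¬ Tendsto (fun y : ℝ => ‖b.ψ (b.F^[n] (b.φ (x + y * Complex.I)))‖) (𝓝[>] 0)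
        atTop := by
  obtain ⟨M, hM2, hM⟩ := vert_tail
  refine ⟨M, hM2, fun b p z₀ hp hz₀ => ?_⟩
  obtain ⟨S, hS, hSx⟩ := hM b.φ p z₀ b.hφ b.φ_inj (by
    rintro ⟨z, hz, rfl⟩
    exact hp (b.φ_mem hz)) hz₀
  set Nn : ℕ → Set ℝ := fun n => {x : ℝ | Tendsto
    (fun y : ℝ => ‖b.ψ (b.F^[n] (b.φ (x + y * Complex.I)))‖) (𝓝[>] 0) atTop} with hNn
  have hN : ∀ n, volume (Nn n) = 0 := by
    intro n
    have hd : DifferentiableOn ℂ (fun z => b.ψ (b.F^[n] (b.φ z))) Hp :=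
      b.hψ.comp ((b.iter_diff n).comp_differentiableOn b.hφ)
        (fun z hz => b.iter_mem (b.φ_mem hz) n)
    have hm : MapsTo (fun z => b.ψ (b.F^[n] (b.φ z))) Hp Hp :=
      fun z hz => b.ψ_mem (b.iter_mem (b.φ_mem hz) n)
    exact null_infty hd hm
  have hU : volume (⋃ n, Nn n) = 0 := measure_iUnion_null hN
  obtain ⟨x, hxS, hxN⟩ : ∃ x ∈ S, x ∉ ⋃ n, Nn n := by
    by_contra hcon
    push Not at hcon
    exact hS.ne' (measure_mono_null hcon hU)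
  refine ⟨x, (hSx x hxS).1, (hSx x hxS).2, fun n hn => hxN ?_⟩
  exact mem_iUnion.mpr ⟨n, hn⟩

end Pool.Agent.BB.P
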