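import Pool.Agent.BB.P.SPA

open Set Metric Filter Topology MeasureTheory

namespace Pool.Agent.BB.P

/-- comparability of the values of `f` at `x` and `y` -/
private def HarnQ (C : ℝ) (f : ℂ → ℂ) (x y : ℂ) : Prop :=
  (f y).im ≤ C * (f x).im ∧ (f x).im ≤ C * (f y).im ∧ ‖f y - f x‖ ≤ C * (f x).im

private lemma harnQ_mono {C D : ℝ} (hCD : C ≤ D) {f : ℂ → ℂ} {x y : ℂ} (hx : 0 ≤ (f x).im)
    (hy : 0 ≤ (f y).im) (h : HarnQ C f x y) : HarnQ D f x y := by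
  have h1 : C * (f x).im ≤ D * (f x).im := mul_le_mul_of_nonneg_right hCD hx
  have h2 : C * (f y).im ≤ D * (f y).im := mul_le_mul_of_nonneg_right hCD hy
  exact ⟨h.1.trans h1, h.2.1.trans h2, h.2.2.trans h1⟩

private lemma harnQ_trans {C D : ℝ} (hC : 1 ≤ C) (hD : 1 ≤ D) {f : ℂ → ℂ} {x y z : ℂ}
    (hx : 0 ≤ (f x).im) (hz : 0 ≤ (f z).im) (h : HarnQ C f x y) (h' : HarnQ D f y z) :
    HarnQ (C * D + C) f x z := by
  have hD0 : 0 ≤ D := by linarith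
  have hC0 : 0 ≤ C := by linarith
  have e1 : D * (f y).im ≤ D * (C * (f x).im) := mul_le_mul_of_nonneg_left h.1 hD0
  have e2 : C * (f y).im ≤ C * (D * (f z).im) := mul_le_mul_of_nonneg_left h'.2.1 hC0
  have e3 : 0 ≤ C * (f x).im := mul_nonneg hC0 hx
  have e4 : 0 ≤ C * (f z).im := mul_nonneg hC0 hz
  have e5 : ‖f z - f x‖ ≤ ‖f z - f y‖ + ‖f y - f x‖ := norm_sub_le_norm_sub_add_norm_sub _ _ _
  refine ⟨?_, ?_, ?_⟩
  · nlinarith [h'.1]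
  · nlinarith [h.2.1]
  · nlinarith [h.2.2, h'.2.2]

private lemma harnQ_symm {C : ℝ} (hC : 1 ≤ C) {f : ℂ → ℂ} {x y : ℂ} (hx : 0 ≤ (f x).im)
    (hy : 0 ≤ (f y).im) (h : HarnQ C f x y) : HarnQ (C * C) f y x := by
  have hC0 : 0 ≤ C := by linarith
  have e1 : C * (f x).im ≤ C * (C * (f y).im) := mul_le_mul_of_nonneg_left h.2.1 hC0
  have e2 : C * 1 ≤ C * C := mul_le_mul_of_nonneg_left hC hC0
  have e3 : C * (f x).im ≤ C * C * (f x).im := by nlinarith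
  have e4 : C * (f y).im ≤ C * C * (f y).im := by nlinarith
  refine ⟨h.2.1.trans e4, h.1.trans e3, ?_⟩
  rw [norm_sub_rev]
  linarith [h.2.2]

private lemma harn_local {V : Set ℂ} {a : ℂ} {r : ℝ} (hr : 0 < r) (hb : ball a (2 * r) ⊆ V)
    {f : ℂ → ℂ} (hd : DifferentiableOn ℂ f V) (hm : ∀ z ∈ V, 0 ≤ (f z).im) {z : ℂ}
    (hz : z ∈ ball a r) : HarnQ 3 f a z := by
  have hr2 : 0 < 2 * r := by linarith
  have hz2 : z ∈ ball a (2 * r) := ball_subset_ball (by linarith) hz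
  have hza : ‖z - a‖ < r := by simpa [dist_eq_norm] using hz
  have hn : 0 ≤ ‖z - a‖ := norm_nonneg _
  have ha : 0 ≤ (f a).im := hm a (hb (mem_ball_self hr2))
  have hzn : 0 ≤ (f z).im := hm z (hb hz2)
  have h1 := hp_harnack hr2 (hd.mono hb) (fun z hz => hm z (hb hz)) hz2
  have h2 := hp_dist hr2 (hd.mono hb) (fun z hz => hm z (hb hz)) hz2
  have hpos : 0 < 2 * r - ‖z - a‖ := by linarith
  have hpos' : 0 < 2 * r + ‖z - a‖ := by linarith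
  have e1 : (2 * r + ‖z - a‖) / (2 * r - ‖z - a‖) ≤ 3 := by
    rw [div_le_iff₀ hpos]; linarith
  have e2 : 1 / 3 ≤ (2 * r - ‖z - a‖) / (2 * r + ‖z - a‖) := by
    rw [le_div_iff₀ hpos']; linarith
  have e3 : 2 * ‖z - a‖ / (2 * r - ‖z - a‖) ≤ 3 := by
    rw [div_le_iff₀ hpos]; linarith
  refine ⟨h1.2.trans (mul_le_mul_of_nonneg_right e1 ha), ?_,
    h2.trans (mul_le_mul_of_nonneg_right e3 ha)⟩
  have := mul_le_mul_of_nonneg_right e2 ha
  linarith [h1.1]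

/-- Harnack chains -/
theorem harnack_compact {V : Set ℂ} (hV : IsOpen V) (hVc : IsPreconnected V) {A : Set ℂ}
    (hA : IsCompact A) (hAV : A ⊆ V) : ∃ C : ℝ, 1 ≤ C ∧ ∀ f : ℂ → ℂ, DifferentiableOn ℂ f V →
      (∀ z ∈ V, 0 ≤ (f z).im) → ∀ x ∈ A, ∀ y ∈ A,
        (f x).im ≤ C * (f y).im ∧ ‖f x - f y‖ ≤ C * (f y).im := by
  rcases A.eq_empty_or_nonempty with hAe | ⟨x₀, hx₀⟩
  · subst hAe
    exact ⟨1, le_rfl, fun f _ _ x hx => absurd hx (notMem_empty x)⟩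
  -- radii
  have hrad : ∀ a ∈ V, ∃ r > 0, ball a (2 * r) ⊆ V := by
    intro a ha
    obtain ⟨ε, hε, hb⟩ := Metric.isOpen_iff.1 hV a ha
    exact ⟨ε / 2, by linarith, by rwa [mul_div_cancel₀ _ (two_ne_zero' ℝ)]⟩
  set P : ℝ → ℂ → Prop := fun C z => ∀ f : ℂ → ℂ, DifferentiableOn ℂ f V →
      (∀ z ∈ V, 0 ≤ (f z).im) → HarnQ C f x₀ z with hP
  have hx₀V : x₀ ∈ V := hAV hx₀
  have hQ0 : P 1 x₀ := by
    intro f _ hm
    refine ⟨by linarith, by linarith, ?_⟩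
    rw [sub_self, norm_zero, one_mul]
    exact hm _ hx₀V
  -- the class of `x₀`
  set u : Set ℂ := {z | z ∈ V ∧ ∃ C : ℝ, 1 ≤ C ∧ P C z} with hu
  have hstep : ∀ a ∈ V, ∀ r > 0, ball a (2 * r) ⊆ V → ∀ C : ℝ, 1 ≤ C → P C a →
      ∀ z ∈ ball a r, P (C * 3 + C) z := by
    intro a ha r hr hb C hC hPa z hz f hd hm
    exact harnQ_trans hC (by norm_num) (hm _ hx₀V)
      (hm _ (hb (ball_subset_ball (by linarith) hz))) (hPa f hd hm) (harn_local hr hb hd hm hz)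
  have huo : IsOpen u := by
    rw [Metric.isOpen_iff]
    rintro a ⟨haV, C, hC, hPa⟩
    obtain ⟨r, hr, hb⟩ := hrad a haV
    refine ⟨r, hr, fun z hz => ⟨hb (ball_subset_ball (by linarith) hz), C * 3 + C, by linarith,
      hstep a haV r hr hb C hC hPa z hz⟩⟩
  have hVu : V ⊆ u := by
    refine hVc.subset_of_closure_inter_subset huo ⟨x₀, hx₀V, hx₀V, 1, le_rfl, hQ0⟩ ?_
    rintro a ⟨hac, haV⟩
    obtain ⟨r, hr, hb⟩ := hrad a haV
    obtain ⟨w, ⟨hwV, C, hC, hPw⟩, hw⟩ := Metric.mem_closure_iff.1 hac r hr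
    have hw' : w ∈ ball a r := by rwa [mem_ball, dist_comm]
    refine ⟨haV, C * (3 * 3) + C, by nlinarith, fun f hd hm => ?_⟩
    exact harnQ_trans hC (by norm_num) (hm _ hx₀V) (hm _ haV) (hPw f hd hm)
      (harnQ_symm (by norm_num) (hm _ haV) (hm _ hwV) (harn_local hr hb hd hm hw'))
  -- a uniform constant on `A`
  obtain ⟨C, hC, hPA⟩ : ∃ C : ℝ, 1 ≤ C ∧ ∀ z ∈ A, z ∈ V → P C z := by
    refine hA.induction_on (p := fun s => ∃ C : ℝ, 1 ≤ C ∧ ∀ z ∈ s, z ∈ V → P C z) ?_ ?_ ?_ ?_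
    · exact ⟨1, le_rfl, fun z hz => absurd hz (notMem_empty z)⟩
    · rintro s t hst ⟨C, hC, h⟩
      exact ⟨C, hC, fun z hz => h z (hst hz)⟩
    · rintro s t ⟨C, hC, h⟩ ⟨D, hD, h'⟩
      refine ⟨max C D, hC.trans (le_max_left _ _), ?_⟩
      rintro z (hz | hz) hzV f hd hm
      · exact harnQ_mono (le_max_left _ _) (hm _ hx₀V) (hm _ hzV) (h z hz hzV f hd hm)
      · exact harnQ_mono (le_max_right _ _) (hm _ hx₀V) (hm _ hzV) (h' z hz hzV f hd hm)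
    · intro a ha
      obtain ⟨haV, C, hC, hPa⟩ := hVu (hAV ha)
      obtain ⟨r, hr, hb⟩ := hrad a haV
      exact ⟨ball a r, mem_nhdsWithin_of_mem_nhds (ball_mem_nhds a hr), C * 3 + C, by linarith,
        fun z hz _ => hstep a haV r hr hb C hC hPa z hz⟩
  refine ⟨2 * (C * C), by nlinarith, fun f hd hm x hx y hy => ?_⟩
  have hx' := hPA x hx (hAV hx) f hd hm
  have hy' := hPA y hy (hAV hy) f hd hm
  have hx₀n := hm _ hx₀V
  have hyn := hm _ (hAV hy)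
  have e1 : C * (f x₀).im ≤ C * (C * (f y).im) := mul_le_mul_of_nonneg_left hy'.2.1 (by linarith)
  have e2 : 0 ≤ C * (C * (f y).im) := by positivity
  have e3 : ‖f x - f y‖ ≤ ‖f x - f x₀‖ + ‖f y - f x₀‖ := by
    rw [norm_sub_rev (f y) (f x₀)]
    exact norm_sub_le_norm_sub_add_norm_sub _ _ _
  constructor
  · linarith [hx'.1]
  · linarith [hx'.2.2, hy'.2.2]

end Pool.Agent.BB.P
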