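import Pool.Agent.BB.P.HARN

open Set Metric Filter Topology MeasureTheory

namespace Pool.Agent.BB.P

variable {b : Base} {s : ℝ} {q : ℕ} {ℓ : ℂ → ℂ} {l₀ : ℂ}

private lemma hm_noFix (b : Base) {z : ℂ} (hz : z ∈ b.U) : b.F z ≠ z := by
  intro h
  have hfix : ∀ n : ℕ, b.F^[n] z = z := fun n => Function.iterate_fixed h n
  have hne : 0 < ‖z - b.ζ‖ := norm_pos_iff.mpr (sub_ne_zero.mpr fun e => b.hζU (e ▸ hz))
  obtain ⟨n₀, hn₀⟩ := b.hunif {z} (by simpa using hz) isCompact_singleton _ hne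
  have h1 := hn₀ n₀ le_rfl z rfl
  rw [hfix] at h1
  exact lt_irrefl _ h1

/-- the hyperbolic step of a backward orbit does not decrease -/
theorem Side.step (S : Side b s q ℓ l₀) {w : ℂ} (hw : w ∈ Qs s S.R) : ∃ δ > 0, ∀ j : ℕ,
    δ * (S.Ψ j w).im ≤ ‖S.Ψ j w - S.Ψ (j + 1) w‖ := by
  set g : ℂ → ℂ := fun z => b.ψ (b.F (b.φ z)) with hg
  have hgd : DifferentiableOn ℂ g Hp :=
    b.hψ.comp (b.hF.comp_differentiableOn b.hφ) (fun z hz => b.hFU (b.φ_mem hz))
  have hgm : MapsTo g Hp Hp := fun z hz => b.ψ_mem (b.hFU (b.φ_mem hz))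
  have hgΨ : ∀ j, g (S.Ψ (j + 1) w) = S.Ψ j w := by
    intro j
    simp only [hg]
    rw [S.hF j w hw, b.ψφ (S.hm j hw)]
  set pd : ℕ → ℝ := fun j =>
    ‖(S.Ψ j w - S.Ψ (j + 1) w) / (S.Ψ j w - (starRingEnd ℂ) (S.Ψ (j + 1) w))‖ with hpd
  have hmono : ∀ j, pd 0 ≤ pd j := by
    intro j
    induction j with
    | zero => exact le_rfl
    | succ j ih =>
      refine ih.trans ?_
      have h1 := schwarz_pick hgd hgm (S.hm (j + 1) hw) (S.hm (j + 2) hw)
      rw [hgΨ j, hgΨ (j + 1)] at h1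
      exact h1
  have hden : ∀ j, (S.Ψ j w).im ≤ ‖S.Ψ j w - (starRingEnd ℂ) (S.Ψ (j + 1) w)‖ := by
    intro j
    have h1 : 0 < (S.Ψ (j + 1) w).im := S.hm (j + 1) hw
    have h2 := Complex.abs_im_le_norm (S.Ψ j w - (starRingEnd ℂ) (S.Ψ (j + 1) w))
    simp only [Complex.sub_im, Complex.conj_im, sub_neg_eq_add] at h2
    have h3 := le_abs_self ((S.Ψ j w).im + (S.Ψ (j + 1) w).im)
    linarith
  have hdenpos : ∀ j, 0 < ‖S.Ψ j w - (starRingEnd ℂ) (S.Ψ (j + 1) w)‖ := fun j =>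
    lt_of_lt_of_le (S.hm j hw) (hden j)
  have hpd0 : 0 < pd 0 := by
    simp only [hpd]
    rw [norm_div]
    refine div_pos (norm_pos_iff.mpr (sub_ne_zero.mpr fun h => ?_)) (hdenpos 0)
    apply hm_noFix b (b.φ_mem (S.hm 0 hw))
    have h1 := S.hF 0 w hw
    rw [zero_add] at h1 h
    rw [← h] at h1
    exact h1
  refine ⟨pd 0, hpd0, fun j => ?_⟩
  have h1 : ‖S.Ψ j w - S.Ψ (j + 1) w‖ =
      pd j * ‖S.Ψ j w - (starRingEnd ℂ) (S.Ψ (j + 1) w)‖ := by
    simp only [hpd]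
    rw [norm_div, div_mul_cancel₀ _ (hdenpos j).ne']
  rw [h1]
  exact mul_le_mul (hmono j) (hden j) (le_of_lt (S.hm j hw)) (hpd0.le.trans (hmono j))

theorem Side.hm0 (S : Side b s q ℓ l₀) {w : ℂ} (hw : w ∈ Qs s S.R) :
    Tendsto (fun j : ℕ => (S.Ψ j w).im) atTop (𝓝 0) := by
  have hss : s * s = 1 := by rcases S.hs with h | h <;> rw [h] <;> norm_num
  have hR := S.hR
  have hanti : ∀ w ∈ Qs s S.R, ∀ j, (S.Ψ (j + 1) w).im ≤ (S.Ψ j w).im := by
    intro w hw j
    have h1 := b.him _ (b.φ_mem (S.hm (j + 1) hw))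
    rw [S.hF j w hw, b.ψφ (S.hm _ hw), b.ψφ (S.hm _ hw)] at h1
    exact h1
  have hanti' : ∀ w ∈ Qs s S.R, Antitone fun j : ℕ => (S.Ψ j w).im := fun w hw =>
    antitone_nat_of_succ_le (hanti w hw)
  have hbdd : ∀ w ∈ Qs s S.R, BddBelow (range fun j : ℕ => (S.Ψ j w).im) := by
    intro w hw
    refine ⟨0, ?_⟩
    rintro _ ⟨j, rfl⟩
    exact le_of_lt (S.hm j hw)
  have hlim := tendsto_atTop_ciInf (hanti' w hw) (hbdd w hw)
  set τ : ℝ := ⨅ j : ℕ, (S.Ψ j w).im with hτ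
  have hτle : ∀ j, τ ≤ (S.Ψ j w).im := fun j => ciInf_le (hbdd w hw) j
  have hτ0 : 0 ≤ τ := le_ciInf fun j => le_of_lt (S.hm j hw)
  rcases eq_or_lt_of_le hτ0 with h0 | hpos
  · rw [← h0] at hlim
    exact hlim
  exfalso
  obtain ⟨δ, hδ, hstep⟩ := S.step hw
  obtain ⟨C, hC⟩ := S.grow
  -- the differences
  set f : ℕ → ℂ → ℂ := fun j w => S.Ψ j w - S.Ψ (j + 1) w with hf
  have hfd : ∀ j, DifferentiableOn ℂ (f j) (Qs s S.R) := fun j => (S.hd j).sub (S.hd (j + 1))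
  have hfm : ∀ j, ∀ z ∈ Qs s S.R, 0 ≤ (f j z).im := by
    intro j z hz
    simp only [hf, Complex.sub_im]
    linarith [hanti z hz j]
  have hfim : Tendsto (fun j => (f j w).im) atTop (𝓝 0) := by
    have h1 := hlim.comp (tendsto_add_atTop_nat 1)
    have h2 := hlim.sub h1
    rw [sub_self] at h2
    exact h2
  have hkey : ∀ T : ℝ, 4 * S.R + 20 ≤ T → δ * τ ≤ 20 * C * T ^ (-(1 / 3) : ℝ) := by
    intro T hT
    have hT0 : 0 < T := by linarith
    set wT : ℂ := s * T * Complex.I with hwT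
    have hre : wT.re = 0 := by simp [hwT]
    have him : wT.im = s * T := by simp [hwT]
    have hball : ball wT (T / 4) ⊆ Qs s S.R := by
      intro z hz
      rw [mem_ball, dist_eq_norm] at hz
      have h1 := (Complex.abs_re_le_norm (z - wT)).trans hz.le
      have h2 := (Complex.abs_im_le_norm (z - wT)).trans hz.le
      rw [Complex.sub_re, hre, sub_zero] at h1
      rw [Complex.sub_im, him] at h2
      have h3 : T - T / 4 ≤ s * z.im := by
        rw [abs_le] at h2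
        rcases S.hs with h | h
        · rw [h] at h2 ⊢; linarith [h2.1]
        · rw [h] at h2 ⊢; linarith [h2.2]
      simp only [Qs, mem_setOf_eq]
      linarith
    have hwTQ : wT ∈ Qs s S.R := hball (mem_ball_self (by linarith))
    have hG := S.hG1 wT hwTQ
    have hGd : ‖S.G wT - wT‖ ≤ 5 / 4 := by
      have h1 : S.G wT - wT = (S.G wT - (wT - 1)) - 1 := by ring
      rw [h1]
      refine (norm_sub_le _ _).trans ?_
      rw [norm_one]
      linarith
    have hGball : S.G wT ∈ ball wT (T / 4) := by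
      rw [mem_ball, dist_eq_norm]
      linarith
    have hfT : ∀ j, ‖f j wT‖ ≤ 20 * C * T ^ (-(1 / 3) : ℝ) := by
      intro j
      have h1 : f j wT = -(S.Ψ j (S.G wT) - S.Ψ j wT) := by
        simp only [hf]
        rw [S.hG2 j wT hwTQ (hball hGball)]
        ring
      rw [h1, norm_neg]
      have h2 := hp_dist (f := S.Ψ j) (a := wT) (r := T / 4) (by linarith)
        ((S.hd j).mono hball) (fun z hz => le_of_lt (S.hm j (hball hz))) hGball
      refine h2.trans ?_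
      have h3 : (S.Ψ j wT).im ≤ C * T ^ (2 / 3 : ℝ) :=
        (hanti' wT hwTQ (Nat.zero_le j)).trans (hC T (by linarith))
      have h4 : 0 < (S.Ψ j wT).im := S.hm j hwTQ
      have h5 : 2 * ‖S.G wT - wT‖ / (T / 4 - ‖S.G wT - wT‖) ≤ 20 / T := by
        rw [div_le_div_iff₀ (by linarith) hT0]
        nlinarith [norm_nonneg (S.G wT - wT)]
      calc 2 * ‖S.G wT - wT‖ / (T / 4 - ‖S.G wT - wT‖) * (S.Ψ j wT).im
          ≤ 20 / T * (C * T ^ (2 / 3 : ℝ)) := by
            refine mul_le_mul h5 h3 h4.le (by positivity)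
        _ = 20 * C * (T ^ (2 / 3 : ℝ) * T⁻¹) := by ring
        _ = 20 * C * T ^ (-(1 / 3) : ℝ) := by
            congr 1
            rw [← Real.rpow_neg_one T, ← Real.rpow_add hT0]
            norm_num
    obtain ⟨C₁, hC₁, hH⟩ := harnack_compact (isOpen_Qs s S.R) (convex_Qs s S.R).isPreconnected
      (A := {w, wT}) (Set.Finite.isCompact (by simp)) (by
        intro x hx
        rcases hx with rfl | hx
        · exact hw
        · rw [mem_singleton_iff] at hx; rw [hx]; exact hwTQ)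
    have hle : ∀ j, δ * τ ≤ 20 * C * T ^ (-(1 / 3) : ℝ) + C₁ * (f j w).im := by
      intro j
      have h1 := (hH (f j) (hfd j) (hfm j) wT (by simp) w (by simp)).2
      have h2 : ‖f j w‖ ≤ ‖f j wT‖ + ‖f j wT - f j w‖ := by
        have : f j w = f j wT - (f j wT - f j w) := by ring
        calc ‖f j w‖ = ‖f j wT - (f j wT - f j w)‖ := by rw [← this]
          _ ≤ _ := norm_sub_le _ _
      have h3 : δ * τ ≤ ‖f j w‖ := by
        refine le_trans ?_ (hstep j)
        exact mul_le_mul_of_nonneg_left (hτle j) hδ.le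
      linarith [hfT j]
    have hlim2 : Tendsto (fun j => 20 * C * T ^ (-(1 / 3) : ℝ) + C₁ * (f j w).im) atTop
        (𝓝 (20 * C * T ^ (-(1 / 3) : ℝ) + C₁ * 0)) :=
      (hfim.const_mul C₁).const_add _
    rw [mul_zero, add_zero] at hlim2
    exact ge_of_tendsto' hlim2 hle
  have hlim3 : Tendsto (fun T : ℝ => 20 * C * T ^ (-(1 / 3) : ℝ)) atTop (𝓝 (20 * C * 0)) :=
    (tendsto_rpow_neg_atTop (by norm_num : (0:ℝ) < 1 / 3)).const_mul _
  rw [mul_zero] at hlim3
  have h1 : δ * τ ≤ 0 := by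
    refine ge_of_tendsto hlim3 ?_
    filter_upwards [eventually_ge_atTop (4 * S.R + 20)] with T hT
    exact hkey T hT
  have h2 : 0 < δ * τ := mul_pos hδ hpos
  linarith

end Pool.Agent.BB.P
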