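import Pool.Agent.BB.P.HM
import Pool.Agent.BB.P.LIFT

open Set Metric Filter Topology MeasureTheory

namespace Pool.Agent.BB.P

variable {b : Base} {s : ℝ} {q : ℕ} {ℓ : ℂ → ℂ} {l₀ : ℂ}

lemma Inv.deriv_F_ne {K : ℂ → ℂ} (h : Inv b K) {ξ : ℂ} (hξ : ξ ∈ St b.t₀) :
    deriv b.F (b.φ (K ξ)) ≠ 0 := by
  have hd : DifferentiableOn ℂ (fun x => b.φ (K x)) (St b.t₀) :=
    b.hφ.comp h.hd (fun x hx => St_sub_Hp _ (h.hm hx))
  have h1 := b.deriv_mul (n := 1) (isOpen_St b.t₀) hd (E' := b.φ)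
    (fun x hx => by simpa using h.hF x hx) hξ
  intro h0
  rw [Function.iterate_one, h0, zero_mul] at h1
  exact b.deriv_φ_ne (St_sub_Hp _ hξ) h1.symm

theorem Side.exists_inv (S : Side b s q ℓ l₀) : ∃ K : ℂ → ℂ, Inv b K ∧ ∃ W : Set ℂ, IsOpen W ∧
    W.Nonempty ∧ W ⊆ Qs s S.R ∧ ∃ j₀ : ℕ, ∀ w ∈ W, ∀ j ≥ j₀,
      S.Ψ j w ∈ St b.t₀ ∧ K (S.Ψ j w) = S.Ψ (j + 1) w := by
  have hss : s * s = 1 := by rcases S.hs with h | h <;> rw [h] <;> norm_num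
  have hR := S.hR
  set w₀ : ℂ := s * ((S.R + 10 : ℝ) : ℂ) * Complex.I with hw₀
  have hre : w₀.re = 0 := by simp [hw₀]
  have him : w₀.im = s * (S.R + 10) := by simp [hw₀]
  have hball : closedBall w₀ 2 ⊆ Qs s S.R := by
    intro z hz
    rw [mem_closedBall, dist_eq_norm] at hz
    have h1 := (Complex.abs_re_le_norm (z - w₀)).trans hz
    have h2 := (Complex.abs_im_le_norm (z - w₀)).trans hz
    rw [Complex.sub_re, hre, sub_zero] at h1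
    rw [Complex.sub_im, him] at h2
    have h3 : S.R + 10 - 2 ≤ s * z.im := by
      have h4 : |s| = 1 := by rcases S.hs with h | h <;> simp [h]
      have h5 : |s * (z.im - s * (S.R + 10))| ≤ 2 := by
        rw [abs_mul, h4, one_mul]; exact h2
      rw [mul_sub, ← mul_assoc, hss, one_mul, abs_le] at h5
      linarith [h5.1]
    simp only [Qs, mem_setOf_eq]
    linarith
  have hw₀c : w₀ ∈ closedBall w₀ 2 := mem_closedBall_self (by norm_num)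
  have hw₀b : w₀ ∈ ball w₀ 2 := mem_ball_self (by norm_num)
  have hw₀Q := hball hw₀c
  have hG := S.hG1 w₀ hw₀Q
  have hGball : S.G w₀ ∈ ball w₀ 2 := by
    rw [mem_ball, dist_eq_norm]
    have h1 : S.G w₀ - w₀ = (S.G w₀ - (w₀ - 1)) - 1 := by ring
    rw [h1]
    refine (norm_sub_le _ _).trans_lt ?_
    rw [norm_one]
    linarith
  have hGQ : S.G w₀ ∈ Qs s S.R := hball (ball_subset_closedBall hGball)
  obtain ⟨C, hC1, hC⟩ := harnack_compact (isOpen_Qs s S.R) (convex_Qs s S.R).isPreconnected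
    (isCompact_closedBall w₀ 2) hball
  have hC0 : 0 < C := by linarith
  obtain ⟨j₀, hj₀⟩ : ∃ j₀ : ℕ, ∀ j ≥ j₀, (S.Ψ j w₀).im < b.t₀ / C :=
    ((S.hm0 hw₀Q).eventually (gt_mem_nhds (div_pos b.ht₀ hC0))).exists_forall_of_atTop
  have hSt : ∀ j ≥ j₀, ∀ w ∈ closedBall w₀ 2, S.Ψ j w ∈ St b.t₀ := by
    intro j hj w hw
    refine ⟨S.hm j (hball hw), ?_⟩
    have h1 := (hC (S.Ψ j) (S.hd j) (fun z hz => le_of_lt (S.hm j hz)) w hw w₀ hw₀c).1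
    have h2 := hj₀ j hj
    rw [lt_div_iff₀ hC0] at h2
    linarith
  obtain ⟨K, hK, hK0⟩ := b.exists_inv (z := b.φ (S.Ψ (j₀ + 1) w₀)) (ξ := S.Ψ j₀ w₀)
    (b.φ_mem (S.hm _ hw₀Q)) (hSt j₀ le_rfl w₀ hw₀c) (S.hF j₀ w₀ hw₀Q)
  rw [b.ψφ (S.hm _ hw₀Q)] at hK0
  have hsub : ball w₀ 2 ⊆ closedBall w₀ 2 := ball_subset_closedBall
  have hext : ∀ j ≥ j₀, K (S.Ψ j w₀) = S.Ψ (j + 1) w₀ →
      ∀ w ∈ ball w₀ 2, K (S.Ψ j w) = S.Ψ (j + 1) w := by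
    intro j hj h0 w hw
    have hd1 : DifferentiableOn ℂ (S.Ψ j) (ball w₀ 2) := (S.hd j).mono (hsub.trans hball)
    have hd2 : DifferentiableOn ℂ (S.Ψ (j + 1)) (ball w₀ 2) :=
      (S.hd (j + 1)).mono (hsub.trans hball)
    have hm1 : MapsTo (S.Ψ j) (ball w₀ 2) (St b.t₀) := fun w hw => hSt j hj w (hsub hw)
    have hH : DifferentiableOn ℂ (fun w => b.φ (K (S.Ψ j w))) (ball w₀ 2) :=
      b.hφ.comp (hK.hd.comp hd1 hm1) (fun w hw => St_sub_Hp _ (hK.hm (hm1 hw)))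
    have hH' : DifferentiableOn ℂ (fun w => b.φ (S.Ψ (j + 1) w)) (ball w₀ 2) :=
      b.hφ.comp hd2 (fun w hw => S.hm _ (hball (hsub hw)))
    have h1 := lift_unique b.hF isOpen_ball (convex_ball _ _).isPreconnected hH hH'
      (fun x hx => by
        rw [hK.hF _ (hm1 hx), S.hF j x (hball (hsub hx))]) hw₀b (by
        rw [h0]) (hK.deriv_F_ne (hm1 hw₀b))
    have h2 : b.φ (K (S.Ψ j w)) = b.φ (S.Ψ (j + 1) w) := h1 hw
    exact b.φ_inj (St_sub_Hp _ (hK.hm (hm1 hw))) (S.hm _ (hball (hsub hw))) h2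
  have hall : ∀ m : ℕ, ∀ w ∈ ball w₀ 2, K (S.Ψ (j₀ + m) w) = S.Ψ (j₀ + m + 1) w := by
    intro m
    induction m with
    | zero => exact hext j₀ le_rfl hK0
    | succ m ih =>
      refine hext (j₀ + (m + 1)) (by omega) ?_
      have e1 : S.Ψ (j₀ + m + 1) w₀ = S.Ψ (j₀ + m) (S.G w₀) := S.hG2 _ w₀ hw₀Q hGQ
      have e2 : S.Ψ (j₀ + m + 1 + 1) w₀ = S.Ψ (j₀ + m + 1) (S.G w₀) := S.hG2 _ w₀ hw₀Q hGQ
      show K (S.Ψ (j₀ + m + 1) w₀) = S.Ψ (j₀ + m + 1 + 1) w₀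
      rw [e2, e1, ih _ hGball]
  refine ⟨K, hK, ball w₀ 2, isOpen_ball, ⟨w₀, hw₀b⟩, hsub.trans hball, j₀, fun w hw j hj => ?_⟩
  obtain ⟨m, rfl⟩ := Nat.exists_eq_add_of_le hj
  exact ⟨hSt _ hj w (hsub hw), hall m w hw⟩

end Pool.Agent.BB.P
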