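import Pool.Agent.BB.P.HR
import Pool.Agent.BB.RMT

open Set Metric Filter Topology MeasureTheory

namespace Pool.Agent.BB.P

variable {b : Base} {s : ℝ} {q : ℕ} {ℓ : ℂ → ℂ} {l₀ : ℂ}

private lemma logl_rect {t : ℝ} {A : Set ℂ} (hA : IsCompact A) (hAS : A ⊆ St t) :
    ∃ A' : Set ℂ, IsCompact A' ∧ Convex ℝ A' ∧ A ⊆ A' ∧ A' ⊆ St t := by
  rcases A.eq_empty_or_nonempty with rfl | hne
  · exact ⟨∅, isCompact_empty, convex_empty, le_rfl, empty_subset _⟩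
  obtain ⟨z₁, hz₁, h₁⟩ := hA.exists_isMinOn hne Complex.continuous_im.continuousOn
  obtain ⟨z₂, hz₂, h₂⟩ := hA.exists_isMaxOn hne Complex.continuous_im.continuousOn
  obtain ⟨z₃, hz₃, h₃⟩ := hA.exists_isMinOn hne Complex.continuous_re.continuousOn
  obtain ⟨z₄, hz₄, h₄⟩ := hA.exists_isMaxOn hne Complex.continuous_re.continuousOn
  refine ⟨Icc z₃.re z₄.re ×ℂ Icc z₁.im z₂.im, isCompact_Icc.reProdIm isCompact_Icc,
    ?_, fun z hz => ?_, fun z hz => ?_⟩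
  · exact ((convex_Icc _ _).is_linear_preimage (f := Complex.re)
      ⟨Complex.add_re, fun c x => by simp⟩).inter
      ((convex_Icc _ _).is_linear_preimage (f := Complex.im)
      ⟨Complex.add_im, fun c x => by simp⟩)
  · rw [Complex.mem_reProdIm]
    exact ⟨⟨h₃ hz, h₄ hz⟩, ⟨h₁ hz, h₂ hz⟩⟩
  · rw [Complex.mem_reProdIm] at hz
    exact ⟨(hAS hz₁).1.trans_le hz.2.1, hz.2.2.trans_lt (hAS hz₂).2⟩

/-- iterates of an inverse branch form a normal family in the logarithmic coordinate -/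
theorem Inv.log_bound {K : ℂ → ℂ} (hK : Inv b K) (hℓ : DifferentiableOn ℂ ℓ Hp)
    (hℓe : ∀ z ∈ Hp, Complex.exp (ℓ z) = b.φ z - b.ζ) {A : Set ℂ} (hA : IsCompact A)
    (hAS : A ⊆ St b.t₀) : ∃ C : ℝ, ∀ n : ℕ, ∀ x ∈ A, ∀ y ∈ A,
      ‖ℓ (K^[n] x) - ℓ (K^[n] y)‖ ≤ C := by
  obtain ⟨A', hA'c, hA'v, hAA', hA'S⟩ := logl_rect hA hAS
  obtain ⟨δ, hδ, hδS⟩ := hA'c.exists_cthickening_subset_open (isOpen_St b.t₀) hA'S
  have hball : ∀ x ∈ A', ball x δ ⊆ St b.t₀ := fun x hx =>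
    (ball_subset_closedBall.trans (closedBall_subset_cthickening hx δ)).trans hδS
  obtain ⟨D, hD⟩ : ∃ D : ℝ, ∀ x ∈ A', ∀ y ∈ A', ‖y - x‖ ≤ D := by
    obtain ⟨D, hD⟩ := isBounded_iff.mp hA'c.isBounded
    exact ⟨D, fun x hx y hy => by rw [← dist_eq_norm]; exact hD hy hx⟩
  refine ⟨16 / δ * D, fun n x hx y hy => ?_⟩
  have hKm : MapsTo K^[n] (St b.t₀) (St b.t₀) := fun z hz => hK.iter_mem n hz
  have hhd : DifferentiableOn ℂ (fun z => b.φ (K^[n] z)) (St b.t₀) :=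
    b.hφ.comp (hK.iter_diff n) (fun z hz => St_sub_Hp _ (hKm hz))
  have hhi : InjOn (fun z => b.φ (K^[n] z)) (St b.t₀) := by
    intro z hz w hw hzw
    apply b.φ_inj (St_sub_Hp _ hz) (St_sub_Hp _ hw)
    rw [← hK.iter_F n hz, ← hK.iter_F n hw]
    exact congrArg _ hzw
  have hfd : DifferentiableOn ℂ (fun z => ℓ (K^[n] z)) (St b.t₀) :=
    hℓ.comp (hK.iter_diff n) (fun z hz => St_sub_Hp _ (hKm hz))
  have hder : ∀ z ∈ A', ‖deriv (fun z => ℓ (K^[n] z)) z‖ ≤ 16 / δ := by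
    intro z hz
    have hzS := hA'S hz
    have h1 : HasDerivAt (fun z => ℓ (K^[n] z)) (deriv (fun z => ℓ (K^[n] z)) z) z :=
      (hfd.differentiableAt ((isOpen_St _).mem_nhds hzS)).hasDerivAt
    have h2 : HasDerivAt (fun z => b.φ (K^[n] z)) (deriv (fun z => b.φ (K^[n] z)) z) z :=
      (hhd.differentiableAt ((isOpen_St _).mem_nhds hzS)).hasDerivAt
    have h3 : HasDerivAt (fun z => Complex.exp (ℓ (K^[n] z)))
        (deriv (fun z => b.φ (K^[n] z)) z) z := by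
      refine (h2.sub_const b.ζ).congr_of_eventuallyEq ?_
      filter_upwards [(isOpen_St b.t₀).mem_nhds hzS] with w hw
      exact hℓe _ (St_sub_Hp _ (hKm hw))
    have h4 := h1.cexp.unique h3
    rw [hℓe _ (St_sub_Hp _ (hKm hzS))] at h4
    have hne : b.φ (K^[n] z) - b.ζ ≠ 0 := by
      intro h
      exact b.hζU ((sub_eq_zero.mp h) ▸ b.φ_mem (St_sub_Hp _ (hKm hzS)))
    have h5 := koebe_omit (h := fun z => b.φ (K^[n] z)) (a := z) (r := δ) (z := z) (ω := b.ζ)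
      (hhd.mono (hball z hz)) (hhi.mono (hball z hz)) (mem_ball_self hδ) (by
        rintro ⟨w, hw, hwz⟩
        have hwz' : b.φ (K^[n] w) = b.ζ := hwz
        exact b.hζU (hwz' ▸ b.φ_mem (St_sub_Hp _ (hKm (hball z hz hw)))))
    rw [sub_self, norm_zero, sub_zero, ← h4, norm_mul] at h5
    have hpos : 0 < ‖b.φ (K^[n] z) - b.ζ‖ := norm_pos_iff.mpr hne
    rw [le_div_iff₀ hδ]
    have h6 : δ * (‖b.φ (K^[n] z) - b.ζ‖ * ‖deriv (fun z => ℓ (K^[n] z)) z‖) ≤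
        16 * ‖b.φ (K^[n] z) - b.ζ‖ := h5
    have h7 : ‖b.φ (K^[n] z) - b.ζ‖ * (‖deriv (fun z => ℓ (K^[n] z)) z‖ * δ) ≤
        ‖b.φ (K^[n] z) - b.ζ‖ * 16 := by linarith
    exact le_of_mul_le_mul_left h7 hpos
  have hxA' : x ∈ A' := hAA' hx
  have hyA' : y ∈ A' := hAA' hy
  have h1 := hA'v.norm_image_sub_le_of_norm_deriv_le
    (fun z hz => hfd.differentiableAt ((isOpen_St _).mem_nhds (hA'S hz))) hder hyA' hxA'
  refine h1.trans ?_
  exact mul_le_mul_of_nonneg_left (hD y hyA' x hxA') (by positivity)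

/-- `Ψ j` is an open map -/
private lemma logl_open (S : Side b s q ℓ l₀) (j : ℕ) {w : ℂ} (hw : w ∈ Qs s S.R) :
    𝓝 (S.Ψ j w) ≤ map (S.Ψ j) (𝓝 w) := by
  have hR := S.hR
  have hss : s * s = 1 := by rcases S.hs with h | h <;> rw [h] <;> norm_num
  have han : AnalyticOnNhd ℂ (S.Ψ j) (Qs s S.R) := (S.hd j).analyticOnNhd (isOpen_Qs _ _)
  rcases (han w hw).eventually_constant_or_nhds_le_map_nhds with h | h
  · exfalso
    have h1 : EqOn (S.Ψ j) (fun _ => S.Ψ j w) (Qs s S.R) :=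
      han.eqOn_of_preconnected_of_eventuallyEq (fun _ _ => analyticAt_const)
        (convex_Qs _ _).isPreconnected hw h
    set w₀ : ℂ := s * ((S.R + 10 : ℝ) : ℂ) * Complex.I with hw₀
    have hre : w₀.re = 0 := by simp [hw₀]
    have him : w₀.im = s * (S.R + 10) := by simp [hw₀]
    have hball : closedBall w₀ 2 ⊆ Qs s S.R := by
      intro z hz
      rw [mem_closedBall, dist_eq_norm] at hz
      have h1 := (Complex.abs_re_le_norm (z - w₀)).trans hz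
      have h2 := (Complex.abs_im_le_norm (z - w₀)).trans hz
      rw [Complex.sub_re, hre, sub_zero] at h1
      rw [Complex.sub_im, him] at h2
      have h3 : S.R + 10 - 2 ≤ s * z.im := by
        have h4 : |s| = 1 := by rcases S.hs with h | h <;> simp [h]
        have h5 : |s * (z.im - s * (S.R + 10))| ≤ 2 := by
          rw [abs_mul, h4, one_mul]; exact h2
        rw [mul_sub, ← mul_assoc, hss, one_mul, abs_le] at h5
        linarith [h5.1]
      simp only [Qs, mem_setOf_eq]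
      linarith
    have hw₀Q : w₀ ∈ Qs s S.R := hball (mem_closedBall_self (by norm_num))
    have hG := S.hG1 w₀ hw₀Q
    have hGQ : S.G w₀ ∈ Qs s S.R := by
      apply hball
      rw [mem_closedBall, dist_eq_norm]
      have h1 : S.G w₀ - w₀ = (S.G w₀ - (w₀ - 1)) - 1 := by ring
      rw [h1]
      refine (norm_sub_le _ _).trans ?_
      rw [norm_one]
      linarith
    obtain ⟨δ, hδ, hstep⟩ := S.step hw₀Q
    have h2 := hstep j
    rw [S.hG2 j w₀ hw₀Q hGQ, h1 hw₀Q, h1 hGQ, sub_self, norm_zero] at h2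
    have h3 : 0 < (S.Ψ j w).im := S.hm j hw
    have h4 : 0 < δ * (S.Ψ j w).im := mul_pos hδ h3
    linarith
  · exact h

theorem Side.log_lim (S : Side b s q ℓ l₀) {K : ℂ → ℂ} (hK : Inv b K)
    (hℓ : DifferentiableOn ℂ ℓ Hp) (hℓe : ∀ z ∈ Hp, Complex.exp (ℓ z) = b.φ z - b.ζ)
    {W : Set ℂ} (hWo : IsOpen W) (hWne : W.Nonempty) (hWQ : W ⊆ Qs s S.R) {j₀ : ℕ}
    (hW : ∀ w ∈ W, ∀ j ≥ j₀, S.Ψ j w ∈ St b.t₀ ∧ K (S.Ψ j w) = S.Ψ (j + 1) w) :
    ∀ ξ ∈ St b.t₀, Tendsto (fun n : ℕ => ℓ (K^[n] ξ) + ((Real.log n / q : ℝ) : ℂ)) atTop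
      (𝓝 (l₀ - s * Real.pi * Complex.I / q)) := by
  intro ξ hξ
  obtain ⟨w₁, hw₁⟩ := hWne
  set θ : ℂ := l₀ - s * Real.pi * Complex.I / q with hθ
  have hiter : ∀ n : ℕ, ∀ w ∈ W, K^[n] (S.Ψ j₀ w) = S.Ψ (j₀ + n) w := by
    intro n w hw
    induction n with
    | zero => rfl
    | succ n ih =>
      rw [Function.iterate_succ_apply', ih]
      exact (hW w hw (j₀ + n) (by omega)).2
  -- convergence on the image of `W`
  have hlogdiff : Tendsto (fun n : ℕ => ((Real.log n / q : ℝ) : ℂ) -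
      ((Real.log (j₀ + n : ℕ) / q : ℝ) : ℂ)) atTop (𝓝 0) := by
    have h1 : Tendsto (fun n : ℕ => (n : ℝ) / ((j₀ + n : ℕ) : ℝ)) atTop (𝓝 1) := by
      have h2 : Tendsto (fun n : ℕ => 1 - (j₀ : ℝ) / ((n + j₀ : ℕ) : ℝ)) atTop (𝓝 (1 - 0)) := by
        refine Tendsto.const_sub _ ?_
        exact (tendsto_const_div_atTop_nhds_zero_nat (j₀ : ℝ)).comp (tendsto_add_atTop_nat j₀)
      rw [sub_zero] at h2
      refine h2.congr' ?_
      filter_upwards [eventually_ge_atTop 1] with n hn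
      have h3 : (0 : ℝ) < ((n + j₀ : ℕ) : ℝ) := by exact_mod_cast (by omega : 0 < n + j₀)
      rw [add_comm j₀ n]
      rw [eq_div_iff h3.ne', sub_mul, div_mul_cancel₀ _ h3.ne']
      push_cast
      ring
    have h2 := (Real.continuousAt_log one_ne_zero).tendsto.comp h1
    rw [Real.log_one] at h2
    have h3 : Tendsto (fun n : ℕ => ((Real.log ((n : ℝ) / ((j₀ + n : ℕ) : ℝ)) / q : ℝ) : ℂ)) atTop
        (𝓝 ((0 / q : ℝ) : ℂ)) :=
      (Complex.continuous_ofReal.tendsto _).comp (h2.div_const _)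
    rw [zero_div, Complex.ofReal_zero] at h3
    refine h3.congr' ?_
    filter_upwards [eventually_ge_atTop 1] with n hn
    have hn0 : (n : ℝ) ≠ 0 := by exact_mod_cast (by omega : n ≠ 0)
    have hn1 : ((j₀ + n : ℕ) : ℝ) ≠ 0 := by exact_mod_cast (by omega : j₀ + n ≠ 0)
    rw [Real.log_div hn0 hn1]
    push_cast
    ring
  have hconvW : ∀ w ∈ W, Tendsto (fun n : ℕ => ℓ (K^[n] (S.Ψ j₀ w)) +
      ((Real.log n / q : ℝ) : ℂ) - θ) atTop (𝓝 0) := by
    intro w hw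
    have h1 := (S.hlog w (hWQ hw)).comp (tendsto_add_atTop_nat j₀)
    have h2 := (h1.sub_const θ).add hlogdiff
    rw [hθ, sub_self, add_zero] at h2
    refine h2.congr fun n => ?_
    rw [hiter n w hw]
    simp only [Function.comp_apply, add_comm n j₀]
    ring
  -- the domain
  set ξ₁ : ℂ := S.Ψ j₀ w₁ with hξ₁
  have hξ₁S : ξ₁ ∈ St b.t₀ := (hW w₁ hw₁ j₀ le_rfl).1
  have hseg : segment ℝ ξ ξ₁ ⊆ St b.t₀ := (convex_St _).segment_subset hξ hξ₁S
  have hsegc : IsCompact (segment ℝ ξ ξ₁) := by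
    rw [segment_eq_image]
    exact isCompact_Icc.image (by fun_prop)
  obtain ⟨δ, hδ, hδS⟩ := hsegc.exists_cthickening_subset_open (isOpen_St b.t₀) hseg
  set D : Set ℂ := thickening δ (segment ℝ ξ ξ₁) with hD
  have hDo : IsOpen D := isOpen_thickening
  have hDc : Convex ℝ D := (convex_segment ξ ξ₁).thickening δ
  have hDS : D ⊆ cthickening δ (segment ℝ ξ ξ₁) := thickening_subset_cthickening _ _
  have hcc : IsCompact (cthickening δ (segment ℝ ξ ξ₁)) := hsegc.cthickening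
  have hξD : ξ ∈ D := self_subset_thickening hδ _ (left_mem_segment ℝ ξ ξ₁)
  have hξ₁D : ξ₁ ∈ D := self_subset_thickening hδ _ (right_mem_segment ℝ ξ ξ₁)
  obtain ⟨C, hC⟩ := hK.log_bound hℓ hℓe hcc hδS
  set u : ℕ → ℂ → ℂ := fun n x => ℓ (K^[n] x) + ((Real.log n / q : ℝ) : ℂ) - θ with hu
  have hud : ∀ n, DifferentiableOn ℂ (u n) D := by
    intro n
    have h1 : DifferentiableOn ℂ (fun z => ℓ (K^[n] z)) (St b.t₀) :=
      hℓ.comp (hK.iter_diff n) (fun z hz => St_sub_Hp _ (hK.iter_mem n hz))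
    exact ((h1.mono (hDS.trans hδS)).add_const _).sub_const _
  have hu1 : Tendsto (fun n => u n ξ₁) atTop (𝓝 0) := hconvW w₁ hw₁
  obtain ⟨B, hB⟩ : ∃ B : ℝ, ∀ n, ‖u n ξ₁‖ ≤ B := by
    obtain ⟨B, hB⟩ := hu1.norm.bddAbove_range
    exact ⟨B, fun n => hB ⟨n, rfl⟩⟩
  have hub : ∀ n, ∀ x ∈ D, ‖u n x‖ ≤ max (B + C) 0 := by
    intro n x hx
    refine le_trans ?_ (le_max_left _ _)
    have h1 : u n x = u n ξ₁ + (ℓ (K^[n] x) - ℓ (K^[n] ξ₁)) := by simp only [hu]; ring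
    rw [h1]
    refine (norm_add_le _ _).trans (add_le_add (hB n) (hC n x (hDS hx) ξ₁ (hDS hξ₁D)))
  have hlim0 : Tendsto (fun n => u n ξ) atTop (𝓝 0) := by
    rw [tendsto_iff_ultrafilter]
    intro 𝒰 h𝒰
    obtain ⟨g, hgd, -, hg⟩ := RMT.exists_holo_limit hDo u (max (B + C) 0) (le_max_right _ _) hud hub 𝒰
    have hg0 : ∀ᶠ η in 𝓝 ξ₁, g η = 0 := by
      have h1 : ∀ᶠ w in 𝓝 w₁, g (S.Ψ j₀ w) = 0 := by
        have hcont : ContinuousAt (S.Ψ j₀) w₁ :=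
          (S.hd j₀).continuousOn.continuousAt ((isOpen_Qs _ _).mem_nhds (hWQ hw₁))
        filter_upwards [hWo.mem_nhds hw₁, hcont.preimage_mem_nhds (hDo.mem_nhds hξ₁D)] with w hw hwD
        have h2 := hg.tendsto_at hwD
        have h3 : Tendsto (fun n => u n (S.Ψ j₀ w)) 𝒰 (𝓝 0) := (hconvW w hw).mono_left h𝒰
        exact tendsto_nhds_unique h2 h3
      exact (logl_open S j₀ (hWQ hw₁)) h1
    have hgan : AnalyticOnNhd ℂ g D := hgd.analyticOnNhd hDo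
    have h2 := hgan.eqOn_zero_of_preconnected_of_eventuallyEq_zero hDc.isPreconnected hξ₁D hg0
    have h3 := hg.tendsto_at hξD
    rw [h2 hξD] at h3
    exact h3
  have h1 := hlim0.add_const θ
  rw [zero_add] at h1
  refine h1.congr fun n => ?_
  simp only [hu]
  ring

end Pool.Agent.BB.P
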