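import Pool.Agent.BB.P.CROSS

open Set Metric Filter Topology MeasureTheory

namespace Pool.Agent.BB.P

namespace PS

variable (s : PS)

/-- One channel contributes a fixed amount. -/
theorem one_channel : ∃ c : ℝ, 0 < c ∧ ∀ η : ℝ, 0 < η → ∀ Q : Set ℂ, s.Channel Q →
    ∃ n₁ : ℕ, ∀ n ≥ n₁, ∃ W : Finset (ℂ × Bool × ℕ),
      (∀ τ ∈ W, τ.1 ∈ Q ∧ s.b.F^[n] τ.1 = s.lab τ.2.1 τ.2.2 ∧ ‖τ.1 - s.p‖ < 3 * s.R / 4 ∧
        s.sz (n + τ.2.2) τ.1 < η) ∧ c ≤ ∑ τ ∈ W, s.sz (n + τ.2.2) τ.1 := by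
  obtain ⟨C, hC1, hC⟩ := s.crossing
  have hC0 : 0 < C := by linarith
  have hR := s.hR
  refine ⟨s.R / 16 / (2 * C), by positivity, fun η hη Q hQ => ?_⟩
  obtain ⟨n₀, hn₀⟩ := hC η hη
  set I : Set ℝ := Ioo (3 * s.R / 8) (s.R / 2) with hI
  set E : ℕ → Set ℝ := fun n => {t | t ∈ I ∧ t ∉ s.bad ∧ ∃ z ∈ Q, z ∈ s.V n ∧ ‖z - s.p‖ = t} with hE
  have hEmono : Monotone E := by
    intro m n hmn t ht
    obtain ⟨h1, h1b, z, h2, h3, h4⟩ := ht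
    exact ⟨h1, h1b, z, h2, s.V_mono hmn h3, h4⟩
  have hEU : ⋃ n, E n = I \ s.bad := by
    apply Subset.antisymm
    · exact iUnion_subset fun n t ht => ⟨ht.1, ht.2.1⟩
    · intro t ht
      obtain ⟨z, hz, hzt⟩ := hQ.2.1 t ⟨by linarith [ht.1.1], ht.1.2⟩
      obtain ⟨m, hm⟩ := s.V_union (s.O_sub (hQ.1 hz)).1
      exact mem_iUnion.mpr ⟨m, ht.1, ht.2, z, hz, hm, hzt⟩
  have hlim : Tendsto (fun n => volume (E n)) atTop (𝓝 (volume (I \ s.bad))) := by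
    rw [← hEU]
    exact tendsto_measure_iUnion_atTop hEmono
  have hvol : ENNReal.ofReal (s.R / 16) < volume (I \ s.bad) := by
    rw [measure_sdiff_null (s.bad_countable.measure_zero volume), hI, Real.volume_Ioo]
    exact (ENNReal.ofReal_lt_ofReal_iff (by linarith)).mpr (by linarith)
  obtain ⟨n₂, hn₂⟩ := (hlim.eventually (lt_mem_nhds hvol)).exists_forall_of_atTop
  refine ⟨max n₀ n₂, fun n hn => ?_⟩
  have hnn₀ : n ≥ n₀ := (le_max_left _ _).trans hn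
  have hnn₂ : n ≥ n₂ := (le_max_right _ _).trans hn
  set P : Set (ℂ × Bool × ℕ) := {τ | τ.1 ∈ Q ∧ s.b.F^[n] τ.1 = s.lab τ.2.1 τ.2.2 ∧
    s.sz (n + τ.2.2) τ.1 < η ∧ ‖τ.1 - s.p‖ < 3 * s.R / 4} with hP
  have hPc : P.Countable := (s.countable_lab n).mono fun w hw => hw.2.1
  have hcov : E n ⊆ ⋃ τ ∈ P, closedBall ‖τ.1 - s.p‖ (C * s.sz (n + τ.2.2) τ.1) := by
    rintro t ⟨htI, htb, z, hzQ, hzV, hzt⟩
    obtain ⟨w, hwQ, σ, j, hwF, hwsz, hwp, hwt⟩ := hn₀ n hnn₀ Q hQ t htI htb z hzQ hzV hzt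
    refine mem_iUnion₂.mpr ⟨(w, σ, j), ⟨hwQ, hwF, hwsz, hwp⟩, ?_⟩
    rw [mem_closedBall, Real.dist_eq]
    exact hwt
  have hszpos : ∀ τ : P, 0 < s.sz (n + τ.1.2.2) τ.1.1 := fun τ =>
    s.sz_pos (s.O_sub (hQ.1 τ.2.1)).1 (s.F_add τ.2.2.1)
  have hmeas : ENNReal.ofReal (s.R / 16) <
      ∑' τ : P, ENNReal.ofReal (2 * (C * s.sz (n + τ.1.2.2) τ.1.1)) := by
    calc ENNReal.ofReal (s.R / 16) < volume (E n) := hn₂ n hnn₂
      _ ≤ volume (⋃ τ ∈ P, closedBall ‖τ.1 - s.p‖ (C * s.sz (n + τ.2.2) τ.1)) :=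
          measure_mono hcov
      _ ≤ ∑' τ : P, volume (closedBall ‖τ.1.1 - s.p‖ (C * s.sz (n + τ.1.2.2) τ.1.1)) :=
          measure_biUnion_le _ hPc _
      _ = ∑' τ : P, ENNReal.ofReal (2 * (C * s.sz (n + τ.1.2.2) τ.1.1)) := by
          congr 1
          ext w
          rw [Real.volume_closedBall]
  rw [ENNReal.tsum_eq_iSup_sum, lt_iSup_iff] at hmeas
  obtain ⟨A, hA⟩ := hmeas
  rw [← ENNReal.ofReal_sum_of_nonneg (fun w _ => by have := hszpos w; positivity)] at hA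
  have hA2 : s.R / 16 < ∑ τ ∈ A, 2 * (C * s.sz (n + τ.1.2.2) τ.1.1) := by
    by_contra hcon
    push Not at hcon
    exact absurd hA (not_lt.mpr (ENNReal.ofReal_le_ofReal hcon))
  refine ⟨A.map (Function.Embedding.subtype _), ?_, ?_⟩
  · intro w hw
    rw [Finset.mem_map] at hw
    obtain ⟨w', -, rfl⟩ := hw
    exact ⟨w'.2.1, w'.2.2.1, w'.2.2.2.2, w'.2.2.2.1⟩
  · rw [Finset.sum_map]
    simp only [Function.Embedding.subtype_apply]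
    rw [div_le_iff₀ (by positivity), Finset.sum_mul]
    refine hA2.le.trans (le_of_eq ?_)
    exact Finset.sum_congr rfl fun w _ => by ring

end PS

end Pool.Agent.BB.P
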