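import Pool.Agent.BB.P.STAGE
import Pool.Agent.BB.P.ONECH
import Pool.Agent.BB.P.CHAN
import Pool.Agent.BB.P.DISC

/-!
# Parabolic basins: many labelled preimages
-/

open Set Metric Filter Topology MeasureTheory

namespace Pool.Agent.BB.P

namespace PS

variable (s : PS)

/-- many labelled preimages of one level -/
theorem many : ∃ c : ℝ, 0 < c ∧ ∀ (N : ℕ) (η : ℝ), 0 < η → ∃ (n : ℕ)
    (W : Finset (ℂ × Bool × ℕ)), (∀ τ ∈ W, τ.1 ∈ s.O ∧ s.b.F^[n] τ.1 = s.lab τ.2.1 τ.2.2 ∧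
      ‖τ.1 - s.p‖ < 3 * s.R / 4 ∧ s.sz (n + τ.2.2) τ.1 < η) ∧
      c * N ≤ ∑ τ ∈ W, s.sz (n + τ.2.2) τ.1 := by
  classical
  obtain ⟨c, hc, hone⟩ := s.one_channel
  refine ⟨c, hc, fun N η hη => ?_⟩
  obtain ⟨t₂, x, hx⟩ := s.hrect N
  obtain ⟨C, hC1, hC⟩ := s.channels hx
  have hR := s.hR
  have hC0 : 0 < C := by linarith
  obtain ⟨n₀, v, hvO, hvF, hvp, hvs⟩ := s.stage0 (η := s.R / (8 * C)) (by positivity)
  obtain ⟨Q, hQ, hQd⟩ := hC n₀ v hvO hvF hvp (by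
    have h1 : C * s.sz n₀ v < C * (s.R / (8 * C)) := by gcongr
    have h2 : C * (s.R / (8 * C)) = s.R / 8 := by field_simp
    linarith)
  have hone' : ∀ i : ℕ, ∃ n₁ : ℕ, ∀ n ≥ n₁, i < N → ∃ W : Finset (ℂ × Bool × ℕ),
      (∀ τ ∈ W, τ.1 ∈ Q i ∧ s.b.F^[n] τ.1 = s.lab τ.2.1 τ.2.2 ∧ ‖τ.1 - s.p‖ < 3 * s.R / 4 ∧
        s.sz (n + τ.2.2) τ.1 < η) ∧ c ≤ ∑ τ ∈ W, s.sz (n + τ.2.2) τ.1 := by
    intro i
    by_cases hi : i < N
    · obtain ⟨n₁, h⟩ := hone η hη (Q i) (hQ i hi)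
      exact ⟨n₁, fun n hn _ => h n hn⟩
    · exact ⟨0, fun n _ h => absurd h hi⟩
  choose n₁ hn₁ using hone'
  set n : ℕ := (Finset.range N).sup n₁ with hn
  have hnle : ∀ i < N, n₁ i ≤ n := fun i hi => Finset.le_sup (Finset.mem_range.mpr hi)
  have hW : ∀ i : ℕ, ∃ W : Finset (ℂ × Bool × ℕ), i < N →
      (∀ τ ∈ W, τ.1 ∈ Q i ∧ s.b.F^[n] τ.1 = s.lab τ.2.1 τ.2.2 ∧ ‖τ.1 - s.p‖ < 3 * s.R / 4 ∧
        s.sz (n + τ.2.2) τ.1 < η) ∧ c ≤ ∑ τ ∈ W, s.sz (n + τ.2.2) τ.1 := by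
    intro i
    by_cases hi : i < N
    · obtain ⟨W, h⟩ := hn₁ i n (hnle i hi) hi
      exact ⟨W, fun _ => h⟩
    · exact ⟨∅, fun h => absurd h hi⟩
  choose W hW using hW
  refine ⟨n, (Finset.range N).biUnion W, ?_, ?_⟩
  · intro τ hτ
    rw [Finset.mem_biUnion] at hτ
    obtain ⟨i, hi, hτi⟩ := hτ
    rw [Finset.mem_range] at hi
    obtain ⟨h1, h2, h3, h4⟩ := (hW i hi).1 τ hτi
    exact ⟨(hQ i hi).1 h1, h2, h3, h4⟩
  · rw [Finset.sum_biUnion]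
    · calc c * (N : ℝ) = ∑ _i ∈ Finset.range N, c := by
            rw [Finset.sum_const, Finset.card_range, nsmul_eq_mul]; ring
        _ ≤ _ := Finset.sum_le_sum fun i hi => (hW i (Finset.mem_range.mp hi)).2
    · intro i hi i' hi' hne
      rw [Finset.mem_coe, Finset.mem_range] at hi hi'
      rw [Function.onFun, Finset.disjoint_left]
      intro τ hτ hτ'
      exact Set.disjoint_left.mp (hQd i hi i' hi' hne) ((hW i hi).1 τ hτ).1 ((hW i' hi').1 τ hτ').1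

/-- the same with all labels in one class -/
theorem thin {K η : ℝ} (hη : 0 < η) (k₁ : ℕ) (hk₁ : 1 ≤ k₁) : ∃ (n : ℕ) (σ : Bool) (r : ℕ)
    (W : Finset (ℂ × ℕ)), (∀ τ ∈ W, τ.1 ∈ s.O ∧ s.b.F^[n] τ.1 = s.lab σ τ.2 ∧
      τ.2 % k₁ = r ∧ ‖τ.1 - s.p‖ < 3 * s.R / 4 ∧ s.sz (n + τ.2) τ.1 < η) ∧
      K ≤ ∑ τ ∈ W, s.sz (n + τ.2) τ.1 := by
  classical
  obtain ⟨c, hc, hmany⟩ := s.many
  obtain ⟨N, hN⟩ := exists_nat_ge (2 * k₁ * K / c)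
  obtain ⟨n, W, hW, hWs⟩ := hmany N η hη
  have hsum : 2 * (k₁ : ℝ) * K ≤ ∑ τ ∈ W, s.sz (n + τ.2.2) τ.1 := by
    refine le_trans ?_ hWs
    rw [div_le_iff₀ hc] at hN
    linarith
  have hmaps : ∀ τ ∈ W, (τ.2.1, τ.2.2 % k₁) ∈
      (Finset.univ : Finset Bool) ×ˢ Finset.range k₁ := by
    intro τ _
    rw [Finset.mem_product, Finset.mem_range]
    exact ⟨Finset.mem_univ _, Nat.mod_lt _ (by omega)⟩
  obtain ⟨⟨σ, r⟩, -, hcl⟩ := Finset.exists_le_sum_fiber_of_maps_to_of_nsmul_le_sum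
    (s := W) (t := (Finset.univ : Finset Bool) ×ˢ Finset.range k₁)
    (f := fun τ => (τ.2.1, τ.2.2 % k₁)) (w := fun τ => s.sz (n + τ.2.2) τ.1) (b := K) hmaps
    ⟨(true, 0), by rw [Finset.mem_product, Finset.mem_range]; exact ⟨Finset.mem_univ _, by omega⟩⟩
    (by
      rw [Finset.card_product, Finset.card_univ, Fintype.card_bool, Finset.card_range,
        nsmul_eq_mul]
      push_cast
      exact hsum)
  refine ⟨n, σ, r, (W.filter fun τ => (τ.2.1, τ.2.2 % k₁) = (σ, r)).image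
    fun τ => (τ.1, τ.2.2), ?_, ?_⟩
  · intro τ hτ
    rw [Finset.mem_image] at hτ
    obtain ⟨τ', hτ', rfl⟩ := hτ
    rw [Finset.mem_filter, Prod.mk.injEq] at hτ'
    obtain ⟨h1, h2, h3⟩ := hτ'
    obtain ⟨h4, h5, h6, h7⟩ := hW τ' h1
    refine ⟨h4, ?_, h3, h6, h7⟩
    rw [← h2]
    exact h5
  · rw [Finset.sum_image]
    · exact hcl
    · intro τ hτ τ' hτ' heq
      rw [Finset.mem_coe, Finset.mem_filter, Prod.mk.injEq] at hτ hτ'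
      rw [Prod.mk.injEq] at heq
      exact Prod.ext heq.1 (Prod.ext (hτ.2.1.trans hτ'.2.1.symm) heq.2)

end PS

end Pool.Agent.BB.P
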