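import Pool.Agent.BB.P.Basic

open Set Metric Filter Topology MeasureTheory

namespace Pool.Agent.BB.P

/-- a sequence of `q`-th roots of unity which tends to `1` is eventually `1` -/
private lemma pwe_root {q : ℕ} (hq : 1 ≤ q) {D : ℕ → ℂ} (hD : Tendsto D atTop (𝓝 1))
    (hq1 : ∀ n, D n ^ q = 1) : ∀ᶠ n in atTop, D n = 1 := by
  have h1 : Tendsto (fun n => ∑ i ∈ Finset.range q, D n ^ i) atTop
      (𝓝 (∑ i ∈ Finset.range q, (1:ℂ) ^ i)) :=
    tendsto_finsetSum _ fun i _ => hD.pow i
  simp only [one_pow, Finset.sum_const, Finset.card_range, nsmul_eq_mul, mul_one] at h1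
  have h2 : (q : ℂ) ≠ 0 := by exact_mod_cast (by omega : q ≠ 0)
  filter_upwards [h1.eventually_ne h2] with n hn
  have h3 := mul_geom_sum (D n) q
  rw [hq1 n, sub_self] at h3
  rcases mul_eq_zero.1 h3 with h4 | h4
  · exact sub_eq_zero.1 h4
  · exact absurd h4 hn

/-- orbits which converge to a parabolic point end in one petal -/
theorem pw_enter {T : ℂ → ℂ} {ζ a : ℂ} {q : ℕ} (h : Par T ζ a q) {x : ℕ → ℂ}
    (hx : Tendsto x atTop (𝓝 ζ)) (hne : ∀ n, x n ≠ ζ) (hT : ∀ n, x (n + 1) = T (x n)) (R : ℝ) :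
    ∃ c : ℂ, c ^ q * (q * a) = -1 ∧ ∃ N : ℕ, ∀ n ≥ N, ∃ w ∈ Vs R, x n = Xc ζ c q w := by
  have hq := h.hq
  have ha := h.ha
  have hqc : (q : ℂ) ≠ 0 := by exact_mod_cast (by omega : q ≠ 0)
  set y : ℕ → ℂ := fun n => x n - ζ with hy
  have hy0 : ∀ n, y n ≠ 0 := fun n => sub_ne_zero.2 (hne n)
  have hyt : Tendsto y atTop (𝓝 0) := by
    have := hx.sub_const ζ
    rwa [sub_self] at this
  set e : ℕ → ℂ := fun n => (y (n + 1) - y n) / y n ^ (q + 1) with he
  have het : Tendsto e atTop (𝓝 a) := by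
    have h1 := (h.ho.comp_tendsto hyt).tendsto_div_nhds_zero
    have h2 := h1.add_const a
    rw [zero_add] at h2
    refine h2.congr fun n => ?_
    have h3 : y n ^ (q + 1) ≠ 0 := pow_ne_zero _ (hy0 n)
    have h4 : T (ζ + y n) = ζ + y (n + 1) := by
      simp only [hy, add_sub_cancel]
      exact (hT n).symm
    simp only [Function.comp_apply, he, h4]
    field_simp
    ring
  set d : ℕ → ℂ := fun n => y (n + 1) / y n with hd
  have hd0 : ∀ n, d n ≠ 0 := fun n => div_ne_zero (hy0 _) (hy0 _)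
  have hde : ∀ n, d n - 1 = e n * y n ^ q := by
    intro n
    have h3 := hy0 n
    simp only [hd, he]
    rw [pow_succ]
    field_simp
  have hdt : Tendsto d atTop (𝓝 1) := by
    have h1 : Tendsto (fun n => e n * y n ^ q + 1) atTop (𝓝 (a * 0 ^ q + 1)) :=
      (het.mul (hyt.pow q)).add_const 1
    rw [zero_pow (by omega), mul_zero, zero_add] at h1
    refine h1.congr fun n => ?_
    rw [← hde n]
    ring
  set w : ℕ → ℂ := fun n => -1 / (q * a * y n ^ q) with hw
  have hw0 : ∀ n, w n ≠ 0 := fun n =>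
    div_ne_zero (by norm_num) (mul_ne_zero (mul_ne_zero hqc ha) (pow_ne_zero _ (hy0 n)))
  have hwt : Tendsto (fun n => w (n + 1) - w n) atTop (𝓝 1) := by
    have h1 : Tendsto (fun n => 1 / (q * a) * e n * (∑ i ∈ Finset.range q, d n ^ i) / d n ^ q)
        atTop (𝓝 (1 / (q * a) * a * (∑ i ∈ Finset.range q, (1:ℂ) ^ i) / 1 ^ q)) := by
      refine Tendsto.div ?_ (hdt.pow q) (by simp)
      exact (het.const_mul _).mul (tendsto_finsetSum _ fun i _ => hdt.pow i)
    have h2 : 1 / (q * a) * a * (∑ i ∈ Finset.range q, (1:ℂ) ^ i) / 1 ^ q = 1 := by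
      simp only [one_pow, Finset.sum_const, Finset.card_range, nsmul_eq_mul, mul_one, div_one]
      field_simp
    rw [h2] at h1
    refine h1.congr fun n => ?_
    have h3 := hy0 n
    have h4 := hd0 n
    have h5 : y (n + 1) = d n * y n := by
      simp only [hd]
      field_simp
    have h6 := mul_geom_sum (d n) q
    rw [hde n] at h6
    have h7 : d n ^ q ≠ 0 := pow_ne_zero _ h4
    have h8 : y n ^ q ≠ 0 := pow_ne_zero _ h3
    have h9 : e n * (∑ i ∈ Finset.range q, d n ^ i) = (d n ^ q - 1) / y n ^ q := by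
      rw [eq_div_iff h8, ← h6]
      ring
    simp only [hw, h5]
    rw [mul_pow, mul_assoc, h9]
    field_simp
    ring
  -- `w n / n → 1`
  have hv : Tendsto (fun n : ℕ => w n / n) atTop (𝓝 1) := by
    have h1 := hwt.cesaro_smul
    have h2 : Tendsto (fun n : ℕ => ((n : ℝ)⁻¹ : ℝ) • w 0) atTop (𝓝 ((0 : ℝ) • w 0)) :=
      (tendsto_inv_atTop_nhds_zero_nat (𝕜 := ℝ)).smul_const (w 0)
    have h3 := h1.add h2
    rw [zero_smul, add_zero] at h3
    refine h3.congr fun n => ?_
    rw [Finset.sum_range_sub w n, ← smul_add, sub_add_cancel, Complex.real_smul, div_eq_inv_mul]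
    push_cast
    rfl
  have hre : ∀ᶠ n : ℕ in atTop, 1 ≤ n ∧ (n : ℝ) / 2 ≤ (w n).re := by
    have h1 : Tendsto (fun n : ℕ => (w n / n).re) atTop (𝓝 1) :=
      (Complex.continuous_re.tendsto 1).comp hv
    filter_upwards [h1.eventually (lt_mem_nhds (by norm_num : (1 / 2 : ℝ) < 1)),
      eventually_ge_atTop 1] with n hn hn1
    refine ⟨hn1, ?_⟩
    have hnp : (0 : ℝ) < n := by exact_mod_cast hn1
    have h2 : (w n / n).re = (w n).re / n := by
      rw [← Complex.ofReal_natCast, Complex.div_ofReal_re]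
    rw [h2, lt_div_iff₀ hnp] at hn
    linarith
  -- logarithms
  have hlog : Tendsto (fun n : ℕ => Complex.log (w (n + 1)) - Complex.log (w n)) atTop (𝓝 0) := by
    have h1 : Tendsto (fun n : ℕ => Complex.log (w n / n)) atTop (𝓝 0) := by
      have h2 : ContinuousAt Complex.log 1 := continuousAt_clog (by simp)
      have h3 := h2.tendsto.comp hv
      rwa [Complex.log_one] at h3
    have h4 : Tendsto (fun n : ℕ => ((Real.log (n + 1) - Real.log n : ℝ) : ℂ)) atTop (𝓝 0) := by
      have h6 := (Complex.continuous_ofReal.tendsto 0).comp Real.tendsto_log_nat_add_one_sub_log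
      rw [Complex.ofReal_zero] at h6
      exact h6
    have h5 := h4.add (((tendsto_add_atTop_iff_nat 1).2 h1).sub h1)
    rw [sub_zero, add_zero] at h5
    refine h5.congr' ?_
    filter_upwards [eventually_ge_atTop 1] with n hn
    have key : ∀ m : ℕ, 1 ≤ m →
        Complex.log (w m) = (Real.log m : ℂ) + Complex.log (w m / m) := by
      intro m hm
      have hmp : (0 : ℝ) < m := by exact_mod_cast hm
      have hm0 : (m : ℂ) ≠ 0 := by exact_mod_cast (by omega : m ≠ 0)
      rw [← Complex.log_ofReal_mul hmp (div_ne_zero (hw0 m) hm0)]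
      congr 1
      push_cast
      field_simp
    rw [key n hn, key (n + 1) (by omega)]
    push_cast
    ring
  -- the constants
  set c : ℕ → ℂ := fun n => y n * Complex.exp (Complex.log (w n) / q) with hc
  have hcq : ∀ n, c n ^ q * (q * a) = -1 := by
    intro n
    have h1 : Complex.exp (Complex.log (w n) / q) ^ q = w n := by
      rw [← Complex.exp_nat_mul, mul_div_cancel₀ _ hqc, Complex.exp_log (hw0 n)]
    have h3 : y n ^ q ≠ 0 := pow_ne_zero _ (hy0 n)
    simp only [hc, mul_pow, h1]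
    simp only [hw]
    field_simp
  have hc0 : ∀ n, c n ≠ 0 := fun n => mul_ne_zero (hy0 n) (Complex.exp_ne_zero _)
  have hcx : ∀ n, x n = Xc ζ (c n) q (w n) := by
    intro n
    simp only [Xc, hc]
    rw [mul_assoc, ← Complex.exp_add, add_neg_cancel, Complex.exp_zero, mul_one]
    simp [hy]
  set D : ℕ → ℂ := fun n => c (n + 1) / c n with hDdef
  have hDq : ∀ n, D n ^ q = 1 := by
    intro n
    have h1 : c (n + 1) ^ q = c n ^ q := by
      have h2 : c (n + 1) ^ q * (q * a) = c n ^ q * (q * a) := by rw [hcq, hcq]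
      exact mul_right_cancel₀ (mul_ne_zero hqc ha) h2
    simp only [hDdef, div_pow, h1]
    exact div_self (pow_ne_zero _ (hc0 n))
  have hDt : Tendsto D atTop (𝓝 1) := by
    have h1 : Tendsto (fun n => d n * Complex.exp
        ((Complex.log (w (n + 1)) - Complex.log (w n)) / q)) atTop (𝓝 (1 * Complex.exp (0 / q))) :=
      hdt.mul ((Complex.continuous_exp.tendsto _).comp (hlog.div_const _))
    rw [zero_div, Complex.exp_zero, mul_one] at h1
    refine h1.congr fun n => ?_
    simp only [hDdef, hc, hd]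
    rw [sub_div (Complex.log (w (n + 1))), Complex.exp_sub]
    have h3 := hy0 n
    have h4 := Complex.exp_ne_zero (Complex.log (w n) / q)
    field_simp
  obtain ⟨N₁, hN₁⟩ := eventually_atTop.1 (pwe_root hq hDt hDq)
  obtain ⟨N₂, hN₂⟩ := eventually_atTop.1 hre
  obtain ⟨N₃, hN₃⟩ := exists_nat_gt (2 * R)
  have hconst : ∀ n ≥ N₁, c n = c N₁ := by
    intro n hn
    induction n, hn using Nat.le_induction with
    | base => rfl
    | succ m hm ih =>
      have h1 := hN₁ m hm
      rw [← ih]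
      exact (div_eq_one_iff_eq (hc0 m)).1 h1
  refine ⟨c N₁, hcq N₁, max N₁ (max N₂ N₃), fun n hn => ⟨w n, ?_, ?_⟩⟩
  · have h1 := hN₂ n (le_trans (le_trans (le_max_left _ _) (le_max_right _ _)) hn)
    have h2 : N₃ ≤ n := le_trans (le_trans (le_max_right _ _) (le_max_right _ _)) hn
    have h3 : (N₃ : ℝ) ≤ n := by exact_mod_cast h2
    change R < (w n).re + |(w n).im|
    have := abs_nonneg (w n).im
    linarith [h1.2]
  · rw [← hconst n (le_trans (le_max_left _ _) hn)]
    exact hcx n

end Pool.Agent.BB.P
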