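import Pool.Agent.BB.P.PW
import Pool.Agent.BB.P.PWI
import Pool.Agent.BB.P.PWE

open Set Metric Filter Topology MeasureTheory

namespace Pool.Agent.BB.P

variable {F : ℂ → ℂ} {ζ a : ℂ} {q : ℕ}

lemma Par.fix (h : Par F ζ a q) : F ζ = ζ := by
  have h1 := (h.ho.def one_pos).self_of_nhds
  simp only [add_zero, sub_zero, ne_eq, Nat.add_eq_zero_iff, one_ne_zero, and_false,
    not_false_eq_true, zero_pow, mul_zero, norm_zero, norm_le_zero_iff] at h1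
  exact sub_eq_zero.1 h1

lemma PBA_fix (h0 : F ζ = ζ) (n : ℕ) : F^[n] ζ = ζ := Function.iterate_fixed h0 n

/-- the orbit of a point is in the basin iff the point is -/
theorem att0_iter (h0 : F ζ = ζ) (n : ℕ) {z : ℂ} : F^[n] z ∈ Att0 F ζ ↔ z ∈ Att0 F ζ := by
  have h1 : ∀ m : ℕ, F^[m] (F^[n] z) = F^[m + n] z := fun m =>
    (Function.iterate_add_apply F m n z).symm
  constructor
  · rintro ⟨h2, h3⟩
    simp only [h1] at h2 h3
    refine ⟨(tendsto_add_atTop_iff_nat n).1 h2, fun m hm => ?_⟩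
    apply h3 m
    rw [add_comm, Function.iterate_add_apply, hm, PBA_fix h0]
  · rintro ⟨h2, h3⟩
    refine ⟨?_, fun m => ?_⟩
    · simp only [h1]
      exact (tendsto_add_atTop_iff_nat n).2 h2
    · rw [h1]
      exact h3 _

lemma PBA_c_ne (h : Par F ζ a q) {c : ℂ} (hc : c ^ q * (q * a) = -1) : c ≠ 0 := by
  have hq := h.hq
  rintro rfl
  rw [zero_pow (by omega), zero_mul] at hc
  exact neg_ne_zero.2 one_ne_zero hc.symm

lemma PBA_isOpen (h : Par F ζ a q) {c : ℂ} (hc : c ^ q * (q * a) = -1) {R : ℝ} (hR : 0 ≤ R)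
    {V : Set ℂ} (hV : IsOpen V) (hVR : V ⊆ Vs R) : IsOpen (Xc ζ c q '' V) := by
  have h1 := xc_facts (ζ := ζ) h.hq (PBA_c_ne h hc)
  exact isOpen_image_of_inj Complex.isOpen_slitPlane h1.1 h1.2.1 hV
    (hVR.trans (Vs_slit hR))

/-- the basic radius -/
lemma PBA_base (h : Par F ζ a q) : ∃ R₀ : ℝ, 1 ≤ R₀ ∧ ∀ c : ℂ, c ^ q * (q * a) = -1 →
    ∀ w ∈ Vs R₀, ∀ n : ℕ, (Gc F ζ c q)^[n] w ∈ Vs R₀ ∧
      ‖(Gc F ζ c q)^[n] w - w - n‖ ≤ (n : ℝ) / 4 ∧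
      F^[n] (Xc ζ c q w) = Xc ζ c q ((Gc F ζ c q)^[n] w) := by
  obtain ⟨R₀, hR₀, h1⟩ := pw_conj h (show (0 : ℝ) < 1 / 4 by norm_num)
  refine ⟨R₀, hR₀, fun c hc w hw n => ?_⟩
  have h2 := (h1 c hc).2
  have h3 : ∀ w ∈ Vs R₀, ‖Gc F ζ c q w - w - 1‖ ≤ 1 / 4 := fun w hw => (h2 w hw).2.2
  refine ⟨(pw_iter h3 hw n).1, (pw_iter h3 hw n).2, ?_⟩
  induction n with
  | zero => rfl
  | succ n ih =>
    rw [Function.iterate_succ_apply', ih, Function.iterate_succ_apply',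
      (h2 _ (pw_iter h3 hw n).1).2.1]

lemma PBA_re {w w' : ℂ} {n : ℕ} (h : ‖w' - w - n‖ ≤ (n : ℝ) / 4) :
    w.re + 3 * n / 4 ≤ w'.re := by
  have h1 := (Complex.abs_re_le_norm _).trans h
  simp only [Complex.sub_re, Complex.natCast_re] at h1
  have h2 := (abs_le.1 h1).1
  linarith

/-- petals are contained in the basin -/
theorem att0_petal (hF : Differentiable ℂ F) (h : Par F ζ a q) : ∃ R₀ : ℝ, 1 ≤ R₀ ∧ ∀ R ≥ R₀,
    ∀ c : ℂ, c ^ q * (q * a) = -1 → Xc ζ c q '' Vs R ⊆ Att0 F ζ ∧ IsOpen (Xc ζ c q '' Vs R) := by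
  obtain ⟨R₀, hR₀, h1⟩ := PBA_base h
  refine ⟨R₀, hR₀, fun R hR c hc => ⟨?_, PBA_isOpen h hc (by linarith : (0:ℝ) ≤ R) (isOpen_Vs R)
    subset_rfl⟩⟩
  rintro _ ⟨w, hw, rfl⟩
  have hw' : w ∈ Vs R₀ := lt_of_le_of_lt hR hw
  have h2 := h1 c hc w hw'
  refine ⟨?_, fun n => ?_⟩
  · rw [Metric.tendsto_atTop]
    intro ε hε
    obtain ⟨M, hM, h3⟩ := xc_small (ζ := ζ) (c := c) h.hq hε
    obtain ⟨N, hN⟩ := exists_nat_ge ((M - w.re) * 2)
    refine ⟨N, fun n hn => ?_⟩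
    rw [dist_eq_norm, (h2 n).2.2]
    apply h3
    have h4 := PBA_re (h2 n).2.1
    have h5 : (N : ℝ) ≤ n := by exact_mod_cast hn
    have h6 : (0 : ℝ) ≤ n := by positivity
    have h7 := (le_abs_self _).trans (Complex.abs_re_le_norm ((Gc F ζ c q)^[n] w))
    linarith
  · rw [(h2 n).2.2]
    exact (xc_facts h.hq (PBA_c_ne h hc)).2.2 _

/-- local form: near a point of the basin the Fatou coordinates tend to `∞` uniformly -/
lemma PBA_local (hF : Differentiable ℂ F) (h : Par F ζ a q) {z : ℂ} (hz : z ∈ Att0 F ζ) :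
    ∃ c : ℂ, c ^ q * (q * a) = -1 ∧ ∃ W ∈ 𝓝 z, ∀ M : ℝ, ∃ N : ℕ, ∀ n ≥ N, ∀ z' ∈ W,
      ∃ w : ℂ, M < w.re ∧ F^[n] z' = Xc ζ c q w := by
  obtain ⟨R₀, hR₀, h1⟩ := PBA_base h
  obtain ⟨c, hc, N₀, hN₀⟩ := pw_enter h (x := fun n => F^[n] z) hz.1 hz.2
    (fun n => Function.iterate_succ_apply' F n z) R₀
  obtain ⟨w₀, hw₀, hzw⟩ := hN₀ N₀ le_rfl
  refine ⟨c, hc, F^[N₀] ⁻¹' (Xc ζ c q '' (Vs R₀ ∩ ball w₀ 1)), ?_, fun M => ?_⟩
  · have hop := PBA_isOpen h hc (by linarith : (0:ℝ) ≤ R₀) ((isOpen_Vs R₀).inter isOpen_ball)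
      (inter_subset_left (t := ball w₀ 1))
    have hcont : Continuous F^[N₀] := hF.continuous.iterate N₀
    refine (hop.preimage hcont).mem_nhds ?_
    exact ⟨w₀, ⟨hw₀, mem_ball_self one_pos⟩, hzw.symm⟩
  · obtain ⟨m₀, hm₀⟩ := exists_nat_gt ((M - w₀.re + 1) * 2)
    refine ⟨N₀ + m₀, fun n hn z' hz' => ?_⟩
    obtain ⟨w', ⟨hw', hb⟩, hzw'⟩ := hz'
    obtain ⟨m, rfl⟩ := Nat.exists_eq_add_of_le ((Nat.le_add_right N₀ m₀).trans hn)
    have h2 := h1 c hc w' hw' m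
    refine ⟨(Gc F ζ c q)^[m] w', ?_, ?_⟩
    · have h3 := PBA_re h2.2.1
      have h4 : (m₀ : ℝ) ≤ m := by
        have : m₀ ≤ m := by omega
        exact_mod_cast this
      have h5 : |w'.re - w₀.re| < 1 := by
        rw [mem_ball, dist_eq_norm] at hb
        rw [← Complex.sub_re]
        exact (Complex.abs_re_le_norm _).trans_lt hb
      have h6 := (abs_lt.1 h5).1
      have h7 : (0 : ℝ) ≤ m := by positivity
      linarith
    · rw [add_comm, Function.iterate_add_apply, ← hzw', h2.2.2]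

theorem att0_open (hF : Differentiable ℂ F) (h : Par F ζ a q) : IsOpen (Att0 F ζ) := by
  rw [isOpen_iff_mem_nhds]
  intro z hz
  obtain ⟨R₀, hR₀, h1⟩ := att0_petal hF h
  obtain ⟨c, hc, N₀, hN₀⟩ := pw_enter h (x := fun n => F^[n] z) hz.1 hz.2
    (fun n => Function.iterate_succ_apply' F n z) R₀
  obtain ⟨w₀, hw₀, hzw⟩ := hN₀ N₀ le_rfl
  have h2 := h1 R₀ le_rfl c hc
  have hcont : Continuous F^[N₀] := hF.continuous.iterate N₀
  refine mem_of_superset ((h2.2.preimage hcont).mem_nhds ⟨w₀, hw₀, hzw.symm⟩) ?_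
  intro z' hz'
  exact (att0_iter h.fix N₀).1 (h2.1 hz')

theorem att0_unif (hF : Differentiable ℂ F) (h : Par F ζ a q) {K : Set ℂ} (hK : IsCompact K)
    (hKA : K ⊆ Att0 F ζ) {ε : ℝ} (hε : 0 < ε) :
    ∃ N : ℕ, ∀ n ≥ N, ∀ z ∈ K, ‖F^[n] z - ζ‖ < ε := by
  refine hK.induction_on (p := fun s => ∃ N : ℕ, ∀ n ≥ N, ∀ z ∈ s, ‖F^[n] z - ζ‖ < ε) ?_ ?_ ?_ ?_
  · exact ⟨0, fun n _ z hz => absurd hz (notMem_empty z)⟩
  · rintro s t hst ⟨N, hN⟩
    exact ⟨N, fun n hn z hz => hN n hn z (hst hz)⟩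
  · rintro s t ⟨N, hN⟩ ⟨N', hN'⟩
    refine ⟨max N N', fun n hn z hz => ?_⟩
    rcases hz with hz | hz
    · exact hN n ((le_max_left _ _).trans hn) z hz
    · exact hN' n ((le_max_right _ _).trans hn) z hz
  · intro z hz
    obtain ⟨c, hc, W, hW, h1⟩ := PBA_local hF h (hKA hz)
    obtain ⟨M, hM, h3⟩ := xc_small (ζ := ζ) (c := c) h.hq hε
    obtain ⟨N, hN⟩ := h1 M
    refine ⟨W, mem_nhdsWithin_of_mem_nhds hW, N, fun n hn z' hz' => ?_⟩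
    obtain ⟨w, hw, hzw⟩ := hN n hn z' hz'
    rw [hzw]
    apply h3
    exact hw.le.trans ((le_abs_self _).trans (Complex.abs_re_le_norm w))

lemma PBA_coord (h : Par F ζ a q) {c w : ℂ} (hc : c ^ q * (q * a) = -1) (hw : w ≠ 0) :
    -1 / (q * a * (Xc ζ c q w - ζ) ^ q) = w := by
  have h1 : Xc ζ c q w - ζ = c * Complex.exp (-(Complex.log w / q)) := by
    unfold Xc; ring
  rw [h1, mul_pow, PW_pow h.hq hw]
  have h2 : (q : ℂ) * a * (c ^ q * w⁻¹) = -w⁻¹ := by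
    calc (q : ℂ) * a * (c ^ q * w⁻¹) = (c ^ q * (q * a)) * w⁻¹ := by ring
      _ = -w⁻¹ := by rw [hc]; ring
  rw [h2, neg_div_neg_eq, one_div, inv_inv]

/-- on compact sets the Fatou coordinate tends to infinity inside the petals -/
theorem att0_re (hF : Differentiable ℂ F) (h : Par F ζ a q) {K : Set ℂ} (hK : IsCompact K)
    (hKA : K ⊆ Att0 F ζ) (M : ℝ) : ∃ N : ℕ, ∀ n ≥ N, ∀ z ∈ K,
      M < (-1 / (q * a * (F^[n] z - ζ) ^ q)).re := by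
  refine hK.induction_on (p := fun s => ∃ N : ℕ, ∀ n ≥ N, ∀ z ∈ s,
    M < (-1 / (q * a * (F^[n] z - ζ) ^ q)).re) ?_ ?_ ?_ ?_
  · exact ⟨0, fun n _ z hz => absurd hz (notMem_empty z)⟩
  · rintro s t hst ⟨N, hN⟩
    exact ⟨N, fun n hn z hz => hN n hn z (hst hz)⟩
  · rintro s t ⟨N, hN⟩ ⟨N', hN'⟩
    refine ⟨max N N', fun n hn z hz => ?_⟩
    rcases hz with hz | hz
    · exact hN n ((le_max_left _ _).trans hn) z hz
    · exact hN' n ((le_max_right _ _).trans hn) z hz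
  · intro z hz
    obtain ⟨c, hc, W, hW, h1⟩ := PBA_local hF h (hKA hz)
    obtain ⟨N, hN⟩ := h1 (max M 0)
    refine ⟨W, mem_nhdsWithin_of_mem_nhds hW, N, fun n hn z' hz' => ?_⟩
    obtain ⟨w, hw, hzw⟩ := hN n hn z' hz'
    have hw0 : w ≠ 0 := by
      rintro rfl
      rw [Complex.zero_re] at hw
      exact absurd (le_max_right M 0) (not_le.2 hw)
    rw [hzw, PBA_coord h hc hw0]
    exact (le_max_left _ _).trans_lt hw

end Pool.Agent.BB.P
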