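import Pool.Agent.BB.P.PBH
import Pool.Agent.BB.P.PAR

open Set Metric Filter Topology MeasureTheory

namespace Pool.Agent.BB.P

variable {f : ℂ → ℂ} {k : ℕ} {ζ : ℂ}

theorem pbasin_eq : PBasin f k ζ = ⋃ j ∈ Finset.range k, Att0 f^[k] (f^[j] ζ) := by
  ext z
  simp only [PBasin, Att0, mem_setOf_eq, mem_iUnion, Finset.mem_range, exists_prop,
    Function.iterate_mul]

private lemma pbas_fix (hζ : f^[k] ζ = ζ) (j : ℕ) : f^[k] (f^[j] ζ) = f^[j] ζ := by
  rw [← Function.iterate_add_apply, add_comm, Function.iterate_add_apply, hζ]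

private lemma pbas_iter_deriv (hf : Differentiable ℂ f) (hζ : f^[k] ζ = ζ)
    (hd : deriv f^[k] ζ = 1) (m : ℕ) : deriv (f^[k])^[m] ζ = 1 := by
  induction m with
  | zero => simp
  | succ m ih =>
    rw [Function.iterate_succ]
    have h1 : HasDerivAt f^[k] 1 ζ := by
      rw [← hd]; exact (hf.iterate k ζ).hasDerivAt
    have h2 : HasDerivAt (f^[k])^[m] 1 (f^[k] ζ) := by
      rw [hζ, ← ih]; exact ((hf.iterate k).iterate m ζ).hasDerivAt
    have h3 := h2.comp ζ h1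
    rw [one_mul] at h3
    exact h3.deriv

theorem deriv_cycle (hf : Differentiable ℂ f) (hζ : f^[k] ζ = ζ) (hd : deriv f^[k] ζ = 1)
    (j : ℕ) : f^[k] (f^[j] ζ) = f^[j] ζ ∧ deriv f^[k] (f^[j] ζ) = 1 := by
  refine ⟨pbas_fix hζ j, ?_⟩
  rcases Nat.eq_zero_or_pos k with h0 | hk
  · subst h0
    simp
  -- `(f^[j])' ζ ≠ 0`
  have hne : deriv f^[j] ζ ≠ 0 := by
    have h1 : (f^[k])^[j] = f^[k * j - j] ∘ f^[j] := by
      rw [← Function.iterate_mul, ← Function.iterate_add, Nat.sub_add_cancel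
        (Nat.le_mul_of_pos_left j hk)]
    have h2 := pbas_iter_deriv hf hζ hd j
    rw [h1, deriv_comp ζ (hf.iterate _ _) (hf.iterate _ _)] at h2
    intro h3
    rw [h3, mul_zero] at h2
    exact zero_ne_one h2
  have hA : HasDerivAt (f^[k] ∘ f^[j]) (deriv f^[k] (f^[j] ζ) * deriv f^[j] ζ) ζ :=
    (hf.iterate k (f^[j] ζ)).hasDerivAt.comp ζ (hf.iterate j ζ).hasDerivAt
  have hB : HasDerivAt (f^[j] ∘ f^[k]) (deriv f^[j] ζ * 1) ζ := by
    have h1 : HasDerivAt f^[k] 1 ζ := by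
      rw [← hd]; exact (hf.iterate k ζ).hasDerivAt
    have h2 : HasDerivAt f^[j] (deriv f^[j] ζ) (f^[k] ζ) := by
      rw [hζ]; exact (hf.iterate j ζ).hasDerivAt
    exact h2.comp ζ h1
  have hAB : f^[k] ∘ f^[j] = f^[j] ∘ f^[k] := by
    rw [← Function.iterate_add, ← Function.iterate_add, add_comm]
  rw [hAB] at hA
  have h1 := hA.unique hB
  rw [mul_comm (deriv f^[j] ζ) 1] at h1
  exact mul_right_cancel₀ hne h1

private lemma pbas_mod (hζ : f^[k] ζ = ζ) (i : ℕ) : f^[i] ζ = f^[i % k] ζ := by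
  conv_lhs => rw [← Nat.mod_add_div i k, Function.iterate_add_apply, Function.iterate_mul,
    Function.iterate_fixed hζ]

private lemma pbas_mem (hk : 1 ≤ k) (hζ : f^[k] ζ = ζ) {z : ℂ} :
    z ∈ PBasin f k ζ ↔ ∃ i : ℕ, z ∈ Att0 f^[k] (f^[i] ζ) := by
  rw [pbasin_eq]
  simp only [mem_iUnion, Finset.mem_range, exists_prop]
  constructor
  · rintro ⟨j, -, h⟩
    exact ⟨j, h⟩
  · rintro ⟨i, h⟩
    exact ⟨i % k, Nat.mod_lt _ hk, by rw [← pbas_mod hζ]; exact h⟩

private lemma pbas_comm (n i : ℕ) (z : ℂ) : (f^[k])^[n] (f^[i] z) = f^[i] ((f^[k])^[n] z) := by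
  rw [← Function.iterate_mul, ← Function.iterate_add_apply, ← Function.iterate_add_apply,
    add_comm]

private lemma pbas_push (hf : Differentiable ℂ f) (hk : 1 ≤ k) (hζ : f^[k] ζ = ζ) {z : ℂ} {i : ℕ}
    (hz : z ∈ Att0 f^[k] (f^[i] ζ)) : f z ∈ Att0 f^[k] (f^[i + 1] ζ) := by
  constructor
  · have h1 := ((hf.iterate 1).continuous.tendsto _).comp hz.1
    rw [← Function.iterate_add_apply, add_comm 1 i] at h1
    refine h1.congr fun n => ?_
    simp only [Function.comp_apply]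
    rw [← pbas_comm, Function.iterate_one]
  · intro n hn
    apply hz.2 (n + 1)
    have h1 : (f^[k])^[n + 1] z = f^[k - 1] ((f^[k])^[n] (f z)) := by
      rw [← pbas_comm, Function.iterate_succ_apply]
      congr 1
      rw [← Function.iterate_succ_apply]
      congr 1
      congr 1
      omega
    rw [h1, hn, ← Function.iterate_add_apply]
    have h2 : k - 1 + (i + 1) = k + i := by omega
    rw [h2, Function.iterate_add_apply, pbas_fix hζ i]

private lemma pbas_pull (hf : Differentiable ℂ f) (hk : 1 ≤ k) (hζ : f^[k] ζ = ζ) {z : ℂ} {i : ℕ}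
    (hz : f z ∈ Att0 f^[k] (f^[i] ζ)) : z ∈ Att0 f^[k] (f^[k - 1 + i] ζ) := by
  have hstep : ∀ n : ℕ, (f^[k])^[n + 1] z = f^[k - 1] ((f^[k])^[n] (f z)) := by
    intro n
    rw [← pbas_comm, Function.iterate_succ_apply]
    congr 1
    rw [← Function.iterate_succ_apply]
    congr 1
    congr 1
    omega
  constructor
  · have h1 := ((hf.iterate (k - 1)).continuous.tendsto _).comp hz.1
    rw [← Function.iterate_add_apply] at h1
    rw [← tendsto_add_atTop_iff_nat 1]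
    refine h1.congr fun n => ?_
    exact (hstep n).symm
  · intro n hn
    apply hz.2 n
    have h1 : (f^[k])^[n] (f z) = f ((f^[k])^[n] z) := by
      have := pbas_comm (f := f) (k := k) n 1 z
      simpa using this
    rw [h1, hn, ← Function.iterate_succ_apply' f]
    have h2 : (k - 1 + i).succ = k + i := by omega
    rw [h2, Function.iterate_add_apply, pbas_fix hζ i]

private lemma pbas_step (hf : Differentiable ℂ f) (hk : 1 ≤ k) (hζ : f^[k] ζ = ζ) {z : ℂ} :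
    f z ∈ PBasin f k ζ ↔ z ∈ PBasin f k ζ := by
  rw [pbas_mem hk hζ, pbas_mem hk hζ]
  constructor
  · rintro ⟨i, h⟩
    exact ⟨_, pbas_pull hf hk hζ h⟩
  · rintro ⟨i, h⟩
    exact ⟨_, pbas_push hf hk hζ h⟩

theorem pbasin_iter (hf : Differentiable ℂ f) (hk : 1 ≤ k) (hζ : f^[k] ζ = ζ) (m : ℕ) {z : ℂ} :
    f^[m] z ∈ PBasin f k ζ ↔ z ∈ PBasin f k ζ := by
  induction m generalizing z with
  | zero => rfl
  | succ m ih => rw [Function.iterate_succ_apply, ih, pbas_step hf hk hζ]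

private lemma pbas_att_open (hf : Differentiable ℂ f) (hζ : f^[k] ζ = ζ)
    (hd : deriv f^[k] ζ = 1) (hne : ∃ z, f^[k] z ≠ z) (j : ℕ) :
    IsOpen (Att0 f^[k] (f^[j] ζ)) := by
  obtain ⟨h1, h2⟩ := deriv_cycle hf hζ hd j
  obtain ⟨a, q, h⟩ := par_exists (hf.iterate k) h1 h2 hne
  exact att0_open (hf.iterate k) h

theorem pbasin_open (hf : Differentiable ℂ f) (hζ : f^[k] ζ = ζ) (hd : deriv f^[k] ζ = 1)
    (hne : ∃ z, f^[k] z ≠ z) : IsOpen (PBasin f k ζ) := by
  rw [pbasin_eq]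
  exact isOpen_biUnion fun j _ => pbas_att_open hf hζ hd hne j

/-- components of the basin are contained in one of the sets `Att0` -/
theorem pbasin_comp (hf : Differentiable ℂ f) (hζ : f^[k] ζ = ζ) (hd : deriv f^[k] ζ = 1)
    (hne : ∃ z, f^[k] z ≠ z) {C : Set ℂ} (hC : IsPreconnected C) (hCB : C ⊆ PBasin f k ζ)
    {z : ℂ} (hz : z ∈ C) {j : ℕ} (hj : z ∈ Att0 f^[k] (f^[j] ζ)) :
    C ⊆ Att0 f^[k] (f^[j] ζ) := by
  refine hC.subset_of_closure_inter_subset (pbas_att_open hf hζ hd hne j) ⟨z, hz, hj⟩ ?_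
  rintro y ⟨hycl, hyC⟩
  have hyB := hCB hyC
  rw [pbasin_eq] at hyB
  simp only [mem_iUnion] at hyB
  obtain ⟨i, -, hyi⟩ := hyB
  -- the two open sets meet
  obtain ⟨x, hxi, hxj⟩ := mem_closure_iff.mp hycl _ (pbas_att_open hf hζ hd hne i) hyi
  have h1 : f^[i] ζ = f^[j] ζ := tendsto_nhds_unique hxi.1 hxj.1
  rw [← h1]
  exact hyi

theorem pbasin_circle (hf : Differentiable ℂ f) (hζ : f^[k] ζ = ζ) (hd : deriv f^[k] ζ = 1)
    (hne : ∃ z, f^[k] z ≠ z) {p : ℂ} (hp : p ∉ PBasin f k ζ) {t : ℝ} (ht : 0 < t) :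
    ∃ y, ‖y - p‖ = t ∧ y ∉ PBasin f k ζ := by
  by_contra hcon
  push Not at hcon
  have hsub : sphere p t ⊆ PBasin f k ζ := by
    intro y hy
    rw [mem_sphere, dist_eq_norm] at hy
    exact hcon y hy
  have hconn : IsPreconnected (sphere p t) := by
    apply isPreconnected_sphere
    rw [Complex.rank_real_complex]
    norm_num
  set y₀ : ℂ := p + t with hy₀
  have hy₀s : y₀ ∈ sphere p t := by
    rw [mem_sphere, dist_eq_norm, hy₀, add_sub_cancel_left, Complex.norm_real, Real.norm_eq_abs,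
      abs_of_pos ht]
  have h1 := hsub hy₀s
  rw [pbasin_eq] at h1
  simp only [mem_iUnion] at h1
  obtain ⟨j, hj, hy₀j⟩ := h1
  have h2 := pbasin_comp hf hζ hd hne hconn hsub hy₀s hy₀j
  obtain ⟨h3, h4⟩ := deriv_cycle hf hζ hd j
  obtain ⟨a, q, h⟩ := par_exists (hf.iterate k) h3 h4 hne
  have hpj : p ∉ Att0 f^[k] (f^[j] ζ) := by
    intro hpj
    apply hp
    rw [pbasin_eq]
    simp only [mem_iUnion]
    exact ⟨j, hj, hpj⟩
  obtain ⟨y, hy, hyn⟩ := att0_circle (hf.iterate k) h h3 hpj ht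
  exact hyn (h2 (by rw [mem_sphere, dist_eq_norm]; exact hy))

end Pool.Agent.BB.P
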