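import Pool.Agent.BB.P.PBA

open Set Metric Filter Topology MeasureTheory

namespace Pool.Agent.BB.P

variable {F : ℂ → ℂ} {ζ a : ℂ} {q : ℕ}

/-- the reciprocal of the Fatou coordinate -/
noncomputable def PBHu (ζ a : ℂ) (q : ℕ) (x : ℂ) : ℂ := -(q * a * (x - ζ) ^ q)

lemma PBH_u_inv (x : ℂ) : (PBHu ζ a q x)⁻¹ = -1 / (q * a * (x - ζ) ^ q) := by
  unfold PBHu
  rw [inv_neg, neg_div, one_div]

lemma PBH_disc {M : ℝ} (hM : 0 < M) {u : ℂ} (hu : u ≠ 0) :
    ‖u - M‖ < M ↔ 1 / (2 * M) < (u⁻¹).re := by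
  have hn : 0 < Complex.normSq u := Complex.normSq_pos.2 hu
  rw [Complex.inv_re, div_lt_div_iff₀ (by positivity) hn, one_mul]
  have h1 : ‖u - M‖ < M ↔ ‖u - M‖ ^ 2 < M ^ 2 := by
    rw [pow_lt_pow_iff_left₀ (norm_nonneg _) hM.le (by norm_num)]
  rw [h1, Complex.sq_norm, Complex.normSq_apply, Complex.normSq_apply, Complex.sub_re,
    Complex.sub_im, Complex.ofReal_re, Complex.ofReal_im, sub_zero]
  constructor <;> intro h <;> nlinarith

/-- one step in the Fatou coordinate -/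
lemma PBH_step (h : Par F ζ a q) : ∃ R₀ : ℝ, 1 ≤ R₀ ∧ ∀ x : ℂ, x ≠ ζ →
    R₀ < ((PBHu ζ a q x)⁻¹).re →
      ‖(PBHu ζ a q (F x))⁻¹ - (PBHu ζ a q x)⁻¹ - 1‖ ≤ 1 / 4 := by
  obtain ⟨R₀, hR₀, hc⟩ := pw_conj h (ε := 1 / 4) (by norm_num)
  refine ⟨R₀, hR₀, fun x hx hw => ?_⟩
  have hq := h.hq
  have hq0 : (q : ℂ) ≠ 0 := Nat.cast_ne_zero.2 (by omega)
  have hy : x - ζ ≠ 0 := sub_ne_zero.2 hx
  set w := (PBHu ζ a q x)⁻¹ with hwd
  have hu0 : PBHu ζ a q x ≠ 0 := by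
    unfold PBHu
    exact neg_ne_zero.2 (mul_ne_zero (mul_ne_zero hq0 h.ha) (pow_ne_zero _ hy))
  have hw0 : w ≠ 0 := inv_ne_zero hu0
  set c := (x - ζ) * Complex.exp (Complex.log w / q) with hcd
  have hE : Complex.exp (Complex.log w / q) ^ q = w := by
    rw [← Complex.exp_nat_mul, mul_div_cancel₀ _ hq0, Complex.exp_log hw0]
  have hc1 : c ^ q * (q * a) = -1 := by
    rw [hcd, mul_pow, hE]
    have h2 : w * PBHu ζ a q x = 1 := inv_mul_cancel₀ hu0
    unfold PBHu at h2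
    linear_combination -h2
  have hc0 : c ≠ 0 := mul_ne_zero hy (Complex.exp_ne_zero _)
  have hX : Xc ζ c q w = x := by
    unfold Xc
    rw [hcd, mul_assoc, ← Complex.exp_add, add_neg_cancel, Complex.exp_zero, mul_one]
    ring
  have hwV : w ∈ Vs R₀ := by
    have : 0 ≤ |w.im| := abs_nonneg _
    change R₀ < w.re + |w.im|
    linarith
  obtain ⟨-, h3⟩ := hc c hc1
  obtain ⟨h4, h5, h6⟩ := h3 w hwV
  rw [hX] at h4 h5
  have hG0 : Gc F ζ c q w ≠ 0 := by
    unfold Gc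
    rw [hX]
    exact pow_ne_zero _ (div_ne_zero hc0 (sub_ne_zero.2 h4))
  have h7 : (PBHu ζ a q (F x))⁻¹ = Gc F ζ c q w := by
    have h8 : F x - ζ = c * Complex.exp (-(Complex.log (Gc F ζ c q w) / q)) := by
      rw [h5]
      unfold Xc
      ring
    unfold PBHu
    rw [h8, mul_pow, PW_pow hq hG0]
    have h9 : -((q : ℂ) * a * (c ^ q * (Gc F ζ c q w)⁻¹)) = (Gc F ζ c q w)⁻¹ := by
      linear_combination (-(Gc F ζ c q w)⁻¹) * hc1
    rw [h9, inv_inv]
  rw [h7]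
  exact h6

theorem att0_hull (hF : Differentiable ℂ F) (h : Par F ζ a q) (h0 : F ζ = ζ) {K : Set ℂ}
    (hKA : K ⊆ Att0 F ζ) (hK : IsCompact K) {z : ℂ} (hz : z ∉ Att0 F ζ) :
    ∃ G : ℂ → ℂ, Differentiable ℂ G ∧ G z = 1 ∧ ∀ x ∈ K, ‖G x‖ ≤ 1 / 2 := by
  obtain ⟨R₀, hR₀, hstep⟩ := PBH_step h
  have hq := h.hq
  have hq0 : (q : ℂ) ≠ 0 := Nat.cast_ne_zero.2 (by omega)
  have hqR : (0 : ℝ) < q := by exact_mod_cast hq
  have ha : 0 < ‖a‖ := norm_pos_iff.2 h.ha
  set M : ℝ := 1 / (2 * R₀) with hMd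
  have hM : 0 < M := by positivity
  have hMR : 1 / (2 * M) = R₀ := by
    rw [hMd]; field_simp
  have hfix : ∀ n, F^[n] ζ = ζ := fun n => Function.iterate_fixed h0 n
  -- orbits which stay in the disc converge to `ζ`
  have hesc : ∀ n₀ : ℕ, ∃ n ≥ n₀, M ≤ ‖PBHu ζ a q (F^[n] z) - M‖ := by
    intro n₀
    by_contra hcon
    push Not at hcon
    apply hz
    have hne : ∀ n ≥ n₀, F^[n] z ≠ ζ := by
      intro n hn he
      have h1 := hcon n hn
      have h2 : PBHu ζ a q (F^[n] z) = 0 := by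
        unfold PBHu
        rw [he, sub_self, zero_pow (by omega), mul_zero, neg_zero]
      rw [h2, zero_sub, norm_neg, Complex.norm_real, Real.norm_of_nonneg hM.le] at h1
      exact lt_irrefl _ h1
    have hu0 : ∀ n ≥ n₀, PBHu ζ a q (F^[n] z) ≠ 0 := by
      intro n hn
      unfold PBHu
      exact neg_ne_zero.2 (mul_ne_zero (mul_ne_zero hq0 h.ha)
        (pow_ne_zero _ (sub_ne_zero.2 (hne n hn))))
    have hre : ∀ n ≥ n₀, R₀ < ((PBHu ζ a q (F^[n] z))⁻¹).re := by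
      intro n hn
      rw [← hMR]
      exact (PBH_disc hM (hu0 n hn)).1 (hcon n hn)
    have hgrow : ∀ k : ℕ, (3 / 4 : ℝ) * k < ((PBHu ζ a q (F^[n₀ + k] z))⁻¹).re := by
      intro k
      induction k with
      | zero =>
        have := hre n₀ le_rfl
        simp only [Nat.cast_zero, mul_zero, add_zero]
        linarith
      | succ k ih =>
        have h1 := hstep _ (hne (n₀ + k) (by omega)) (hre (n₀ + k) (by omega))
        have h2 := (Complex.abs_re_le_norm _).trans h1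
        rw [← Function.iterate_succ_apply' F] at h2
        rw [Complex.sub_re, Complex.sub_re, Complex.one_re, abs_le] at h2
        have h3 : n₀ + (k + 1) = (n₀ + k).succ := by omega
        rw [h3]
        push_cast
        linarith [h2.1]
    refine ⟨?_, ?_⟩
    · rw [Metric.tendsto_atTop]
      intro ε hε
      obtain ⟨k₀, hk₀⟩ := exists_nat_gt (1 / (q * ‖a‖ * ε ^ q) * (4 / 3))
      refine ⟨n₀ + k₀, fun n hn => ?_⟩
      obtain ⟨k, rfl⟩ := Nat.exists_eq_add_of_le (show n₀ ≤ n by omega)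
      have hk : (k₀ : ℝ) ≤ k := by exact_mod_cast (by omega : k₀ ≤ k)
      have h1 := hgrow k
      have h2 : 1 / (q * ‖a‖ * ε ^ q) < ((PBHu ζ a q (F^[n₀ + k] z))⁻¹).re := by linarith
      have h3 := h2.trans_le (Complex.re_le_norm _)
      rw [dist_eq_norm]
      apply lt_of_pow_lt_pow_left₀ q hε.le
      have h4 : 0 < ‖F^[n₀ + k] z - ζ‖ :=
        norm_pos_iff.2 (sub_ne_zero.2 (hne _ (by omega)))
      rw [norm_inv] at h3
      unfold PBHu at h3
      rw [norm_neg, norm_mul, norm_mul, Complex.norm_natCast, norm_pow, ← one_div,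
        one_div_lt_one_div (by positivity) (by positivity)] at h3
      have h5 : (q : ℝ) * ‖a‖ * ‖F^[n₀ + k] z - ζ‖ ^ q < q * ‖a‖ * ε ^ q := h3
      exact lt_of_mul_lt_mul_left h5 (by positivity)
    · intro n hn
      rcases le_or_gt n₀ n with h1 | h1
      · exact hne n h1 hn
      · apply hne n₀ le_rfl
        have h2 : n₀ = (n₀ - n) + n := by omega
        rw [h2, Function.iterate_add_apply, hn, hfix]
  -- the orbit of `K` enters the disc
  obtain ⟨N, hN⟩ := att0_re hF h hK hKA (1 / (2 * M))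
  obtain ⟨n, hnN, hn⟩ := hesc N
  have hKM : ∀ x ∈ K, ‖PBHu ζ a q (F^[n] x) - M‖ < M := by
    intro x hx
    have hx0 : F^[n] x ≠ ζ := (hKA hx).2 n
    have hu0 : PBHu ζ a q (F^[n] x) ≠ 0 := by
      unfold PBHu
      exact neg_ne_zero.2 (mul_ne_zero (mul_ne_zero hq0 h.ha)
        (pow_ne_zero _ (sub_ne_zero.2 hx0)))
    rw [PBH_disc hM hu0, PBH_u_inv]
    exact hN n hnN x hx
  have hud : Differentiable ℂ fun x => PBHu ζ a q (F^[n] x) := by
    have h1 : Differentiable ℂ F^[n] := hF.iterate n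
    unfold PBHu
    fun_prop
  have hd0 : PBHu ζ a q (F^[n] z) - M ≠ 0 := by
    intro h1
    rw [h1, norm_zero] at hn
    linarith
  -- a uniform bound on `K`
  obtain ⟨r, hr1, hr0, hr⟩ : ∃ r : ℝ, r < 1 ∧ 0 ≤ r ∧ ∀ x ∈ K,
      ‖(PBHu ζ a q (F^[n] x) - M) / (PBHu ζ a q (F^[n] z) - M)‖ ≤ r := by
    rcases K.eq_empty_or_nonempty with hE | hE
    · exact ⟨0, one_pos, le_rfl, fun x hx => by rw [hE] at hx; exact absurd hx (notMem_empty x)⟩
    · obtain ⟨x₀, hx₀, hmax⟩ := hK.exists_isMaxOn hE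
        (f := fun x => ‖(PBHu ζ a q (F^[n] x) - M) / (PBHu ζ a q (F^[n] z) - M)‖)
        (((hud.continuous.sub continuous_const).div_const _).norm.continuousOn)
      refine ⟨_, ?_, norm_nonneg _, fun x hx => hmax hx⟩
      rw [norm_div, div_lt_one (norm_pos_iff.2 hd0)]
      exact (hKM x₀ hx₀).trans_le hn
  obtain ⟨k, hk⟩ := exists_pow_lt_of_lt_one (show (0 : ℝ) < 1 / 2 by norm_num) hr1
  refine ⟨fun x => ((PBHu ζ a q (F^[n] x) - M) / (PBHu ζ a q (F^[n] z) - M)) ^ k, ?_, ?_, ?_⟩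
  · exact ((hud.sub_const _).div_const _).pow k
  · simp only
    rw [div_self hd0, one_pow]
  · intro x hx
    simp only
    rw [norm_pow]
    calc _ ≤ r ^ k := pow_le_pow_left₀ (norm_nonneg _) (hr x hx) k
      _ ≤ 1 / 2 := hk.le

theorem att0_circle (hF : Differentiable ℂ F) (h : Par F ζ a q) (h0 : F ζ = ζ) {p : ℂ}
    (hp : p ∉ Att0 F ζ) {t : ℝ} (ht : 0 < t) : ∃ y, ‖y - p‖ = t ∧ y ∉ Att0 F ζ := by
  by_contra hcon
  push Not at hcon
  obtain ⟨G, hG, h1, h2⟩ := att0_hull hF h h0 (K := sphere p t)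
    (fun y hy => hcon y (by simpa [dist_eq_norm] using hy)) (isCompact_sphere p t) hp
  have h3 : ‖G p‖ ≤ 1 / 2 := by
    refine Complex.norm_le_of_forall_mem_frontier_norm_le (U := ball p t) isBounded_ball
      hG.diffContOnCl ?_ (subset_closure (mem_ball_self ht))
    intro y hy
    rw [frontier_ball p ht.ne'] at hy
    exact h2 y hy
  rw [h1, norm_one] at h3
  norm_num at h3

end Pool.Agent.BB.P
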