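import Pool.Agent.BB.P.Basic

open Set Metric Filter Topology MeasureTheory

namespace Pool.Agent.BB.P

lemma PW_arg {R : ℝ} (hR : 0 ≤ R) {w : ℂ} (hw : w ∈ Vs R) : |Complex.arg w| < 3 * Real.pi / 4 := by
  have hw' : 0 < w.re + |w.im| := lt_of_le_of_lt hR hw
  have hw0 : w ≠ 0 := by
    rintro rfl
    simp at hw'
  have hn : 0 < ‖w‖ := norm_pos_iff.2 hw0
  have h1 : Real.cos (3 * Real.pi / 4) < Real.cos |Complex.arg w| := by
    rw [Real.cos_abs, Complex.cos_arg hw0]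
    have h2 : Real.cos (3 * Real.pi / 4) = -(√2 / 2) := by
      rw [show 3 * Real.pi / 4 = Real.pi - Real.pi / 4 by ring, Real.cos_pi_sub,
        Real.cos_pi_div_four]
    rw [h2, lt_div_iff₀ hn]
    have hs : (0 : ℝ) < √2 := by positivity
    rcases le_or_gt 0 w.re with h3 | h3
    · nlinarith [mul_pos hs hn]
    · have h4 : |w.re| < √2 / 2 * ‖w‖ := by
        apply lt_of_pow_lt_pow_left₀ 2 (by positivity)
        rw [mul_pow, div_pow, Real.sq_sqrt (by norm_num), Complex.sq_norm, Complex.normSq_apply,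
          sq_abs]
        have h5 : |w.im| ^ 2 = w.im ^ 2 := sq_abs _
        have h6 : 0 ≤ |w.im| := abs_nonneg _
        nlinarith
      rw [abs_of_neg h3] at h4
      linarith
  have h3 := (Real.strictAntiOn_cos.lt_iff_gt (a := 3 * Real.pi / 4) (b := |Complex.arg w|)
    ⟨by positivity, by linarith [Real.pi_pos]⟩ ⟨abs_nonneg _, Complex.abs_arg_le_pi w⟩).1 h1
  exact h3

lemma PW_norm {R : ℝ} {w : ℂ} (hw : w ∈ Vs R) : R / 2 < ‖w‖ := by
  have h1 : R < w.re + |w.im| := hw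
  have h2 := Complex.abs_re_le_norm w
  have h3 := Complex.abs_im_le_norm w
  have h4 := le_abs_self w.re
  linarith

lemma PW_pow {q : ℕ} (hq : 1 ≤ q) {w : ℂ} (hw : w ≠ 0) :
    Complex.exp (-(Complex.log w / q)) ^ q = w⁻¹ := by
  rw [← Complex.exp_nat_mul]
  have hq0 : (q : ℂ) ≠ 0 := Nat.cast_ne_zero.2 (by omega)
  have h1 : (q : ℂ) * -(Complex.log w / q) = -Complex.log w := by field_simp
  rw [h1, Complex.exp_neg, Complex.exp_log hw]

/-- `Xc` is injective and holomorphic on the slit plane and avoids `ζ` -/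
theorem xc_facts {ζ c : ℂ} {q : ℕ} (hq : 1 ≤ q) (hc : c ≠ 0) :
    DifferentiableOn ℂ (Xc ζ c q) Complex.slitPlane ∧ InjOn (Xc ζ c q) Complex.slitPlane ∧
      ∀ w, Xc ζ c q w ≠ ζ := by
  refine ⟨?_, ?_, ?_⟩
  · intro w hw
    refine DifferentiableAt.differentiableWithinAt ?_
    unfold Xc
    have h1 : DifferentiableAt ℂ Complex.log w := Complex.differentiableAt_log hw
    fun_prop
  · intro z hz w hw h
    have h1 : Complex.exp (-(Complex.log z / q)) = Complex.exp (-(Complex.log w / q)) := by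
      unfold Xc at h
      exact mul_left_cancel₀ hc (add_left_cancel h)
    have h2 := congrArg (fun t => t ^ q) h1
    simp only [PW_pow hq (Complex.slitPlane_ne_zero hz), PW_pow hq (Complex.slitPlane_ne_zero hw)]
      at h2
    exact inv_injective h2
  · intro w h
    unfold Xc at h
    exact mul_ne_zero hc (Complex.exp_ne_zero (-(Complex.log w / q))) (add_eq_left.1 h)

lemma PW_norm_x {ζ c : ℂ} {q : ℕ} (hq : 1 ≤ q) {w : ℂ} (hw : w ≠ 0) :
    ‖Xc ζ c q w - ζ‖ ^ q = ‖c‖ ^ q / ‖w‖ := by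
  have h1 : Xc ζ c q w - ζ = c * Complex.exp (-(Complex.log w / q)) := by
    unfold Xc; ring
  rw [h1, norm_mul, mul_pow, ← norm_pow (Complex.exp _), PW_pow hq hw, norm_inv, div_eq_mul_inv]

/-- the points `Xc w` are close to `ζ` for large `w` -/
theorem xc_small {ζ c : ℂ} {q : ℕ} (hq : 1 ≤ q) {ε : ℝ} (hε : 0 < ε) : ∃ M : ℝ, 1 ≤ M ∧
    ∀ w : ℂ, M ≤ ‖w‖ → ‖Xc ζ c q w - ζ‖ < ε := by
  refine ⟨‖c‖ ^ q / ε ^ q + 1, ?_, ?_⟩
  · have : 0 ≤ ‖c‖ ^ q / ε ^ q := by positivity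
    linarith
  · intro w hw
    have h0 : 0 ≤ ‖c‖ ^ q / ε ^ q := by positivity
    have h1 : 0 < ‖w‖ := by linarith
    apply lt_of_pow_lt_pow_left₀ q hε.le
    rw [PW_norm_x hq (norm_pos_iff.1 h1), div_lt_iff₀ h1]
    have h2 : ‖c‖ ^ q / ε ^ q < ‖w‖ := by linarith
    rw [div_lt_iff₀ (by positivity)] at h2
    linarith

/-- the expansion of `(1+u)^(-q)` -/
lemma PW_exp {q : ℕ} (hq : 1 ≤ q) {u : ℂ} (hu : ‖u‖ * q ≤ 1 / 2) :
    ‖Complex.exp (-(q * Complex.log (1 + u))) - 1 + q * u‖ ≤ 4 * (q : ℝ) ^ 2 * ‖u‖ ^ 2 := by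
  have hq1 : (1 : ℝ) ≤ q := by exact_mod_cast hq
  have hu0 : 0 ≤ ‖u‖ := norm_nonneg u
  have hu1 : ‖u‖ ≤ 1 / 2 := by nlinarith
  have h1 := Complex.norm_log_one_add_half_le_self hu1
  have h2 := Complex.norm_log_one_add_sub_self_le (z := u) (by linarith)
  set l := Complex.log (1 + u) with hl
  have hX : ‖-((q : ℂ) * l)‖ = q * ‖l‖ := by
    rw [norm_neg, norm_mul, Complex.norm_natCast]
  have h3 : ‖-((q : ℂ) * l)‖ ≤ 1 := by
    rw [hX]
    calc (q : ℝ) * ‖l‖ ≤ q * (3 / 2 * ‖u‖) := by gcongr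
      _ ≤ 1 := by nlinarith
  have h4 := Complex.norm_exp_sub_one_sub_id_le h3
  have h5 : Complex.exp (-((q : ℂ) * l)) - 1 + q * u =
      (Complex.exp (-((q : ℂ) * l)) - 1 - (-((q : ℂ) * l))) - q * (l - u) := by ring
  rw [h5]
  have h6 : ‖(q : ℂ) * (l - u)‖ ≤ q * ‖u‖ ^ 2 := by
    rw [norm_mul, Complex.norm_natCast]
    have h7 : ‖u‖ ^ 2 * (1 - ‖u‖)⁻¹ / 2 ≤ ‖u‖ ^ 2 := by
      have h8 : (1 - ‖u‖)⁻¹ ≤ 2 := by
        rw [inv_le_comm₀ (by linarith) (by norm_num)]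
        linarith
      nlinarith [sq_nonneg ‖u‖]
    gcongr
    exact h2.trans h7
  have h7 : ‖-((q : ℂ) * l)‖ ^ 2 ≤ 9 / 4 * (q : ℝ) ^ 2 * ‖u‖ ^ 2 := by
    rw [hX]
    calc ((q : ℝ) * ‖l‖) ^ 2 ≤ (q * (3 / 2 * ‖u‖)) ^ 2 := by gcongr
      _ = _ := by ring
  calc _ ≤ ‖Complex.exp (-((q : ℂ) * l)) - 1 - (-((q : ℂ) * l))‖ + ‖(q : ℂ) * (l - u)‖ :=
        norm_sub_le _ _
    _ ≤ 9 / 4 * (q : ℝ) ^ 2 * ‖u‖ ^ 2 + q * ‖u‖ ^ 2 := add_le_add (h4.trans h7) h6
    _ ≤ 4 * (q : ℝ) ^ 2 * ‖u‖ ^ 2 := by nlinarith [sq_nonneg ‖u‖, mul_nonneg (sq_nonneg ‖u‖) (by nlinarith : (0:ℝ) ≤ (q:ℝ)^2 - q)]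

/-- conjugation of `T` to `w ↦ w + 1 + small` on fat petals -/
theorem pw_conj {T : ℂ → ℂ} {ζ a : ℂ} {q : ℕ} (h : Par T ζ a q) {ε : ℝ} (hε : 0 < ε) :
    ∃ R₀ : ℝ, 1 ≤ R₀ ∧ ∀ c : ℂ, c ^ q * (q * a) = -1 →
      DifferentiableOn ℂ (Gc T ζ c q) (Vs R₀) ∧ ∀ w ∈ Vs R₀,
        T (Xc ζ c q w) ≠ ζ ∧ T (Xc ζ c q w) = Xc ζ c q (Gc T ζ c q w) ∧
          ‖Gc T ζ c q w - w - 1‖ ≤ ε := by
  have hq := h.hq
  have hq1 : (1 : ℝ) ≤ q := by exact_mod_cast hq
  have hq0 : (q : ℂ) ≠ 0 := Nat.cast_ne_zero.2 (by omega)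
  have ha : 0 < ‖a‖ := norm_pos_iff.2 h.ha
  set η : ℝ := min (‖a‖ * (ε / 2)) ‖a‖ with hη
  have hη0 : 0 < η := lt_min (by positivity) ha
  have hη1 : η / ‖a‖ ≤ ε / 2 := by
    rw [div_le_iff₀ ha]
    calc η ≤ ‖a‖ * (ε / 2) := min_le_left _ _
      _ = _ := by ring
  have hη2 : η / ‖a‖ ≤ 1 := by
    rw [div_le_one ha]
    exact min_le_right _ _
  obtain ⟨ρ₁, hρ₁, h1⟩ := Metric.eventually_nhds_iff_ball.1 (h.ho.def hη0)
  obtain ⟨ρ₂, hρ₂, h2⟩ := Metric.eventually_nhds_iff_ball.1 h.an.eventually_analyticAt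
  set ρ := min ρ₁ ρ₂ with hρ
  have hρ0 : 0 < ρ := lt_min hρ₁ hρ₂
  -- bounds for `‖w‖`
  set M : ℝ := max (max (1 / (q * ‖a‖ * ρ ^ q)) (32 * q ^ 2 / ε)) (16 * q) with hM
  have hMq : 16 * (q : ℝ) ≤ M := le_max_right _ _
  refine ⟨2 * M, by linarith, fun c hc => ?_⟩
  have hc0 : c ≠ 0 := by
    rintro rfl
    rw [zero_pow (by omega), zero_mul] at hc
    exact neg_ne_zero.2 one_ne_zero hc.symm
  have hcn : ‖c‖ ^ q = 1 / (q * ‖a‖) := by
    have h3 := congrArg norm hc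
    rw [norm_mul, norm_mul, norm_pow, norm_neg, norm_one, Complex.norm_natCast] at h3
    rw [eq_div_iff (by positivity)]
    exact h3
  have key : ∀ w ∈ Vs (2 * M), w ≠ 0 ∧ Xc ζ c q w ∈ ball ζ ρ₂ ∧ ∃ u : ℂ,
      T (Xc ζ c q w) - ζ = (Xc ζ c q w - ζ) * (1 + u) ∧ ‖u‖ * q ≤ 2 / ‖w‖ ∧
      ‖q * u * w + 1‖ ≤ ε / 2 := by
    intro w hw
    have hwM : M < ‖w‖ := by
      have := PW_norm hw
      linarith
    have hw0' : 0 < ‖w‖ := by linarith
    have hw0 : w ≠ 0 := norm_pos_iff.1 hw0'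
    have hxn := PW_norm_x (ζ := ζ) (c := c) hq hw0
    set x := Xc ζ c q w - ζ with hx
    have hxE : x = c * Complex.exp (-(Complex.log w / q)) := by
      rw [hx]; unfold Xc; ring
    have hx0 : x ≠ 0 := by
      rw [hxE]
      exact mul_ne_zero hc0 (Complex.exp_ne_zero _)
    have hxq : x ^ q = c ^ q / w := by
      rw [hxE, mul_pow, PW_pow hq hw0, div_eq_mul_inv]
    have hxρ : ‖x‖ < ρ := by
      apply lt_of_pow_lt_pow_left₀ q hρ0.le
      rw [hxn, hcn, div_lt_iff₀ hw0']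
      have h3 : 1 / (q * ‖a‖ * ρ ^ q) < ‖w‖ :=
        lt_of_le_of_lt ((le_max_left _ _).trans (le_max_left _ _)) hwM
      rw [div_lt_iff₀ (by positivity)] at h3
      rw [div_lt_iff₀ (by positivity)]
      linarith
    have hTx := h1 x (by rw [mem_ball_zero_iff]; exact lt_of_lt_of_le hxρ (min_le_left _ _))
    refine ⟨hw0, ?_, ?_⟩
    · rw [mem_ball, dist_eq_norm]
      exact lt_of_lt_of_le hxρ (min_le_right _ _)
    set δ := (T (ζ + x) - ζ - x - a * x ^ (q + 1)) / x with hδ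
    have hζx : ζ + x = Xc ζ c q w := by rw [hx]; ring
    have hδn : ‖δ‖ ≤ η * (1 / (q * ‖a‖)) / ‖w‖ := by
      rw [hδ, norm_div, div_le_iff₀ (norm_pos_iff.2 hx0)]
      refine hTx.trans ?_
      rw [norm_pow, pow_succ, hxn, hcn]
      apply le_of_eq
      ring
    have hax : a * x ^ q = -1 / (q * w) := by
      rw [hxq]
      have h3 : c ^ q * a = -1 / q := by
        rw [eq_div_iff hq0]
        rw [← hc]; ring
      rw [← mul_div_assoc, mul_comm a, h3, div_div]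
    refine ⟨a * x ^ q + δ, ?_, ?_, ?_⟩
    · rw [← hζx]
      have h3 : x * δ = T (ζ + x) - ζ - x - a * x ^ (q + 1) := by
        rw [hδ, mul_div_cancel₀ _ hx0]
      have h4 : x * (1 + (a * x ^ q + δ)) = x + a * x ^ (q + 1) + x * δ := by
        rw [pow_succ]; ring
      rw [h4, h3]; ring
    · have h3 : ‖a * x ^ q‖ = 1 / (q * ‖w‖) := by
        rw [hax, norm_div, norm_neg, norm_one, norm_mul, Complex.norm_natCast]
      have h4 : ‖a * x ^ q + δ‖ ≤ 1 / (q * ‖w‖) + η * (1 / (q * ‖a‖)) / ‖w‖ := by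
        refine (norm_add_le _ _).trans ?_
        rw [h3]
        linarith
      calc ‖a * x ^ q + δ‖ * q ≤ (1 / (q * ‖w‖) + η * (1 / (q * ‖a‖)) / ‖w‖) * q := by gcongr
        _ = (1 + η / ‖a‖) / ‖w‖ := by field_simp
        _ ≤ 2 / ‖w‖ := by gcongr; linarith
    · have h3 : (q : ℂ) * (a * x ^ q + δ) * w + 1 = q * w * δ := by
        rw [hax]; field_simp; ring
      rw [h3, norm_mul, norm_mul, Complex.norm_natCast]
      calc (q : ℝ) * ‖w‖ * ‖δ‖ ≤ q * ‖w‖ * (η * (1 / (q * ‖a‖)) / ‖w‖) := by gcongr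
        _ = η / ‖a‖ := by field_simp
        _ ≤ _ := hη1
  have key2 : ∀ w ∈ Vs (2 * M), T (Xc ζ c q w) ≠ ζ ∧ T (Xc ζ c q w) = Xc ζ c q (Gc T ζ c q w) ∧
          ‖Gc T ζ c q w - w - 1‖ ≤ ε := by
    intro w hw
    obtain ⟨hw0, hb, u, hu1, hu2, hu3⟩ := key w hw
    have hwM : M < ‖w‖ := by
      have := PW_norm hw
      linarith
    have hw0' : 0 < ‖w‖ := by linarith
    have hu4 : ‖u‖ * q ≤ 1 / 8 := by
      refine hu2.trans ?_
      rw [div_le_iff₀ hw0']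
      linarith
    have hun : 0 ≤ ‖u‖ := norm_nonneg u
    have hu5 : ‖u‖ ≤ 1 / 2 := by nlinarith
    have h1u : (1 : ℂ) + u ≠ 0 := by
      intro h0
      have h3 : u = -1 := by linear_combination h0
      rw [h3, norm_neg, norm_one] at hu5
      norm_num at hu5
    have hx0 : Xc ζ c q w - ζ ≠ 0 := sub_ne_zero.2 ((xc_facts hq hc0).2.2 w)
    have hT0 : T (Xc ζ c q w) - ζ ≠ 0 := by
      rw [hu1]
      exact mul_ne_zero hx0 h1u
    have hxE : Xc ζ c q w - ζ = c * Complex.exp (-(Complex.log w / q)) := by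
      unfold Xc; ring
    set Λ := Complex.log w - q * Complex.log (1 + u) with hΛ
    have hG : Gc T ζ c q w = Complex.exp Λ := by
      unfold Gc
      rw [hu1, hxE, mul_assoc, ← div_div, div_self hc0, one_div, inv_pow, mul_pow, PW_pow hq hw0,
        mul_inv, inv_inv, hΛ, Complex.exp_sub, Complex.exp_log hw0, Complex.exp_nat_mul,
        Complex.exp_log h1u, div_eq_mul_inv]
    have hlogu := Complex.norm_log_one_add_half_le_self hu5
    have him : |Λ.im| < Real.pi := by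
      have h3 : Λ.im = Complex.arg w - q * (Complex.log (1 + u)).im := by
        rw [hΛ, Complex.sub_im, Complex.log_im, Complex.mul_im, Complex.natCast_re,
          Complex.natCast_im, zero_mul, add_zero]
      have h4 := PW_arg (by linarith : (0 : ℝ) ≤ 2 * M) hw
      have h5 : |(q : ℝ) * (Complex.log (1 + u)).im| ≤ 3 / 16 := by
        rw [abs_mul, abs_of_nonneg (by positivity : (0 : ℝ) ≤ q)]
        have h6 := (Complex.abs_im_le_norm (Complex.log (1 + u))).trans hlogu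
        calc (q : ℝ) * |(Complex.log (1 + u)).im| ≤ q * (3 / 2 * ‖u‖) := by gcongr
          _ ≤ 3 / 16 := by nlinarith
      rw [h3]
      have h6 := abs_sub (Complex.arg w) (q * (Complex.log (1 + u)).im)
      have h7 : (3 : ℝ) < Real.pi := Real.pi_gt_three
      linarith
    have hlog : Complex.log (Complex.exp Λ) = Λ :=
      Complex.log_exp (abs_lt.1 him).1 (abs_lt.1 him).2.le
    refine ⟨sub_ne_zero.1 hT0, ?_, ?_⟩
    · have h3 : Xc ζ c q (Gc T ζ c q w) = ζ + c * Complex.exp (-(Λ / q)) := by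
        unfold Xc
        rw [hG, hlog]
      have h4 : -(Λ / q) = -(Complex.log w / q) + Complex.log (1 + u) := by
        rw [hΛ]; field_simp; ring
      rw [h3, h4, Complex.exp_add, Complex.exp_log h1u, ← mul_assoc, ← hxE, ← hu1]
      ring
    · have h3 : Gc T ζ c q w = w * Complex.exp (-(q * Complex.log (1 + u))) := by
        rw [hG, hΛ, sub_eq_add_neg, Complex.exp_add, Complex.exp_log hw0]
      have h4 := PW_exp hq (u := u) (by linarith)
      have h5 : Gc T ζ c q w - w - 1 =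
          w * (Complex.exp (-(q * Complex.log (1 + u))) - 1 + q * u) - (q * u * w + 1) := by
        rw [h3]; ring
      rw [h5]
      have h6 : ‖w * (Complex.exp (-(q * Complex.log (1 + u))) - 1 + q * u)‖ ≤ ε / 2 := by
        rw [norm_mul]
        have h7 : 4 * (q : ℝ) ^ 2 * ‖u‖ ^ 2 ≤ 16 / ‖w‖ ^ 2 := by
          have h8 : (‖u‖ * q) ^ 2 ≤ (2 / ‖w‖) ^ 2 := by gcongr
          rw [div_pow] at h8
          calc 4 * (q : ℝ) ^ 2 * ‖u‖ ^ 2 = 4 * (‖u‖ * q) ^ 2 := by ring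
            _ ≤ 4 * (2 ^ 2 / ‖w‖ ^ 2) := by gcongr
            _ = 16 / ‖w‖ ^ 2 := by ring
        have h9 : 32 * (q : ℝ) ^ 2 / ε < ‖w‖ :=
          lt_of_le_of_lt ((le_max_right _ _).trans (le_max_left _ _)) hwM
        rw [div_lt_iff₀ hε] at h9
        calc ‖w‖ * ‖Complex.exp (-(q * Complex.log (1 + u))) - 1 + q * u‖
            ≤ ‖w‖ * (16 / ‖w‖ ^ 2) := by
              refine mul_le_mul_of_nonneg_left (h4.trans h7) hw0'.le
          _ = 16 / ‖w‖ := by field_simp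
          _ ≤ ε / 2 := by
            rw [div_le_div_iff₀ hw0' (by norm_num)]
            nlinarith
      calc _ ≤ _ := norm_sub_le _ _
        _ ≤ ε / 2 + ε / 2 := add_le_add h6 hu3
        _ = ε := by ring
  refine ⟨?_, key2⟩
  intro w hw
  refine DifferentiableAt.differentiableWithinAt ?_
  obtain ⟨hw0, hb, -⟩ := key w hw
  have h3 : DifferentiableAt ℂ (Xc ζ c q) w :=
    (xc_facts hq hc0).1.differentiableAt
      (Complex.isOpen_slitPlane.mem_nhds (Vs_slit (by linarith : (0:ℝ) ≤ 2 * M) hw))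
  have h4 : DifferentiableAt ℂ T (Xc ζ c q w) := (h2 _ hb).differentiableAt
  have h5 : DifferentiableAt ℂ (fun w => T (Xc ζ c q w)) w := h4.comp w h3
  unfold Gc
  refine DifferentiableAt.pow ?_ q
  exact (differentiableAt_const c).div (h5.sub_const ζ) (sub_ne_zero.2 (key2 w hw).1)

end Pool.Agent.BB.P
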