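import Pool.Agent.BB.P.RF
import Pool.Agent.BB.P.HARN

open Set Metric Filter Topology MeasureTheory

namespace Pool.Agent.BB.P

/-- lower bound of the derivative of the imaginary part at a real point, by Harnack's inequality -/
private lemma rd_deriv_ge {t : ℝ} (ht : 0 < t) {f : ℂ → ℂ} (hd : DifferentiableOn ℂ f (St t))
    (hm : ∀ ξ ∈ St t, 0 < (f ξ).im) (x : ℝ) : ∃ c > 0, ∃ r > 0, r < t ∧ ∀ y : ℝ, 0 < y → y < r →
      c * y ≤ (f (x + y * Complex.I)).im := by
  set r : ℝ := t / 4 with hr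
  have hr0 : 0 < r := by rw [hr]; linarith
  set a : ℂ := x + r * Complex.I with ha
  have hai : a.im = r := by rw [ha]; simp
  have hsub : ball a r ⊆ St t := by
    intro w hw
    rw [mem_ball, dist_eq_norm] at hw
    have h1 := Complex.abs_im_le_norm (w - a)
    rw [Complex.sub_im, hai] at h1
    have h2 := abs_lt.mp (lt_of_le_of_lt h1 hw)
    exact ⟨by linarith [h2.1], by rw [hr] at h2; linarith [h2.2]⟩
  have haS : a ∈ St t := hsub (mem_ball_self hr0)
  have hKa := hm a haS
  refine ⟨(f a).im / (2 * r), by positivity, r, hr0, by rw [hr]; linarith, ?_⟩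
  intro y hy0 hyr
  have hdiff : (x : ℂ) + y * Complex.I - a = ((y - r : ℝ) : ℂ) * Complex.I := by
    rw [ha]; push_cast; ring
  have hn : ‖(x : ℂ) + y * Complex.I - a‖ = r - y := by
    rw [hdiff, norm_mul, Complex.norm_I, mul_one, Complex.norm_real, Real.norm_eq_abs,
      abs_of_neg (by linarith)]
    ring
  have hmem : (x : ℂ) + y * Complex.I ∈ ball a r := by
    rw [mem_ball, dist_eq_norm, hn]
    linarith
  have h1 := (hp_harnack hr0 (hd.mono hsub) (fun w hw => (hm w (hsub hw)).le) hmem).1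
  rw [hn] at h1
  refine le_trans ?_ h1
  have e1 : (r - (r - y)) / (r + (r - y)) * (f a).im = y * (f a).im / (2 * r - y) := by
    have : r - (r - y) = y := by ring
    rw [this]
    have : r + (r - y) = 2 * r - y := by ring
    rw [this]
    ring
  have e2 : (f a).im / (2 * r) * y = y * (f a).im / (2 * r) := by ring
  rw [e1, e2]
  apply div_le_div_of_nonneg_left (by positivity) (by linarith) (by linarith)

/-- no real fixed point -/
private lemma rd_nofix {t : ℝ} (ht : 0 < t) {K E : ℂ → ℂ} (hd : DifferentiableOn ℂ K (St t))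
    (hm : MapsTo K (St t) (St t)) (him : ∀ ξ ∈ St t, (K ξ).im ≤ ξ.im) (hE : Ext t K E)
    (him0 : ∀ ξ ∈ St t, Tendsto (fun n : ℕ => (K^[n] ξ).im) atTop (𝓝 0))
    (hpoly : ∃ ξ ∈ St t, ∃ c > 0, ∃ m : ℕ, ∀ n : ℕ, c / ((n : ℝ) + 1) ^ m ≤ (K^[n] ξ).im)
    (x : ℝ) : (E x).re ≠ x := by
  intro hfix
  have hEx : E x = x := Complex.ext (by simpa using hfix) (by simpa using hE.hre x)
  have hxS : (x : ℂ) ∈ Sh t := by
    simp only [Sh, mem_ofPred_eq, Complex.ofReal_im, abs_zero]
    exact ht
  have hEat : HasDerivAt E (deriv E x) x :=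
    (hE.hd.differentiableAt ((isOpen_Sh t).mem_nhds hxS)).hasDerivAt
  have hpre : IsPreconnected (St t) := (convex_St t).isPreconnected
  have hiter : ∀ n : ℕ, DifferentiableOn ℂ K^[n] (St t) ∧ MapsTo K^[n] (St t) (St t) := by
    intro n
    induction n with
    | zero => exact ⟨differentiableOn_id, mapsTo_id _⟩
    | succ n ih =>
      rw [Function.iterate_succ]
      exact ⟨ih.1.comp hd hm, ih.2.comp hm⟩
  -- im (ξ - K ξ) is positive
  have hfd : DifferentiableOn ℂ (fun ξ => ξ - K ξ) (St t) := differentiableOn_id.sub hd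
  have hfnn : ∀ ξ ∈ St t, 0 ≤ (ξ - K ξ).im := by
    intro ξ hξ
    rw [Complex.sub_im]
    have := him ξ hξ
    linarith
  have hfpos : ∀ ξ ∈ St t, 0 < (ξ - K ξ).im := by
    intro ξ hξ
    refine lt_of_le_of_ne (hfnn ξ hξ) ?_
    intro h0
    have hall : ∀ η ∈ St t, (K η).im = η.im := by
      intro η hη
      obtain ⟨C, -, hC⟩ := harnack_compact (isOpen_St t) hpre (A := {ξ, η})
        (Set.toFinite _).isCompact (by
          intro z hz
          rcases hz with rfl | rfl
          · exact hξ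
          · exact hη)
      have h1 := (hC _ hfd hfnn η (by simp) ξ (by simp)).1
      rw [← h0, mul_zero] at h1
      have h2 := hfnn η hη
      simp only [Complex.sub_im] at h1 h2
      linarith
    have hitim : ∀ n : ℕ, (K^[n] ξ).im = ξ.im := by
      intro n
      induction n with
      | zero => rfl
      | succ n ih =>
        rw [Function.iterate_succ_apply', hall _ ((hiter n).2 hξ), ih]
    have h2 := him0 ξ hξ
    simp only [hitim] at h2
    have h3 := tendsto_nhds_unique tendsto_const_nhds h2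
    have := hξ.1
    linarith
  -- derivative in (0,1)
  obtain ⟨c, hc0, r, hr0, hrt, hcr⟩ := rd_deriv_ge ht hfd hfpos x
  have hline : HasDerivAt (fun y : ℝ => (x : ℂ) + y * Complex.I) Complex.I 0 := by
    simpa using ((Complex.ofRealCLM.hasDerivAt (x := (0:ℝ))).mul_const Complex.I).const_add (x : ℂ)
  have hcomp : HasDerivAt (fun y : ℝ => E (x + y * Complex.I)) (deriv E x * Complex.I) 0 := by
    have h2 : HasDerivAt E (deriv E x) ((x : ℂ) + (0:ℝ) * Complex.I) := by simpa using hEat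
    exact h2.comp_of_eq (h := fun y : ℝ => (x : ℂ) + y * Complex.I) 0 hline (by simp)
  have him' : HasDerivAt (fun y : ℝ => (E (x + y * Complex.I)).im) (deriv E x).re 0 := by
    have h3 := (Complex.imCLM.hasFDerivAt (x := E (x + (0:ℝ) * Complex.I))).comp_hasDerivAt 0 hcomp
    have h4 : Complex.imCLM (deriv E x * Complex.I) = (deriv E x).re := by simp
    rw [h4] at h3
    exact h3
  have hle : (deriv E x).re ≤ 1 - c := by
    have hslope := him'.hasDerivWithinAt (s := Ioi 0)
    rw [hasDerivWithinAt_iff_tendsto_slope' (by simp)] at hslope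
    refine le_of_tendsto hslope ?_
    filter_upwards [Ioo_mem_nhdsGT hr0] with y hy
    have hy0 : (0:ℝ) < y := hy.1
    rw [slope_def_field]
    have e0 : (E (x + ((0:ℝ):ℂ) * Complex.I)).im = 0 := by
      simpa using hE.hre x
    rw [e0, sub_zero, sub_zero, div_le_iff₀ hy0]
    have h1 := hcr y hy.1 hy.2
    have hmem : (x : ℂ) + y * Complex.I ∈ St t := by
      refine ⟨?_, ?_⟩
      · simpa using hy.1
      · have := hy.2
        simp
        linarith
    rw [Complex.sub_im, ← hE.heq hmem] at h1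
    have e1 : ((x : ℂ) + y * Complex.I).im = y := by simp
    rw [e1] at h1
    linarith
  have himd : (deriv E x).im = 0 := by
    have h1 : HasDerivAt (fun y : ℝ => E y) (deriv E x) x := hEat.comp_ofReal
    have h2 : HasDerivAt (fun y : ℝ => (E y).im) (deriv E x).im x := by
      have h3 := (Complex.imCLM.hasFDerivAt (x := E x)).comp_hasDerivAt x h1
      exact h3
    have h3 : (fun y : ℝ => (E y).im) = fun _ => 0 := funext hE.hre
    rw [h3] at h2
    exact h2.unique (hasDerivAt_const x (0:ℝ))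
  have hposd := hE.hpos x
  have hnorm : ‖deriv E x‖ ≤ 1 - c := by
    have : deriv E x = (((deriv E x).re : ℝ) : ℂ) := Complex.ext (by simp) (by simp [himd])
    rw [this, Complex.norm_real, Real.norm_of_nonneg hposd.le]
    exact hle
  have hc1 : c < 1 := by linarith
  -- local contraction
  set l : ℝ := 1 - c / 2 with hl
  have hl0 : 0 < l := by rw [hl]; linarith
  have hl1 : l < 1 := by rw [hl]; linarith
  have hcontr : ∀ᶠ z in 𝓝 (x : ℂ), ‖E z - x‖ ≤ l * ‖z - x‖ := by
    have h1 := hEat.isLittleO.def (show 0 < c / 2 by linarith)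
    filter_upwards [h1] with z hz
    rw [hEx] at hz
    calc ‖E z - x‖ = ‖(E z - x - (z - x) • deriv E x) + (z - x) • deriv E x‖ := by
          congr 1; ring
      _ ≤ ‖E z - x - (z - x) • deriv E x‖ + ‖(z - x) • deriv E x‖ := norm_add_le _ _
      _ ≤ c / 2 * ‖z - x‖ + ‖z - x‖ * (1 - c) := by
          rw [norm_smul]
          gcongr
      _ = l * ‖z - x‖ := by rw [hl]; ring
  obtain ⟨ρ, hρ0, hρ⟩ := Metric.eventually_nhds_iff_ball.mp hcontr
  -- a point close to the fixed point
  set y₀ : ℝ := min (ρ / 2) (t / 2) with hy₀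
  have hy₀0 : 0 < y₀ := by rw [hy₀]; positivity
  have hy₀ρ : y₀ < ρ := lt_of_le_of_lt (min_le_left _ _) (by linarith)
  have hy₀t : y₀ < t := lt_of_le_of_lt (min_le_right _ _) (by linarith)
  set ξ₀ : ℂ := x + y₀ * Complex.I with hξ₀
  have hξ₀S : ξ₀ ∈ St t := ⟨by simpa [hξ₀] using hy₀0, by simpa [hξ₀] using hy₀t⟩
  have hξ₀n : ‖ξ₀ - x‖ = y₀ := by
    rw [hξ₀]
    simp [abs_of_pos hy₀0]
  have hit : ∀ n : ℕ, ‖K^[n] ξ₀ - x‖ ≤ l ^ n * y₀ := by
    intro n
    induction n with
    | zero => simp [hξ₀n]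
    | succ n ih =>
      rw [Function.iterate_succ_apply']
      have hmem : K^[n] ξ₀ ∈ ball (x : ℂ) ρ := by
        rw [mem_ball, dist_eq_norm]
        refine lt_of_le_of_lt ih ?_
        have : l ^ n ≤ 1 := pow_le_one₀ hl0.le hl1.le
        nlinarith
      have h1 := hρ _ hmem
      rw [hE.heq ((hiter n).2 hξ₀S)] at h1
      calc ‖K (K^[n] ξ₀) - x‖ ≤ l * ‖K^[n] ξ₀ - x‖ := h1
        _ ≤ l * (l ^ n * y₀) := by gcongr
        _ = l ^ (n + 1) * y₀ := by ring
  obtain ⟨ξ₁, hξ₁, c', hc', m, hpol⟩ := hpoly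
  obtain ⟨C, hC1, hC⟩ := harnack_compact (isOpen_St t) hpre (A := {ξ₁, ξ₀})
    (Set.toFinite _).isCompact (by
      intro z hz
      rcases hz with rfl | rfl
      · exact hξ₁
      · exact hξ₀S)
  have hbound : ∀ n : ℕ, c' ≤ C * y₀ * (((n : ℝ) + 1) ^ m * l ^ n) := by
    intro n
    have h1 := (hC _ (hiter n).1 (fun z hz => ((hiter n).2 hz).1.le) ξ₁ (by simp) ξ₀ (by simp)).1
    have h2 : (K^[n] ξ₀).im ≤ l ^ n * y₀ := by
      refine le_trans ?_ (hit n)
      refine le_trans (le_abs_self _) ?_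
      have := Complex.abs_im_le_norm (K^[n] ξ₀ - x)
      simpa using this
    have h3 : c' / ((n : ℝ) + 1) ^ m ≤ C * (l ^ n * y₀) :=
      (hpol n).trans (h1.trans (mul_le_mul_of_nonneg_left h2 (by linarith)))
    have hp : 0 < ((n : ℝ) + 1) ^ m := by positivity
    rw [div_le_iff₀ hp] at h3
    calc c' ≤ C * (l ^ n * y₀) * ((n : ℝ) + 1) ^ m := h3
      _ = _ := by ring
  have hlim : Tendsto (fun n : ℕ => C * y₀ * (((n : ℝ) + 1) ^ m * l ^ n)) atTop (𝓝 0) := by
    have h1 := tendsto_pow_const_mul_const_pow_of_abs_lt_one m (r := l)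
      (by rw [abs_of_pos hl0]; exact hl1)
    have h2 := (h1.comp (tendsto_add_atTop_nat 1)).const_mul (C * y₀ / l)
    rw [mul_zero] at h2
    refine h2.congr ?_
    intro n
    simp only [Function.comp]
    push_cast
    rw [pow_succ l n]
    field_simp
  have := ge_of_tendsto' hlim hbound
  linarith

/-- the extension has no real fixed point -/
theorem real_dyn {t : ℝ} (ht : 0 < t) {K E : ℂ → ℂ} (hd : DifferentiableOn ℂ K (St t))
    (hm : MapsTo K (St t) (St t)) (him : ∀ ξ ∈ St t, (K ξ).im ≤ ξ.im) (hE : Ext t K E)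
    (him0 : ∀ ξ ∈ St t, Tendsto (fun n : ℕ => (K^[n] ξ).im) atTop (𝓝 0))
    (hpoly : ∃ ξ ∈ St t, ∃ c > 0, ∃ m : ℕ, ∀ n : ℕ, c / ((n : ℝ) + 1) ^ m ≤ (K^[n] ξ).im) :
    (∀ x : ℝ, x < (E x).re) ∨ (∀ x : ℝ, (E x).re < x) := by
  have hne := rd_nofix ht hd hm him hE him0 hpoly
  have hcE : Continuous fun x : ℝ => (E x).re := by
    apply Complex.continuous_re.comp
    rw [continuous_iff_continuousAt]
    intro x
    have hxS : (x : ℂ) ∈ Sh t := by
      simp only [Sh, mem_ofPred_eq, Complex.ofReal_im, abs_zero]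
      exact ht
    exact ((hE.hd.differentiableAt ((isOpen_Sh t).mem_nhds hxS)).continuousAt).comp
      Complex.continuous_ofReal.continuousAt
  by_contra hcon
  push Not at hcon
  obtain ⟨⟨a, ha⟩, ⟨b, hb⟩⟩ := hcon
  have hivt : (0:ℝ) ∈ (fun x : ℝ => (E x).re - x) '' univ := by
    have h1 : IsPreconnected ((fun x : ℝ => (E x).re - x) '' univ) :=
      isPreconnected_univ.image _ (hcE.sub continuous_id).continuousOn
    apply h1.ordConnected.out (mem_image_of_mem _ (mem_univ a)) (mem_image_of_mem _ (mem_univ b))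
    exact ⟨by linarith, by linarith⟩
  obtain ⟨x, -, hx⟩ := hivt
  exact hne x (by simp only at hx; linarith)

end Pool.Agent.BB.P
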