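import Pool.Agent.BB.P.Basic

open Set Metric Filter Topology MeasureTheory

namespace Pool.Agent.BB.P

private lemma SPA_lt {c z : ℂ} (hc : 0 < c.im) (hz : 0 < z.im) :
    ‖z - c‖ < ‖z - (starRingEnd ℂ) c‖ := by
  rw [← Real.sqrt_sq (norm_nonneg (z - c)), ← Real.sqrt_sq (norm_nonneg (z - (starRingEnd ℂ) c)),
    Complex.sq_norm, Complex.sq_norm, Complex.normSq_apply, Complex.normSq_apply]
  apply Real.sqrt_lt_sqrt (add_nonneg (mul_self_nonneg _) (mul_self_nonneg _))
  simp only [Complex.sub_re, Complex.sub_im, Complex.conj_re, Complex.conj_im]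
  nlinarith [mul_pos hc hz]

/-- the open half plane -/
private lemma SPA_key0 {f : ℂ → ℂ} {a : ℂ} {r : ℝ} (hr : 0 < r)
    (hd : DifferentiableOn ℂ f (ball a r)) (hm : ∀ z ∈ ball a r, 0 < (f z).im) {z : ℂ}
    (hz : z ∈ ball a r) :
    ‖f z - f a‖ ≤ ‖z - a‖ / r * ‖f z - (starRingEnd ℂ) (f a)‖ := by
  have ha : 0 < (f a).im := hm a (mem_ball_self hr)
  have hne : ∀ z ∈ ball a r, f z - (starRingEnd ℂ) (f a) ≠ 0 := by
    intro z hz h
    have h1 := congrArg Complex.im h
    simp only [Complex.sub_im, Complex.conj_im, Complex.zero_im] at h1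
    linarith [hm z hz]
  let w : ℂ → ℂ := fun z => (f z - f a) / (f z - (starRingEnd ℂ) (f a))
  have hw0 : w a = 0 := by simp [w]
  have hwd : DifferentiableOn ℂ w (ball a r) :=
    (hd.sub_const _).div (hd.sub_const _) hne
  have hwm : MapsTo w (ball a r) (ball (w a) 1) := by
    intro z hz
    rw [hw0, mem_ball_zero_iff, norm_div, div_lt_one (norm_pos_iff.2 (hne z hz))]
    exact SPA_lt ha (hm z hz)
  have h1 := Complex.dist_le_div_mul_dist_of_mapsTo_ball hwd
    (fun z hz => ball_subset_closedBall (hwm hz)) hz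
  rw [hw0, dist_zero_right, dist_eq_norm, norm_div,
    div_le_iff₀ (norm_pos_iff.2 (hne z hz))] at h1
  calc _ ≤ _ := h1
    _ = _ := by ring

private lemma SPA_key {f : ℂ → ℂ} {a : ℂ} {r : ℝ} (hr : 0 < r)
    (hd : DifferentiableOn ℂ f (ball a r)) (hm : ∀ z ∈ ball a r, 0 ≤ (f z).im) {z : ℂ}
    (hz : z ∈ ball a r) :
    ‖f z - f a‖ ≤ ‖z - a‖ / r * ‖f z - (starRingEnd ℂ) (f a)‖ := by
  apply le_of_forall_pos_le_add
  intro ε hε
  have hz' : ‖z - a‖ / r < 1 := by
    rw [div_lt_one hr, ← dist_eq_norm]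
    exact hz
  have hz0 : 0 ≤ ‖z - a‖ / r := by positivity
  have h1 := SPA_key0 (f := fun z => f z + ((ε / 2 : ℝ) : ℂ) * Complex.I) hr
    (hd.add_const _) (fun z hz => by
      simp only [Complex.add_im, Complex.mul_im, Complex.ofReal_re, Complex.I_im,
        Complex.ofReal_im, Complex.I_re, mul_one, mul_zero, add_zero]
      linarith [hm z hz]) hz
  have h2 : f z + ((ε / 2 : ℝ) : ℂ) * Complex.I - (f a + ((ε / 2 : ℝ) : ℂ) * Complex.I) =
      f z - f a := by ring
  have h3 : f z + ((ε / 2 : ℝ) : ℂ) * Complex.I -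
      (starRingEnd ℂ) (f a + ((ε / 2 : ℝ) : ℂ) * Complex.I) =
      f z - (starRingEnd ℂ) (f a) + ((ε : ℝ) : ℂ) * Complex.I := by
    rw [map_add, map_mul, Complex.conj_ofReal, Complex.conj_I]
    push_cast
    ring
  have h4 : ‖((ε : ℝ) : ℂ) * Complex.I‖ = ε := by
    rw [norm_mul, Complex.norm_I, mul_one, Complex.norm_real, Real.norm_eq_abs, abs_of_pos hε]
  simp only [h2, h3] at h1
  have h5 := norm_add_le (f z - (starRingEnd ℂ) (f a)) (((ε : ℝ) : ℂ) * Complex.I)
  rw [h4] at h5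
  calc ‖f z - f a‖ ≤ ‖z - a‖ / r * (‖f z - (starRingEnd ℂ) (f a)‖ + ε) :=
        h1.trans (mul_le_mul_of_nonneg_left h5 hz0)
    _ ≤ _ := by nlinarith

/-- variation of maps of a disc into the closed upper half plane -/
theorem hp_dist {f : ℂ → ℂ} {a : ℂ} {r : ℝ} (hr : 0 < r)
    (hd : DifferentiableOn ℂ f (ball a r)) (hm : ∀ z ∈ ball a r, 0 ≤ (f z).im) {z : ℂ}
    (hz : z ∈ ball a r) : ‖f z - f a‖ ≤ 2 * ‖z - a‖ / (r - ‖z - a‖) * (f a).im := by
  have h1 := SPA_key hr hd hm hz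
  have ha := hm a (mem_ball_self hr)
  have hz' : ‖z - a‖ < r := by
    rw [← dist_eq_norm]
    exact hz
  have h2 : ‖f z - (starRingEnd ℂ) (f a)‖ ≤ ‖f z - f a‖ + 2 * (f a).im := by
    have h3 : f z - (starRingEnd ℂ) (f a) = (f z - f a) + (f a - (starRingEnd ℂ) (f a)) := by ring
    have h4 : ‖f a - (starRingEnd ℂ) (f a)‖ = 2 * (f a).im := by
      rw [Complex.sub_conj, norm_mul, Complex.norm_I, mul_one, Complex.norm_real, Real.norm_eq_abs,
        abs_of_nonneg (by linarith)]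
    rw [h3, ← h4]
    exact norm_add_le _ _
  have h3 : ‖f z - f a‖ ≤ ‖z - a‖ / r * (‖f z - f a‖ + 2 * (f a).im) :=
    h1.trans (mul_le_mul_of_nonneg_left h2 (by positivity))
  rw [div_mul_eq_mul_div, le_div_iff₀ hr] at h3
  rw [div_mul_eq_mul_div, le_div_iff₀ (by linarith)]
  nlinarith

/-- derivative bound for maps of a disc into the closed upper half plane -/
theorem hp_deriv {f : ℂ → ℂ} {a : ℂ} {r : ℝ} (hr : 0 < r) (hd : DifferentiableOn ℂ f (ball a r))
    (hm : ∀ z ∈ ball a r, 0 ≤ (f z).im) : ‖deriv f a‖ ≤ 2 * (f a).im / r := by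
  have ha := hm a (mem_ball_self hr)
  have h1 : ∀ δ : ℝ, 0 < δ → δ < r → ‖deriv f a‖ ≤ 2 * (f a).im / (r - δ) := by
    intro δ hδ hδr
    refine norm_deriv_le_of_lip' (div_nonneg (by linarith) (by linarith)) ?_
    filter_upwards [ball_mem_nhds a hδ] with z hz
    have hz' : ‖z - a‖ < δ := by
      rw [← dist_eq_norm]
      exact hz
    have h2 := hp_dist hr hd hm (show z ∈ ball a r from lt_trans hz hδr)
    refine h2.trans ?_
    rw [div_mul_eq_mul_div, div_mul_eq_mul_div]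
    have h3 : 0 ≤ ‖z - a‖ := norm_nonneg _
    have h4 : 2 * ‖z - a‖ * (f a).im = 2 * (f a).im * ‖z - a‖ := by ring
    rw [h4]
    exact div_le_div_of_nonneg_left (by positivity) (by linarith) (by linarith)
  have h2 : Tendsto (fun δ : ℝ => 2 * (f a).im / (r - δ)) (𝓝[>] 0) (𝓝 (2 * (f a).im / (r - 0))) := by
    refine (tendsto_const_nhds.div (tendsto_const_nhds.sub tendsto_id) (by
      rw [sub_zero]; exact hr.ne')).mono_left nhdsWithin_le_nhds
  rw [sub_zero] at h2
  refine ge_of_tendsto h2 ?_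
  filter_upwards [Ioo_mem_nhdsGT hr] with δ hδ
  exact h1 δ hδ.1 hδ.2

/-- Harnack's inequality in a disc -/
theorem hp_harnack {f : ℂ → ℂ} {a : ℂ} {r : ℝ} (hr : 0 < r)
    (hd : DifferentiableOn ℂ f (ball a r)) (hm : ∀ z ∈ ball a r, 0 ≤ (f z).im) {z : ℂ}
    (hz : z ∈ ball a r) :
    (r - ‖z - a‖) / (r + ‖z - a‖) * (f a).im ≤ (f z).im ∧
      (f z).im ≤ (r + ‖z - a‖) / (r - ‖z - a‖) * (f a).im := by
  have h1 := SPA_key hr hd hm hz
  have ha := hm a (mem_ball_self hr)
  have hfz := hm z hz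
  have hz' : ‖z - a‖ < r := by
    rw [← dist_eq_norm]
    exact hz
  have hz0 : 0 ≤ ‖z - a‖ := norm_nonneg _
  set t := ‖z - a‖ / r with ht
  have ht1 : t < 1 := by rw [ht, div_lt_one hr]; exact hz'
  have ht0 : 0 ≤ t := by positivity
  have h2 : ‖f z - f a‖ ^ 2 ≤ t ^ 2 * ‖f z - (starRingEnd ℂ) (f a)‖ ^ 2 := by
    rw [← mul_pow]
    exact pow_le_pow_left₀ (norm_nonneg _) h1 2
  rw [Complex.sq_norm, Complex.sq_norm, Complex.normSq_apply, Complex.normSq_apply] at h2
  simp only [Complex.sub_re, Complex.sub_im, Complex.conj_re, Complex.conj_im] at h2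
  have h3 : ((f z).im - (f a).im) ^ 2 ≤ (t * ((f z).im + (f a).im)) ^ 2 := by
    have h4 : 0 ≤ (1 - t ^ 2) * ((f z).re - (f a).re) ^ 2 :=
      mul_nonneg (by nlinarith) (sq_nonneg _)
    nlinarith
  have h4 := abs_le_of_sq_le_sq' h3 (by positivity)
  have h5 : t * r = ‖z - a‖ := by rw [ht]; field_simp
  constructor
  · rw [div_mul_eq_mul_div, div_le_iff₀ (by linarith)]
    nlinarith [h4.1, mul_le_mul_of_nonneg_right h4.1 hr.le]
  · rw [div_mul_eq_mul_div, le_div_iff₀ (by linarith)]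
    nlinarith [h4.2, mul_le_mul_of_nonneg_right h4.2 hr.le]

/-- Schwarz-Pick for self-maps of the upper half plane -/
theorem schwarz_pick {f : ℂ → ℂ} (hd : DifferentiableOn ℂ f Hp) (hm : MapsTo f Hp Hp) {z w : ℂ}
    (hz : z ∈ Hp) (hw : w ∈ Hp) :
    ‖(f z - f w) / (f z - (starRingEnd ℂ) (f w))‖ ≤ ‖(z - w) / (z - (starRingEnd ℂ) w)‖ := by
  have hz' : 0 < z.im := hz
  have hw' : 0 < w.im := hw
  let m : ℂ → ℂ := fun u => (w - (starRingEnd ℂ) w * u) / (1 - u)
  have hne : ∀ u ∈ ball (0 : ℂ) 1, (1 : ℂ) - u ≠ 0 := by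
    intro u hu h
    rw [mem_ball_zero_iff] at hu
    rw [← sub_eq_zero.1 h, norm_one] at hu
    exact lt_irrefl _ hu
  have hmd : DifferentiableOn ℂ m (ball 0 1) := by
    refine DifferentiableOn.div ?_ ?_ hne
    · fun_prop
    · fun_prop
  have hmm : MapsTo m (ball 0 1) Hp := by
    intro u hu
    have h1 := hne u hu
    rw [mem_ball_zero_iff] at hu
    have h2 : 0 < Complex.normSq (1 - u) := Complex.normSq_pos.2 h1
    have h3 : Complex.normSq u < 1 := by
      rw [← Complex.sq_norm]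
      nlinarith [norm_nonneg u]
    rw [Complex.normSq_apply] at h3
    show 0 < (m u).im
    have h4 : (m u).im = w.im * (1 - (u.re * u.re + u.im * u.im)) / Complex.normSq (1 - u) := by
      simp only [m, Complex.div_im, Complex.sub_im, Complex.sub_re, Complex.mul_im, Complex.mul_re,
        Complex.conj_re, Complex.conj_im, Complex.one_re, Complex.one_im]
      rw [← sub_div]
      congr 1
      ring
    rw [h4]
    exact div_pos (mul_pos hw' (by linarith)) h2
  have hzw : z - (starRingEnd ℂ) w ≠ 0 := by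
    intro h
    have h1 := congrArg Complex.im h
    simp only [Complex.sub_im, Complex.conj_im, Complex.zero_im] at h1
    linarith
  have hww : w - (starRingEnd ℂ) w ≠ 0 := by
    intro h
    have h1 := congrArg Complex.im h
    simp only [Complex.sub_im, Complex.conj_im, Complex.zero_im] at h1
    linarith
  set u := (z - w) / (z - (starRingEnd ℂ) w) with hu
  have hu1 : u ∈ ball (0 : ℂ) 1 := by
    rw [mem_ball_zero_iff, hu, norm_div, div_lt_one (norm_pos_iff.2 hzw)]
    exact SPA_lt hw' hz'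
  have hmu : m u = z := by
    have h1 : (1 : ℂ) - u ≠ 0 := hne u hu1
    show (w - (starRingEnd ℂ) w * u) / (1 - u) = z
    rw [div_eq_iff h1, hu]
    field_simp
    ring
  have hm0 : m 0 = w := by simp [m]
  have h1 := SPA_key (f := f ∘ m) (a := 0) (r := 1) one_pos (hd.comp hmd hmm)
    (fun v hv => le_of_lt (hm (hmm hv))) hu1
  simp only [Function.comp_apply, hmu, hm0, sub_zero, div_one] at h1
  have hfz : 0 < (f z).im := hm hz
  have hfw : 0 < (f w).im := hm hw
  have hfne : f z - (starRingEnd ℂ) (f w) ≠ 0 := by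
    intro h
    have h1 := congrArg Complex.im h
    simp only [Complex.sub_im, Complex.conj_im, Complex.zero_im] at h1
    linarith
  rw [norm_div, div_le_iff₀ (norm_pos_iff.2 hfne)]
  exact h1

end Pool.Agent.BB.P
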