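import Pool.Agent.BB.P.CELL
import Pool.Agent.BB.P.SMALL

open Set Metric Filter Topology MeasureTheory

namespace Pool.Agent.BB.P

namespace PS

variable (s : PS)

/-- small preimages of the base point near `p` in `O` -/
theorem stage0 {η : ℝ} (hη : 0 < η) : ∃ (n : ℕ) (v : ℂ), v ∈ s.O ∧ s.b.F^[n] v = s.u₀ ∧
    ‖v - s.p‖ < s.R / 8 ∧ s.sz n v < η := by
  obtain ⟨C, hC1, hC⟩ := s.cell
  have hC0 : 0 < C := by linarith
  have hR := s.hR
  set η₁ : ℝ := min (η / C) (s.R / (16 * C ^ 2)) with hη₁def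
  have hη₁ : 0 < η₁ := lt_min (div_pos hη hC0) (by positivity)
  have h1 : C * η₁ ≤ η := by
    have := min_le_left (η / C) (s.R / (16 * C ^ 2))
    calc C * η₁ ≤ C * (η / C) := mul_le_mul_of_nonneg_left this hC0.le
      _ = η := by field_simp
  have h2 : C * (C * η₁) ≤ s.R / 16 := by
    have := min_le_right (η / C) (s.R / (16 * C ^ 2))
    calc C * (C * η₁) ≤ C * (C * (s.R / (16 * C ^ 2))) :=
          mul_le_mul_of_nonneg_left (mul_le_mul_of_nonneg_left this hC0.le) hC0.le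
      _ = s.R / 16 := by field_simp
  obtain ⟨n₁, hn₁⟩ := s.small_dist (isCompact_closedBall s.p s.R) hη₁
  have hκ0O : s.κ 0 ∈ s.O := s.hκ0
  have hκ0U : s.κ 0 ∈ s.b.U := (s.O_sub hκ0O).1
  obtain ⟨n₀, hn₀⟩ := s.V_union hκ0U
  set n := max n₀ n₁ with hn
  have hout : s.b.ψ (s.b.F^[n] (s.κ 0)) ∉ s.k.C := hn₀.2 n (le_max_left _ _)
  have hζ : ∀ x ∈ Icc (0:ℝ) 1, s.b.F^[n] (s.κ x) ≠ s.b.ζ := by
    intro x hx
    rcases eq_or_lt_of_le hx.2 with h | h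
    · rw [h]
      exact s.hκζ n
    · intro h'
      have h3 := s.b.iter_mem (s.hκU x ⟨hx.1, h⟩).1 n
      rw [h'] at h3
      exact s.b.hζU h3
  obtain ⟨t, ht, -, σ, j, θ, hθ, hψ⟩ := s.k.exit s.hκc hκ0U hout s.hκ1 hζ
  have htI : t ∈ Ico (0:ℝ) 1 := ⟨ht.1.le, ht.2⟩
  obtain ⟨hzU, hzb⟩ := s.hκU t htI
  have hzb' : ‖s.κ t - s.p‖ < s.R / 16 := by
    rw [← dist_eq_norm]
    exact hzb
  have hzK : s.κ t ∈ closedBall s.p s.R := by
    rw [mem_closedBall, dist_eq_norm]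
    linarith
  have hsmall := hn₁ n (le_max_right _ _) (s.κ t) hzU hzK σ j θ hθ hψ
  obtain ⟨w, hwU, hFw, hsz, Z, hZc, hZU, hzZ, hwZ, hZb⟩ := hC n (s.κ t) σ j θ hzU hθ hψ
  have hszlt : s.sz (n + j) w < C * η₁ :=
    lt_of_le_of_lt hsz (mul_lt_mul_of_pos_left hsmall hC0)
  -- the connecting set is close to `κ t`
  have hCsz : C * s.sz (n + j) w < s.R / 16 :=
    lt_of_lt_of_le (mul_lt_mul_of_pos_left hszlt hC0) h2
  have hwz : ‖w - s.κ t‖ < s.R / 16 := by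
    have h3 := hZb hzZ
    rw [mem_closedBall, dist_comm, dist_eq_norm] at h3
    linarith
  have hwp : ‖w - s.p‖ < s.R / 8 := by
    have h3 : w - s.p = (w - s.κ t) + (s.κ t - s.p) := by ring
    rw [h3]
    refine lt_of_le_of_lt (norm_add_le _ _) ?_
    linarith
  have hZball : Z ⊆ s.b.U ∩ ball s.p s.R := by
    intro y hy
    refine ⟨hZU hy, ?_⟩
    have h3 := hZb hy
    rw [mem_closedBall, dist_eq_norm] at h3
    rw [mem_ball, dist_eq_norm]
    have h4 : y - s.p = (y - w) + (w - s.p) := by ring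
    rw [h4]
    refine lt_of_le_of_lt (norm_add_le _ _) ?_
    linarith
  -- `κ t` belongs to `O`
  have hpath : s.κ '' Icc 0 t ⊆ s.O := by
    have hpc : IsPreconnected (s.κ '' Icc 0 t) :=
      isPreconnected_Icc.image _ (s.hκc.mono (Icc_subset_Icc_right ht.2.le))
    refine s.sub_O hpc ?_ (mem_image_of_mem _ (left_mem_Icc.mpr ht.1.le)) hκ0O
    rintro _ ⟨x, hx, rfl⟩
    obtain ⟨h5, h6⟩ := s.hκU x ⟨hx.1, lt_of_le_of_lt hx.2 ht.2⟩
    exact ⟨h5, ball_subset_ball (by linarith) h6⟩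
  have hzO : s.κ t ∈ s.O := hpath (mem_image_of_mem _ (right_mem_Icc.mpr ht.1.le))
  have hZO : Z ⊆ s.O := s.sub_O hZc hZball hzZ hzO
  exact ⟨n + j, w, hZO hwZ, s.F_add hFw, hwp, lt_of_lt_of_le hszlt h1⟩

end PS

end Pool.Agent.BB.P
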