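import Pool.Agent.BB.P.CELL
import Pool.Agent.BB.P.BRA

open Set Metric Filter Topology MeasureTheory

namespace Pool.Agent.BB.P

namespace PS

variable (s : PS)

/-- the open rectangles -/
def Rc (t₂ : ℝ) (x : ℕ → ℝ) (i : ℕ) : Set ℂ :=
  {z | (x i < z.re ∧ z.re < x (i + 1)) ∧ (0 < z.im ∧ z.im < t₂)}

private lemma TILE_Rc_open (t₂ : ℝ) (x : ℕ → ℝ) (i : ℕ) : IsOpen (Rc t₂ x i) :=
  ((isOpen_lt continuous_const Complex.continuous_re).inter
    (isOpen_lt Complex.continuous_re continuous_const)).inter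
  ((isOpen_lt continuous_const Complex.continuous_im).inter
    (isOpen_lt Complex.continuous_im continuous_const))

private lemma TILE_Rc_convex (t₂ : ℝ) (x : ℕ → ℝ) (i : ℕ) : Convex ℝ (Rc t₂ x i) :=
  ((convex_halfSpace_re_gt _).inter (convex_halfSpace_re_lt _)).inter
    ((convex_halfSpace_im_gt _).inter (convex_halfSpace_im_lt _))

private lemma TILE_closure {t₂ : ℝ} {x : ℕ → ℝ} {i : ℕ} {ω : ℂ} (h : ω ∈ closure (Rc t₂ x i)) :
    (x i ≤ ω.re ∧ ω.re ≤ x (i + 1)) ∧ (0 ≤ ω.im ∧ ω.im ≤ t₂) := by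
  have hcl : IsClosed {z : ℂ | (x i ≤ z.re ∧ z.re ≤ x (i + 1)) ∧ (0 ≤ z.im ∧ z.im ≤ t₂)} :=
    ((isClosed_le continuous_const Complex.continuous_re).inter
      (isClosed_le Complex.continuous_re continuous_const)).inter
    ((isClosed_le continuous_const Complex.continuous_im).inter
      (isClosed_le Complex.continuous_im continuous_const))
  have hsub : Rc t₂ x i ⊆ {z : ℂ | (x i ≤ z.re ∧ z.re ≤ x (i + 1)) ∧ (0 ≤ z.im ∧ z.im ≤ t₂)} :=
    fun z hz => ⟨⟨hz.1.1.le, hz.1.2.le⟩, ⟨hz.2.1.le, hz.2.2.le⟩⟩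
  exact closure_minimal hsub hcl h

private lemma TILE_mono {N : ℕ} {x : ℕ → ℝ} (hx : ∀ i < N, x i < x (i + 1)) :
    ∀ i j : ℕ, i ≤ j → j ≤ N → x i ≤ x j := by
  intro i j hij
  induction j, hij using Nat.le_induction with
  | base => intro _; exact le_rfl
  | succ j hij ih =>
    intro hj
    exact (ih (by omega)).trans (hx j (by omega)).le

/-- On a vertical side the lift is given by an inverse branch on the disc. -/
private lemma TILE_side {n : ℕ} {H : ℂ → ℂ} (hd : DifferentiableOn ℂ H (St s.b.t₀))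
    (he : ∀ ξ ∈ St s.b.t₀, s.b.F^[n] (H ξ) = s.b.φ ξ) {x₁ t₂ : ℝ} (ht₂ : 0 < t₂)
    (ht : t₂ < s.b.t₀)
    (hside : ∀ y : ℝ, 0 < y → y ≤ t₂ → s.b.φ (x₁ + y * Complex.I) ∈ ball s.p s.R) :
    ∃ h : ℂ → ℂ, DifferentiableOn ℂ h (ball s.p (2 * s.R)) ∧ InjOn h (ball s.p (2 * s.R)) ∧
      (∀ y : ℝ, 0 < y → y ≤ t₂ → H (x₁ + y * Complex.I) = h (s.b.φ (x₁ + y * Complex.I))) ∧
      deriv H (x₁ + t₂ * Complex.I) =
        deriv h (s.b.φ (x₁ + t₂ * Complex.I)) * deriv s.b.φ (x₁ + t₂ * Complex.I) := by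
  have hb2 : ball s.p s.R ⊆ ball s.p (2 * s.R) := ball_subset_ball (by linarith [s.hR])
  have hmem : ∀ y : ℝ, 0 < y → y ≤ t₂ → (x₁ + y * Complex.I : ℂ) ∈ St s.b.t₀ := by
    intro y h1 h2
    have : (x₁ + y * Complex.I : ℂ).im = y := by simp
    simp only [St, mem_ofPred_eq, this]
    exact ⟨h1, h2.trans_lt ht⟩
  set a : ℂ := x₁ + t₂ * Complex.I with ha
  have haS : a ∈ St s.b.t₀ := hmem t₂ ht₂ le_rfl
  obtain ⟨h, hhd, hhe, hh0⟩ := s.hbr n (H a) (by rw [he a haS]; exact hb2 (hside t₂ ht₂ le_rfl))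
  rw [he a haS] at hh0
  have hinj : InjOn h (ball s.p (2 * s.R)) := by
    intro x hx y hy hxy
    rw [← hhe x hx, ← hhe y hy, hxy]
  set W : Set ℂ := St s.b.t₀ ∩ s.b.φ ⁻¹' ball s.p (2 * s.R) with hW
  have hφS : DifferentiableOn ℂ s.b.φ (St s.b.t₀) := s.b.hφ.mono (St_sub_Hp _)
  have hWo : IsOpen W := hφS.continuousOn.isOpen_inter_preimage (isOpen_St _) isOpen_ball
  set W₀ := connectedComponentIn W a with hW₀
  have hW₀o : IsOpen W₀ := hWo.connectedComponentIn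
  have haW : a ∈ W := ⟨haS, hb2 (hside t₂ ht₂ le_rfl)⟩
  have haW₀ : a ∈ W₀ := mem_connectedComponentIn haW
  have hW₀W : W₀ ⊆ W := connectedComponentIn_subset _ _
  have hseg : (fun y : ℝ => (x₁ + y * Complex.I : ℂ)) '' Ioc 0 t₂ ⊆ W₀ := by
    refine IsPreconnected.subset_connectedComponentIn ?_ ?_ ?_
    · refine isPreconnected_Ioc.image _ (Continuous.continuousOn ?_)
      fun_prop
    · exact ⟨t₂, ⟨ht₂, le_rfl⟩, rfl⟩
    · rintro _ ⟨y, hy, rfl⟩
      exact ⟨hmem y hy.1 hy.2, hb2 (hside y hy.1 hy.2)⟩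
  have hu : EqOn H (fun y => h (s.b.φ y)) W₀ := by
    refine s.b.lift_eqOn (n := n) (E := s.b.φ) hW₀o isPreconnected_connectedComponentIn
      (hd.mono (fun y hy => (hW₀W hy).1)) ?_ ?_ ?_ haW₀ (s.b.deriv_φ_ne (St_sub_Hp _ haS)) ?_
    · exact hhd.comp (hφS.mono fun y hy => (hW₀W hy).1) fun y hy => (hW₀W hy).2
    · intro y hy
      exact he y (hW₀W hy).1
    · intro y hy
      exact hhe _ (hW₀W hy).2
    · exact hh0.symm
  refine ⟨h, hhd, hinj, fun y h1 h2 => hu (hseg ⟨y, ⟨h1, h2⟩, rfl⟩), ?_⟩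
  have h1 : HasDerivAt s.b.φ (deriv s.b.φ a) a :=
    (hφS.differentiableAt ((isOpen_St _).mem_nhds haS)).hasDerivAt
  have h2 : HasDerivAt h (deriv h (s.b.φ a)) (s.b.φ a) :=
    (hhd.differentiableAt (isOpen_ball.mem_nhds haW.2)).hasDerivAt
  have h3 := h2.comp a h1
  have h4 : H =ᶠ[𝓝 a] (h ∘ s.b.φ) := by
    filter_upwards [hW₀o.mem_nhds haW₀] with y hy
    exact hu hy
  exact (h3.congr_of_eventuallyEq h4).deriv

/-- tiles over the rectangles -/
theorem tiles {N : ℕ} {t₂ : ℝ} {x : ℕ → ℝ} (hx : Rects s.b s.p s.R N t₂ x) :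
    ∃ C : ℝ, 1 ≤ C ∧ ∀ (n : ℕ) (v : ℂ), v ∈ s.b.U → s.b.F^[n] v = s.u₀ →
      ∃ T : ℕ → Set ℂ, (∀ i < N, IsOpen (T i) ∧ IsPreconnected (T i) ∧ T i ⊆ s.b.U ∧
        s.b.F^[n] '' T i = s.b.φ '' Rc t₂ x i ∧
        (∀ z ∈ s.b.U, z ∈ closure (T i) → z ∉ T i → ‖z - v‖ ≤ C * s.sz n v) ∧
        ∃ Z : Set ℂ, IsPreconnected Z ∧ Z ⊆ s.b.U ∧ Z ⊆ closedBall v (C * s.sz n v) ∧ v ∈ Z ∧
          (Z ∩ T i).Nonempty) ∧
      ∀ i < N, ∀ i' < N, i ≠ i' → Disjoint (T i) (T i') := by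
  have hx' := hx
  obtain ⟨ht₂, ht, hxlt, hside, -⟩ := hx'
  have hmono := TILE_mono hxlt
  have hRcS : ∀ i, Rc t₂ x i ⊆ St s.b.t₀ := fun i z hz => ⟨hz.2.1, hz.2.2.trans ht⟩
  -- the compact convex set
  set A : Set ℂ := {z | (min (x 0) s.ξ₀.re ≤ z.re ∧ z.re ≤ max (x N) s.ξ₀.re) ∧
    (min (t₂ / 2) s.ξ₀.im ≤ z.im ∧ z.im ≤ max t₂ s.ξ₀.im)} with hAdef
  have hAc : Convex ℝ A := ((convex_halfSpace_re_ge _).inter (convex_halfSpace_re_le _)).inter
    ((convex_halfSpace_im_ge _).inter (convex_halfSpace_im_le _))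
  have hAcomp : IsCompact A := by
    have h1 : A = Icc (min (x 0) s.ξ₀.re) (max (x N) s.ξ₀.re) ×ℂ
        Icc (min (t₂ / 2) s.ξ₀.im) (max t₂ s.ξ₀.im) := by
      ext z
      simp only [hAdef, Complex.mem_reProdIm, mem_Icc, mem_ofPred_eq]
    rw [h1]
    exact isCompact_Icc.reProdIm isCompact_Icc
  have hAS : A ⊆ St s.b.t₀ := by
    intro z hz
    constructor
    · exact (lt_min (by linarith) s.hξ₀.1).trans_le hz.2.1
    · exact hz.2.2.trans_lt (max_lt ht s.hξ₀.2)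
  have h0A : s.ξ₀ ∈ A := ⟨⟨min_le_right _ _, le_max_right _ _⟩, ⟨min_le_right _ _,
    le_max_right _ _⟩⟩
  have hAmem : ∀ z : ℂ, x 0 ≤ z.re → z.re ≤ x N → t₂ / 2 ≤ z.im → z.im ≤ t₂ → z ∈ A := by
    intro z h1 h2 h3 h4
    exact ⟨⟨(min_le_left _ _).trans h1, h2.trans (le_max_left _ _)⟩,
      ⟨(min_le_left _ _).trans h3, h4.trans (le_max_left _ _)⟩⟩
  obtain ⟨C₂, hC₂1, hC₂⟩ := s.rect_dist hAcomp hAc hAS h0A
  obtain ⟨C₁, hC₁1, hC₁⟩ := koebe_dist (θ := 1 / 2) (by norm_num) (by norm_num)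
  -- lower bound of the derivative of φ on A
  have hφc : ContinuousOn (fun z => ‖deriv s.b.φ z‖) A := by
    have h1 : DifferentiableOn ℂ (deriv s.b.φ) Hp := s.b.hφ.deriv isOpen_Hp
    exact (h1.continuousOn.mono (hAS.trans (St_sub_Hp _))).norm
  obtain ⟨z₀, hz₀A, hz₀⟩ := hAcomp.exists_isMinOn ⟨s.ξ₀, h0A⟩ hφc
  set m : ℝ := ‖deriv s.b.φ z₀‖ with hm
  have hm0 : 0 < m := norm_pos_iff.mpr (s.b.deriv_φ_ne (St_sub_Hp _ (hAS hz₀A)))
  have hmA : ∀ a ∈ A, m ≤ ‖deriv s.b.φ a‖ := fun a ha => hz₀ ha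
  have hR := s.hR
  have hC₁0 : 0 < C₁ := by linarith
  have hC₂0 : 0 < C₂ := by linarith
  have hKpos : 0 ≤ C₁ * C₁ * (2 * s.R) * C₂ / m := by positivity
  refine ⟨C₂ + C₁ * C₁ * (2 * s.R) * C₂ / m, by linarith, fun n v hv hvn => ?_⟩
  obtain ⟨H, hd, hmU, he, h0⟩ := s.b.liftS n hv s.hξ₀ hvn
  obtain ⟨hinj, hdne, -, -, -⟩ := s.b.lift_props hd hmU he
  have hszpos := s.sz_pos hv hvn
  have hdist : ∀ a ∈ A, ‖H a - v‖ ≤ C₂ * s.sz n v := by
    intro a ha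
    have := (hC₂ n H hd hmU he a ha).2.2
    rwa [h0] at this
  have hderiv : ∀ a ∈ A, ‖deriv H a‖ ≤ C₂ * s.sz n v := by
    intro a ha
    have := (hC₂ n H hd hmU he a ha).1
    rwa [h0] at this
  -- points on vertical sides
  have hvert : ∀ l ≤ N, ∀ y : ℝ, 0 < y → y ≤ t₂ →
      ‖H (x l + y * Complex.I) - v‖ ≤ (C₂ + C₁ * C₁ * (2 * s.R) * C₂ / m) * s.sz n v := by
    intro l hl y hy1 hy2
    obtain ⟨h, hhd, hhinj, hheq, hhder⟩ := s.TILE_side hd he ht₂ ht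
      (fun y h1 h2 => hside l hl y h1 h2)
    have haA : (x l + t₂ * Complex.I : ℂ) ∈ A := by
      refine hAmem _ ?_ ?_ ?_ ?_
      · simpa using hmono 0 l (Nat.zero_le _) hl
      · simpa using hmono l N hl le_rfl
      · simp; linarith
      · simp
    have hh2 := hC₁ h s.p (2 * s.R) (by linarith) hhd hhinj
    have hrr : 1 / 2 * (2 * s.R) = s.R := by ring
    rw [hrr] at hh2
    have hpa : s.b.φ (x l + t₂ * Complex.I) ∈ closedBall s.p s.R :=
      ball_subset_closedBall (hside l hl t₂ ht₂ le_rfl)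
    have hpy : s.b.φ (x l + y * Complex.I) ∈ closedBall s.p s.R :=
      ball_subset_closedBall (hside l hl y hy1 hy2)
    have e1 := (hh2.2 _ hpy _ hpa).1
    rw [← hheq y hy1 hy2, ← hheq t₂ ht₂ le_rfl] at e1
    have e2 := (hh2.1 _ hpa).2
    have e3 : ‖s.b.φ (x l + y * Complex.I) - s.b.φ (x l + t₂ * Complex.I)‖ ≤ 2 * s.R := by
      have h1 := dist_triangle_right (s.b.φ (x l + y * Complex.I))
        (s.b.φ (x l + t₂ * Complex.I)) s.p
      rw [mem_closedBall] at hpa hpy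
      rw [← dist_eq_norm]
      linarith
    have e4 : ‖deriv h (s.b.φ (x l + t₂ * Complex.I))‖ * m ≤ C₂ * s.sz n v := by
      have h1 := hderiv _ haA
      rw [hhder, norm_mul] at h1
      refine le_trans ?_ h1
      gcongr
      exact hmA _ haA
    have e5 : ‖deriv h (s.b.φ (x l + t₂ * Complex.I))‖ ≤ C₂ * s.sz n v / m := by
      rwa [le_div_iff₀ hm0]
    have e6 : ‖H (x l + y * Complex.I) - H (x l + t₂ * Complex.I)‖ ≤
        C₁ * C₁ * (2 * s.R) * C₂ / m * s.sz n v := by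
      calc ‖H (x l + y * Complex.I) - H (x l + t₂ * Complex.I)‖
          ≤ C₁ * ‖deriv h s.p‖ *
            ‖s.b.φ (x l + y * Complex.I) - s.b.φ (x l + t₂ * Complex.I)‖ := e1
        _ ≤ C₁ * (C₁ * (C₂ * s.sz n v / m)) * (2 * s.R) := by
            gcongr
            exact e2.trans (by gcongr)
        _ = C₁ * C₁ * (2 * s.R) * C₂ / m * s.sz n v := by ring
    have e7 := hdist _ haA
    calc ‖H (x l + y * Complex.I) - v‖
        ≤ ‖H (x l + y * Complex.I) - H (x l + t₂ * Complex.I)‖ +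
          ‖H (x l + t₂ * Complex.I) - v‖ := norm_sub_le_norm_sub_add_norm_sub _ _ _
      _ ≤ C₁ * C₁ * (2 * s.R) * C₂ / m * s.sz n v + C₂ * s.sz n v := add_le_add e6 e7
      _ = _ := by ring
  refine ⟨fun i => H '' Rc t₂ x i, fun i hi => ⟨?_, ?_, ?_, ?_, ?_, ?_⟩, ?_⟩
  · -- open
    rw [isOpen_iff_mem_nhds]
    rintro _ ⟨ξ, hξ, rfl⟩
    have hξS := hRcS i hξ
    have hne : deriv H ξ ≠ 0 := by
      intro h1
      have := s.b.deriv_mul (isOpen_St _) hd he hξS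
      rw [h1, mul_zero] at this
      exact s.b.deriv_φ_ne (St_sub_Hp _ hξS) this.symm
    have hst : HasStrictDerivAt H (deriv H ξ) ξ :=
      ((hd.analyticOnNhd (isOpen_St _)) ξ hξS).hasStrictDerivAt
    rw [← hst.map_nhds_eq hne]
    exact image_mem_map ((TILE_Rc_open t₂ x i).mem_nhds hξ)
  · exact (TILE_Rc_convex t₂ x i).isPreconnected.image H (hd.continuousOn.mono (hRcS i))
  · rintro _ ⟨ξ, hξ, rfl⟩
    exact hmU (hRcS i hξ)
  · rw [image_image]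
    exact image_congr fun ξ hξ => he ξ (hRcS i hξ)
  · -- boundary points
    intro z hzU hzcl hzT
    set ω := s.b.ψ (s.b.F^[n] z) with hω
    have hFz : s.b.F^[n] z ∈ s.b.U := s.b.iter_mem hzU n
    have hωH : ω ∈ Hp := s.b.ψ_mem hFz
    have hg : ContinuousAt (fun y => s.b.ψ (s.b.F^[n] y)) z := by
      have h1 : ContinuousAt s.b.ψ (s.b.F^[n] z) :=
        s.b.hψ.continuousOn.continuousAt (s.b.hUo.mem_nhds hFz)
      exact h1.comp (s.b.iter_diff n).continuous.continuousAt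
    haveI : (𝓝[H '' Rc t₂ x i] z).NeBot := mem_closure_iff_nhdsWithin_neBot.mp hzcl
    have hgt : Tendsto (fun y => s.b.ψ (s.b.F^[n] y)) (𝓝[H '' Rc t₂ x i] z) (𝓝 ω) :=
      hg.tendsto.mono_left nhdsWithin_le_nhds
    have hgmem : ∀ᶠ y in 𝓝[H '' Rc t₂ x i] z, s.b.ψ (s.b.F^[n] y) ∈ Rc t₂ x i ∧
        H (s.b.ψ (s.b.F^[n] y)) = y := by
      filter_upwards [self_mem_nhdsWithin] with y hy
      obtain ⟨ξ, hξ, rfl⟩ := hy
      have h1 : s.b.ψ (s.b.F^[n] (H ξ)) = ξ := by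
        rw [he ξ (hRcS i hξ), s.b.ψφ (St_sub_Hp _ (hRcS i hξ))]
      rw [h1]
      exact ⟨hξ, rfl⟩
    have hωcl : ω ∈ closure (Rc t₂ x i) :=
      mem_closure_of_tendsto hgt (hgmem.mono fun y hy => hy.1)
    obtain ⟨⟨hre1, hre2⟩, him1, him2⟩ := TILE_closure hωcl
    have hωS : ω ∈ St s.b.t₀ := ⟨hωH, him2.trans_lt ht⟩
    have hHω : H ω = z := by
      have h1 : Tendsto (fun y => H (s.b.ψ (s.b.F^[n] y))) (𝓝[H '' Rc t₂ x i] z) (𝓝 (H ω)) :=
        (hd.continuousOn.continuousAt ((isOpen_St _).mem_nhds hωS)).tendsto.comp hgt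
      have h2 : Tendsto (fun y : ℂ => y) (𝓝[H '' Rc t₂ x i] z) (𝓝 z) :=
        tendsto_id.mono_left nhdsWithin_le_nhds
      exact tendsto_nhds_unique h1 (h2.congr' (hgmem.mono fun y hy => hy.2.symm))
    have hωR : ω ∉ Rc t₂ x i := fun h => hzT ⟨ω, h, hHω⟩
    rw [← hHω]
    have hcase : ω.im = t₂ ∨ ω.re = x i ∨ ω.re = x (i + 1) := by
      by_contra hcon
      push Not at hcon
      apply hωR
      exact ⟨⟨lt_of_le_of_ne hre1 (Ne.symm hcon.2.1), lt_of_le_of_ne hre2 hcon.2.2⟩,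
        ⟨hωH, lt_of_le_of_ne him2 hcon.1⟩⟩
    have hrepr : ω = ω.re + ω.im * Complex.I := (Complex.re_add_im ω).symm
    rcases hcase with h1 | h1 | h1
    · have hωA : ω ∈ A := by
        refine hAmem ω ?_ ?_ ?_ ?_
        · exact (hmono 0 i (Nat.zero_le _) hi.le).trans hre1
        · exact hre2.trans (hmono (i + 1) N hi le_rfl)
        · rw [h1]; linarith
        · rw [h1]
      refine (hdist ω hωA).trans ?_
      gcongr
      linarith
    · rw [hrepr, h1]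
      exact hvert i hi.le ω.im hωH him2
    · rw [hrepr, h1]
      exact hvert (i + 1) hi ω.im hωH him2
  · -- the connecting set
    refine ⟨H '' A, hAc.isPreconnected.image H (hd.continuousOn.mono hAS), ?_, ?_, ?_, ?_⟩
    · rintro _ ⟨ξ, hξ, rfl⟩
      exact hmU (hAS hξ)
    · rintro _ ⟨ξ, hξ, rfl⟩
      rw [mem_closedBall, dist_eq_norm]
      refine (hdist ξ hξ).trans ?_
      gcongr
      linarith
    · exact ⟨s.ξ₀, h0A, h0⟩
    · have hlt := hxlt i hi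
      set c : ℂ := ((x i + x (i + 1)) / 2 : ℝ) + (3 / 4 * t₂ : ℝ) * Complex.I with hc
      have hcre : c.re = (x i + x (i + 1)) / 2 := by
        simp only [hc, Complex.add_re, Complex.ofReal_re, Complex.mul_re, Complex.I_re,
          Complex.ofReal_im, Complex.I_im]
        ring
      have hcim : c.im = 3 / 4 * t₂ := by
        simp only [hc, Complex.add_im, Complex.ofReal_im, Complex.mul_im, Complex.I_re,
          Complex.ofReal_re, Complex.I_im]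
        ring
      refine ⟨H c, ⟨c, ?_, rfl⟩, ⟨c, ?_, rfl⟩⟩
      · refine hAmem c ?_ ?_ ?_ ?_
        · rw [hcre]
          have := hmono 0 i (Nat.zero_le _) hi.le
          linarith
        · rw [hcre]
          have := hmono (i + 1) N hi le_rfl
          linarith
        · rw [hcim]; linarith
        · rw [hcim]; linarith
      · refine ⟨⟨?_, ?_⟩, ?_, ?_⟩
        · rw [hcre]; linarith
        · rw [hcre]; linarith
        · rw [hcim]; linarith
        · rw [hcim]; linarith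
  · -- disjointness
    intro i hi i' hi' hne
    rw [Set.disjoint_left]
    rintro z ⟨ξ, hξ, rfl⟩ ⟨ξ', hξ', hξξ'⟩
    have h1 : ξ' = ξ := hinj (hRcS i' hξ') (hRcS i hξ) hξξ'
    subst h1
    rcases lt_or_gt_of_ne hne with h2 | h2
    · have h3 := hmono (i + 1) i' h2 hi'.le
      have h4 := hξ.1.2
      have h5 := hξ'.1.1
      linarith
    · have h3 := hmono (i' + 1) i h2 hi.le
      have h4 := hξ.1.1
      have h5 := hξ'.1.2
      linarith

end PS

end Pool.Agent.BB.P
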