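import Pool.Agent.BB.P.Basic

open Set Metric Filter Topology MeasureTheory
open scoped ENNReal

namespace Pool.Agent.BB.P

private lemma tl_ivt {γ : ℝ → ℂ} (hc : ContinuousOn γ (Ico 0 1))
    (hn : Tendsto (fun x => ‖γ x‖) (𝓝[<] 1) atTop) {a₀ r : ℝ} (h0 : 0 ≤ a₀) (h1 : a₀ < 1)
    (hr : ‖γ a₀‖ ≤ r) : ∃ x, a₀ ≤ x ∧ x < 1 ∧ ‖γ x‖ = r := by
  have e1 : ∀ᶠ x in 𝓝[<] (1:ℝ), r ≤ ‖γ x‖ := hn.eventually_ge_atTop r
  have e2 : ∀ᶠ x in 𝓝[<] (1:ℝ), x ∈ Ioo a₀ 1 := Ioo_mem_nhdsLT h1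
  obtain ⟨x', hx', hx''⟩ := (e1.and e2).exists
  have hsub : Icc a₀ x' ⊆ Ico 0 1 := fun y hy => ⟨h0.trans hy.1, hy.2.trans_lt hx''.2⟩
  obtain ⟨x, hx, hxr⟩ := intermediate_value_Icc hx''.1.le ((hc.mono hsub).norm) ⟨hr, hx'⟩
  exact ⟨x, hx.1, hx.2.trans_lt hx''.2, hxr⟩

private lemma tl_ray1 {u u' : ℝ → ℂ} {a b A B : ℝ} (hA : 0 < A) (hAB : A < B)
    (ha0 : 0 < a) (hab : a ≤ b) (hbπ : b < Real.pi)
    (hd : ∀ x ∈ Ioo 0 Real.pi, HasDerivAt u (u' x) x) (hc : ContinuousOn u' (Ioo 0 Real.pi))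
    (ha : ‖u a‖ ≤ A) (hb : B ≤ ‖u b‖) :
    ENNReal.ofReal ((Real.log (B / A)) ^ 2 / Real.pi) ≤
      ∫⁻ x in Ioo 0 Real.pi, ENNReal.ofReal (‖u' x‖ ^ 2) *
        indicator {w : ℂ | A ≤ ‖w‖ ∧ ‖w‖ ≤ B} (fun w => ENNReal.ofReal (1 / ‖w‖ ^ 2)) (u x) := by
  have hsub : Icc a b ⊆ Ioo 0 Real.pi := fun x hx => ⟨ha0.trans_le hx.1, hx.2.trans_lt hbπ⟩
  have hcont : ContinuousOn u (Ioo 0 Real.pi) :=
    fun x hx => (hd x hx).continuousAt.continuousWithinAt
  obtain ⟨s, t, has, hst, htb, hus, hut, hx⟩ := crossing hab ((hcont.mono hsub).norm) ha hb hAB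
  have hsub2 : Icc s t ⊆ Ioo 0 Real.pi := (Icc_subset_Icc has htb).trans hsub
  have hs0 : A ≤ ‖u s‖ := by
    have e1 : ContinuousWithinAt (fun x => ‖u x‖) (Ioo s t) s :=
      ((hd s (hsub2 ⟨le_rfl, hst.le⟩)).continuousAt.norm).continuousWithinAt
    have e2 : s ∈ closure (Ioo s t) := by
      rw [closure_Ioo hst.ne]
      exact ⟨le_rfl, hst.le⟩
    have e3 : (𝓝[Ioo s t] s).NeBot := mem_closure_iff_nhdsWithin_neBot.1 e2
    refine ge_of_tendsto e1 ?_
    filter_upwards [self_mem_nhdsWithin] with x hxm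
    exact (hx x hxm).1.le
  have h0 : ∀ x ∈ Icc s t, u x ≠ 0 := by
    intro x hxm
    rw [← norm_pos_iff]
    rcases hxm.1.eq_or_lt with h | h
    · rw [← h]; linarith
    · rcases hxm.2.eq_or_lt with h' | h'
      · rw [h']; linarith
      · have := (hx x ⟨h, h'⟩).1
        linarith
  have hray := ray_bound (h := u) (h' := u') (a := s) (b := t) (A := A) (B := B)
    (ℓ := Real.pi) hst.le hA hAB (fun x hx => hd x (hsub2 hx)) (hc.mono hsub2) h0 hus hut
    (by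
      have h1 := (hsub2 ⟨le_rfl, hst.le⟩).1
      have h2 := (hsub2 ⟨hst.le, le_rfl⟩).2
      linarith) Real.pi_pos
  exact hray.trans (lintegral_mono_set (Ioo_subset_Icc_self.trans hsub2))

private lemma tl_flip (f : ℝ → ℝ≥0∞) :
    ∫⁻ x in Ioo 0 Real.pi, f (Real.pi - x) = ∫⁻ x in Ioo 0 Real.pi, f x := by
  rw [← lintegral_indicator measurableSet_Ioo, ← lintegral_indicator measurableSet_Ioo,
    ← lintegral_sub_left_eq_self (μ := volume) (fun x => indicator (Ioo 0 Real.pi) f x) Real.pi]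
  congr 1
  ext x
  by_cases hx : x ∈ Ioo 0 Real.pi
  · rw [indicator_of_mem hx, indicator_of_mem]
    exact ⟨by linarith [hx.2], by linarith [hx.1]⟩
  · rw [indicator_of_notMem hx, indicator_of_notMem]
    intro h
    exact hx ⟨by linarith [h.2], by linarith [h.1]⟩

private lemma tl_ray {u u' : ℝ → ℂ} {a b A B : ℝ} (hA : 0 < A) (hAB : A < B)
    (ha0 : 0 < a) (haπ : a < Real.pi) (hb0 : 0 < b) (hbπ : b < Real.pi)
    (hd : ∀ x ∈ Ioo 0 Real.pi, HasDerivAt u (u' x) x) (hc : ContinuousOn u' (Ioo 0 Real.pi))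
    (ha : ‖u a‖ ≤ A) (hb : B ≤ ‖u b‖) :
    ENNReal.ofReal ((Real.log (B / A)) ^ 2 / Real.pi) ≤
      ∫⁻ x in Ioo 0 Real.pi, ENNReal.ofReal (‖u' x‖ ^ 2) *
        indicator {w : ℂ | A ≤ ‖w‖ ∧ ‖w‖ ≤ B} (fun w => ENNReal.ofReal (1 / ‖w‖ ^ 2)) (u x) := by
  rcases le_total a b with hab | hab
  · exact tl_ray1 hA hAB ha0 hab hbπ hd hc ha hb
  · have hm : MapsTo (fun x : ℝ => Real.pi - x) (Ioo 0 Real.pi) (Ioo 0 Real.pi) :=
      fun x hx => ⟨by linarith [hx.2], by linarith [hx.1]⟩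
    have h1 := tl_ray1 (u := fun x => u (Real.pi - x)) (u' := fun x => - u' (Real.pi - x))
      (a := Real.pi - a) (b := Real.pi - b) hA hAB (by linarith) (by linarith) (by linarith)
      (fun x hx => by
        have e1 := (hd _ (hm hx)).scomp x ((hasDerivAt_id x).const_sub Real.pi)
        simpa [Function.comp_def] using e1)
      ((hc.comp (by fun_prop) hm).neg) (by simpa using ha) (by simpa using hb)
    refine h1.trans (le_of_eq ?_)
    rw [← tl_flip (fun x => ENNReal.ofReal (‖u' x‖ ^ 2) *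
        indicator {w : ℂ | A ≤ ‖w‖ ∧ ‖w‖ ≤ B} (fun w => ENNReal.ofReal (1 / ‖w‖ ^ 2)) (u x))]
    simp only [norm_neg]

/-- Two curves which tend to infinity in the half plane and whose images converge have the same
limit. -/
theorem two_limits {φ : ℂ → ℂ} (hd : DifferentiableOn ℂ φ Hp) (hi : InjOn φ Hp)
    {γ₁ γ₂ : ℝ → ℂ} (hc₁ : ContinuousOn γ₁ (Ico 0 1)) (hc₂ : ContinuousOn γ₂ (Ico 0 1))
    (hH₁ : ∀ x ∈ Ico (0:ℝ) 1, γ₁ x ∈ Hp) (hH₂ : ∀ x ∈ Ico (0:ℝ) 1, γ₂ x ∈ Hp)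
    (hn₁ : Tendsto (fun x => ‖γ₁ x‖) (𝓝[<] 1) atTop)
    (hn₂ : Tendsto (fun x => ‖γ₂ x‖) (𝓝[<] 1) atTop) {p₁ p₂ : ℂ}
    (hp₁ : Tendsto (fun x => φ (γ₁ x)) (𝓝[<] 1) (𝓝 p₁))
    (hp₂ : Tendsto (fun x => φ (γ₂ x)) (𝓝[<] 1) (𝓝 p₂)) : p₁ = p₂ := by
  by_contra hne
  set δ : ℝ := ‖p₁ - p₂‖ with hδ
  have hδ0 : 0 < δ := norm_pos_iff.2 (sub_ne_zero.2 hne)
  set A : ℝ := δ / 8 with hA
  set B : ℝ := δ / 4 with hB
  have hA0 : 0 < A := by positivity
  have hAB : A < B := by rw [hA, hB]; linarith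
  -- the starting parameter
  obtain ⟨a₀, ha0, ha1, hA1, hA2⟩ : ∃ a₀ : ℝ, 0 ≤ a₀ ∧ a₀ < 1 ∧
      (∀ x, a₀ ≤ x → x < 1 → ‖φ (γ₁ x) - p₁‖ ≤ A) ∧
      (∀ x, a₀ ≤ x → x < 1 → ‖φ (γ₂ x) - p₂‖ ≤ A) := by
    have e1 : ∀ᶠ x in 𝓝[<] (1:ℝ), ‖φ (γ₁ x) - p₁‖ ≤ A := by
      have := hp₁ (closedBall_mem_nhds p₁ hA0)
      filter_upwards [this] with x hx
      rwa [mem_preimage, mem_closedBall, dist_eq_norm] at hx
    have e2 : ∀ᶠ x in 𝓝[<] (1:ℝ), ‖φ (γ₂ x) - p₂‖ ≤ A := by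
      have := hp₂ (closedBall_mem_nhds p₂ hA0)
      filter_upwards [this] with x hx
      rwa [mem_preimage, mem_closedBall, dist_eq_norm] at hx
    obtain ⟨l, hl, hl'⟩ := (mem_nhdsLT_iff_exists_Ioo_subset.1 (e1.and e2))
    rw [mem_Iio] at hl
    refine ⟨(max l 0 + 1) / 2, ?_, ?_, ?_, ?_⟩
    · have := le_max_right l 0
      linarith
    · have : max l 0 < 1 := max_lt hl one_pos
      linarith
    · intro x hx hx1
      have : max l 0 < 1 := max_lt hl one_pos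
      have := le_max_left l 0
      exact (hl' ⟨by linarith, hx1⟩).1
    · intro x hx hx1
      have : max l 0 < 1 := max_lt hl one_pos
      have := le_max_left l 0
      exact (hl' ⟨by linarith, hx1⟩).2
  set r₀ : ℝ := max 1 (max ‖γ₁ a₀‖ ‖γ₂ a₀‖) with hr₀
  have hr₀1 : 1 ≤ r₀ := le_max_left _ _
  have hr₀p : 0 < r₀ := by linarith
  set s₀ : ℝ := Real.log r₀ with hs₀
  set c : ℝ := Real.log (B / A) ^ 2 / Real.pi with hc
  have hBA : B / A = 2 := by rw [hA, hB]; field_simp; norm_num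
  have hc0 : 0 < c := by
    rw [hc, hBA]
    have := Real.log_pos (show (1:ℝ) < 2 by norm_num)
    have := Real.pi_pos
    positivity
  set L : ℝ := 2 * Real.pi * Real.log (B / A) with hL
  have hL0 : 0 ≤ L := by
    rw [hL, hBA]
    have := Real.log_pos (show (1:ℝ) < 2 by norm_num)
    have := Real.pi_pos
    positivity
  set T : ℝ := L / c + 1 with hT
  -- coordinates
  set h : ℂ → ℂ := fun ξ => φ (Complex.exp (Complex.I * ξ)) with hh
  set S : Set ℂ := {ξ : ℂ | 0 < ξ.re ∧ ξ.re < Real.pi} with hS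
  have hmem : ∀ ξ ∈ S, Complex.exp (Complex.I * ξ) ∈ Hp := by
    intro ξ hξ
    show 0 < (Complex.exp (Complex.I * ξ)).im
    rw [Complex.exp_im]
    have : (Complex.I * ξ).im = ξ.re := by simp
    rw [this]
    exact mul_pos (Real.exp_pos _) (Real.sin_pos_of_pos_of_lt_pi hξ.1 hξ.2)
  have hSo : IsOpen S := (isOpen_lt continuous_const Complex.continuous_re).inter
    (isOpen_lt Complex.continuous_re continuous_const)
  have hhd : DifferentiableOn ℂ h S := by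
    intro ξ hξ
    have e1 := hd.differentiableAt (isOpen_Hp.mem_nhds (hmem ξ hξ))
    have e2 : DifferentiableAt ℂ (fun ξ : ℂ => Complex.exp (Complex.I * ξ)) ξ := by fun_prop
    exact (e1.comp ξ e2).differentiableWithinAt
  have hh'c : ContinuousOn (deriv h) S := (hhd.deriv hSo).continuousOn
  set R : Set ℂ := Ioo 0 Real.pi ×ℂ Ioo (-(s₀ + T)) (-s₀) with hR
  have hRm : MeasurableSet R := by
    rw [hR, Complex.reProdIm]
    exact (measurableSet_Ioo.preimage Complex.measurable_re).inter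
      (measurableSet_Ioo.preimage Complex.measurable_im)
  have hRS : R ⊆ S := fun ξ hξ => hξ.1
  have hinj : InjOn h S := by
    intro x hx y hy e
    have e1 : Complex.exp (Complex.I * x) = Complex.exp (Complex.I * y) :=
      hi (hmem x hx) (hmem y hy) e
    have hpi := Real.pi_pos
    have e2 : Complex.I * x = Complex.I * y := by
      rw [← Complex.log_exp (x := Complex.I * x) (by simp; linarith [hx.1]) (by
          simp; linarith [hx.2]),
        ← Complex.log_exp (x := Complex.I * y) (by simp; linarith [hy.1]) (by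
          simp; linarith [hy.2]), e1]
    exact mul_left_cancel₀ Complex.I_ne_zero e2
  set g : ℂ → ℝ≥0∞ := indicator {w : ℂ | A ≤ ‖w‖ ∧ ‖w‖ ≤ B}
    (fun w => ENNReal.ofReal (1 / ‖w‖ ^ 2)) with hg
  have hupper : ∫⁻ ξ in R, ENNReal.ofReal (‖deriv h ξ‖ ^ 2) * g (h ξ - p₁) ≤
      ENNReal.ofReal L := by
    rw [← lintegral_image_holo hRm
      (fun ξ hξ => hhd.differentiableAt (hSo.mem_nhds (hRS hξ))) (hinj.mono hRS)
      (fun w => g (w - p₁))]
    exact (setLIntegral_le_lintegral _ _).trans (lintegral_ring p₁ hA0 hAB)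
  have hgm : Measurable g := by
    rw [hg]
    apply Measurable.indicator
    · fun_prop
    · exact (measurableSet_le measurable_const measurable_norm).inter
        (measurableSet_le measurable_norm measurable_const)
  have hG : AEMeasurable (fun ξ => ENNReal.ofReal (‖deriv h ξ‖ ^ 2) * g (h ξ - p₁))
      (volume.restrict R) := by
    apply AEMeasurable.mul
    · exact (((measurable_deriv h).norm.pow_const 2).ennreal_ofReal).aemeasurable
    · apply hgm.comp_aemeasurable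
      exact ((hhd.continuousOn.mono hRS).aemeasurable hRm).sub_const p₁
  have hlower : ∀ y ∈ Ioo (-(s₀ + T)) (-s₀), ENNReal.ofReal c ≤
      ∫⁻ x in Ioo 0 Real.pi, ENNReal.ofReal (‖deriv h (x + y * Complex.I)‖ ^ 2) *
        g (h (x + y * Complex.I) - p₁) := by
    intro y hy
    set r : ℝ := Real.exp (-y) with hr
    have hrr : r₀ ≤ r := by
      rw [hr, ← Real.log_le_iff_le_exp hr₀p]
      linarith [hy.2]
    have hrp : 0 < r := Real.exp_pos _
    -- points of the two curves on the circle of radius `r`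
    have hpt : ∀ {γ : ℝ → ℂ}, (∀ x ∈ Ico (0:ℝ) 1, γ x ∈ Hp) → ∀ x, a₀ ≤ x → x < 1 →
        ‖γ x‖ = r → ∃ θ : ℝ, 0 < θ ∧ θ < Real.pi ∧ h (θ + y * Complex.I) = φ (γ x) := by
      intro γ hγ x hx0 hx1 hxr
      have hm : 0 < (γ x).im := hγ x ⟨ha0.trans hx0, hx1⟩
      have hne : γ x ≠ 0 := by
        intro h0
        rw [h0] at hm
        simp at hm
      refine ⟨Complex.arg (γ x), ?_, ?_, ?_⟩
      · have h1 : 0 ≤ Complex.arg (γ x) := Complex.arg_nonneg_iff.2 hm.le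
        rcases h1.eq_or_lt with h2 | h2
        · exfalso
          rw [eq_comm, Complex.arg_eq_zero_iff] at h2
          rw [h2.2] at hm
          exact lt_irrefl _ hm
        · exact h2
      · rw [Complex.arg_lt_pi_iff]
        right
        exact hm.ne'
      · rw [hh]
        simp only
        congr 1
        have e1 : Complex.I * ((Complex.arg (γ x) : ℂ) + y * Complex.I) =
            ((-y : ℝ) : ℂ) + Complex.arg (γ x) * Complex.I := by
          rw [mul_add, ← mul_assoc, mul_comm Complex.I (y : ℂ), mul_assoc (y : ℂ),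
            Complex.I_mul_I]
          push_cast
          ring
        rw [e1, Complex.exp_add, ← Complex.ofReal_exp, ← hr, ← hxr,
          Complex.norm_mul_exp_arg_mul_I]
    obtain ⟨x₁, hx₁, hx₁', hx₁r⟩ := tl_ivt hc₁ hn₁ ha0 ha1
      (((le_max_left _ _).trans (le_max_right _ _)).trans hrr)
    obtain ⟨x₂, hx₂, hx₂', hx₂r⟩ := tl_ivt hc₂ hn₂ ha0 ha1
      (((le_max_right _ _).trans (le_max_right _ _)).trans hrr)
    obtain ⟨θ₁, hθ₁, hθ₁', hθe₁⟩ := hpt hH₁ x₁ hx₁ hx₁' hx₁r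
    obtain ⟨θ₂, hθ₂, hθ₂', hθe₂⟩ := hpt hH₂ x₂ hx₂ hx₂' hx₂r
    have hline : ∀ x : ℝ, HasDerivAt (fun x : ℝ => (x : ℂ) + y * Complex.I) 1 x := by
      intro x
      simpa using (Complex.ofRealCLM.hasDerivAt (x := x)).add_const ((y : ℂ) * Complex.I)
    have hxS : ∀ x ∈ Ioo (0:ℝ) Real.pi, (x : ℂ) + y * Complex.I ∈ S := by
      intro x hx
      constructor
      · simpa using hx.1
      · simpa using hx.2
    exact tl_ray (u := fun x : ℝ => h (x + y * Complex.I) - p₁)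
      (u' := fun x : ℝ => deriv h (x + y * Complex.I)) (a := θ₁) (b := θ₂) hA0 hAB hθ₁ hθ₁'
      hθ₂ hθ₂'
      (by
        intro x hx
        have e1 := (hhd.differentiableAt (hSo.mem_nhds (hxS x hx))).hasDerivAt
        have e2 := (e1.comp_of_eq (h := fun x : ℝ => (x : ℂ) + y * Complex.I) x
          (hline x) rfl).sub_const p₁
        simpa using e2)
      (by
        refine hh'c.comp (f := fun x : ℝ => (x : ℂ) + y * Complex.I) ?_ ?_
        · exact (by fun_prop : Continuous fun x : ℝ => (x : ℂ) + y * Complex.I).continuousOn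
        · intro x hx
          exact hxS x hx)
      (by
        rw [hθe₁]
        exact hA1 x₁ hx₁ hx₁')
      (by
        rw [hθe₂]
        have e1 := hA2 x₂ hx₂ hx₂'
        have e2 : δ ≤ ‖φ (γ₂ x₂) - p₁‖ + ‖φ (γ₂ x₂) - p₂‖ := by
          rw [hδ]
          calc ‖p₁ - p₂‖ = ‖(φ (γ₂ x₂) - p₂) - (φ (γ₂ x₂) - p₁)‖ := by congr 1; ring
            _ ≤ ‖φ (γ₂ x₂) - p₂‖ + ‖φ (γ₂ x₂) - p₁‖ := norm_sub_le _ _
            _ = _ := add_comm _ _
        rw [hA] at e1
        rw [hB]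
        linarith)
  have hTc : 0 < T := by
    rw [hT]
    have : 0 ≤ L / c := by positivity
    linarith
  rw [hR, lintegral_rect hG] at hupper
  have hfin : ENNReal.ofReal (c * T) ≤ ENNReal.ofReal L := by
    refine le_trans ?_ hupper
    calc ENNReal.ofReal (c * T)
        = ∫⁻ _ in Ioo (-(s₀ + T)) (-s₀), ENNReal.ofReal c := by
          rw [setLIntegral_const, Real.volume_Ioo, ENNReal.ofReal_mul hc0.le]
          congr 2
          ring
      _ ≤ _ := setLIntegral_mono' measurableSet_Ioo hlower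
  rw [ENNReal.ofReal_le_ofReal_iff hL0] at hfin
  have : c * T = L + c := by rw [hT]; field_simp
  linarith

end Pool.Agent.BB.P
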