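import Pool.Agent.BB.P.CORE
import Pool.Agent.BB.P.STR

open Set Metric Filter Topology MeasureTheory

namespace Pool.Agent.BB.P

namespace PS

variable (s : PS)

/-- transfer to all components of the basin -/
theorem transfer {B : Set ℂ} (hB : IsOpen B) (hUB : s.b.U ⊆ B)
    (hBcl : ∀ z ∈ closure s.b.U, z ∈ B → z ∈ s.b.U)
    (hBcirc : ∀ p' ∉ B, ∀ t : ℝ, 0 < t → ∃ y : ℂ, ‖y - p'‖ = t ∧ y ∉ B) {z₀ : ℂ} (hz₀ : z₀ ∈ B)
    {G : ℂ → ℂ} (hG : Differentiable ℂ G) (hGne : ∃ x, deriv G x ≠ 0)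
    (hGB : ∀ x, G x ∈ B → x ∈ B) (hFB : ∀ n x, s.b.F^[n] x ∈ B → x ∈ B)
    (hGU : MapsTo G (connectedComponentIn B z₀) s.b.U) :
    1 < dimH (frontier (connectedComponentIn B z₀)) := by
  obtain ⟨Λ, hΛdim, hΛR, hΛO, hΛF⟩ := s.core
  set U' := connectedComponentIn B z₀ with hU'
  have hU'o : IsOpen U' := hB.connectedComponentIn
  have hU'B : U' ⊆ B := connectedComponentIn_subset _ _
  have hz₀U' : z₀ ∈ U' := mem_connectedComponentIn hz₀
  have hR := s.hR
  have hsub := s.closedBall_sub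
  -- Λ is disjoint from B
  have hΛB : ∀ x ∈ Λ, x ∉ B := by
    intro x hx hxB
    have hxU : x ∈ s.b.U := hBcl x (closure_mono (fun z hz => (s.O_sub hz).1) (hΛO hx)) hxB
    have hζ : s.b.ζ ∈ (closedBall s.p s.R)ᶜ := fun h => s.hζR (hsub h)
    obtain ⟨ε, hε, hεs⟩ := Metric.isOpen_iff.mp (isClosed_closedBall.isOpen_compl) _ hζ
    obtain ⟨n₀, hn₀⟩ := s.b.hunif {x} (by simpa using hxU) isCompact_singleton ε hε
    have h1 : ∀ᶠ m : ℕ in atTop, s.b.F^[m] x ∉ closedBall s.p s.R := by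
      filter_upwards [eventually_ge_atTop n₀] with m hm
      apply hεs
      rw [mem_ball, dist_eq_norm]
      exact hn₀ m hm x rfl
    exact hΛF x hx h1
  -- noncritical boundary point
  have hunc : ¬ (frontier U').Countable := by
    intro hc
    have hconn : IsPreconnected (frontier U')ᶜ :=
      (hc.isConnected_compl_of_one_lt_rank (by
        simp only [Complex.rank_real_complex, Nat.one_lt_ofNat])).isPreconnected
    have h1 : (frontier U')ᶜ ⊆ U' := by
      refine hconn.subset_left_of_subset_union hU'o (isClosed_closure (s := U')).isOpen_compl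
        (disjoint_compl_right_iff_subset.mpr subset_closure) ?_ ?_
      · intro z hz
        by_cases h : z ∈ U'
        · exact Or.inl h
        · right
          intro hcl
          exact hz ⟨hcl, by rwa [hU'o.interior_eq]⟩
      · refine ⟨z₀, ?_, hz₀U'⟩
        rintro ⟨-, h⟩
        rw [hU'o.interior_eq] at h
        exact h hz₀U'
    have h2 : Λ ⊆ frontier U' := by
      intro x hx
      by_contra hcon
      exact hΛB x hx (hU'B (h1 hcon))
    have h3 : dimH Λ = 0 := (hc.mono h2).dimH_zero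
    rw [h3] at hΛdim
    exact absurd hΛdim (by simp)
  obtain ⟨x₀, hx₀⟩ := hGne
  obtain ⟨x', hx'F, hx'd⟩ : ∃ x' ∈ frontier U', deriv G x' ≠ 0 := by
    by_contra hcon
    push Not at hcon
    have hdG : Differentiable ℂ (deriv G) := hG.deriv
    exact hunc ((countable_zeros hdG hx₀).mono fun z hz => hcon z hz)
  have hx'U : x' ∉ U' := by
    have := hx'F.2
    rwa [hU'o.interior_eq] at this
  have hx'B : x' ∉ B := fun h => hx'U (closure_comp hB hx'F.1 h)
  -- local inverse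
  have hst := ((hG.analyticAt x').hasStrictDerivAt).hasStrictFDerivAt_equiv hx'd
  set e := hst.toOpenPartialHomeomorph G with he
  have hes : x' ∈ e.source := hst.mem_toOpenPartialHomeomorph_source
  have hecoe : ∀ x, e x = G x := fun x => by rw [he]; rfl
  obtain ⟨ε, hε, hεs⟩ : ∃ ε > 0, closedBall x' ε ⊆ e.source :=
    nhds_basis_closedBall.mem_iff.mp (e.open_source.mem_nhds hes)
  set K1 : Set ℂ := G '' closedBall x' ε with hK1
  have hK1c : IsCompact K1 := (isCompact_closedBall _ _).image hG.continuous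
  have hK1t : K1 ⊆ e.target := by
    rintro _ ⟨x, hx, rfl⟩
    rw [← hecoe]
    exact e.map_source (hεs hx)
  obtain ⟨δ₀, hδ₀, hδ₀t⟩ := hK1c.exists_cthickening_subset_open e.open_target hK1t
  -- the exceptional set
  set N : Set ℂ := ⋃ n : ℕ, {x | s.b.F^[n] (G x) = s.b.ζ} with hN
  have hNc : N.Countable := by
    refine countable_iUnion fun n => ?_
    have hGfib : ∀ w : ℂ, {x | G x = w}.Countable := by
      intro w
      have hne : ∃ x, G x - w ≠ 0 := by
        by_contra hcon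
        push Not at hcon
        have hc : G = fun _ => w := funext fun x => sub_eq_zero.mp (hcon x)
        apply hx₀
        rw [hc]
        exact deriv_const _ _
      obtain ⟨x, hx⟩ := hne
      have h2 := countable_zeros (g := fun y => G y - w) (hG.sub_const w) hx
      refine h2.mono ?_
      intro y hy
      have hy' : G y = w := hy
      show G y - w = 0
      rw [hy', sub_self]
    have h1 : {x | s.b.F^[n] (G x) = s.b.ζ} ⊆
        ⋃ w ∈ {y | s.b.F^[n] y = s.b.ζ}, {x | G x = w} := by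
      intro x hx
      exact mem_biUnion (show G x ∈ {y | s.b.F^[n] y = s.b.ζ} from hx) rfl
    exact ((s.b.preim_countable n s.b.ζ).biUnion fun w _ => hGfib w).mono h1
  -- path in U'
  obtain ⟨κ', hκ'c, hκ'U, hκ'b, hκ'1, hκ'N⟩ := straight hU'o hx'F.1
    (fun t ht => by
      obtain ⟨y, hy, hyB⟩ := hBcirc x' hx'B t ht
      exact ⟨y, hy, fun h => hyB (hU'B h)⟩) hNc hε
  have hκ'cl : κ' 1 ∈ closure U' := by
    have h1 : ContinuousWithinAt κ' (Ico 0 1) 1 := hκ'c.continuousWithinAt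
    have h2 : (1:ℝ) ∈ closure (Ico (0:ℝ) 1) := by
      rw [closure_Ico (by norm_num)]; exact ⟨by norm_num, le_rfl⟩
    refine closure_mono ?_ (h1.mem_closure_image h2)
    rintro _ ⟨x, hx, rfl⟩
    exact hκ'U x hx
  have hκ'B : κ' 1 ∉ B := fun h => hκ'1 (closure_comp hB hκ'cl h)
  set κ : ℝ → ℂ := fun x => G (κ' x) with hκ
  have hκc : Continuous κ := hG.continuous.comp hκ'c
  have hκU : ∀ x ∈ Ico (0:ℝ) 1, κ x ∈ s.b.U := fun x hx => hGU (hκ'U x hx)
  have hκ0 : κ 0 ∈ s.b.U := hκU 0 ⟨le_rfl, by norm_num⟩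
  have hκ1 : κ 1 ∉ s.b.U := fun h => hκ'B (hGB _ (hUB h))
  have hκK : ∀ x ∈ Icc (0:ℝ) 1, κ x ∈ K1 := fun x hx =>
    ⟨_, ball_subset_closedBall (hκ'b _ hx), rfl⟩
  have hκζ : ∀ n : ℕ, ∀ x ∈ Icc (0:ℝ) 1, s.b.F^[n] (κ x) ≠ s.b.ζ := by
    intro n x hx
    rcases eq_or_lt_of_le hx.2 with h | h
    · rw [h]
      intro h'
      exact hκ'N (mem_iUnion.mpr ⟨n, h'⟩)
    · intro h'
      have h3 := s.b.iter_mem (hκU x ⟨hx.1, h⟩) n
      rw [h'] at h3
      exact s.b.hζU h3
  -- constants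
  obtain ⟨C, hC1, hC⟩ := s.cell
  obtain ⟨Cd, hCd1, hbr⟩ := s.branch
  have hC0 : 0 < C := by linarith
  have hCd0 : 0 < Cd := by linarith
  set δ : ℝ := δ₀ / (C * (2 * C + 2 * s.R * Cd)) with hδ
  have hden : 0 < C * (2 * C + 2 * s.R * Cd) := by positivity
  have hδpos : 0 < δ := by positivity
  obtain ⟨n₀, hn₀⟩ := s.small_dist hK1c hδpos
  obtain ⟨n₁, hn₁⟩ := s.V_union hκ0
  set n := max n₀ n₁ with hn
  obtain ⟨t, ht, -, σ, j, θ, hθ, htψ⟩ := s.k.exit (n := n) hκc.continuousOn hκ0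
    (hn₁.2 n (le_max_right _ _)) hκ1 (hκζ n)
  have htIo : t ∈ Ico (0:ℝ) 1 := ⟨ht.1.le, ht.2⟩
  have htI : t ∈ Icc (0:ℝ) 1 := ⟨ht.1.le, ht.2.le⟩
  have hκtU : κ t ∈ s.b.U := hκU t htIo
  have hinf := hn₀ n (le_max_left _ _) (κ t) hκtU (hκK t htI) σ j θ hθ htψ
  obtain ⟨w, hwU, hwF', hwsz, Z, hZ, hZU, htZ, hwZ, hZb⟩ := hC n (κ t) σ j θ hκtU hθ htψ
  have hwF : s.b.F^[n + j] w = s.u₀ := s.F_add hwF'
  have hszpos := s.sz_pos hwU hwF
  have hsz : s.sz (n + j) w < C * δ := hwsz.trans_lt (by gcongr)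
  have hδeq : (2 * C + 2 * s.R * Cd) * (C * δ) = δ₀ := by
    rw [hδ]; field_simp
  have hbound : (2 * C + 2 * s.R * Cd) * s.sz (n + j) w ≤ δ₀ := by
    rw [← hδeq]; gcongr
  have htw : ‖κ t - w‖ ≤ C * s.sz (n + j) w := by
    have := hZb htZ
    rwa [mem_closedBall, dist_eq_norm] at this
  have hthick : ∀ y : ℂ, ‖y - κ t‖ ≤ δ₀ → y ∈ e.target := by
    intro y hy
    apply hδ₀t
    exact mem_cthickening_of_dist_le y (κ t) δ₀ K1 (hκK t htI) (by rwa [dist_eq_norm])
  have hZt : Z ⊆ e.target := by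
    intro y hy
    apply hthick
    have h2 : ‖y - w‖ ≤ C * s.sz (n + j) w := by
      have := hZb hy
      rwa [mem_closedBall, dist_eq_norm] at this
    have h3 : ‖y - κ t‖ ≤ ‖y - w‖ + ‖w - κ t‖ := norm_sub_le_norm_sub_add_norm_sub _ _ _
    rw [norm_sub_rev w] at h3
    have h4 : 0 ≤ 2 * s.R * Cd * s.sz (n + j) w := by positivity
    nlinarith
  -- the point w' in U'
  have hκ't : κ' t ∈ U' := hκ'U t htIo
  have hsymm : e.symm (κ t) = κ' t := by
    have h1 : κ t = e (κ' t) := by rw [hecoe]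
    rw [h1]
    exact e.left_inv (hεs (ball_subset_closedBall (hκ'b _ htI)))
  have hZ' : e.symm '' Z ⊆ U' := by
    have h1 : IsPreconnected (e.symm '' Z) :=
      hZ.image _ (e.continuousOn_symm.mono hZt)
    have h2 : e.symm '' Z ⊆ B := by
      rintro _ ⟨y, hy, rfl⟩
      apply hGB
      rw [← hecoe, e.right_inv (hZt hy)]
      exact hUB (hZU hy)
    have h3 := h1.subset_connectedComponentIn (x := κ' t) ⟨κ t, htZ, hsymm⟩ h2
    have h4 : U' = connectedComponentIn B (κ' t) := connectedComponentIn_eq hκ't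
    rw [h4]; exact h3
  obtain ⟨h, hd, hhe, h0, hinj, hdist, -⟩ := hbr (n + j) w hwF
  have hht : ∀ x ∈ closedBall s.p s.R, h x ∈ e.target := by
    intro x hx
    apply hthick
    have h1 := (hdist x hx s.u₀ (ball_subset_closedBall s.u₀_ball)).1
    rw [h0] at h1
    have h2 : ‖x - s.u₀‖ ≤ 2 * s.R := by
      rw [← dist_eq_norm]
      have h3 := dist_triangle_right x s.u₀ s.p
      have h4 := mem_closedBall.mp hx
      have h5 := mem_ball.mp s.u₀_ball
      linarith
    have h3 : ‖h x - w‖ ≤ Cd * s.sz (n + j) w * (2 * s.R) := h1.trans (by gcongr)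
    have h4 : ‖h x - κ t‖ ≤ ‖h x - w‖ + ‖w - κ t‖ := norm_sub_le_norm_sub_add_norm_sub _ _ _
    rw [norm_sub_rev w] at h4
    have h5 : 0 ≤ C * s.sz (n + j) w := by positivity
    nlinarith
  set Θ : ℂ → ℂ := fun x => e.symm (h x) with hΘ
  have hΘc : ContinuousOn Θ (closedBall s.p s.R) :=
    e.continuousOn_symm.comp (hd.continuousOn.mono hsub) hht
  have hGΘ : ∀ x ∈ closedBall s.p s.R, s.b.F^[n + j] (G (Θ x)) = x := by
    intro x hx
    rw [hΘ, ← hecoe]
    simp only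
    rw [e.right_inv (hht x hx), hhe x (hsub hx)]
  have hOR : s.O ⊆ closedBall s.p s.R := fun x hx => ball_subset_closedBall (s.O_sub hx).2
  have hΘO : Θ '' s.O ⊆ U' := by
    have h1 : IsPreconnected (Θ '' s.O) := s.O_preconn.image _ (hΘc.mono hOR)
    have h2 : Θ '' s.O ⊆ B := by
      rintro _ ⟨y, hy, rfl⟩
      apply hGB
      apply hFB (n + j)
      rw [hGΘ y (hOR hy)]
      exact hUB (s.O_sub hy).1
    have hwmem : e.symm w ∈ U' := hZ' ⟨w, hwZ, rfl⟩
    have h3 := h1.subset_connectedComponentIn (x := e.symm w)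
      ⟨s.u₀, s.u₀_O, by simp only [hΘ]; rw [h0]⟩ h2
    have h4 : U' = connectedComponentIn B (e.symm w) := connectedComponentIn_eq hwmem
    rw [h4]; exact h3
  have hΘΛ : Θ '' Λ ⊆ frontier U' := by
    rintro _ ⟨x, hx, rfl⟩
    refine ⟨?_, ?_⟩
    · have h1 : ContinuousWithinAt Θ s.O x := (hΘc x (hΛR hx)).mono hOR
      exact closure_mono hΘO (h1.mem_closure_image (hΛO hx))
    · rw [hU'o.interior_eq]
      intro hcon
      have h2 : G (Θ x) ∈ s.b.U := hGU hcon
      have h3 : s.b.F^[n + j] (G (Θ x)) ∈ s.b.U := s.b.iter_mem h2 (n + j)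
      rw [hGΘ x (hΛR hx)] at h3
      exact hΛB x hx (hUB h3)
  have hdimΘ : dimH Λ ≤ dimH (Θ '' Λ) := by
    have h1 : Λ = (fun x => s.b.F^[n + j] (G x)) '' (Θ '' Λ) := by
      rw [image_image]
      ext x
      constructor
      · intro hx; exact ⟨x, hx, hGΘ x (hΛR hx)⟩
      · rintro ⟨y, hy, hyx⟩
        have hyx' : s.b.F^[n + j] (G (Θ y)) = x := hyx
        rw [hGΘ y (hΛR hy)] at hyx'
        rw [← hyx']; exact hy
    have h2 : Differentiable ℂ (fun x => s.b.F^[n + j] (G x)) := (s.b.iter_diff (n + j)).comp hG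
    have h3 : ContDiff ℂ 1 (fun x => s.b.F^[n + j] (G x)) := h2.contDiff
    have h4 : ContDiffOn ℝ 1 (fun x => s.b.F^[n + j] (G x)) univ :=
      (h3.restrict_scalars ℝ).contDiffOn
    calc dimH Λ = dimH ((fun x => s.b.F^[n + j] (G x)) '' (Θ '' Λ)) := by rw [← h1]
      _ ≤ dimH (Θ '' Λ) := h4.dimH_image_le convex_univ (subset_univ _)
  exact hΛdim.trans_le (hdimΘ.trans (dimH_mono hΘΛ))

end PS

end Pool.Agent.BB.P
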