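import Pool.Agent.BB.P.Basic

open Set Metric Filter Topology MeasureTheory
open scoped ENNReal

namespace Pool.Agent.BB.P

/-- vertical tails -/
theorem vert_tail : ∃ M : ℝ, 2 ≤ M ∧ ∀ (φ : ℂ → ℂ) (p z₀ : ℂ), DifferentiableOn ℂ φ Hp →
    InjOn φ Hp → p ∉ φ '' Hp → z₀ ∈ Hp → ∃ S : Set ℝ, 0 < volume S ∧
      ∀ x ∈ S, |x - z₀.re| < z₀.im / 2 ∧ ∀ y : ℝ, 0 < y → y ≤ z₀.im →
        ‖φ (x + y * Complex.I) - p‖ < M * ‖φ z₀ - p‖ := by
  set E₀ : ℝ := Real.exp (32 * (1 / 2) / (1 - 1 / 2)) with hE₀
  have hE₀1 : 1 ≤ E₀ := Real.one_le_exp (by norm_num)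
  set L : ℝ := 7 with hL
  have hexpL : (2:ℝ) ≤ Real.exp L := by
    have := Real.add_one_le_exp L
    rw [hL] at this ⊢
    linarith
  set M : ℝ := E₀ * Real.exp L with hM
  refine ⟨M, by rw [hM]; nlinarith, ?_⟩
  intro φ p z₀ hd hi hp hz₀
  have hH : 0 < z₀.im := hz₀
  set H : ℝ := z₀.im with hHdef
  set d := ‖φ z₀ - p‖ with hddef
  have hd0 : 0 < d := by
    rw [hddef, norm_pos_iff, sub_ne_zero]
    exact fun e => hp ⟨_, hz₀, e⟩
  refine ⟨{x : ℝ | |x - z₀.re| < H / 2 ∧ ∀ y : ℝ, 0 < y → y ≤ H →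
    ‖φ (x + y * Complex.I) - p‖ < M * d}, ?_, fun x hx => hx⟩
  by_contra hcon
  have hvol : volume {x : ℝ | |x - z₀.re| < H / 2 ∧ ∀ y : ℝ, 0 < y → y ≤ H →
    ‖φ (x + y * Complex.I) - p‖ < M * d} = 0 := by
    rwa [pos_iff_ne_zero, not_not] at hcon
  have hae := measure_eq_zero_iff_ae_notMem.mp hvol
  -- near the base point
  have hballs : ball z₀ H ⊆ Hp := by
    intro w hw
    rw [mem_ball, dist_eq_norm] at hw
    have h1 := Complex.abs_im_le_norm (w - z₀)
    rw [Complex.sub_im] at h1
    have h2 := abs_lt.mp (lt_of_le_of_lt h1 hw)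
    change 0 < w.im
    linarith [h2.1]
  have hnear : ∀ x : ℝ, |x - z₀.re| < H / 2 → ‖φ (x + H * Complex.I) - p‖ ≤ E₀ * d := by
    intro x hx
    have hw : (x : ℂ) + H * Complex.I ∈ closedBall z₀ (1 / 2 * H) := by
      rw [mem_closedBall, dist_eq_norm]
      have : (x : ℂ) + H * Complex.I - z₀ = ((x - z₀.re : ℝ) : ℂ) := by
        apply Complex.ext
        · simp
        · simp [hHdef]
      rw [this, Complex.norm_real, Real.norm_eq_abs]
      linarith
    have h1 := koebe_gronwall (θ := 1 / 2) (by norm_num) hH (hd.mono hballs) (hi.mono hballs)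
      (ω := p) (fun hc => hp (image_mono hballs hc)) (z := z₀) (w := (x : ℂ) + H * Complex.I)
      (mem_closedBall_self (by positivity)) hw
    rw [mul_comm E₀ d]
    exact h1
  -- rotated coordinates
  set h : ℂ → ℂ := fun ξ => φ (Complex.I * H - Complex.I * ξ) with hh
  have hmem : ∀ ξ : ℂ, ξ.re < H → Complex.I * H - Complex.I * ξ ∈ Hp := by
    intro ξ hξ
    change 0 < (Complex.I * H - Complex.I * ξ).im
    simp
    exact hξ
  have hhd : ∀ ξ : ℂ, ξ.re < H →
      HasDerivAt h (deriv φ (Complex.I * H - Complex.I * ξ) * (-Complex.I)) ξ := by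
    intro ξ hξ
    have e1 := (hd.differentiableAt (isOpen_Hp.mem_nhds (hmem ξ hξ))).hasDerivAt
    have e2 : HasDerivAt (fun ξ : ℂ => Complex.I * H - Complex.I * ξ) (-Complex.I) ξ := by
      simpa using ((hasDerivAt_id ξ).const_mul Complex.I).const_sub (Complex.I * H)
    exact e1.comp ξ e2
  have hopen : IsOpen {ξ : ℂ | ξ.re < H} := isOpen_lt Complex.continuous_re continuous_const
  have hhon : DifferentiableOn ℂ h {ξ : ℂ | ξ.re < H} := fun ξ hξ =>
    (hhd ξ hξ).differentiableAt.differentiableWithinAt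
  have hh'c : ContinuousOn (deriv h) {ξ : ℂ | ξ.re < H} := (hhon.deriv hopen).continuousOn
  set R : Set ℂ := Ioo 0 H ×ℂ Ioo (z₀.re - H / 2) (z₀.re + H / 2) with hR
  have hRm : MeasurableSet R := by
    rw [hR, Complex.reProdIm]
    exact (measurableSet_Ioo.preimage Complex.measurable_re).inter
      (measurableSet_Ioo.preimage Complex.measurable_im)
  have hRneg : R ⊆ {ξ : ℂ | ξ.re < H} := fun ξ hξ => hξ.1.2
  have hinj : InjOn h R := by
    intro x hx y hy e
    have e1 : Complex.I * H - Complex.I * x = Complex.I * H - Complex.I * y :=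
      hi (hmem x (hRneg hx)) (hmem y (hRneg hy)) e
    have e2 : Complex.I * x = Complex.I * y := sub_right_injective e1
    exact mul_left_cancel₀ Complex.I_ne_zero e2
  set g : ℂ → ℝ≥0∞ := indicator {w : ℂ | E₀ * d ≤ ‖w‖ ∧ ‖w‖ ≤ M * d}
    (fun w => ENNReal.ofReal (1 / ‖w‖ ^ 2)) with hg
  have hA0 : 0 < E₀ * d := by positivity
  have hAB : E₀ * d < M * d := by
    apply mul_lt_mul_of_pos_right _ hd0
    rw [hM]; nlinarith
  have hBA : M * d / (E₀ * d) = Real.exp L := by rw [hM]; field_simp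
  have hupper : ∫⁻ ξ in R, ENNReal.ofReal (‖deriv h ξ‖ ^ 2) * g (h ξ - p) ≤
      ENNReal.ofReal (2 * Real.pi * L) := by
    rw [← lintegral_image_holo hRm (fun ξ hξ => (hhd ξ (hRneg hξ)).differentiableAt) hinj
      (fun w => g (w - p))]
    refine (setLIntegral_le_lintegral _ _).trans ?_
    have := lintegral_ring p (A := E₀ * d) (B := M * d) hA0 hAB
    rwa [hBA, Real.log_exp] at this
  have hgm : Measurable g := by
    rw [hg]
    apply Measurable.indicator
    · fun_prop
    · exact (measurableSet_le measurable_const measurable_norm).inter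
        (measurableSet_le measurable_norm measurable_const)
  have hG : AEMeasurable (fun ξ => ENNReal.ofReal (‖deriv h ξ‖ ^ 2) * g (h ξ - p))
      (volume.restrict R) := by
    apply AEMeasurable.mul
    · exact (((measurable_deriv h).norm.pow_const 2).ennreal_ofReal).aemeasurable
    · apply hgm.comp_aemeasurable
      exact ((hhon.continuousOn.mono hRneg).aemeasurable hRm).sub_const p
  have hval : ∀ (s u : ℝ), h (s + u * Complex.I) = φ (u + (H - s : ℝ) * Complex.I) := by
    intro s u
    rw [hh]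
    simp only
    congr 1
    push_cast
    linear_combination (-(u : ℂ)) * Complex.I_mul_I
  have hlower : ∀ u : ℝ, u ∈ Ioo (z₀.re - H / 2) (z₀.re + H / 2) →
      u ∉ {x : ℝ | |x - z₀.re| < H / 2 ∧ ∀ y : ℝ, 0 < y → y ≤ H →
        ‖φ (x + y * Complex.I) - p‖ < M * d} → ENNReal.ofReal (L ^ 2 / H) ≤
      ∫⁻ x in Ioo 0 H, ENNReal.ofReal (‖deriv h (x + u * Complex.I)‖ ^ 2) *
        g (h (x + u * Complex.I) - p) := by
    intro u hu hnS
    have habs : |u - z₀.re| < H / 2 := by rw [abs_lt]; constructor <;> linarith [hu.1, hu.2]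
    have hex : ∃ y : ℝ, 0 < y ∧ y ≤ H ∧ M * d ≤ ‖φ (u + y * Complex.I) - p‖ := by
      by_contra hc
      push Not at hc
      exact hnS ⟨habs, fun y h1 h2 => hc y h1 h2⟩
    obtain ⟨y, hy0, hyH, hyM⟩ := hex
    have hre : ∀ x : ℝ, x ≤ H - y → ((x : ℂ) + u * Complex.I).re < H := by
      intro x hx
      simp
      linarith
    have hline : ∀ x : ℝ, HasDerivAt (fun x : ℝ => (x : ℂ) + u * Complex.I) 1 x := by
      intro x
      simpa using (Complex.ofRealCLM.hasDerivAt (x := x)).add_const ((u : ℂ) * Complex.I)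
    have hray := ray_bound (h := fun x : ℝ => h (x + u * Complex.I) - p)
      (h' := fun x : ℝ => deriv h (x + u * Complex.I)) (a := 0) (b := H - y) (A := E₀ * d)
      (B := M * d) (ℓ := H) (by linarith) hA0 hAB
      (by
        intro x hx
        have e1 := (hhd _ (hre x hx.2)).differentiableAt.hasDerivAt
        have e2 := (e1.comp_of_eq (h := fun x : ℝ => (x : ℂ) + u * Complex.I) x
          (hline x) rfl).sub_const p
        simpa using e2)
      (by
        refine hh'c.comp (f := fun x : ℝ => (x : ℂ) + u * Complex.I) ?_ ?_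
        · exact (by fun_prop : Continuous fun x : ℝ => (x : ℂ) + u * Complex.I).continuousOn
        · intro x hx
          exact hre x hx.2)
      (by
        intro x hx
        rw [sub_ne_zero]
        exact fun e => hp ⟨_, hmem _ (hre x hx.2), e⟩)
      (by
        rw [hval, sub_zero]
        exact hnear u habs)
      (by
        rw [hval, sub_sub_cancel]
        exact hyM)
      (by linarith) hH
    rw [hBA, Real.log_exp] at hray
    refine hray.trans ?_
    exact lintegral_mono_set (Ioo_subset_Ioo_right (by linarith))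
  rw [hR, lintegral_rect hG] at hupper
  have hfinal : ENNReal.ofReal (L ^ 2 / H) * ENNReal.ofReal H ≤
      ENNReal.ofReal (2 * Real.pi * L) := by
    calc ENNReal.ofReal (L ^ 2 / H) * ENNReal.ofReal H
        = ∫⁻ u in Ioo (z₀.re - H / 2) (z₀.re + H / 2), ENNReal.ofReal (L ^ 2 / H) := by
          rw [setLIntegral_const, Real.volume_Ioo]
          congr 2
          ring
      _ ≤ ∫⁻ u in Ioo (z₀.re - H / 2) (z₀.re + H / 2), ∫⁻ x in Ioo 0 H,
            ENNReal.ofReal (‖deriv h (x + u * Complex.I)‖ ^ 2) *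
              g (h (x + u * Complex.I) - p) := by
          apply lintegral_mono_ae
          rw [ae_restrict_iff' measurableSet_Ioo]
          filter_upwards [hae] with u hu huI
          exact hlower u huI hu
      _ ≤ _ := hupper
  rw [← ENNReal.ofReal_mul (by positivity), ENNReal.ofReal_le_ofReal_iff (by positivity),
    div_mul_cancel₀ _ hH.ne'] at hfinal
  have hpi := Real.pi_lt_d2
  rw [hL] at hfinal
  linarith

end Pool.Agent.BB.P
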